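import Pool.Agent.P.MP_e4ac67_pr.V.Tube
import Pool.Agent.P.MP_e4ac67_pr.A.Blk

/-! Geometry of the tube. -/

namespace Pool.Agent.P.MP_e4ac67_pr.Gr
namespace Grid
variable {G : Grid} {z b f v : Pt}

theorem rp_spec (n : ℕ) (y : ℤ) : G.A n (G.rp n y - 1) ≤ y ∧ y < G.A n (G.rp n y) ∧
    G.lp n y ≤ G.rp n y ∧ G.rp n y ≤ G.lp n y + 1 := by
  have h1 := G.lp_spec n y
  have h2 := G.A_pred n (G.lp n y + 1)
  unfold rp
  split_ifs with h <;> simp only [add_sub_cancel_right] at h2 ⊢ <;> omega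

theorem A_lt_iff {n : ℕ} {x y : ℤ} : G.A n x < G.A n y ↔ x < y := (G.A_lt n).lt_iff_lt

theorem lp_le {n : ℕ} {x y : ℤ} (h : y ≤ G.A n x) : G.lp n y ≤ x := by
  have := A_lt_iff.1 ((G.lp_spec n y).1.trans_le h); omega

theorem lt_lp {n : ℕ} {x y : ℤ} (h : G.A n x < y) : x < G.lp n y :=
  A_lt_iff.1 (h.trans_le (G.lp_spec n y).2)

theorem le_rp {n : ℕ} {x y : ℤ} (h : G.A n (x - 1) ≤ y) : x ≤ G.rp n y := by
  have := A_lt_iff.1 (h.trans_lt (rp_spec n y).2.1); omega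

theorem rp_le {n : ℕ} {x y : ℤ} (h : y < G.A n x) : G.rp n y ≤ x := by
  have := A_lt_iff.1 ((rp_spec n y).1.trans_lt h); omega

theorem ch_lp (n : ℕ) (y : ℤ) : G.Ch n (G.lp n y) y := ⟨(G.lp_spec n y).1.le, (G.lp_spec n y).2⟩

theorem ch_rp (n : ℕ) (y : ℤ) : G.Ch n (G.rp n y) y := ⟨(rp_spec n y).1, (rp_spec n y).2.1.le⟩

theorem an_ar (z : Pt) (i : ℕ) : G.an z i ≤ G.ar z i ∧ G.ar z i ≤ G.an z i + 1 := by
  induction i with
  | zero => simp [an, ar]
  | succ i ih =>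
    simp only [an, ar]
    generalize z.1 - (i + 1) = n
    have h1 := G.lp_spec n (G.an z i)
    have h2 := rp_spec (G := G) n (G.ar z i)
    have h3 := G.gap2 n (G.lp n (G.an z i) + 1)
    simp only [add_sub_cancel_right] at h3
    exact ⟨le_rp (by omega), rp_le (by omega)⟩

theorem Anc.ex (h : G.Anc z v) : ∃ i, v.1 + i = z.1 ∧ G.an z i ≤ v.2 ∧ v.2 ≤ G.ar z i := by
  induction h with
  | base => exact ⟨0, rfl, le_rfl, le_rfl⟩
  | @step v u _ e hc ih =>
    obtain ⟨i, h1, h2, h3⟩ := ih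
    refine ⟨i + 1, by omega, ?_⟩
    simp only [an, ar, show z.1 - (i + 1) = u.1 by omega]
    exact ⟨lp_le (h2.trans hc.2), le_rp (hc.1.trans h3)⟩

theorem sR_pos (z : Pt) (i : ℕ) : 1 ≤ G.sR z i := by
  have := (rp_spec (G := G) (z.1 - (i + 1)) (G.ar z i)).2.1
  simp only [sR, ar]; omega

theorem sL_pos (z : Pt) (i : ℕ) : 1 ≤ G.sL z i := by
  have := (G.lp_spec (z.1 - (i + 1)) (G.an z i)).1
  simp only [sL, an]; omega

theorem lt1_cases (z : Pt) : (G.sL z 0 = 1 ∧ G.lt1 z = G.nb z 1) ∨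
    (G.sL z 0 ≠ 1 ∧ G.lt1 z = G.nb z (G.gap z + 3)) := by
  rw [nb_one, nb_rt, lt1]
  split_ifs with h <;> simp [h]

theorem lt1_lev (z : Pt) : (G.lt1 z).1 = z.1 ∧ G.lt1 z ≠ z := by
  unfold lt1
  split_ifs <;> simp [Prod.ext_iff]

theorem tubeOK (G : Grid) : G.TubeOK G.Tb c4 where
  cp _ := Or.inr rfl
  anc z v h e := by
    obtain ⟨i, h1, h2⟩ := h.ex
    refine Or.inl ⟨i, Nat.pos_of_ne_zero ?_, h1, Or.inl h2⟩
    rintro rfl
    exact e (Prod.ext h1 (le_antisymm h2.2 h2.1))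
  lev z v h := by
    rcases h with ⟨i, h1, h2, -⟩ | ⟨-, rfl⟩
    · exact ⟨by omega, by rintro rfl; omega⟩
    · exact ⟨(lt1_lev z).1.le, (lt1_lev z).2⟩
  two z h := by
    rcases lt1_cases (G := G) z with ⟨-, e⟩ | ⟨-, e⟩
    · exact Or.inl (Or.inr ⟨h, e.symm⟩)
    · exact Or.inr (Or.inr ⟨h, e.symm⟩)

/-- the two ends of the ancestors one level above -/
theorem an_one (hz : 1 ≤ z.1) : G.an z 1 = G.lp (z.1 - 1) z.2 ∧ G.ar z 1 = G.an z 1 + G.tau z := by
  obtain ⟨n, x⟩ := z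
  obtain ⟨n, rfl⟩ : ∃ m, n = m + 1 := ⟨n - 1, by simp at hz; omega⟩
  have := G.tau_succ n x
  simp only [an, ar, rp, zero_add, Nat.add_sub_cancel, true_and]
  split_ifs <;> omega

theorem tb_par {n : ℕ} {y : ℤ} (h : Wz G.Tb z (n + 1, y))
    (h2 : y = G.A n (G.lp n y) → G.tau (n, G.lp n y) = 1) : G.Tb z (n, G.lp n y) := by
  have key : ∀ i, n + 1 + i = z.1 → G.sL z i = 1 → y = G.an z i - 1 →
      G.Tb z (n, G.lp n y) := fun i e1 e2 e3 => by
    have e4 : z.1 - (i + 1) = n := by omega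
    simp only [sL, e4] at e2
    have e5 : G.lp n y = G.an z (i + 1) - 1 := G.lp_eq (by
      have := G.A_pred n (G.an z (i + 1) - 1); omega) (by omega)
    have e6 := h2 (by rw [e5]; omega)
    obtain ⟨m, rfl⟩ : ∃ m, n = m + 1 := by
      cases n with
      | zero => simp [tau, Two] at e6
      | succ m => exact ⟨m, rfl⟩
    have e7 := G.tau_succ m (G.lp (m + 1) y)
    have e8 : G.an z (i + 1 + 1) = G.lp m (G.an z (i + 1)) := by
      rw [an, show z.1 - (i + 1 + 1) = m by omega]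
    have e9 := G.gap2 m (G.lp m (G.lp (m + 1) y) + 1)
    simp only [add_sub_cancel_right] at e9
    have e10 : G.lp m (G.an z (i + 1)) = G.lp m (G.lp (m + 1) y) + 1 :=
      G.lp_eq (by simp only [add_sub_cancel_right]; omega) (by omega)
    refine Or.inl ⟨i + 1, by omega, by simp only; omega, Or.inr (Or.inr ⟨e5, by omega, ?_,
      Or.inr (by simp only [sL, add_tsub_cancel_right, e4]; omega)⟩)⟩
    simp only [sL, show z.1 - (i + 1 + 1) = m by omega, e8, e10, add_sub_cancel_right]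
    omega
  have anc : ∀ i, n + 1 + i = z.1 → G.an z i ≤ y → y ≤ G.A n (G.ar z (i + 1)) →
      G.Tb z (n, G.lp n y) := fun i e1 e2 e3 => by
    refine Or.inl ⟨i + 1, by omega, by simp only; omega, Or.inl ⟨?_, lp_le e3⟩⟩
    rw [an, show z.1 - (i + 1) = n by omega]
    exact lp_le (e2.trans (G.lp_spec n y).2)
  have pos : ∀ i, n + 1 + i = z.1 → G.ar z i + 1 ≤ G.A n (G.ar z (i + 1)) := fun i e => by
    have := sR_pos (G := G) z i
    simp only [sR, show z.1 - (i + 1) = n by omega] at this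
    omega
  rcases h with rfl | ⟨i, -, e, h | h | h⟩ | ⟨-, h⟩
  · exact anc 0 rfl le_rfl (by have := pos 0 rfl; simp only [ar] at this ⊢; omega)
  · exact anc i e h.1 (by have := pos i e; have := h.2; simp only at this; omega)
  · exact anc i e (by have := (an_ar (G := G) z i).1; have := h.1; simp only at this; omega)
      (by have := pos i e; have := h.1; simp only at this; omega)
  · exact key i e h.2.2.1 h.1
  · unfold lt1 at h
    split_ifs at h with e <;> rw [Prod.mk.injEq] at h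
    · exact key 0 h.1 e h.2
    · exact anc 0 h.1 (by simp only [an]; omega)
        (by have := pos 0 h.1; simp only [ar] at this ⊢; omega)

/-- the parent of the bonus vertex and of its laterals follows them into a tube -/
theorem tb_of_nb {j : ℕ} (hd : 7 < G.dg v) (h3 : 3 ≤ j) (h5 : j ≤ 5) (h : Wz G.Tb z (G.nb v j)) :
    G.Tb z v := by
  have h1 := G.tau_le v
  have h2 := G.gap_eq v
  unfold dg at hd
  rw [nb_ch _ _ (by omega) (by omega)] at h
  have e : G.lp v.1 (G.A v.1 (v.2 - 1) + j - 2) = v.2 := G.lp_eq (by omega) (by omega)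
  have := tb_par h (by rw [e]; intro; show G.tau v = 1; omega)
  rwa [e] at this

/-- the two extreme chains of ancestors -/
noncomputable def cn (G : Grid) (z : Pt) (s : Bool) (i : ℕ) : Pt :=
  (z.1 - i, if s then G.ar z i else G.an z i)

theorem cn_tb (s : Bool) {i : ℕ} (h1 : 1 ≤ i) (h2 : i ≤ z.1) : G.Tb z (G.cn z s i) := by
  have := an_ar (G := G) z i
  refine Or.inl ⟨i, h1, by simp only [cn]; omega, Or.inl ?_⟩
  cases s <;> simp [cn, this.1]

theorem cn_ch (s : Bool) (i : ℕ) : G.Ch (G.cn z s (i + 1)).1 (G.cn z s (i + 1)).2 (G.cn z s i).2 := by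
  cases s
  · exact ch_lp _ _
  · exact ch_rp _ _

theorem cn_adj (s : Bool) {i : ℕ} (h : i + 1 ≤ z.1) : G.Adj (G.cn z s (i + 1)) (G.cn z s i) :=
  Or.inr (Or.inl ⟨by simp only [cn]; omega, cn_ch s i⟩)

theorem cn_zero (s : Bool) : G.cn z s 0 = z := by cases s <;> simp [cn, an, ar]

theorem yv_cases (hz : 1 ≤ z.1) (s : Bool) : (G.tau z = 1 ∧ G.yv z s = G.cn z s 1) ∨
    (G.tau z = 0 ∧ (∀ s', G.cn z s' 1 = G.nb z 0) ∧
      if (G.sL z 0 = 1 ↔ s = true) then G.yv z s = G.nb z 0 else G.yv z s = G.lt1 z) := by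
  have h1 := an_one (G := G) hz
  have h2 := G.tau_le z
  rcases (by omega : G.tau z = 1 ∨ G.tau z = 0) with h | h
  · refine Or.inl ⟨h, ?_⟩
    cases s
    · simp [yv, h, nb_zero, cn, h1.1]
    · simp [yv, h, nb_up, cn, h1.1, h1.2]
  · refine Or.inr ⟨h, fun s' => by cases s' <;> simp [nb_zero, cn, h1.1, h1.2, h], ?_⟩
    rcases lt1_cases (G := G) z with ⟨a, b⟩ | ⟨a, b⟩ <;> cases s <;> simp [yv, h, a, b]

theorem yv_tb (hz : 1 ≤ z.1) (s : Bool) : G.Tb z (G.yv z s) := by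
  rcases yv_cases (G := G) hz s with ⟨-, e⟩ | ⟨h, e, e'⟩
  · exact e ▸ cn_tb s le_rfl hz
  · split_ifs at e' <;> rw [e']
    · exact e s ▸ cn_tb s le_rfl hz
    · exact Or.inr ⟨h, rfl⟩

theorem lt1_adj : G.Adj z (G.lt1 z) := by
  unfold lt1
  split_ifs <;> simp [adj_iff]

theorem yv_adj (hz : 1 ≤ z.1) (s : Bool) : G.Adj z (G.yv z s) := by
  have h := (cn_adj (G := G) (z := z) s (i := 0) hz).symm
  rw [cn_zero] at h
  rcases yv_cases (G := G) hz s with ⟨-, e⟩ | ⟨-, e, e'⟩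
  · exact e ▸ h
  · split_ifs at e' <;> rw [e']
    · exact e s ▸ h
    · exact lt1_adj

theorem yv_yv (hz : 1 ≤ z.1) : G.Adj (G.yv z false) (G.yv z true) := by
  obtain ⟨n, x⟩ := z
  obtain ⟨n, rfl⟩ : ∃ m, n = m + 1 := ⟨n - 1, by simp at hz; omega⟩
  have h1 := G.tau_succ n x
  have h2 := G.lp_spec n x
  simp only [yv]
  split_ifs <;> simp only [nb_zero, nb_one, nb_rt, nb_up _ _ le_rfl, adj_iff, Nat.add_sub_cancel] <;>
    simp <;> omega

theorem tb_link (hz : 1 ≤ z.1) (h : G.Tb z v) (ha : G.Adj z v) : ∃ s, v = G.yv z s := by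
  have h1 := an_one (G := G) hz
  have y0 := yv_cases (G := G) hz false
  have y1 := yv_cases (G := G) hz true
  rcases h with ⟨i, h2, h3, -⟩ | ⟨h2, rfl⟩
  · have h4 := G.adj_iff.1 ha
    have h5 : z.1 - 1 = v.1 := by omega
    have h6 : G.lp v.1 z.2 ≤ v.2 := lp_le (by omega)
    have h7 : v.2 ≤ G.ar z 1 := by
      simp only [ar, zero_add, h5]; exact le_rp (by omega)
    rw [h5] at h1
    have h8 : v = G.cn z false 1 ∨ v = G.cn z true 1 := by
      have := G.tau_le z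
      simp only [cn, Prod.ext_iff, Bool.false_eq_true, if_false, if_true]; omega
    rcases y0 with ⟨a, y0⟩ | ⟨a, e, y0⟩ <;> rcases y1 with ⟨b, y1⟩ | ⟨b, -, y1⟩
    · exact h8.elim (fun e => ⟨false, e.trans y0.symm⟩) fun e => ⟨true, e.trans y1.symm⟩
    · omega
    · omega
    · simp only [e, or_self] at h8
      by_cases c : G.sL z 0 = 1
      · exact ⟨true, h8.trans (Eq.symm (by simpa [c] using y1))⟩
      · exact ⟨false, h8.trans (Eq.symm (by simpa [c] using y0))⟩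
  · rcases y0 with ⟨a, y0⟩ | ⟨a, e, y0⟩ <;> rcases y1 with ⟨b, y1⟩ | ⟨b, -, y1⟩ <;> try omega
    by_cases c : G.sL z 0 = 1
    · exact ⟨false, Eq.symm (by simpa [c] using y0)⟩
    · exact ⟨true, Eq.symm (by simpa [c] using y1)⟩

/-- the side on which an arc leaves a tube vertex decides the chain -/
theorem tb_side {i : ℕ} (h1 : 1 ≤ i) (e : b.1 + i = z.1) (ha : G.Adj b f) (hf : ¬Wz G.Tb z f) :
    (G.Rt z 4 f → G.ar z i ≤ b.2) ∧ (¬G.Rt z 4 f → b.2 ≤ G.an z i) := by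
  have h2 := G.adj_iff.1 ha
  obtain ⟨j, hj⟩ : ∃ j, f.1 + j = z.1 := ⟨z.1 - f.1, by omega⟩
  have h3 : ¬(G.an z j ≤ f.2 ∧ f.2 ≤ G.ar z j) := fun c => hf (by
    rcases Nat.eq_zero_or_pos j with rfl | c'
    · exact Or.inl (Prod.ext hj (le_antisymm c.2 c.1))
    · exact Or.inr (Or.inl ⟨j, c', hj, Or.inl c⟩))
  have h4 := an_ar (G := G) z j
  rw [Rt, if_pos (by omega), show z.1 - f.1 = j by omega]
  rcases h2 with h2 | h2 | h2
  · obtain rfl : i = j := by omega
    omega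
  · obtain rfl : i = j + 1 := by omega
    simp only [an, ar, show z.1 - (j + 1) = b.1 by omega]
    exact ⟨fun c => rp_le (by omega), fun c => by
      have := A_lt_iff.1 (lt_of_lt_of_le (by omega : G.A b.1 (b.2 - 1) < G.an z j)
        (G.lp_spec b.1 _).2); omega⟩
  · obtain rfl : j = i + 1 := by omega
    simp only [an, ar, show z.1 - (i + 1) = f.1 by omega] at h3 h4 ⊢
    refine ⟨fun c => by_contra fun c' => h3 ⟨c.le, le_rp (by omega)⟩, fun c => by_contra fun c' =>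
      h3 ⟨lp_le (by omega), by omega⟩⟩

theorem rt_eq (y : Pt) : G.rt y = (y.1 + 2, G.A (y.1 + 1) (G.A y.1 (y.2 - 1)) + 1) := by
  have h1 := G.gap_eq y
  have h2 := G.gap2 y.1 y.2
  have h3 := G.gap_eq (G.nb y 3)
  have h4 := G.gap2 (G.nb y 3).1 (G.nb y 3).2
  rw [rt, nb_ch _ (G.nb y 3) (by omega) (by omega), nb_ch _ y (by omega) (by omega)]
  simp only [Prod.mk.injEq, true_and]
  rw [show G.A y.1 (y.2 - 1) + (3 : ℕ) - 2 - 1 = G.A y.1 (y.2 - 1) by push_cast; ring]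
  push_cast; ring

theorem rt_lev (y : Pt) : (G.rt y).1 = y.1 + 2 := by rw [rt_eq]

theorem rt_tau (y : Pt) : G.tau (G.rt y) = 0 := by
  have h := G.gap2 (y.1 + 1) (G.A y.1 (y.2 - 1) + 1)
  simp only [add_sub_cancel_right] at h
  rw [rt_eq]
  exact if_neg (G.not_two (n := y.1 + 1) (x := G.A y.1 (y.2 - 1) + 1) (by simp) (by omega))

/-- the cone of the root is well inside the cone of `y` -/
theorem rt_margin (y : Pt) (i : ℕ) : G.lr y (i + 2) + 3 ≤ G.lr (G.rt y) i ∧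
    G.rr (G.rt y) i + 3 ≤ G.rr y (i + 2) := by
  induction i with
  | zero =>
    have h1 := G.gap2 y.1 y.2
    have h2 := G.gap2 (y.1 + 1) (G.A y.1 (y.2 - 1))
    have h3 := G.A_gap (y.1 + 1) (G.A y.1 (y.2 - 1)) 2
    have h4 := G.A_le (n := y.1 + 1) (show G.A y.1 (y.2 - 1) + (2 : ℕ) ≤ G.A y.1 y.2 by omega)
    simp only [lr, rr, rt_eq, add_zero]
    omega
  | succ i ih =>
    have h1 := G.A_gap (y.1 + (i + 2)) (G.lr y (i + 2) - 1) 3
    have h2 := G.A_gap (y.1 + (i + 2)) (G.rr (G.rt y) i) 3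
    have h3 := G.A_le (n := y.1 + (i + 2))
      (show G.lr y (i + 2) - 1 + (3 : ℕ) ≤ G.lr (G.rt y) i - 1 by omega)
    have h4 := G.A_le (n := y.1 + (i + 2))
      (show G.rr (G.rt y) i + (3 : ℕ) ≤ G.rr y (i + 2) by omega)
    have e : (G.rt y).1 + i = y.1 + (i + 2) := by rw [rt_lev]; omega
    show G.A (y.1 + (i + 2)) (G.lr y (i + 2) - 1) + 3 ≤ G.A ((G.rt y).1 + i) (G.lr (G.rt y) i - 1) ∧
      G.A ((G.rt y).1 + i) (G.rr (G.rt y) i) + 3 ≤ G.A (y.1 + (i + 2)) (G.rr y (i + 2))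
    rw [e]
    omega

theorem rt_cone (y : Pt) : G.Cn 0 y (G.rt y) := by
  have h := rt_margin (G := G) y 0
  have e : G.rt y = (y.1 + 2, (G.rt y).2) := Prod.ext (rt_lev y) rfl
  rw [e, cone_iff]
  simp only [lr, rr] at h ⊢
  omega

theorem an_cone {o : Pt} (h : G.Cn 0 o z) (j i : ℕ) (e : o.1 + i + j = z.1) :
    G.an z j ≤ G.rr o i ∧ G.lr o i ≤ G.ar z j := by
  induction j generalizing i with
  | zero =>
    have := h.2
    rw [show z.1 - o.1 = i by omega] at this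
    simp only [an, ar]; omega
  | succ j ih =>
    have := ih (i + 1) (by omega)
    simp only [an, ar, lr, rr, show z.1 - (j + 1) = o.1 + i by omega] at this ⊢
    exact ⟨lp_le this.1, le_rp this.2⟩

/-- points away from the boundary of a cone have their neighbours in the cone -/
theorem cone_adj {y u : Pt} {i : ℕ} {x : ℤ} (h1 : G.lr y (i + 1) < x) (h2 : x < G.rr y (i + 1))
    (ha : G.Adj (y.1 + (i + 1), x) u) : G.Cn 0 y u := by
  have h0 : G.Cn 0 y (y.1 + (i + 1), x) := cone_iff.2 ⟨by omega, by omega⟩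
  obtain ⟨n, w⟩ := u
  rcases G.adj_iff.1 ha with h | h | h <;> simp only at h
  · obtain rfl := h.1
    exact cone_iff.2 (by omega)
  · exact cone_child h0 h.1 h.2
  · obtain rfl : n = y.1 + i := by omega
    simp only [lr, rr] at h1 h2
    have a := A_lt_iff.1 (h1.trans_le h.2.2)
    have b := A_lt_iff.1 (h.2.1.trans_lt h2)
    exact cone_iff.2 (by omega)

/-- tube vertices from the level of the root on are inner points of the cone of `y` -/
theorem tb_inner {y u : Pt} (hz : G.Cn 0 (G.rt y) z) (hb : Wz G.Tb z b) (hl : y.1 + 2 ≤ b.1) :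
    G.Cn 0 y b ∧ (G.Adj b u → G.Cn 0 y u) := by
  obtain ⟨n, x⟩ := b
  obtain ⟨i, rfl⟩ : ∃ i, n = y.1 + (i + 1 + 1) := ⟨n - y.1 - 2, by simp only at hl; omega⟩
  have h1 : G.lr y (i + 1 + 1) + 3 ≤ _ ∧ _ ≤ G.rr y (i + 1 + 1) := rt_margin (G := G) y i
  have h2 := fun j e => an_cone (G := G) hz j i (by rw [rt_lev]; exact e)
  have h3 := an_ar (G := G) z
  have : G.lr y (i + 1 + 1) < x ∧ x < G.rr y (i + 1 + 1) := by
    rcases hb with rfl | ⟨j, -, e, h⟩ | ⟨-, h⟩
    · have := h2 0 (by simp only; omega)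
      simp only [an, ar] at this; omega
    · have := h2 j (by simp only at e; omega)
      have := h3 j
      simp only at h; omega
    · unfold lt1 at h
      split_ifs at h <;> rw [Prod.mk.injEq] at h <;> have := h2 0 (by omega) <;>
        simp only [an, ar] at this <;> omega
  exact ⟨cone_iff.2 (by omega), cone_adj this.1 this.2⟩

end Grid
end Pool.Agent.P.MP_e4ac67_pr.Gr
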