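import Pool.Agent.P.MP_e4ac67_pr.V.Tube

/-! The classes of arcs as sums over lists. An arc is `b :: I ++ [e]`; its vertices are
`A 0 = b, ..., A n = e` with `n = I.length + 1`; step `i` goes from `A i` to `A (i+1)`. -/

open scoped ENNReal

namespace Pool.Agent.P.MP_e4ac67_pr.Gr

/-- numerical data: `m` site or bond, weight `p` of an open key, `q` of a closed key (zero for
site), prices `iv`, `il` of the chain (inverses of probabilities), `sp` weight of the spoke event -/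
structure Nm where
  m : Bool
  p : ℝ≥0∞
  q : ℝ≥0∞
  iv : ℝ≥0∞
  il : ℝ≥0∞
  sp : ℝ≥0∞

namespace Grid
variable (G : Grid) (k : ℕ) (P : Nm)

/-- the vertices of an arc -/
def vx (b : Pt) (I : List Pt) (e : Pt) (i : ℕ) : Pt := (b :: I ++ [e]).getD i e

/-- simple arcs with inner vertices off the tube of `z` -/
def Arc (z b : Pt) (I : List Pt) (e : Pt) : Prop :=
  (b :: I ++ [e]).IsChain G.Adj ∧ I.Nodup ∧ e ∉ I ∧ I ≠ [] ∧ ∀ v ∈ I, ¬Wz G.Tb z v

open Classical in
/-- weight: `p` for the steps in `eo`, `q` for the ears at indices in `ee`, `q` for the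
neighbours of `z` at indices in `el` -/
noncomputable def wt (z b : Pt) (I : List Pt) (e : Pt) (eo ee el : ℕ → Prop) : ℝ≥0∞ :=
  ∏ i ∈ Finset.range (I.length + 1), (if eo i then P.p else 1) *
    (if ee i ∧ 1 ≤ i ∧ G.Adj (vx b I e (i - 1)) (vx b I e (i + 1)) then P.q else 1) *
    (if el i ∧ G.Adj z (vx b I e i) then P.q else 1)

/-- the back key of a collision with the old cluster -/
noncomputable def bk : ℝ≥0∞ := if P.m then 1 else P.q

/-- lost gain through `z` (bond only) -/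
noncomputable def sGam (z : Pt) : ℝ≥0∞ := ∑' I, ind (P.m = false ∧ G.Arc z z I (G.cv z)) *
  G.wt P z z I (G.cv z) (fun _ => True) (2 ≤ ·) (2 ≤ ·)

/-- collision with the part of the old cluster behind `z`; `A t` is the head of the stop dart -/
noncomputable def sX0 (z : Pt) : ℝ≥0∞ := ∑' x : List Pt × ℕ,
  ind (G.Arc z z x.1 (G.cv z) ∧ 1 ≤ x.2 ∧ x.2 ≤ x.1.length ∧
    ¬(x.2 = 1 ∧ (x.1.head? = some (G.nb z 3) ∨ x.1.head? = some (G.nb z 5)))) *
  (P.p * bk P * G.wt P z z x.1 (G.cv z) (fun i => i ≠ x.2 ∧ (P.m = true → i + 1 ≠ x.2))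
    (fun i => 2 ≤ i ∧ ¬(P.m = true ∧ i = x.2 ∧ i = x.1.length)) (2 ≤ ·))

/-- a sum over arcs that start in the tube; `F b I` is the weight. `none`: no charge,
`some s`: arcs with target `s`, with the price of the chain -/
noncomputable def sT (z : Pt) (s : Option Bool) (F : Pt → List Pt → ℝ≥0∞) : ℝ≥0∞ :=
  ∑' x : Pt × List Pt, ind (G.Tb z x.1) *
    (s.elim 1 (fun s => ind (G.tg z x.1 (x.2.headD z) = s) * G.ch P.iv P.il z x.1) * F x.1 x.2)

noncomputable def fL (z b : Pt) (I : List Pt) : ℝ≥0∞ := ind (G.Arc z b I (G.cv z)) *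
  G.wt P z b I (G.cv z) (fun i => P.m = true → i ≠ I.length) (fun _ => True) (fun _ => False)

/-- `w = true`: the version for old paths that come from `z` through the tube -/
noncomputable def fX (w : Bool) (z b : Pt) (I : List Pt) : ℝ≥0∞ := ∑' t : ℕ,
  ind (G.Arc z b I (G.cv z) ∧ 1 ≤ t ∧ t ≤ I.length) *
  (P.p * bk P * G.wt P z b I (G.cv z) (fun i => i ≠ t ∧ (P.m = true → i + 1 ≠ t))
    (fun i => ¬(w = true ∧ P.m = true ∧ i = t ∧ i = I.length))
    (fun i => t < i ∨ (P.m = true ∧ t = i)))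

/-- darts of the family of the bonus vertex into the tube -/
noncomputable def fS (z b : Pt) (I : List Pt) : ℝ≥0∞ := ind (G.Arc z b I (G.cv z)) *
  (P.p * G.wt P z b I (G.cv z) (· ≠ 0) (fun i => 2 ≤ i ∨ P.m = true) (1 ≤ ·))

/-- arcs between the tube and `z` -/
noncomputable def fW (z b : Pt) (I : List Pt) : ℝ≥0∞ := ind (G.Arc z b I z) *
  G.wt P z b I z (fun _ => True) (· < I.length) (· < I.length)

/-- the rule at `z` for arcs from the tube -/
def VZ (z f x : Pt) : Prop := (¬G.Rt z 4 f ∧ 4 < G.ps z x) ∨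
  (G.Rt z 4 f ∧ (G.ps z x < 4 ∨ G.ps z x + k ≤ G.dg z + 1))

noncomputable def fSz (z b : Pt) (I : List Pt) : ℝ≥0∞ :=
  ind (G.Arc z b I z ∧ G.VZ k z (I.headD z) (I.getLastD z)) *
  G.wt P z b I z (· ≠ I.length) (· < I.length) (fun i => P.m = true ∧ i < I.length)

/-- arcs from `z` to the tube vertex `b`, listed from `b` -/
noncomputable def fZW (z b : Pt) (I : List Pt) : ℝ≥0∞ :=
  ind (G.Arc z b I z ∧ I.getLastD z ≠ G.cv z ∧ ¬(G.Rt z 4 (I.headD z) ↔ G.Rt z 4 (I.getLastD z))) *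
  G.wt P z b I z (· ≠ 0) (fun i => (2 ≤ i ∨ P.m = true) ∧ i < I.length)
    (fun i => P.m = true ∧ 1 ≤ i ∧ i < I.length)

noncomputable def fWW (z b : Pt) (I : List Pt) : ℝ≥0∞ := ∑' e : Pt,
  ind (G.Tb z e ∧ e ≠ b ∧ G.Arc z b I e ∧ ¬(G.Rt z 4 (I.headD z) ↔ G.Rt z 4 (I.getLastD z))) *
  G.wt P z b I e (· ≠ I.length) (fun i => i < I.length ∨ P.m = true) (fun _ => False)

/-- A marked arc from left to right; the mark is step `t`; the head of the stop dart is the
vertex with index `j`, `j = t` or `j = t + 1`. -/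
def MA (z bL : Pt) (I : List Pt) (bR : Pt) (t j : ℕ) : Prop :=
  G.Arc z bL I bR ∧ ¬G.Rt z 4 (I.headD z) ∧ G.Rt z 5 (I.getLastD z) ∧ t ≤ I.length ∧
    (j = t ∨ j = t + 1) ∧ vx bL I bR j ≠ z ∧
    (P.m = true → 1 ≤ j ∧ j ≤ I.length ∧ vx bL I bR t ≠ z ∧ vx bL I bR (t + 1) ≠ z)

def Pk (z bL : Pt) (I : List Pt) (bR : Pt) (t : ℕ) : Prop :=
  G.Pocket k z bL (I.take t).reverse (I.drop t) bR (G.lo G.Tb z bL (I.headD z))
    (G.hi G.Tb z bR (I.getLastD z))

/-- the alternatives, with the visit -/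
def Al (z bL : Pt) (I : List Pt) (bR : Pt) (t : ℕ) : Prop :=
  ¬G.Pk k z bL I bR t ∧
  ((G.AltL k z bL (I.take t).reverse bR (G.lo G.Tb z bL (I.headD z))
      (G.hi G.Tb z bR (I.getLastD z)) ∧ G.lk z (G.lo G.Tb z bL (I.headD z) + 1) ∈ I.drop t) ∨
    (G.AltR k z bL (I.drop t) bR (G.lo G.Tb z bL (I.headD z))
      (G.hi G.Tb z bR (I.getLastD z)) ∧ G.lk z (G.hi G.Tb z bR (I.getLastD z) - 1) ∈ I.take t))

/-- weight of a marked arc -/
noncomputable def wF (z bL : Pt) (I : List Pt) (bR : Pt) (t j : ℕ) : ℝ≥0∞ :=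
  G.wt P z bL I bR (fun i => i ≠ t ∧ (P.m = true → i + t + 1 ≠ j + j))
    (fun i => i ≠ j ∧ (P.m = false → i ≠ t ∧ i ≠ t + 1) ∧ (bL = z → i ≠ 1) ∧
      (bR = z → i ≠ I.length))
    (fun i => P.m = true ∧ i ≠ j ∧ ((bL = z ∧ 2 ≤ i ∧ i ≤ t) ∨ (bR = z ∧ t < i ∧ i < I.length)))

/-- marked arcs with given ends; `κ` is the extra factor of the alternatives -/
noncomputable def fF (κ : ℝ≥0∞) (z bL : Pt) (I : List Pt) (bR : Pt) : ℝ≥0∞ := ∑' x : ℕ × ℕ,
  ind (G.MA P z bL I bR x.1 x.2) * ((ind (G.Pk k z bL I bR x.1) + κ * ind (G.Al k z bL I bR x.1)) *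
    G.wF P z bL I bR x.1 x.2)

/-- marked arcs between the tube vertex `b` and `z`, listed from `b` -/
noncomputable def fFz (κ : ℝ≥0∞) (z b : Pt) (I : List Pt) : ℝ≥0∞ :=
  G.fF k P κ z b I z + G.fF k P κ z z I.reverse b

open Classical in
/-- site: the second end of an arc is open -/
noncomputable def oe (b e : Pt) : ℝ≥0∞ := if P.m = true ∧ e ≠ b then P.p else 1

/-- marked arcs between two tube vertices with left end `b` -/
noncomputable def fF4L (z b : Pt) (I : List Pt) : ℝ≥0∞ :=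
  ∑' e : Pt, ind (G.Tb z e) * (oe P b e * G.fF k P 1 z b I e)

/-- marked arcs between two tube vertices with right end `b`, listed from `b` -/
noncomputable def fF4R (z b : Pt) (I : List Pt) : ℝ≥0∞ :=
  ∑' e : Pt, ind (G.Tb z e) * (oe P b e * G.fF k P 1 z e I.reverse b)

noncomputable def sFzz (z : Pt) : ℝ≥0∞ := ∑' I, G.fF k P 1 z z I z

/-- multiplicity of the stops into the tube -/
noncomputable def dS : ℝ≥0∞ := if P.m then 2 else 1

noncomputable def kap (z : Pt) : ℝ≥0∞ := if P.m then 1 else P.p + G.sT P z none (G.fW P z)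

/-- classes charged to the probability that `z` is reached -/
noncomputable def zc (z : Pt) : ℝ≥0∞ :=
  G.sFzz k P z + G.sT P z none (G.fFz k P 1 z) + G.sT P z none (G.fF4L k P z) +
    dS P * (G.sT P z none (G.fZW P z) + G.sT P z none (G.fWW P z))

noncomputable def free (z : Pt) : ℝ≥0∞ :=
  G.sGam P z + G.sX0 P z + G.sT P z none (G.fS P z) + G.zc k P z +
    (2 * P.p + G.sT P z none (G.fW P z)) *
      (ind (P.m = false) * G.sT P z none (G.fL P z) + G.sT P z none (G.fX P true z))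

noncomputable def chg (z : Pt) (s : Bool) : ℝ≥0∞ :=
  P.sp * (G.sT P z s (G.fL P z) + G.sT P z s (G.fX P false z)) + G.sT P z s (G.fSz k P z) +
    oe P z (G.cv z) * G.sT P z s (G.fFz k P (G.kap P z) z) +
    G.sT P z s (G.fF4L k P z) + G.sT P z s (G.fF4R k P z) + dS P * G.sT P z s (G.fWW P z) +
    G.zc k P z * G.sT P z s (G.fW P z)

open Classical in
/-- paths from `o` to the boundary rays of its cone that stay in the levels from that of `o` on -/
noncomputable def sG (o : Pt) (s : Bool) : ℝ≥0∞ := ∑' x : ℕ × List Pt,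
  let e : Pt := (o.1 + (x.1 + 1), if s then G.rr o (x.1 + 1) else G.lr o (x.1 + 1))
  ind ((o :: x.2 ++ [e]).IsChain G.Adj ∧ (o :: x.2 ++ [e]).Nodup ∧ ∀ v ∈ x.2, o.1 ≤ v.1) *
    G.wt P o o x.2 e (fun _ => True) (fun _ => True) (fun _ => False)

end Grid

/-- What the tables must give for one set of numbers: `t`, `g1`, `g2` describe the joint
normalisation (`t = p2`; bond `g1 = p2 (1 + (1 - p1) p1)`, `g2 = p2 (2 - p2)`; site `g1 = p2`,
`g2 = 2 p2 / (1 + p2)`). -/
def Tab (k : ℕ) (P : Nm) (t g1 g2 θ : ℝ≥0∞) : Prop :=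
  ∀ G : Grid, (∀ z : Pt, 3 ≤ z.1 → k < G.dg z → ∃ K, G.free k P z + K ≤ θ ∧
      G.chg k P z false + t * G.chg k P z true ≤ K * g1 ∧
      G.chg k P z true + t * G.chg k P z false ≤ K * g1 ∧
      G.chg k P z false + G.chg k P z true ≤ K * g2) ∧
    ∀ o : Pt, 3 ≤ o.1 → G.tau o = 0 →
      P.p * (2 * ind (P.m = false) + 2 * (G.sG P o false + G.sG P o true)) ≤ θ

end Pool.Agent.P.MP_e4ac67_pr.Gr
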