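import Pool.Agent.P.MP_e4ac67_pr.V.Cls
import Pool.Agent.P.MP_e4ac67_pr.V.TubeL

/-! The tables for one set of numbers cover an interval of densities. -/

open scoped ENNReal

namespace Pool.Agent.P.MP_e4ac67_pr.Gr

/-- the numbers `P` come from `P'` by scaling the density with `l` -/
structure MonoSc (P P' : Nm) (l : ℝ≥0∞) : Prop where
  hm : P.m = P'.m
  hl : l ≤ 1
  hp : P.p = l * P'.p
  hq : P.q ≤ P'.q
  hv : P.iv * l ≤ P'.iv
  hi : P.il * l ≤ P'.il

theorem mono_ind {A B : Prop} {x y c : ℝ≥0∞} (h : A → B) (h' : A → x ≤ c * y) :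
    ind A * x ≤ c * (ind B * y) :=
  ind_mul_le fun a => by rw [ind_of (h a), one_mul]; exact h' a

theorem mono_tsum {ι : Type} {f g : ι → ℝ≥0∞} {c : ℝ≥0∞} (h : ∀ i, f i ≤ c * g i) :
    ∑' i, f i ≤ c * ∑' i, g i := by
  rw [← ENNReal.tsum_mul_left]; exact ENNReal.tsum_le_tsum h

namespace Grid
variable {G : Grid} {z b e u v : Pt} {I : List Pt} {g g' k : ℕ}

theorem mono_lev (h : (b :: I ++ [e]).IsChain G.Adj) :
    e.1 ≤ b.1 + I.length + 1 ∧ b.1 ≤ e.1 + I.length + 1 := by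
  induction I generalizing b with
  | nil =>
    have a : G.Adj b e := by simpa using h
    have := a.lev; have := a.symm.lev
    simp only [List.length_nil]; omega
  | cons x I ih =>
    have a := List.isChain_cons_cons.1 h
    have := ih a.2
    have := a.1.lev; have := a.1.symm.lev
    simp only [List.length_cons]; omega

theorem mono_mem (h : (b :: I ++ [e]).IsChain G.Adj) (hv : v ∈ I) :
    v.1 ≤ b.1 + I.length ∧ v.1 ≤ e.1 + I.length ∧ 2 * v.1 ≤ b.1 + e.1 + I.length + 1 := by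
  obtain ⟨s, t, rfl⟩ := List.append_of_mem hv
  have h' : ((b :: s) ++ v :: (t ++ [e])).IsChain G.Adj := by simpa using h
  rw [List.isChain_split] at h'
  have := (mono_lev h'.1).1
  have := (mono_lev h'.2).2
  simp only [List.length_append, List.length_cons]; omega

theorem mono_out (hu : u.1 ≤ z.1) (h : ¬Wz G.Tb z u) :
    u.2 < G.an z (z.1 - u.1) ∨ G.ar z (z.1 - u.1) < u.2 := by
  by_contra c
  refine h ?_
  rcases hu.lt_or_eq with a | a
  · exact Or.inr (Or.inl ⟨z.1 - u.1, by omega, by omega, Or.inl (by omega)⟩)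
  · rw [a, Nat.sub_self] at c
    simp only [an, ar] at c
    exact Or.inl (Prod.ext a (by omega))

theorem mono_step (ha : G.Adj u v) (hu : u.1 ≤ z.1) (hv : v.1 ≤ z.1) (h : ¬Wz G.Tb z u)
    (h' : ¬Wz G.Tb z v) : G.Rt z g u ↔ G.Rt z g' v := by
  have key : ∀ {u v : Pt}, v.1 = u.1 + 1 → G.A u.1 (u.2 - 1) ≤ v.2 → v.2 ≤ G.A u.1 u.2 →
      v.1 ≤ z.1 → ¬Wz G.Tb z u →
      (G.an z (z.1 - u.1) < u.2 ↔ G.an z (z.1 - v.1) < v.2) := fun {u v} e a1 a2 hv h => by
    have h1 := mono_out (by omega) h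
    have h2 := an_ar (G := G) z (z.1 - v.1)
    have h3 := an_ar (G := G) z (z.1 - u.1)
    rw [show z.1 - u.1 = z.1 - v.1 + 1 by omega] at h1 h3 ⊢
    simp only [an, ar, show z.1 - (z.1 - v.1 + 1) = u.1 by omega] at h1 h3 ⊢
    rcases h1 with h1 | h1
    · have := G.A_le (n := u.1) (show u.2 ≤ G.lp u.1 (G.an z (z.1 - v.1)) - 1 by omega)
      have := (G.lp_spec u.1 (G.an z (z.1 - v.1))).1
      omega
    · have := G.A_le (n := u.1) (show G.rp u.1 (G.ar z (z.1 - v.1)) ≤ u.2 - 1 by omega)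
      have := (rp_spec (G := G) u.1 (G.ar z (z.1 - v.1))).2.1
      omega
  rw [Rt, Rt, if_pos hu, if_pos hv]
  rcases G.adj_iff.1 ha with a | a | a
  · have h1 := mono_out hu h
    have h2 := mono_out hv h'
    have h3 := an_ar (G := G) z (z.1 - u.1)
    rw [a.1] at h2 ⊢
    omega
  · exact key a.1 a.2.1 a.2.2 hv h
  · exact (key a.1 a.2.1 a.2.2 hu h').symm

theorem mono_side (hc : I.IsChain G.Adj) (h : ∀ w ∈ I, w.1 ≤ z.1 ∧ ¬Wz G.Tb z w) (hu : u ∈ I)
    (hv : v ∈ I) : G.Rt z g u ↔ G.Rt z g' v := by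
  have key : ∀ (I : List Pt) (x : Pt), (x :: I).IsChain G.Adj →
      (∀ w ∈ x :: I, w.1 ≤ z.1 ∧ ¬Wz G.Tb z w) → ∀ g, ∀ w ∈ x :: I,
      (G.Rt z 0 x ↔ G.Rt z g w) := by
    intro I
    induction I with
    | nil =>
      intro x _ h g w hw
      obtain rfl : w = x := by simpa using hw
      rw [Rt, Rt, if_pos (h w hw).1, if_pos (h w hw).1]
    | cons y I ih =>
      intro x hc h g w hw
      have a := List.isChain_cons_cons.1 hc
      rcases List.mem_cons.1 hw with rfl | hw'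
      · rw [Rt, Rt, if_pos (h w hw).1, if_pos (h w hw).1]
      · have hx := h x (by simp)
        have hy := h y (by simp)
        exact (mono_step a.1 hx.1 hy.1 hx.2 hy.2).trans
          (ih y a.2 (fun w hw => h w (List.mem_cons_of_mem _ hw)) g w hw')
  cases I with
  | nil => simp at hu
  | cons x I => exact (key I x hc h g u hu).symm.trans (key I x hc h g' v hv)

theorem Arc.mono_deep (h : G.Arc z b I e) (hu : u ∈ I) (hv : v ∈ I)
    (hs : ¬(G.Rt z g u ↔ G.Rt z g' v)) : ∃ w ∈ I, z.1 + 1 ≤ w.1 := by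
  by_contra c
  refine hs (mono_side ?_ (fun w hw => ⟨?_, h.2.2.2.2 w hw⟩) hu hv)
  · exact h.1.tail.left_of_append
  · by_contra c'; exact c ⟨w, hw, by omega⟩

theorem mono_hd (h : I ≠ []) : I.headD z ∈ I := by
  cases I with
  | nil => exact absurd rfl h
  | cons x I => simp

theorem mono_ls (h : I ≠ []) : I.getLastD z ∈ I := by
  rcases List.eq_nil_or_concat I with a | ⟨J, x, rfl⟩
  · exact absurd a h
  · simp

theorem Arc.mono_adj (h : G.Arc z b I e) : G.Adj (I.getLastD z) e := by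
  rcases List.eq_nil_or_concat I with a | ⟨J, x, rfl⟩
  · exact absurd a h.2.2.2.1
  · have h' : ((b :: J) ++ x :: [e]).IsChain G.Adj := by simpa using h.1
    rw [List.isChain_split] at h'
    simpa using h'.2

theorem Arc.mono_cross (h : G.Arc z b I e)
    (hs : ¬(G.Rt z g (I.headD z) ↔ G.Rt z g' (I.getLastD z))) :
    z.1 + 1 ≤ b.1 + I.length ∧ z.1 + 1 ≤ e.1 + I.length ∧
      2 * (z.1 + 1) ≤ b.1 + e.1 + I.length + 1 := by
  obtain ⟨w, hw, a⟩ := h.mono_deep (mono_hd h.2.2.2.1) (mono_ls h.2.2.2.1) hs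
  have := mono_mem h.1 hw
  omega

theorem Arc.mono_c (h3 : 3 ≤ G.gap z) (h : G.Arc z b I (G.cv z)) : z.1 + 1 ≤ b.1 + I.length := by
  have hl := mono_ls (z := z) h.2.2.2.1
  have h1 := (mono_mem h.1 hl).1
  by_contra c
  exact h.2.2.2.2 _ hl (Or.inl (up_eq (i := 4) (by omega) (by omega) h.mono_adj.symm (by omega)))

theorem Arc.mono_z (h : G.Arc z b I z) : z.1 ≤ b.1 + I.length := by
  have hl := mono_ls (z := z) h.2.2.2.1
  have h1 := (mono_mem h.1 hl).1
  by_contra c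
  have a := G.adj_iff.1 h.mono_adj
  refine h.2.2.2.2 _ hl (Or.inr ((tubeOK G).anc z _ (Anc.step Anc.base (by omega)
    ⟨by omega, by omega⟩) h.mono_adj.ne))

theorem Arc.mono_vz (h7 : 7 ≤ k) (hk : k < G.dg z) (hz : 1 ≤ z.1) (h : G.Arc z b I z)
    (hv : G.VZ k z (I.headD z) (I.getLastD z)) : z.1 + 1 ≤ b.1 + I.length := by
  have h3 := gap_ge h7 hk
  have hl := mono_ls (z := z) h.2.2.2.1
  have h1 := (mono_mem h.1 hl).1
  have h2 := (tubeOK G).ps hz h.mono_adj.symm (h.2.2.2.2 _ hl)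
  have h4 := (ps_spec hz h.mono_adj.symm).2
  have h5 := rt_nb (G := G) (z := z) (g := 4) (by omega) (by omega)
    (i := G.ps z (I.getLastD z)) (by omega) h2.2.2
  rw [h4] at h5
  by_cases c : G.Rt z 4 (I.headD z) ↔ G.Rt z 4 (I.getLastD z)
  · have h6 := G.tau_le z
    rw [nb_ch (j := G.ps z (I.getLastD z))] at h4
    · have := congrArg Prod.fst h4
      simp only at this; omega
    · rcases hv with a | ⟨a, -⟩
      · omega
      · have := h5.1 (c.1 a); omega
    · unfold dg at hk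
      rcases hv with a | ⟨a, a'⟩
      · exact absurd (c.2 (h5.2 (by omega))) a.1
      · have := h5.1 (c.1 a)
        unfold dg at a'; omega
  · exact (h.mono_cross c).1

theorem mono_rt (h3 : 3 ≤ G.gap z) (h : G.Rt z 5 v) : G.Rt z 4 v := by
  unfold Rt at h ⊢
  split_ifs at h ⊢ with a
  · exact h
  · refine le_trans ?_ h
    rw [nb_ch _ z (by omega) (by omega), nb_ch _ z (by omega) (by omega)]
    induction v.1 - (z.1 + 1) with
    | zero => simp only [lr]; omega
    | succ i ih => exact G.A_le (by omega)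

variable {P P' : Nm} {l : ℝ≥0∞} {r : ℕ}

theorem _root_.Pool.Agent.P.MP_e4ac67_pr.Gr.MonoSc.p_le (h : MonoSc P P' l) : P.p ≤ P'.p :=
  h.hp ▸ mul_le_of_le_one_left' h.hl

theorem mono_wt (h : MonoSc P P' l) {eo ee el : ℕ → Prop} (S : Finset ℕ)
    (hS : ∀ i, i < I.length + 1 → i ∉ S → eo i) (hr : r + S.card ≤ I.length + 1) :
    G.wt P z b I e eo ee el ≤ l ^ r * G.wt P' z b I e eo ee el := by
  have h1 : ∏ i ∈ Finset.range (I.length + 1), (if i ∈ S then 1 else l) ≤ l ^ r := by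
    rw [Finset.prod_ite, Finset.prod_const_one, one_mul, Finset.prod_const]
    refine pow_le_pow_right_of_le_one' h.hl ?_
    have a := Finset.card_filter_add_card_filter_not (s := Finset.range (I.length + 1)) (· ∈ S)
    have := Finset.card_le_card (s := (Finset.range (I.length + 1)).filter (· ∈ S)) (t := S)
      fun i hi => (Finset.mem_filter.1 hi).2
    rw [Finset.card_range] at a
    omega
  refine le_trans ?_ (mul_le_mul_left h1 _)
  unfold wt
  rw [← Finset.prod_mul_distrib]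
  refine Finset.prod_le_prod' fun i hi => ?_
  rw [Finset.mem_range] at hi
  rw [← mul_assoc, ← mul_assoc]
  refine mul_le_mul' (mul_le_mul' ?_ ?_) ?_
  · by_cases a : i ∈ S
    · rw [if_pos a, one_mul]
      split_ifs
      exacts [h.p_le, le_rfl]
    · rw [if_neg a, if_pos (hS i hi a), if_pos (hS i hi a), h.hp]
  all_goals
    split_ifs
    exacts [h.hq, le_rfl]

theorem mono_wt0 (h : MonoSc P P' l) {eo ee el : ℕ → Prop} :
    G.wt P z b I e eo ee el ≤ G.wt P' z b I e eo ee el := by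
  simpa using mono_wt (G := G) (z := z) (b := b) (I := I) (e := e) (eo := eo) (ee := ee) (el := el)
    (r := 0) h (Finset.range (I.length + 1)) (fun i a c => absurd (Finset.mem_range.2 a) c) (by simp)

theorem mono_bk (h : MonoSc P P' l) : bk P ≤ bk P' := by
  unfold bk
  rw [h.hm]
  split_ifs
  exacts [le_rfl, h.hq]

theorem mono_ch (h : MonoSc P P' l) (hb : b.1 ≤ z.1) :
    G.ch P.iv P.il z b * l ^ (z.1 - b.1) ≤ G.ch P'.iv P'.il z b := by
  unfold ch
  by_cases a : b.1 = z.1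
  · simp [a]
  · obtain ⟨j, hj⟩ : ∃ j, z.1 - b.1 = j + 1 := ⟨z.1 - b.1 - 1, by omega⟩
    rw [if_neg a, if_neg a, hj, Nat.add_sub_cancel, pow_succ', mul_mul_mul_comm, ← mul_pow]
    refine mul_le_mul' ?_ (pow_le_pow_left' h.hv _)
    split_ifs
    exacts [by rw [one_mul]; exact h.hl, h.hi]

theorem mono_sT (h : MonoSc P P' l) (s : Option Bool) {F F' : Pt → List Pt → ℝ≥0∞} {c : ℝ≥0∞}
    (hF : ∀ b I, b.1 ≤ z.1 → F b I ≤ c * l ^ (z.1 - b.1) * F' b I) :
    G.sT P z s F ≤ c * G.sT P' z s F' := by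
  refine mono_tsum fun x => mono_ind id fun a => ?_
  have hb := ((tubeOK G).lev z _ a).1
  refine (mul_le_mul_right (hF _ _ hb) _).trans ?_
  rw [← mul_assoc, ← mul_assoc c]
  refine mul_le_mul_left ?_ _
  rw [mul_left_comm]
  refine mul_le_mul_right ?_ _
  cases s with
  | none => simpa using pow_le_one' h.hl _
  | some s =>
    simp only [Option.elim, mul_assoc]
    exact mul_le_mul_right (mono_ch h hb) _

theorem mono_sT1 (h : MonoSc P P' l) (s : Option Bool) {F F' : Pt → List Pt → ℝ≥0∞}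
    (hF : ∀ b I, b.1 ≤ z.1 → F b I ≤ l ^ (z.1 - b.1 + 1) * F' b I) :
    G.sT P z s F ≤ l * G.sT P' z s F' :=
  mono_sT h s fun b I hb => by rw [← pow_succ']; exact hF b I hb

theorem mono_sT0 {F F' : Pt → List Pt → ℝ≥0∞} (hF : ∀ b I, F b I ≤ F' b I) :
    G.sT P z none F ≤ G.sT P' z none F' :=
  ENNReal.tsum_le_tsum fun _ => mul_le_mul_right (mul_le_mul_right (hF _ _) _) _

theorem mono_fL (h : MonoSc P P' l) (h3 : 3 ≤ G.gap z) (hb : b.1 ≤ z.1) :
    G.fL P z b I ≤ l ^ (z.1 - b.1 + 1) * G.fL P' z b I := by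
  unfold fL
  rw [h.hm]
  refine mono_ind id fun a => mono_wt h {I.length} (fun i _ c _ => by simpa using c) ?_
  have := a.mono_c h3
  rw [Finset.card_singleton]; omega

theorem mono_fX (h : MonoSc P P' l) (h3 : 3 ≤ G.gap z) (hb : b.1 ≤ z.1) (w : Bool) :
    G.fX P w z b I ≤ l ^ (z.1 - b.1 + 1) * G.fX P' w z b I := by
  unfold fX
  rw [h.hm]
  refine mono_tsum fun t => mono_ind id fun a => ?_
  have := a.1.mono_c h3
  have := Finset.card_le_two (a := t) (b := t - 1)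
  refine (mul_le_mul' (mul_le_mul' h.hp.le (mono_bk h)) (mono_wt (r := z.1 - b.1) h {t, t - 1}
    (fun i _ c => ?_) (by omega))).trans (le_of_eq (by ring))
  simp only [Finset.mem_insert, Finset.mem_singleton] at c
  exact ⟨by omega, fun _ => by omega⟩

theorem mono_fS (h : MonoSc P P' l) : G.fS P z b I ≤ G.fS P' z b I := by
  unfold fS
  rw [h.hm]
  exact mul_le_mul_right (mul_le_mul' h.p_le (mono_wt0 h)) _

theorem mono_fW (h : MonoSc P P' l) (hb : b.1 ≤ z.1) :
    G.fW P z b I ≤ l ^ (z.1 - b.1 + 1) * G.fW P' z b I := by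
  unfold fW
  try rw [h.hm]
  refine mono_ind id fun a => mono_wt h ∅ (fun _ _ _ => trivial) ?_
  have := a.mono_z
  rw [Finset.card_empty]; omega

theorem mono_fSz (h : MonoSc P P' l) (h7 : 7 ≤ k) (hk : k < G.dg z) (hz : 1 ≤ z.1)
    (hb : b.1 ≤ z.1) : G.fSz k P z b I ≤ l ^ (z.1 - b.1 + 1) * G.fSz k P' z b I := by
  unfold fSz
  rw [h.hm]
  refine mono_ind id fun a => mono_wt h {I.length} (fun i _ c => by simpa using c) ?_
  have := a.1.mono_vz h7 hk hz a.2
  rw [Finset.card_singleton]; omega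

theorem mono_fZW (h : MonoSc P P' l) : G.fZW P z b I ≤ G.fZW P' z b I := by
  unfold fZW
  rw [h.hm]
  exact mul_le_mul_right (mono_wt0 h) _

theorem mono_fWW (h : MonoSc P P' l) (hb : b.1 ≤ z.1) :
    G.fWW P z b I ≤ l ^ (z.1 - b.1 + 1) * G.fWW P' z b I := by
  unfold fWW
  rw [h.hm]
  refine mono_tsum fun e => mono_ind id fun a =>
    mono_wt h {I.length} (fun i _ c => by simpa using c) ?_
  have := (a.2.2.1.mono_cross a.2.2.2).1
  rw [Finset.card_singleton]; omega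

theorem mono_fF (h : MonoSc P P' l) {κ κ' : ℝ≥0∞} (hκ : κ ≤ κ')
    (hr : G.Arc z b I e → ¬G.Rt z 4 (I.headD z) → G.Rt z 5 (I.getLastD z) →
      r + (if P'.m = true then 1 else 0) ≤ I.length) :
    G.fF k P κ z b I e ≤ l ^ r * G.fF k P' κ' z b I e := by
  unfold fF MA wF
  rw [h.hm]
  refine mono_tsum fun x => mono_ind id fun a => ?_
  have h1 := hr a.1 a.2.1 a.2.2.1
  rw [mul_left_comm]
  refine mul_le_mul' (add_le_add le_rfl (mul_le_mul_left hκ _)) ?_
  split_ifs at h1 with c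
  · have := Finset.card_le_two (a := x.1) (b := x.2 + x.2 - x.1 - 1)
    refine mono_wt h {x.1, x.2 + x.2 - x.1 - 1} (fun i _ c => ?_) (by omega)
    simp only [Finset.mem_insert, Finset.mem_singleton] at c
    exact ⟨by omega, fun _ => by omega⟩
  · refine mono_wt h {x.1} (fun i _ c' => ⟨by simpa using c', fun a => absurd a c⟩) ?_
    rw [Finset.card_singleton]; omega

theorem mono_fF0 (h : MonoSc P P' l) {κ κ' : ℝ≥0∞} (hκ : κ ≤ κ') :
    G.fF k P κ z b I e ≤ G.fF k P' κ' z b I e := by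
  simpa using mono_fF (G := G) (k := k) (z := z) (b := b) (I := I) (e := e) (r := 0) h hκ
    fun a _ _ => by
      have := List.length_pos_iff.2 a.2.2.2.1
      split_ifs <;> omega

theorem mono_fFz (h : MonoSc P P' l) {κ κ' : ℝ≥0∞} (hκ : κ ≤ κ')
    (hr : r + (if P'.m = true then 1 else 0) + b.1 ≤ z.1 + 1) :
    G.fFz k P κ z b I ≤ l ^ r * G.fFz k P' κ' z b I := by
  unfold fFz
  rw [mul_add]
  refine add_le_add (mono_fF h hκ fun a c c' => ?_) (mono_fF h hκ fun a c c' => ?_)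
  · have := (a.mono_cross fun d => c (d.2 c')).1
    omega
  · have := (a.mono_cross fun d => c (d.2 c')).2.1
    omega

theorem mono_oe (h : MonoSc P P' l) (h3 : 3 ≤ G.gap z) (hb : b.1 ≤ z.1) {bL bR : Pt}
    (hs : (bL = b ∧ bR = e) ∨ (bL = e ∧ bR = b)) :
    oe P b e * G.fF k P 1 z bL I bR ≤ l ^ (z.1 - b.1 + 1) * (oe P' b e * G.fF k P' 1 z bL I bR) := by
  unfold oe
  rw [h.hm]
  split_ifs with c
  · refine (mul_le_mul' h.hp.le (mono_fF (r := z.1 - b.1) h le_rfl fun a d d' => ?_)).trans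
      (le_of_eq (by ring))
    have := a.mono_cross fun x => d (x.2 d')
    rcases hs with ⟨rfl, rfl⟩ | ⟨rfl, rfl⟩ <;> split_ifs <;> omega
  · rw [one_mul, one_mul]
    refine mono_fF h le_rfl fun a d d' => ?_
    have := a.mono_cross fun x => d (x.2 d')
    split_ifs with c'
    · obtain rfl : e = b := by_contra fun x => c ⟨c', x⟩
      have : I.length ≠ 1 := fun x => by
        obtain ⟨y, rfl⟩ := List.length_eq_one_iff.1 x
        exact d (mono_rt h3 d')
      rcases hs with ⟨rfl, rfl⟩ | ⟨rfl, rfl⟩ <;> omega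
    · rcases hs with ⟨rfl, rfl⟩ | ⟨rfl, rfl⟩ <;> omega

theorem mono_fF4L (h : MonoSc P P' l) (h3 : 3 ≤ G.gap z) (hb : b.1 ≤ z.1) :
    G.fF4L k P z b I ≤ l ^ (z.1 - b.1 + 1) * G.fF4L k P' z b I :=
  mono_tsum fun _ => mono_ind id fun _ => mono_oe h h3 hb (Or.inl ⟨rfl, rfl⟩)

theorem mono_fF4R (h : MonoSc P P' l) (h3 : 3 ≤ G.gap z) (hb : b.1 ≤ z.1) :
    G.fF4R k P z b I ≤ l ^ (z.1 - b.1 + 1) * G.fF4R k P' z b I :=
  mono_tsum fun _ => mono_ind id fun _ => mono_oe h h3 hb (Or.inr ⟨rfl, rfl⟩)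

theorem mono_dS (h : MonoSc P P' l) : dS P = dS P' := by rw [dS, dS, h.hm]

theorem mono_drop (h : MonoSc P P' l) {x y : ℝ≥0∞} (a : x ≤ l * y) : x ≤ y :=
  a.trans (mul_le_of_le_one_left' h.hl)

theorem mono_kap (h : MonoSc P P' l) : G.kap P z ≤ G.kap P' z := by
  unfold kap
  rw [h.hm]
  split_ifs
  exacts [le_rfl, add_le_add h.p_le (mono_drop h (mono_sT1 h _ fun _ _ => mono_fW h))]

theorem mono_zc (h : MonoSc P P' l) (h3 : 3 ≤ G.gap z) : G.zc k P z ≤ G.zc k P' z := by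
  unfold zc
  rw [mono_dS h]
  gcongr
  · exact ENNReal.tsum_le_tsum fun _ => mono_fF0 h le_rfl
  · exact mono_sT0 fun _ _ => add_le_add (mono_fF0 h le_rfl) (mono_fF0 h le_rfl)
  · exact mono_drop h (mono_sT1 h _ fun _ _ => mono_fF4L h h3)
  · exact mono_sT0 fun _ _ => mono_fZW h
  · exact mono_drop h (mono_sT1 h _ fun _ _ => mono_fWW h)

theorem mono_free (h : MonoSc P P' l) (h3 : 3 ≤ G.gap z) : G.free k P z ≤ G.free k P' z := by
  unfold free sGam sX0
  rw [h.hm]
  gcongr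
  · exact mono_wt0 h
  · exact h.p_le
  · exact mono_bk h
  · exact mono_wt0 h
  · exact mono_sT0 fun _ _ => mono_fS h
  · exact mono_zc h h3
  · exact h.p_le
  · exact mono_drop h (mono_sT1 h _ fun _ _ => mono_fW h)
  · exact mono_drop h (mono_sT1 h _ fun _ _ => mono_fL h h3)
  · exact mono_drop h (mono_sT1 h _ fun _ _ hb => mono_fX h h3 hb _)

theorem mono_chg (h : MonoSc P P' l) (hs : P.sp ≤ P'.sp) (h7 : 7 ≤ k) (hk : k < G.dg z)
    (hz : 1 ≤ z.1) (s : Bool) : G.chg k P z s ≤ l * G.chg k P' z s := by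
  have h3 := gap_ge h7 hk
  have hc : G.cv z ≠ z := (adj_nb hz (j := 4) (by omega)).ne.symm
  unfold chg
  rw [mono_dS h]
  simp only [mul_add, mul_left_comm l]
  refine add_le_add (add_le_add (add_le_add (add_le_add (add_le_add (add_le_add (add_le_add
    (mul_le_mul' hs (mono_sT1 h _ fun _ _ => mono_fL h h3))
    (mul_le_mul' hs (mono_sT1 h _ fun _ _ hb => mono_fX h h3 hb _)))
    (mono_sT1 h _ fun _ _ => mono_fSz h h7 hk hz)) ?_)
    (mono_sT1 h _ fun _ _ => mono_fF4L h h3)) (mono_sT1 h _ fun _ _ => mono_fF4R h h3))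
    (mul_le_mul_right (mono_sT1 h _ fun _ _ => mono_fWW h) _))
    (mul_le_mul' (mono_zc h h3) (mono_sT1 h _ fun _ _ => mono_fW h))
  unfold oe
  rw [h.hm]
  split_ifs with c
  · rw [h.hp, mul_comm l, mul_assoc]
    refine mul_le_mul_right (mul_le_mul_right ((mono_sT (c := 1) h _ fun b I hb => ?_).trans
      (one_mul _).le) _) _
    rw [one_mul]
    exact mono_fFz h (mono_kap h) (by rw [if_pos c.1]; omega)
  · refine mul_le_mul_right (mono_sT1 h _ fun b I hb => mono_fFz h (mono_kap h) ?_) _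
    rw [if_neg fun a => c ⟨a, hc⟩]; omega

theorem mono_sG (h : MonoSc P P' l) (s : Bool) : G.sG P z s ≤ G.sG P' z s :=
  ENNReal.tsum_le_tsum fun _ => mul_le_mul_right (mono_wt0 h) _

end Grid

theorem Tab.mono {k : ℕ} (h7 : 7 ≤ k) {P P' : Nm} {t t' g1 g1' g2 g2' θ l : ℝ≥0∞}
    (h : Tab k P' t' g1' g2' θ) (hm : P.m = P'.m) (hl : l ≤ 1) (hp : P.p = l * P'.p)
    (hq : P.q ≤ P'.q) (hv : P.iv * l ≤ P'.iv) (hi : P.il * l ≤ P'.il) (hs : P.sp ≤ P'.sp)
    (ht : t ≤ t') (h1 : l * g1' ≤ g1) (h2 : l * g2' ≤ g2) : Tab k P t g1 g2 θ := by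
  have S : MonoSc P P' l := ⟨hm, hl, hp, hq, hv, hi⟩
  refine fun G => ⟨fun z hz hk => ?_, fun o ho h0 => le_trans ?_ ((h G).2 o ho h0)⟩
  · obtain ⟨K, a, b, c, d⟩ := (h G).1 z hz hk
    have f := Grid.mono_chg S hs h7 hk (by omega)
    have key : ∀ {x y x' y' s s' g g' : ℝ≥0∞}, x ≤ l * x' → y ≤ l * y' → s ≤ s' → l * g' ≤ g →
        x' + s' * y' ≤ K * g' → x + s * y ≤ K * g := fun {x y x' y' s s' g g'} a b c d e =>
      calc x + s * y ≤ l * x' + s' * (l * y') := by gcongr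
        _ = l * (x' + s' * y') := by ring
        _ ≤ l * (K * g') := by gcongr
        _ = K * (l * g') := by ring
        _ ≤ K * g := by gcongr
    refine ⟨K, (add_le_add (Grid.mono_free S (Grid.gap_ge h7 hk)) le_rfl).trans a,
      key (f _) (f _) ht h1 b, key (f _) (f _) ht h1 c, ?_⟩
    simpa using key (s := 1) (f false) (f true) le_rfl h2 (by simpa using d)
  · rw [hm]
    gcongr
    exacts [S.p_le, Grid.mono_sG S _, Grid.mono_sG S _]

end Pool.Agent.P.MP_e4ac67_pr.Gr
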