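import Pool.Agent.P.MP_e4ac67_pr.V.TubeL
import Pool.Agent.P.MP_e4ac67_pr.E.Joint

/-! The chain from a tube vertex to its entrance vertex. -/

open scoped ENNReal

namespace Pool.Agent.P.MP_e4ac67_pr

/-- the lower detour of a lateral step -/
noncomputable def rl (p : ℝ≥0∞) : ℝ≥0∞ := par p (r1 p * p)

theorem par_comm {x y : ℝ≥0∞} (hx : x ≤ 1) (hy : y ≤ 1) : par x y = par y x := by
  obtain ⟨a, ha⟩ := exists_add_of_le hx
  obtain ⟨b, hb⟩ := exists_add_of_le hy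
  have e1 : 1 - x = a := by
    rw [ha, ENNReal.add_sub_cancel_left (ne_top_of_le_ne_top ENNReal.one_ne_top hx)]
  have e2 : 1 - y = b := by
    rw [hb, ENNReal.add_sub_cancel_left (ne_top_of_le_ne_top ENNReal.one_ne_top hy)]
  rw [par, par, e1, e2]
  calc x + a * y = x * (y + b) + a * y := by rw [← hb, mul_one]
    _ = (x + a) * y + b * x := by ring
    _ = _ := by rw [← ha, one_mul]

theorem rl_mono {p p' : ℝ≥0∞} (h : p ≤ p') (hp : p' ≤ 1) : rl p ≤ rl p' :=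
  par_mono h hp (mul_le_mul' (r1_mono h hp) h) (mul_le_one' (r1_le_one hp) hp)

section
variable {V : Type} [DecidableEq V] {G : SimpleGraph V} {F : Set V} {p : ℝ≥0∞}
  {Ω : Finset (V × V)} {a b w x x' v y y' : V}

theorem PS_le (hp : p ≤ 1) (ha : a ∈ F) (hΩ : ∀ u ∈ F, ∀ u' ∈ F, G.Adj u u' → (u, u') ∈ Ω)
    (S : Finset (V × V)) : PS G F p S a b ≤ PS G F p Ω a b :=
  (PS_mono hp Finset.subset_union_left).trans_eq (EX_drop hp Finset.subset_union_right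
    fun _ _ h => reach_ins ha (fun u hu v hv e e' => h (by rw [← e']; exact hΩ u hu v hv e)) b)

open Classical in
theorem PS_opt (hp : p ≤ 1) (h : G.Adj a b) (h1 : G.Adj a x) (h2 : G.Adj x b) (hb : b ∈ F) :
    (if x ∈ F then r1 p else p) ≤ PS G F p ({(a, b)} ∪ ({(a, x)} ∪ {(x, b)})) a b := by
  split_ifs with e
  · exact PS_r1 hp h h1 h2 hb e
  · exact (PS_one hp h hb).trans (PS_mono hp Finset.subset_union_left)

open Classical in
theorem Gad.opt (hp : p ≤ 1) (h : Gad G a b w x x' v y y') (ha : a ∈ F) (hb : b ∈ F) (hw : w ∈ F)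
    (hv : v ∈ F) (hΩ : ∀ u ∈ F, ∀ u' ∈ F, G.Adj u u' → (u, u') ∈ Ω) :
    par p (par ((if x ∈ F then r1 p else p) * if x' ∈ F then r1 p else p)
      ((if y ∈ F then r1 p else p) * if y' ∈ F then r1 p else p)) ≤ PS G F p Ω a b := by
  obtain ⟨h0, ⟨l1, l2, l3, l4, l5, l6, l7, l8⟩, ⟨k1, k2, k3, k4, k5, k6, k7, k8⟩, n1, n2, n3, n4,
    n5, n6, n7⟩ := h
  have := And.intro (And.intro (And.intro l1.ne l1.ne') (And.intro l2.ne l2.ne'))
    (And.intro (And.intro k1.ne k1.ne') (And.intro k2.ne k2.ne'))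
  have := And.intro (And.intro (And.intro l3.ne l3.ne') (And.intro l6.ne l6.ne'))
    (And.intro (And.intro k3.ne k3.ne') (And.intro k6.ne k6.ne'))
  have := And.intro (And.intro (And.intro n1.symm n2.symm) (And.intro n3.symm n4.symm))
    (And.intro (And.intro n5.symm n6.symm) (And.intro n7.symm (And.intro
      (And.intro l7.symm l8.symm) (And.intro k7.symm k8.symm))))
  refine (PS_par hp ?_ (PS_one hp h0 hb) (PS_par hp ?_
    (PS_ser hp (PS_opt hp l1 l3 l4 hw) (PS_opt hp l2 l5 l6 hb))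
    (PS_ser hp (PS_opt hp k1 k3 k4 hv) (PS_opt hp k2 k5 k6 hb)))).trans (PS_le hp ha hΩ _)
  all_goals simp [*]

end

namespace Gr.Grid
variable {G : Grid} {p : ℝ≥0∞} {F : Set Pt} {Ω : Finset (Pt × Pt)} {a b z : Pt}

/-- a step along an extreme chain; the parents of `a` may be missing -/
theorem gadget' (hp : p ≤ 1) (hΩ : ∀ u ∈ F, ∀ u' ∈ F, G.Adj u u' → (u, u') ∈ Ω) (h : G.Adj a b)
    (h1 : 1 ≤ a.1) (hab : a.1 + 1 = b.1) (hz : b.1 < z.1) (ha : a ∈ F)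
    (hA : ∀ v, G.Adj a v → a.1 ≤ v.1 → v ∈ F) (hB : ∀ v, G.Adj v b → v ≠ z → v ∈ F)
    (hs : (G.A a.1 (a.2 - 1) < b.2 ∧ z ≠ (b.1 + 1, G.A b.1 (b.2 - 1))) ∨
      (b.2 < G.A a.1 a.2 ∧ z ≠ (b.1 + 1, G.A b.1 b.2))) : r2' p ≤ PS G.gr F p Ω a b := by
  classical
  obtain ⟨w, x, x', v, y, y', k⟩ := exists_gad h h1 (by omega)
  have lv : ∀ {u u' : Pt}, G.gr.Adj u u' → u'.1 ≤ u.1 + 1 := fun e => Adj.lev e
  have := lv k.l.aw
  have := lv k.r.aw
  refine le_trans ?_ (k.opt hp ha (hA _ h (by omega)) (hB _ k.l.wb (by rintro rfl; omega))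
    (hB _ k.r.wb (by rintro rfl; omega)) hΩ)
  have b1 := r1_le_one hp
  have c := mul_le_one' b1 b1
  have d := mul_le_one' b1 hp
  have e : r1 p * p ≤ r1 p * r1 p := mul_le_mul_right (le_par _ _) _
  have half : ∀ {w x x' : Pt}, Half G.gr a b w x x' → (x ∈ F ∧ x' ∈ F) ∨ (x ∈ F ∧ x' = z) ∨
      (x' ∈ F ∧ w.1 = a.1) := fun {w x x'} l => by
    by_cases n : x ∈ F
    · exact (em (x' = z)).elim (fun e => Or.inr (Or.inl ⟨n, e⟩)) fun e => Or.inl ⟨n, hB _ l.xb e⟩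
    have := mt (hA _ l.ax) n
    have := lv l.xw
    have := lv l.wx
    have := lv l.wb
    exact Or.inr (Or.inr ⟨hB _ l.xb (by rintro rfl; omega), by omega⟩)
  have hl := half k.l
  have hr := half k.r
  have lo : ∀ {x x' : Pt}, x ∈ F ∨ x' ∈ F → r1 p * p ≤
      (if x ∈ F then r1 p else p) * if x' ∈ F then r1 p else p := fun {x x'} n => by
    split_ifs <;> first | exact e | exact le_rfl | exact (mul_comm _ _).le | tauto
  have hi : ∀ {x x' : Pt}, ((if x ∈ F then r1 p else p) * if x' ∈ F then r1 p else p) ≤ 1 :=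
    mul_le_one' (by split_ifs <;> assumption) (by split_ifs <;> assumption)
  refine par_mono le_rfl hp ?_ (par_le_one hi hi)
  rcases hl with m | m
  · rw [if_pos m.1, if_pos m.2]
    exact par_mono le_rfl c (lo (by tauto)) hi
  rcases hr with m' | m'
  · rw [if_pos m'.1, if_pos m'.2, par_comm c d]
    exact par_mono (lo (by tauto)) hi le_rfl c
  exfalso
  have a6 := G.gap2 a.1 a.2
  have lat : ∀ {w : Pt}, G.gr.Adj a w → G.gr.Adj w b → w.1 = a.1 →
      (w.2 = a.2 - 1 ∧ b.2 ≤ G.A a.1 (a.2 - 1)) ∨ (w.2 = a.2 + 1 ∧ G.A a.1 a.2 ≤ b.2) :=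
    fun {w} a1 a2 e => by
      have a1 := G.adj_iff.1 a1
      have a2 := G.adj_iff.1 a2
      rw [e] at a2
      rcases (by omega : w.2 = a.2 - 1 ∨ w.2 - 1 = a.2) with e' | e' <;> rw [e'] at a2 <;> omega
  have low : ∀ {w v : Pt}, G.gr.Adj a w → G.gr.Adj w b → w.1 = a.1 → G.gr.Adj a v →
      G.gr.Adj v b → G.gr.Adj v z → G.gr.Adj z b → False := fun {w v} a1 a2 e a3 a4 a5 a7 => by
    have a0 := lat a1 a2 e
    have a3 := G.adj_iff.1 a3
    have a4 := G.adj_iff.1 a4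
    have a5 := G.adj_iff.1 a5
    have a7 := G.adj_iff.1 a7
    have e1 : v.1 = b.1 := by omega
    have e2 : z.1 = b.1 + 1 := by omega
    rw [e1] at a5
    simp only [ne_eq, Prod.ext_iff, e2, true_and] at hs
    rcases (by omega : v.2 = b.2 - 1 ∨ v.2 - 1 = b.2) with e' | e'
    · rw [e'] at a5; omega
    · rw [e'] at a5; omega
  rcases m with m | m <;> rcases m' with m' | m'
  · exact k.n7 (m.2.trans m'.2.symm)
  · exact low k.r.aw k.r.wb m'.2 k.l.aw k.l.wb (m.2 ▸ k.l.wx) (m.2 ▸ k.l.xb)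
  · exact low k.l.aw k.l.wb m.2 k.r.aw k.r.wb (m'.2 ▸ k.r.wx) (m'.2 ▸ k.r.xb)
  · have a1 := lat k.l.aw k.l.wb m.2
    have a2 := lat k.r.aw k.r.wb m'.2
    exact k.n1 (Prod.ext (m.2.trans m'.2.symm) (by omega))

variable {m : Bool} {y f o : Pt} {N : ℕ}

theorem mem_hd (hz : G.Hm (G.rt y) N z) (hb : Wz G.Tb z b) (hl : y.1 + 2 ≤ b.1) :
    b ∈ G.Hd y N ∧ ∀ u, G.Adj b u → y.1 + 2 ≤ u.1 → u.1 ≤ z.1 → u ∈ G.Hd y N := by
  have h1 := hz.2
  rw [rt_lev] at h1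
  have h2 : b.1 ≤ z.1 := hb.elim (fun e => e ▸ le_rfl) fun e => (G.tubeOK.lev z b e).1
  exact ⟨⟨(tb_inner (u := b) hz.1 hb hl).1, hl, by omega⟩,
    fun u e e1 e2 => ⟨(tb_inner hz.1 hb hl).2 e, e1, by omega⟩⟩

theorem step_v (hp : p ≤ 1) (hz : G.Hm (G.rt y) N z)
    (hΩ : ∀ u ∈ G.Hd y N \ {z}, ∀ u' ∈ G.Hd y N \ {z}, G.Adj u u' → kk m u u' ∈ Ω) (s : Bool)
    {i : ℕ} (h1 : 1 ≤ i) (h2 : y.1 + 2 + (i + 1) ≤ z.1) : (if m then p else r2' p) ≤ EX Ω p fun ω =>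
      ind (Reach G.gr (kk m) (G.Hd y N \ {z}) (G.cn z s (i + 1)) ω (G.cn z s i)) := by
  have ha := mem_hd hz (Or.inr (cn_tb s (i := i + 1) (by omega) (by omega)))
    (by simp only [cn]; omega)
  have hb := mem_hd hz (Or.inr (cn_tb s h1 (by omega))) (by simp only [cn]; omega)
  have e := cn_adj (G := G) (z := z) s (i := i) (by omega)
  have l1 : (G.cn z s (i + 1)).1 = z.1 - (i + 1) := rfl
  have l2 : (G.cn z s i).1 = z.1 - i := rfl
  have ne : ∀ v : Pt, v.1 < z.1 → v ∉ ({z} : Set Pt) := by rintro v e rfl; omega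
  cases m
  · refine gadget' (z := z) hp hΩ e (by omega) (by omega) (by omega) ⟨ha.1, ne _ (by omega)⟩
      (fun v e1 e2 => ?_) (fun v e1 e2 => ?_) ?_
    · have := e1.lev
      exact ⟨ha.2 v e1 (by omega) (by omega), ne _ (by omega)⟩
    · have := e1.lev
      have := e1.symm.lev
      exact ⟨hb.2 v e1.symm (by omega) (by omega), e2⟩
    · obtain ⟨i, rfl⟩ : ∃ j, i = j + 1 := ⟨i - 1, by omega⟩
      have a1 := sL_pos (G := G) z
      have a2 := sR_pos (G := G) z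
      cases s
      · refine Or.inl ⟨by have := a1 (i + 1); simp only [sL, cn] at this ⊢; simp; omega, fun c => ?_⟩
        obtain rfl : i = 0 := by have := congrArg Prod.fst c; simp only [cn] at this; omega
        have := congrArg Prod.snd c
        have := a1 0
        simp [sL, cn, an] at *; omega
      · refine Or.inr ⟨by have := a2 (i + 1); simp only [sR, cn] at this ⊢; simp; omega, fun c => ?_⟩
        obtain rfl : i = 0 := by have := congrArg Prod.fst c; simp only [cn] at this; omega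
        have := congrArg Prod.snd c
        have := a2 0
        simp [sR, cn, ar] at *; omega
  · exact reach_one hp e ⟨hb.1, ne _ (by omega)⟩
      (hΩ _ ⟨ha.1, ne _ (by omega)⟩ _ ⟨hb.1, ne _ (by omega)⟩ e)

theorem step_l (hp : p ≤ 1) (hz : G.Hm (G.rt y) N z)
    (hΩ : ∀ u ∈ G.Hd y N \ {z}, ∀ u' ∈ G.Hd y N \ {z}, G.Adj u u' → kk m u u' ∈ Ω) (s : Bool)
    {i : ℕ} (hb : G.Tb z b) (hl : y.1 + 2 ≤ b.1) (e : b.1 + (i + 1) = z.1)
    (e' : b.2 = if s then G.ar z (i + 1) + 1 else G.an z (i + 1) - 1) :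
    (if m then p else rl p) ≤ EX Ω p fun ω =>
      ind (Reach G.gr (kk m) (G.Hd y N \ {z}) b ω (G.cn z s (i + 1))) := by
  classical
  have ha := mem_hd hz (Or.inr hb) hl
  have hc := mem_hd hz (Or.inr (cn_tb s (i := i + 1) (by omega) (by omega)))
    (by simp only [cn]; omega)
  have l1 : z.1 - (i + 1) = b.1 := by omega
  have ne : ∀ v : Pt, v.1 < z.1 → v ∉ ({z} : Set Pt) := by rintro v e rfl; omega
  have f1 : b ∈ G.Hd y N \ {z} := ⟨ha.1, ne _ (by omega)⟩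
  have f2 : G.cn z s (i + 1) ∈ G.Hd y N \ {z} := ⟨hc.1, ne _ (by simp only [cn]; omega)⟩
  have a0 : G.Adj b (G.cn z s (i + 1)) := by cases s <;> simp [adj_iff, cn, l1, e']
  cases m
  swap
  · exact reach_one hp a0 f2 (hΩ _ f1 _ f2 a0)
  obtain ⟨w, x, a1, a2, a3, a4, a5, a6⟩ : ∃ w x : Pt, G.Adj b w ∧ G.Adj w (G.cn z s (i + 1)) ∧
      G.Adj b x ∧ G.Adj x w ∧ (w.1 = b.1 + 1 ∧ x.1 = b.1 + 1) ∧ w ≠ z ∧ x ≠ z := by
    have g1 := G.gap2 b.1 b.2
    have g2 := G.gap2 b.1 (b.2 + 1)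
    have g3 := G.gap2 b.1 (b.2 - 1)
    have s1 := sL_pos (G := G) z i
    have s2 := sR_pos (G := G) z i
    have zz : ∀ t : ℤ, t < G.an z i ∨ G.ar z i < t → (b.1 + 1, t) ≠ z := by
      rintro t h rfl
      obtain rfl : i = 0 := by simp only at e; omega
      simp [an, ar] at h
    simp only [sL, sR, l1, add_sub_cancel_right] at s1 s2 g2
    cases s <;> simp only [Bool.false_eq_true, if_false, if_true] at e'
    · have e2 : G.an z (i + 1) = b.2 + 1 := by omega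
      rw [e2, add_sub_cancel_right] at s1
      refine ⟨(b.1 + 1, G.A b.1 b.2), (b.1 + 1, G.A b.1 b.2 - 1), ?_, ?_, ?_, ?_, ⟨rfl, rfl⟩,
        zz _ (by omega), zz _ (by omega)⟩ <;> simp [adj_iff, cn, l1, e2] <;> omega
    · have e2 : G.ar z (i + 1) = b.2 - 1 := by omega
      rw [e2] at s2
      refine ⟨(b.1 + 1, G.A b.1 (b.2 - 1)), (b.1 + 1, G.A b.1 (b.2 - 1) + 1), ?_, ?_, ?_, ?_,
        ⟨rfl, rfl⟩, zz _ (by omega), zz _ (by omega)⟩ <;> simp [adj_iff, cn, l1, e2] <;> omega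
  have f3 : w ∈ G.Hd y N \ {z} := ⟨ha.2 w a1 (by omega) (by omega), a6.1⟩
  have f4 : x ∈ G.Hd y N \ {z} := ⟨ha.2 x a3 (by omega) (by omega), a6.2⟩
  have n1 : G.cn z s (i + 1) ≠ x := fun c => by
    have := congrArg Prod.fst c; simp only [cn] at this; omega
  refine (PS_par (G := G.gr) hp ?_ (PS_one hp a0 f2)
    (PS_ser hp (PS_r1 hp a1 a3 a4 f3 f4) (PS_one hp a2 f2))).trans (PS_le hp f1 hΩ _)
  simp [a2.ne.symm, a1.ne, a3.ne, n1]

/-- the chain inequality -/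
theorem chain (hp : p ≤ 1) (hz : G.Hm (G.rt y) N z)
    (hΩ : ∀ u ∈ G.Hd y N \ {z}, ∀ u' ∈ G.Hd y N \ {z}, G.Adj u u' → kk m u u' ∈ Ω)
    {iv il : ℝ≥0∞} (hv : 1 ≤ iv * if m then p else r2' p) (hl : 1 ≤ il * if m then p else rl p)
    (hb : G.Tb z b) (hy : y.1 + 2 ≤ b.1) (ha : G.Adj b f) (hf : ¬Wz G.Tb z f) :
    (EX Ω p fun ω => ind (Reach G.gr (kk m) (G.Hd y N \ {z}) o ω b)) ≤ G.ch iv il z b *
      EX Ω p fun ω => ind (Reach G.gr (kk m) (G.Hd y N \ {z}) o ω (G.yv z (G.tg z b f))) := by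
  have one : ∀ {u v : Pt} {r c : ℝ≥0∞}, 1 ≤ c * r →
      (r ≤ EX Ω p fun ω => ind (Reach G.gr (kk m) (G.Hd y N \ {z}) u ω v)) →
      (EX Ω p fun ω => ind (Reach G.gr (kk m) (G.Hd y N \ {z}) o ω u)) ≤
        c * EX Ω p fun ω => ind (Reach G.gr (kk m) (G.Hd y N \ {z}) o ω v) := fun h1 h2 =>
    (le_mul_of_one_le_left' h1).trans (by
      rw [mul_assoc, mul_comm _ (EX _ _ _)]
      exact mul_le_mul_right ((mul_le_mul_right h2 _).trans (reach_chain hp _ _ _ _)) _)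
  have ver : ∀ s i, y.1 + 2 + (i + 1) ≤ z.1 →
      (EX Ω p fun ω => ind (Reach G.gr (kk m) (G.Hd y N \ {z}) o ω (G.cn z s (i + 1)))) ≤ iv ^ i *
        EX Ω p fun ω => ind (Reach G.gr (kk m) (G.Hd y N \ {z}) o ω (G.cn z s 1)) := by
    intro s i
    induction i with
    | zero => simp
    | succ i ih =>
      intro h
      refine (one hv (step_v hp hz hΩ s (by omega) h)).trans ?_
      rw [pow_succ', mul_assoc]
      exact mul_le_mul_right (ih (by omega)) _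
  have h1 : 1 ≤ z.1 := by have := (G.tubeOK.lev z b hb).1; omega
  have yc := yv_cases (G := G) h1 (G.tg z b f)
  by_cases c : b.1 = z.1
  · obtain ⟨c1, rfl⟩ : G.tau z = 0 ∧ b = G.lt1 z := hb.resolve_left (by rintro ⟨i, _, _, -⟩; omega)
    rcases yc with yc | ⟨-, -, yc⟩
    · omega
    rw [if_neg (by by_cases e : G.sL z 0 = 1 <;> simp [tg, c1, e])] at yc
    rw [ch, if_pos c, one_mul, yc]
  obtain ⟨i, i1, i2, i3⟩ := hb.resolve_right fun e => c (e.2 ▸ (lt1_lev z).1)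
  obtain ⟨i, rfl⟩ : ∃ j, i = j + 1 := ⟨i - 1, by omega⟩
  have sd := tb_side i1 i2 ha hf
  have w := an_ar (G := G) z (i + 1)
  obtain ⟨s, s1, s2⟩ : ∃ s : Bool, G.yv z (G.tg z b f) = G.cn z s 1 ∧
      if s then G.ar z (i + 1) ≤ b.2 else b.2 ≤ G.an z (i + 1) := by
    rcases yc with ⟨t, yc⟩ | ⟨t, e, yc⟩
    · refine ⟨_, yc, ?_⟩
      by_cases r : G.Rt z 4 f <;> simp [tg, t, r, sd.1, sd.2]
    · have : b ≠ G.lt1 z := fun e => c (e ▸ (lt1_lev z).1)
      rw [if_pos (by by_cases e : G.sL z 0 = 1 <;> simp [tg, t, e, this])] at yc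
      by_cases r : G.Rt z 4 f
      · exact ⟨true, yc.trans (e _).symm, sd.1 r⟩
      · exact ⟨false, yc.trans (e _).symm, sd.2 r⟩
  rw [ch, if_neg c, show z.1 - b.1 = i + 1 by omega, s1, Nat.add_sub_cancel]
  split_ifs with r
  · obtain rfl : b = G.cn z s (i + 1) := Prod.ext (by simp only [cn]; omega)
      (by cases s <;> simp [cn] at s2 ⊢ <;> omega)
    rw [one_mul]
    exact ver s i (by omega)
  · refine (one hl (step_l hp hz hΩ s hb hy i2 (by cases s <;> simp at s2 ⊢ <;> omega))).trans ?_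
    rw [mul_assoc]
    exact mul_le_mul_right (ver s i (by omega)) _

end Gr.Grid
end Pool.Agent.P.MP_e4ac67_pr
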