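import Pool.Agent.P.MP_e4ac67_pr.V.Mdl

/-! The regular side: percolation forces many stops. -/

open scoped ENNReal

namespace Pool.Agent.P.MP_e4ac67_pr

theorem rk_lt_bt_iff {k : ℕ} {σ τ : Wd k} (e e' : Fin k) :
    rk (σ ++ [e]) < bt (τ ++ [e']) ↔ rk σ < rk τ := by
  rw [rk_snoc, bt_snoc]
  have := e.2
  refine ⟨fun h => Nat.lt_of_mul_lt_mul_left (a := k) (by omega), fun h => ?_⟩
  have := Nat.mul_le_mul_left k (Nat.succ_le_of_lt h)
  rw [Nat.mul_succ] at this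
  omega

theorem exists_snoc {α : Type} {u : List α} (h : u ≠ []) : ∃ σ e, u = σ ++ [e] :=
  ⟨_, _, (List.dropLast_append_getLast h).symm⟩

theorem EX_one {ι : Type} [DecidableEq ι] {Ω : Finset ι} {p : ℝ≥0∞} (hp : p ≤ 1) {a : ι}
    (ha : a ∈ Ω) (Φ : Prop → Finset ι → ℝ≥0∞) (h : ∀ r, Ins (Φ r) a) :
    (EX Ω p fun s => Φ (a ∈ s) s) = p * EX Ω p (Φ True) + (1 - p) * EX Ω p (Φ False) := by
  rw [← EX_mem hp ha (h True), ← EX_notMem hp ha (h False), ← EX_add]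
  refine EX_congr fun s _ => ?_
  by_cases k : a ∈ s <;> simp [ind, k]

theorem EX_two' {ι : Type} [DecidableEq ι] {Ω : Finset ι} {p : ℝ≥0∞} (hp : p ≤ 1) {a b : ι}
    (ha : a ∈ Ω) (hb : b ∈ Ω) (hab : a ≠ b) (Φ : Prop → Prop → Finset ι → ℝ≥0∞)
    (h1 : ∀ r r', Ins (Φ r r') a) (h2 : ∀ r r', Ins (Φ r r') b) :
    (EX Ω p fun s => Φ (a ∈ s) (b ∈ s) s) =
      p * (p * EX Ω p (Φ True True) + (1 - p) * EX Ω p (Φ True False)) +
      (1 - p) * (p * EX Ω p (Φ False True) + (1 - p) * EX Ω p (Φ False False)) := by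
  rw [EX_one hp ha (fun r s => Φ r (b ∈ s) s) fun r s => by
      simp only [Finset.mem_insert, hab.symm, false_or]; exact h1 _ _ s,
    EX_one hp hb (Φ True) (h2 True), EX_one hp hb (Φ False) (h2 False)]

namespace PlaneTri
variable {V : Type} (T : PlaneTri V) (m : Bool)

/-- an open self-avoiding path from `x` off `R` -/
def Pth (x : V) (R : V → Prop) (n : ℕ) (ω : Finset (V × V)) : Prop :=
  ∃ f : ℕ → V, f 0 = x ∧
    (∀ i < n, T.G.Adj (f i) (f (i + 1)) ∧ kk m (f i) (f (i + 1)) ∈ ω ∧ ¬R (f (i + 1))) ∧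
    ∀ i ≤ n, ∀ j ≤ n, f i = f j → i = j

/-- a continuation beyond the dart `g` -/
def Cont (g : V × V) (n : ℕ) (ω : Finset (V × V)) : Prop :=
  T.Pth m g.2 (fun v => v = g.1 ∨ (T.G.Adj g.1 v ∧ kk m g.1 v ∈ ω)) n ω

/-- admissible ground sets -/
def Adm (x : (V × V) × Finset (V × V)) : Prop :=
  T.Dart x.1 ∧ (m = false → ∀ l, T.G.Adj x.1.1 l → l ≠ x.1.2 → (x.1.1, l) ∈ x.2)

noncomputable def aM (p : ℝ≥0∞) (n : ℕ) : ℝ≥0∞ :=
  ⨆ x : {x // T.Adm m x}, EX x.1.2 p fun ω => ind (T.Cont m x.1.1 n ω)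

variable {T m} {x : V} {R R' : V → Prop} {n : ℕ} {ω ω' : Finset (V × V)} {p : ℝ≥0∞}

theorem Pth.mono (h : T.Pth m x R n ω) (hR : ∀ v, R' v → R v) (hω : ω ⊆ ω') :
    T.Pth m x R' n ω' := by
  obtain ⟨f, h0, h1, h2⟩ := h
  exact ⟨f, h0, fun i hi => ⟨(h1 i hi).1, hω (h1 i hi).2.1, fun e => (h1 i hi).2.2 (hR _ e)⟩, h2⟩

theorem pth_ins [DecidableEq V] {t l : V} (hx : x ≠ t) (hR : R t) :
    Ins (fun ω => ind (T.Pth false x R n ω)) (t, l) := fun s => by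
  refine ind_congr ⟨?_, fun h => h.mono (fun _ e => e) (Finset.subset_insert _ _)⟩
  rintro ⟨f, h0, h1, h2⟩
  refine ⟨f, h0, fun i hi => ⟨(h1 i hi).1, (Finset.mem_insert.1 (h1 i hi).2.1).resolve_left
    fun e => ?_, (h1 i hi).2.2⟩, h2⟩
  have e' : f i = t := congrArg Prod.fst e
  obtain _ | i := i
  · exact hx (h0 ▸ e')
  · exact (h1 i (by omega)).2.2 (e' ▸ hR)

theorem le_aM {g : V × V} {Ω : Finset (V × V)} (h : T.Adm m (g, Ω)) (n : ℕ) :
    (EX Ω p fun ω => ind (T.Cont m g n ω)) ≤ T.aM m p n :=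
  le_iSup (fun x : {x // T.Adm m x} => EX x.1.2 p fun ω => ind (T.Cont m x.1.1 n ω)) ⟨_, h⟩

theorem aM_pos {k : ℕ} (hT : ∀ v, T.deg v = k) (hp : p ≤ 1) (h : Perc T.G (kk m) p) :
    ⨅ n, T.aM m p n ≠ 0 := by
  classical
  obtain ⟨θ, hθ, v, hv⟩ := h
  have key : ∀ n, θ ≤ k * T.aM m p n := fun n => by
    obtain ⟨Ω, hΩ⟩ := hv ((n + 1) * (k + 1 + 1))
    let Ω' := Ω ∪ (T.nbr v).image fun l => (v, l)
    calc θ ≤ EX Ω' p fun ω => ind (OS T.G (kk m) ω v ((n + 1) * (k + 1 + 1))) :=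
          hΩ.trans (EX_mono_set hp Finset.subset_union_left fun s t e => ind_mono (OS_mono e))
      _ ≤ EX Ω' p fun ω => ∑' l, ind (l ∈ (T.nbr v : Set V)) * ind (T.Cont m (v, l) n ω) := by
          refine EX_mono fun ω _ => le_trans (ind_mono ?_) ((ind_exists_le _).trans
            (ENNReal.tsum_le_tsum fun l => (ind_and _ _).le))
          rintro ⟨f, h0, h1, h2⟩
          obtain ⟨i, hi, hA, hout⟩ := exists_gap
            (insert v ((T.nbr v).filter fun l => kk m v l ∈ ω)) f n (k + 1)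
            ((Finset.card_insert_le _ _).trans (Nat.succ_le_succ
              ((Finset.card_filter_le _ _).trans (by rw [card_nbr, hT])))) (by simp [h0]) h2
          simp only [Finset.mem_insert, Finset.mem_filter, mem_nbr] at hA hout
          have e : f i ≠ v := fun e => hout 0 (Nat.zero_le _)
            (Or.inr (e ▸ h1 i (by omega)))
          refine ⟨f i, mem_nbr.2 (hA.resolve_left e).1, fun j => f (i + j), rfl, fun j hj =>
            ⟨(h1 _ (by omega)).1, (h1 _ (by omega)).2, ?_⟩, fun a ha b hb e => ?_⟩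
          · have := hout j hj.le
            rwa [show i + 1 + j = i + (j + 1) by omega] at this
          · have := h2 _ (by omega) _ (by omega) e
            omega
      _ ≤ ∑' l, ind (l ∈ (T.nbr v : Set V)) * T.aM m p n := by
          rw [EX_tsum]
          refine ENNReal.tsum_le_tsum fun l => ?_
          rw [EX_mul_left]
          refine ind_mul_le fun hl => ?_
          rw [ind_of hl, one_mul]
          exact le_aM ⟨mem_nbr.1 hl, fun _ l' h' _ => Finset.mem_union_right _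
            (Finset.mem_image_of_mem _ (mem_nbr.2 h'))⟩ n
      _ = _ := by
          rw [ENNReal.tsum_mul_right, tsum_ind_mem, Set.encard_coe_eq_coe_finsetCard, card_nbr, hT]
          rfl
  intro e
  refine hθ (nonpos_iff_eq_zero.1 ((le_iInf key).trans ?_))
  rw [← ENNReal.mul_iInf (by simp), e, mul_zero]

end PlaneTri

namespace Mdl
variable {V' : Type} {k : ℕ} {M : Mdl V' k} {ξ : Finset (Wd k)} {u σ τ : Wd k} {B : ℕ}

/-- the key of a word in the regular triangulation -/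
noncomputable def ky (M : Mdl V' k) (u : Wd k) : V' × V' := kk M.m (M.hd u.dropLast) (M.hd u)

theorem ky_snoc (σ : Wd k) (e : Fin k) :
    M.ky (σ ++ [e]) = kk M.m (M.hd σ) (M.hd (σ ++ [e])) := by simp [ky]

theorem ky_snd (u : Wd k) : (M.ky u).2 = M.hd u := kk_snd _ _ _

theorem snoc_inj (hT : ∀ v, M.T.deg v = k) (hδ : M.T.Dart M.δ) {e e' : Fin k}
    (h : M.hd (σ ++ [e]) = M.hd (σ ++ [e'])) : e = e' := by
  rw [hd, hd, PlaneTri.hd_snoc, PlaneTri.hd_snoc] at h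
  exact PlaneTri.step_inj (PlaneTri.run_dart hδ σ) (hT _).ge h

theorem exists_letter (hT : ∀ v, M.T.deg v = k) (hδ : M.T.Dart M.δ) {y : V'}
    (h : M.T.G.Adj (M.hd σ) y) : ∃ e, M.hd (σ ++ [e]) = y := by
  obtain ⟨e, he⟩ := PlaneTri.exists_step_reg (k := k) (PlaneTri.run_dart hδ σ) (hT _) h
  exact ⟨e, (PlaneTri.hd_snoc _ _ _).trans he⟩

theorem Real.par2 {e : Fin k} (h : M.Real (M.pre ξ (σ ++ [e])) (σ ++ [e])) : M.acc ξ σ := by
  simpa using h.2.1.2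

theorem acc_real (h : M.acc ξ u) (h0 : u ≠ []) : M.Real (M.pre ξ u) u :=
  ((acc_iff.1 h).resolve_left h0).1.1

theorem acc_hd_inj (hT : ∀ v, M.T.deg v = k) (hδ : M.T.Dart M.δ) (h : M.acc ξ σ)
    (h' : M.acc ξ τ) (e : M.hd σ = M.hd τ) : σ = τ := by
  have key : ∀ {σ τ : Wd k}, M.acc ξ σ → M.acc ξ τ → M.hd σ = M.hd τ → τ ≠ [] → ¬rk σ < bt τ :=
    fun h h' e h0 hr => (acc_real h' h0).2.2.2.1 _ ⟨hr, h⟩ e
  by_cases a : σ = [] <;> by_cases b : τ = []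
  · rw [a, b]
  · exact absurd (by rw [a, rk_nil]; exact Nat.succ_pos _) (key h h' e b)
  · exact absurd (by rw [b, rk_nil]; exact Nat.succ_pos _) (key h' h e.symm a)
  have h1 := key h h' e b
  have h2 := key h' h e.symm a
  obtain ⟨σ, c, rfl⟩ := exists_snoc a
  obtain ⟨τ, d, rfl⟩ := exists_snoc b
  rw [rk_lt_bt_iff] at h1 h2
  obtain rfl : σ = τ := rk_inj (by omega)
  rw [snoc_inj hT hδ e]

theorem ky_inj (hT : ∀ v, M.T.deg v = k) (hδ : M.T.Dart M.δ) (h : M.Real (M.pre ξ σ) σ)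
    (h' : M.Real (M.pre ξ τ) τ) (e : M.ky σ = M.ky τ) : σ = τ := by
  obtain ⟨σ, c, rfl⟩ := exists_snoc h.1
  obtain ⟨τ, d, rfl⟩ := exists_snoc h'.1
  have e2 : M.hd (σ ++ [c]) = M.hd (τ ++ [d]) := by rw [← ky_snd, e, ky_snd]
  obtain rfl : σ = τ := by
    cases hm : M.m
    · rw [ky_snoc, ky_snoc, hm] at e
      exact acc_hd_inj hT hδ h.par2 h'.par2 (congrArg Prod.fst e)
    · rcases lt_trichotomy (rk σ) (rk τ) with g | g | g
      · exact absurd (e2 ▸ PlaneTri.adj_hd_snoc hδ σ c) (h'.2.2.2.2 hm σ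
          ⟨g.trans (rk_lt_bt _ _), h.par2⟩ (by simpa using g))
      · exact rk_inj g
      · exact absurd (e2 ▸ PlaneTri.adj_hd_snoc hδ τ d) (h.2.2.2.2 hm τ
          ⟨g.trans (rk_lt_bt _ _), h'.par2⟩ (by simpa using g))
  rw [snoc_inj hT hδ e2]

theorem Real.mem (hB : ∀ ξ u, M.acc ξ u → u.length < B) (h : M.Real (M.pre ξ u) u) :
    u ∈ words k B := by
  have := hB ξ _ h.2.1.2
  rw [List.length_dropLast] at this
  exact mem_words.2 (by omega)

open Classical in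
/-- keys of the words coupled before the batch of `u` -/
noncomputable def Kb (M : Mdl V' k) (B : ℕ) (ξ : Finset (Wd k)) (u : Wd k) : Finset (V' × V') :=
  ((words k B).filter fun τ => rk τ < bt u ∧ M.cp ξ τ).image M.ky

theorem mem_Kb {x : V' × V'} :
    x ∈ M.Kb B ξ u ↔ ∃ τ ∈ words k B, rk τ < bt u ∧ M.cp ξ τ ∧ M.ky τ = x := by
  simp only [Kb, Finset.mem_image, Finset.mem_filter, and_assoc]

/-- the last exit from the explored set -/
theorem last_exit [DecidableEq V'] (hT : ∀ v, M.T.deg v = k) (hδ : M.T.Dart M.δ)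
    (hB : ∀ ξ u, M.acc ξ u → u.length < B) {ω : Finset (V' × V')}
    (hω : ∀ τ, M.cp ξ τ → M.ky τ ∈ ω → τ ∈ ξ) {n : ℕ}
    (h : M.T.Pth M.m M.δ.2 M.Rm ((n + 1) * ((words k B).card + 1)) ω) :
    ∃ u, M.Stop ξ u ∧ M.ky u ∈ ω \ M.Kb B ξ u ∧
      M.T.Cont M.m (M.T.run M.δ u) n ((ω \ M.Kb B ξ u).erase (M.ky u)) := by
  classical
  obtain ⟨f, h0, h1, h2⟩ := h
  let A : Finset V' :=
    ((words k B).filter fun σ => M.acc ξ σ ∨ (M.Stop ξ σ ∧ M.ky σ ∈ ω)).image M.hd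
  have mA : ∀ σ, M.acc ξ σ → M.hd σ ∈ A := fun σ hσ => Finset.mem_image_of_mem _
    (Finset.mem_filter.2 ⟨mem_words.2 (hB ξ σ hσ).le, Or.inl hσ⟩)
  have cA : ∀ τ, M.cp ξ τ → M.ky τ ∈ ω → M.acc ξ τ := fun τ a b =>
    acc_iff.2 (Or.inr ⟨a, hω τ a b⟩)
  have ext : ∀ y, ¬M.Rm y → y ∉ A → ∀ σ, M.acc ξ σ → M.T.G.Adj (M.hd σ) y →
      kk M.m (M.hd σ) y ∉ ω := by
    intro y hy hA σ
    induction hn : rk σ using Nat.strong_induction_on generalizing σ with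
    | _ r ih =>
    intro a b c
    obtain ⟨e, rfl⟩ := exists_letter hT hδ b
    have hR : M.Real (M.pre ξ (σ ++ [e])) (σ ++ [e]) := by
      refine ⟨by simp, by simpa using ⟨rk_lt_bt _ _, a⟩, hy, fun τ g g' => hA (g' ▸ mA τ g.2),
        fun hm τ g g' g'' => ih _ (by simpa [hn] using g') τ rfl g.2 g'' ?_⟩
      simpa [kk, hm] using c
    rw [← ky_snoc] at c
    by_cases g : M.bad (M.pre ξ (σ ++ [e])) (σ ++ [e])
    · exact hA (Finset.mem_image_of_mem _ (Finset.mem_filter.2 ⟨hR.mem hB, Or.inr ⟨⟨hR, g⟩, c⟩⟩))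
    · exact hA (mA _ (cA _ ⟨hR, g⟩ c))
  obtain ⟨i, hi, hiA, hout⟩ := exists_gap A f n _
    (Finset.card_image_le.trans (Finset.card_filter_le _ _))
    (h0 ▸ mA [] (acc_iff.2 (Or.inl rfl))) h2
  have na : ∀ σ, M.acc ξ σ → M.hd σ ≠ f i := fun σ a e =>
    ext _ (h1 i (by omega)).2.2 (hout 0 (Nat.zero_le _)) σ a (e ▸ (h1 i (by omega)).1)
      (e ▸ (h1 i (by omega)).2.1)
  obtain ⟨u, hu, e⟩ := Finset.mem_image.1 hiA
  obtain ⟨hs, ho⟩ := (Finset.mem_filter.1 hu).2.resolve_left fun a => na u a e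
  have nK : ∀ x ∈ ω, (∀ σ, M.acc ξ σ → M.hd σ ≠ x.2) → x ∈ ω \ M.Kb B ξ u := fun x a b =>
    Finset.mem_sdiff.2 ⟨a, fun c => by
      obtain ⟨τ, -, -, d, rfl⟩ := mem_Kb.1 c
      exact b τ (cA τ d a) (ky_snd τ).symm⟩
  refine ⟨u, hs, nK _ ho fun σ a => by rw [ky_snd, e]; exact na σ a, fun j => f (i + j), e.symm,
    fun j hj => ?_, fun a ha b hb e => ?_⟩
  · have g := h1 (i + j) (by omega)
    have g' : f (i + j + 1) ∉ A := by
      have := hout j hj.le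
      rwa [show i + 1 + j = i + j + 1 by omega] at this
    obtain ⟨σ, c, rfl⟩ := exists_snoc hs.1.1
    rw [PlaneTri.run_snoc_fst]
    refine ⟨g.1, Finset.mem_erase.2 ⟨fun c => ?_, nK _ g.2.1 fun σ a b => ?_⟩, ?_⟩
    · have := congrArg Prod.snd c
      rw [ky_snd, kk_snd, e] at this
      have := h2 _ (by omega) _ (by omega) this
      omega
    · rw [kk_snd] at b
      exact g' (by rw [← show M.hd σ = f (i + j + 1) from b]; exact mA σ a)
    · rintro (b | b)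
      · exact g' (by rw [show f (i + j + 1) = M.hd σ from b]; exact mA σ hs.1.par2)
      · exact ext _ g.2.2 g' σ hs.1.par2 b.1
          (Finset.mem_sdiff.1 (Finset.mem_of_mem_erase b.2)).1
  · have := h2 _ (by omega) _ (by omega) e
    omega

theorem adm [DecidableEq V'] (hT : ∀ v, M.T.deg v = k) (hδ : M.T.Dart M.δ)
    {Ω : Finset (V' × V')} (hΩ : ∀ u ∈ words k B, M.ky u ∈ Ω)
    (hB : ∀ ξ u, M.acc ξ u → u.length < B) (h : M.Stop ξ u) :
    M.T.Adm M.m (M.T.run M.δ u, (Ω \ M.Kb B ξ u).erase (M.ky u)) := by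
  refine ⟨PlaneTri.run_dart hδ u, fun hm l h1 h2 => ?_⟩
  obtain ⟨σ, c, rfl⟩ := exists_snoc h.1.1
  simp only [PlaneTri.run_snoc_fst] at h1 h2 ⊢
  obtain ⟨e, rfl⟩ := exists_letter hT hδ h1
  refine Finset.mem_erase.2 ⟨fun a => h2 ((congrArg Prod.snd a).trans (ky_snd _)),
    Finset.mem_sdiff.2 ⟨?_, fun a => ?_⟩⟩
  · have := hΩ (σ ++ [e]) (mem_words.2 (by simpa using hB ξ σ h.1.par2))
    rwa [ky_snoc, hm] at this
  · obtain ⟨τ, -, a, b, g⟩ := mem_Kb.1 a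
    obtain ⟨τ, d, rfl⟩ := exists_snoc b.1.1
    rw [ky_snoc, hm] at g
    rw [rk_lt_bt_iff, acc_hd_inj hT hδ b.1.par2 h.1.par2 (congrArg Prod.fst g)] at a
    exact lt_irrefl _ a

theorem upper (hT : ∀ v, M.T.deg v = k) (hδ : M.T.Dart M.δ) {p : ℝ≥0∞} (hp : p ≤ 1)
    {Ω : Finset (V' × V')} (hΩ : ∀ u ∈ words k B, M.ky u ∈ Ω)
    (hB : ∀ ξ u, M.acc ξ u → u.length < B) (n : ℕ) :
    (EX Ω p fun ω => ind (M.T.Pth M.m M.δ.2 M.Rm ((n + 1) * ((words k B).card + 1)) ω)) ≤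
      p * (EX (words k B) p fun ξ => ∑' u, ind (M.Stop ξ u)) * M.T.aM M.m p n := by
  classical
  let top := (words k B).sup rk + 1
  have ht : ∀ u ∈ words k B, rk u < top := fun u h => Nat.lt_succ_of_le (Finset.le_sup (f := rk) h)
  have ov := fun {i₀ i : ℕ} => EX_ovr (Ωw := words k B) (Ω := Ω) (κ := M.ky) (cp := M.cp)
    (i₀ := i₀) (i := i) hp (fun u _ v _ e => rk_inj e) (fun ξ ξ' u e => cp_loc e)
    (fun ξ u hu _ => hΩ u hu) fun ξ u u' hu hu' e => ky_inj hT hδ hu.1 hu'.1 e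
  let C (u : Wd k) (s : Finset (V' × V')) : ℝ≥0∞ :=
    ind (M.ky u ∈ s) * ind (M.T.Cont M.m (M.T.run M.δ u) n (s.erase (M.ky u)))
  let F (u : Wd k) (ξ : Finset (Wd k)) (ω : Finset (V' × V')) : ℝ≥0∞ :=
    ind (M.Stop ξ u) * C u (ω \ M.Kb B ξ u)
  have h1 := ov (Nat.zero_le top)
    (fun _ ω => ind (M.T.Pth M.m M.δ.2 M.Rm ((n + 1) * ((words k B).card + 1)) ω))
    fun _ _ _ _ => rfl
  simp only [ovr_zero] at h1
  rw [EX_const hp] at h1
  have h2 : ∀ u, (EX (words k B) p fun ξ => EX Ω p fun η =>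
      F u ξ (ovr (words k B) rk M.cp M.ky top ξ η)) ≤
      EX (words k B) p fun ξ => ind (M.Stop ξ u) * (p * M.T.aM M.m p n) := fun u => by
    by_cases hu : bt u ≤ top
    swap
    · refine EX_mono fun ξ _ => ?_
      have : ¬M.Stop ξ u := fun a => hu ((bt_le a.1.1).trans (ht u (a.1.mem hB)).le)
      simp only [F, ind_of_not this, zero_mul, EX_zero, le_refl]
    rw [ov hu (F u) fun ξ ξ' ω e => by
      have : M.Kb B ξ u = M.Kb B ξ' u := by
        ext x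
        simp only [mem_Kb]
        exact exists_congr fun τ => and_congr_right fun _ => and_congr_right fun a => by
          rw [cp_loc fun v hv => e v (hv.trans a)]
      simp only [F, Stop, pre_loc e, this]]
    refine EX_mono fun ξ _ => ?_
    have e : ∀ η, ovr (words k B) rk M.cp M.ky (bt u) ξ η \ M.Kb B ξ u = η \ M.Kb B ξ u :=
      fun η => by
        ext x
        simp only [Finset.mem_sdiff, mem_ovr, mem_Kb]
        grind
    simp only [F, e]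
    rw [EX_mul_left]
    refine ind_mul_le fun hs => ?_
    rw [ind_of hs, one_mul, EX_drop (Ω := Ω \ M.Kb B ξ u) hp Finset.sdiff_subset fun a ha hn s => by
      rw [Finset.insert_sdiff_of_mem _ (by simpa [ha] using hn)],
      EX_congr (g := C u) fun s hs => by
        rw [Finset.sdiff_eq_self_of_disjoint (Finset.disjoint_of_subset_left hs
          Finset.sdiff_disjoint)]]
    exact (EX_mem_erase_le hp _ fun s => ind (M.T.Cont M.m (M.T.run M.δ u) n s)).trans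
      (mul_le_mul_right (PlaneTri.le_aM (adm hT hδ hΩ hB hs) n) _)
  calc _ = _ := h1.symm
    _ ≤ EX (words k B) p fun ξ => EX Ω p fun η => ∑' u,
          F u ξ (ovr (words k B) rk M.cp M.ky top ξ η) := by
        refine EX_mono fun ξ _ => EX_mono fun η _ => (ind_mono (last_exit (ξ := ξ) hT hδ hB
          fun τ a b => ?_)).trans ((ind_exists_le _).trans (ENNReal.tsum_le_tsum fun u => ?_))
        · rcases mem_ovr.1 b with b | ⟨τ', -, -, c, d, e⟩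
          · exact absurd ⟨τ, a.1.mem hB, ht τ (a.1.mem hB), a, rfl⟩ b.2
          · exact ky_inj hT hδ c.1 a.1 e ▸ d
        · rw [ind_and, ind_and]
    _ ≤ ∑' u, EX (words k B) p fun ξ => ind (M.Stop ξ u) * (p * M.T.aM M.m p n) := by
        simp only [EX_tsum]
        exact ENNReal.tsum_le_tsum h2
    _ = _ := by
        rw [← EX_tsum]
        simp only [ENNReal.tsum_mul_right]
        rw [EX_mul_right]
        ring

end Mdl

theorem model {V' : Type} {k : ℕ} {T' : PlaneTri V'} (hT' : ∀ v, T'.deg v = k) (h7 : 7 ≤ k)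
    {m : Bool} {p : ℝ≥0∞} (hp : p ≤ 1) (h : Perc T'.G (kk m) p) {lam : ℝ≥0∞} (hl : lam < 1)
    (B : ℕ) : ∃ δ, T'.Dart δ ∧ ∃ W : Prop → Prop → ℝ≥0∞,
      (∀ a a' b b' : Prop, (a → a') → (b → b') → W a' b' ≤ W a b) ∧
      (∀ (Ω : Finset (Gr.Pt × Gr.Pt)) (κ₁ κ₂ : Gr.Pt × Gr.Pt),
        (m = false → κ₁ ∈ Ω ∧ κ₂ ∈ Ω ∧ κ₁ ≠ κ₂) →
        lam ≤ EX Ω p fun s => W (m = true ∨ κ₁ ∈ s) (m = true ∨ κ₂ ∈ s)) ∧
      ∀ (r1 r2 : Prop) (bad : (Wd k → Prop) → Wd k → Prop), (m = true → r1 ∧ r2) →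
        (∀ ξ u, (Mdl.mk T' m δ r1 r2 bad).acc ξ u → u.length < B) →
        W r1 r2 ≤ p * EX (words k B) p fun ξ => ∑' u, ind ((Mdl.mk T' m δ r1 r2 bad).Stop ξ u) := by
  classical
  have L0 := PlaneTri.aM_pos hT' hp h
  have Lt : ⨅ n, T'.aM m p n ≠ ⊤ := ne_top_of_le_ne_top ENNReal.one_ne_top
    ((iInf_le _ 0).trans (iSup_le fun x => EX_ind_le_one hp _))
  obtain ⟨D, D1, D2, Dt⟩ : ∃ D, ⨅ n, T'.aM m p n < D ∧ lam * D < ⨅ n, T'.aM m p n ∧ D ≠ ⊤ := by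
    generalize ⨅ n, T'.aM m p n = L at L0 Lt
    obtain ⟨μ, a, b⟩ := exists_between hl
    have c : μ ≠ ⊤ := b.ne_top
    have d : μ⁻¹ * L ≠ ⊤ := ENNReal.mul_ne_top (ENNReal.inv_ne_top.2 a.ne_zero) Lt
    refine ⟨μ⁻¹ * L, ?_, ?_, d⟩
    · simpa using ENNReal.mul_lt_mul_left L0 Lt (ENNReal.one_lt_inv.2 b)
    · have := ENNReal.mul_lt_mul_left (mul_ne_zero (ENNReal.inv_ne_zero.2 c) L0) d a
      rwa [← mul_assoc μ, ENNReal.mul_inv_cancel a.ne_zero c, one_mul] at this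
  obtain ⟨n, hn⟩ := iInf_lt_iff.1 D1
  obtain ⟨⟨⟨δ, Ω'⟩, hδ, hΩ'⟩, hx⟩ :=
    lt_iSup_iff.1 (D2.trans_le (iInf_le _ ((n + 1) * ((words k B).card + 1))))
  simp only at hδ hΩ' hx
  let M (a b : Prop) : Mdl V' k := ⟨T', m, δ, a, b, fun _ _ => True⟩
  let Ω₂ := Ω' ∪ (words k B).image (M True True).ky
  let Φ (a b : Prop) (ω : Finset (V' × V')) : ℝ≥0∞ :=
    ind (T'.Pth m δ.2 (M a b).Rm ((n + 1) * ((words k B).card + 1)) ω)
  have hΦ : ∀ a b, EX Ω' p (Φ a b) ≤ EX Ω₂ p (Φ a b) := fun a b =>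
    EX_mono_set hp Finset.subset_union_left fun s t e => ind_mono fun g => g.mono (fun _ x => x) e
  have a1 : T'.G.Adj δ.1 (T'.rot δ.2 δ.1 1) := PlaneTri.adj_nx2 hδ.symm
  have a2 : T'.G.Adj δ.1 (T'.rot δ.2 δ.1 (k - 1)) := by
    have := PlaneTri.adj_nx2 (PlaneTri.adj_rot hδ.symm (k - 1))
    rw [← PlaneTri.rot_succ, show k - 1 + 1 = T'.deg δ.2 by rw [hT']; omega,
      PlaneTri.rot_deg hδ.symm] at this
    exact this.symm
  refine ⟨δ, hδ, fun a b => EX Ω₂ p (Φ a b) * D⁻¹, fun a a' b b' ha hb => mul_le_mul_left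
    (EX_mono fun s _ => ind_mono fun g => g.mono (fun v => Or.imp_right (Or.imp
      (And.imp_left ha) (And.imp_left hb))) le_rfl) _, fun Ω κ₁ κ₂ hκ => ?_,
    fun r1 r2 bad _ hB => ?_⟩
  · rw [EX_mul_right, ← div_eq_mul_inv, ENNReal.le_div_iff_mul_le (Or.inl D1.ne_zero) (Or.inl Dt)]
    refine hx.le.trans ?_
    cases m
    · obtain ⟨k1, k2, k3⟩ := hκ rfl
      have b1 := hΩ' rfl _ a1 (PlaneTri.adj_rot hδ.symm 1).ne'
      have b2 := hΩ' rfl _ a2 (PlaneTri.adj_rot hδ.symm (k - 1)).ne'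
      simp only [Bool.false_eq_true, false_or]
      rw [EX_two' hp k1 k2 k3 (fun a b _ => EX Ω₂ p (Φ a b)) (fun _ _ _ => rfl) fun _ _ _ => rfl]
      simp only [EX_const hp]
      refine (EX_mono (g := fun s => Φ (_ ∈ s) (_ ∈ s) s) fun s _ => ind_mono fun g =>
        g.mono ?_ le_rfl).trans ((EX_two' hp b1 b2 (fun e => ?_) Φ
          (fun _ _ => PlaneTri.pth_ins hδ.ne' (Or.inl rfl))
          fun _ _ => PlaneTri.pth_ins hδ.ne' (Or.inl rfl)).le.trans (by gcongr <;> exact hΦ _ _))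
      · have := PlaneTri.rot_inj (i := 1) (j := k - 1) hδ.symm (by rw [hT']; omega)
          (by rw [hT']; omega) (congrArg Prod.snd e)
        omega
      · rintro v (e | ⟨e, rfl⟩ | ⟨e, rfl⟩)
        exacts [Or.inl e, Or.inr ⟨a1, e⟩, Or.inr ⟨a2, e⟩]
    · simp only [true_or]
      rw [EX_const hp]
      refine (EX_mono fun s _ => ind_mono ?_).trans (hΦ _ _)
      rintro ⟨f, h0, h1, h2⟩
      refine ⟨f, h0, fun i hi => ⟨(h1 i hi).1, (h1 i hi).2.1, fun e => (h1 i hi).2.2 ?_⟩, h2⟩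
      rcases e with e | ⟨-, e⟩ | ⟨-, e⟩
      exacts [Or.inl e, Or.inr ⟨e ▸ a1, (h1 i hi).2.1⟩, Or.inr ⟨e ▸ a2, (h1 i hi).2.1⟩]
  · have := Mdl.upper (M := ⟨T', m, δ, r1, r2, bad⟩) hT' hδ hp (Ω := Ω₂)
      (fun u hu => Finset.mem_union_right _ (Finset.mem_image_of_mem _ hu)) hB n
    exact (div_eq_mul_inv _ _).ge.trans
      (ENNReal.div_le_of_le_mul (this.trans (mul_le_mul_right hn.le _)))

end Pool.Agent.P.MP_e4ac67_pr
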