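import Pool.Agent.P.MP_e4ac67_pr.V.Det
import Pool.Agent.P.MP_e4ac67_pr.V.Model

/-! The master inequality. -/

open scoped ENNReal

namespace Pool.Agent.P.MP_e4ac67_pr

/-- comparison of expectations class by class -/
theorem EX_class {ι : Type} {Ω : Finset ι} {p : ℝ≥0∞} {f g : Finset ι → ℝ≥0∞}
    {R : Finset ι → Finset ι → Prop} (hR : Equivalence R)
    (h : ∀ t, (EX Ω p fun s => ind (R t s) * f s) ≤ EX Ω p fun s => ind (R t s) * g s) :
    EX Ω p f ≤ EX Ω p g := by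
  let S : Setoid (Finset ι) := ⟨R, hR⟩
  have key : ∀ f : Finset ι → ℝ≥0∞,
      EX Ω p f = ∑' q : Quotient S, EX Ω p fun s => ind (q = Quotient.mk S s) * f s := fun f => by
    rw [← EX_tsum]
    refine EX_congr fun s _ => ?_
    rw [tsum_eq_single (Quotient.mk S s) fun q hq => by rw [ind_of_not hq, zero_mul], ind_of rfl,
      one_mul]
  rw [key f, key g]
  refine ENNReal.tsum_le_tsum fun q => ?_
  obtain ⟨t, rfl⟩ := q.exists_rep
  simp only [Quotient.eq]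
  exact h t

theorem tsum_opt {α : Type} (f : Option α → ℝ≥0∞) : ∑' r, f r = f none + ∑' a, f (some a) := by
  classical
  rw [ENNReal.tsum_eq_add_tsum_ite none]
  congr 1
  refine tsum_eq_tsum_of_ne_zero_bij (fun x => some x.1) ?_ ?_ ?_
  · intro x y h; exact Subtype.ext (Option.some.inj h)
  · rintro (_ | x) hx
    · simp at hx
    · exact ⟨⟨x, by simpa using hx⟩, rfl⟩
  · intro x; simp

namespace Gr
namespace Sc
variable {X : Sc} {V V' : Type} {T : PlaneTri V} {T' : PlaneTri V'} {r : Option Pt}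
  {ω ω' : Cf} {z v : Pt} {β : List Pt}

/-- agreement on the keys of the darts out of the old cluster -/
def Ag (X : Sc) (r : Option Pt) (ω ω' : Cf) : Prop :=
  ∀ a ∈ X.Ur r ω, ∀ b, X.G.Adj a b → (X.Op ω a b ↔ X.Op ω' a b)

theorem Ag.rc (h : X.Ag (some z) ω ω') {F : Set Pt} (hF : F ⊆ X.H \ {X.G.cv z})
    (hv : X.Rc F ω v) : X.Rc F ω' v := by
  induction hv with
  | base => exact .base
  | step a b c d ih => exact ih.step b c ((h _ (a.mono2 hF le_rfl) _ b).1 d)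

theorem Ag.ur (h : X.Ag r ω ω') : X.Ur r ω' = X.Ur r ω := by
  obtain _ | z := r
  · rfl
  refine Set.ext fun v => ⟨fun hv => ?_, h.rc le_rfl⟩
  induction hv with
  | base => exact .base
  | step _ b c d ih => exact Reach.step ih b c ((h _ ih _ b).2 d)

theorem ag_equiv (X : Sc) (r : Option Pt) : Equivalence (X.Ag r) :=
  ⟨fun _ _ _ _ _ => Iff.rfl, fun h a ha b e => (h a (h.ur ▸ ha) b e).symm,
    fun h h' a ha b e => (h a ha b e).trans (h' a (h.ur ▸ ha) b e)⟩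

theorem c_lev (h : X.Hm z) : X.y.1 + 2 ≤ z.1 := (Grid.rt_lev (G := X.G) X.y).ge.trans h.1.1

theorem c_adj (h : X.Hm z) {j : ℕ} (hj : j < 7) : X.G.Adj z (X.G.nb z j) :=
  Grid.adj_nb (by have := c_lev h; omega) (hj.trans_le (X.G.seven_le z))

theorem c_sub : X.H \ {z, X.G.cv z} ⊆ X.H \ {X.G.cv z} := fun _ h => ⟨h.1, fun e => h.2 (Or.inr e)⟩

theorem Off.uz (h : X.Off z ω v) : v ∈ X.Uz z ω := h.2.mono2 c_sub le_rfl

theorem La.uz (h : X.La z ω) : z ∈ X.Uz z ω := by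
  rcases h.2.2.1 with e | ⟨s, a, b⟩
  · exact e ▸ Reach.base
  · exact Reach.step a.uz (Grid.yv_adj (by have := c_lev h.1.1; omega) s).symm
      ⟨Hm_H h.1.1, (c_adj h.1.1 (j := 4) (by omega)).ne⟩ b

theorem Ag.bad (h : X.Ag (some z) ω ω') (hb : X.Bad z ω) : X.Bad z ω' := by
  obtain ⟨a, h1, h2, h3, h4⟩ := hb
  refine ⟨a, h1, h2, (h a ?_ _ h1).1 h3, ?_⟩ <;> split_ifs at h4 ⊢
  exacts [h4.uz, h4, ⟨h4.1, h.rc c_sub h4.2⟩, h.rc le_rfl h4]

theorem Ag.lr (h : X.Ag r ω ω') (hL : X.Lr r ω) : X.Lr r ω' := by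
  obtain _ | z := r
  · trivial
  refine ⟨hL.1, hL.2.1, hL.2.2.1.imp_right fun ⟨s, a, b⟩ => ⟨s, ⟨a.1, h.rc c_sub a.2⟩,
    (h _ a.uz _ (Grid.yv_adj (by have := c_lev hL.1.1; omega) s).symm).1 b⟩,
    (h _ (La.uz hL) _ (c_adj hL.1.1 (by omega))).1 hL.2.2.2.1,
    fun e => hL.2.2.2.2 (((X.ag_equiv _).symm h).bad e)⟩

theorem Ag.rr (h : X.Ag r ω ω') (hL : X.Lr r ω) {j : ℕ} (hj : j < 7) :
    X.Rr r ω' j = X.Rr r ω j := by
  obtain _ | z := r
  · rfl
  exact propext (or_congr_right (h _ (La.uz hL) _ (c_adj hL.1.1 hj)).symm)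

theorem Ag.stem (h : X.Ag r ω ω') (hS : X.Stem r ω β) : X.Stem r ω' β :=
  ⟨⟨hS.1.root, hS.1.nd, hS.1.dom, hS.1.ch.imp_of_mem_tail_imp fun _ v _ hv e =>
    ⟨e.1, fun g => (h v (hS.2.2 v hv g) _ e.1).1 (e.2 g)⟩, hS.1.ind⟩, hS.2.1,
    fun v a b => h.ur ▸ hS.2.2 v a b⟩

theorem Ag.mdl_eq (h : X.Ag r ω ω') (hL : X.Lr r ω) (δ : V' × V') :
    X.mdl T' δ r ω' β = X.mdl T' δ r ω β := by
  rw [mdl, mdl, h.rr hL (by omega), h.rr hL (by omega), h.ur]

/-- the stops of the family `r` -/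
noncomputable def Dst (X : Sc) (r : Option Pt) (ω : Cf) : ℝ≥0∞ :=
  ind (X.Lr r ω) * ∑' d : Pt × Pt, ind (X.Terr r ω d.1) * (ind (X.Any d ω) + ind (X.Two d ω))

theorem couple (E : Emb X.G T) (hk : ∀ v, X.k ≤ T.deg v) (hT' : ∀ v, T'.deg v = X.k)
    {δ : V' × V'} (hδ : T'.Dart δ) {B : ℕ} (hL : X.Lr r ω) (hS : X.Stem r ω β)
    (hB : ∀ ξ u, (X.mdl T' δ r ω β).acc ξ u → u.length < B) :
    (EX (words X.k B) X.p fun ξ => ∑' u, ind ((X.mdl T' δ r ω β).Stop ξ u)) * X.Pr (X.Ag r ω) ≤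
      EX X.Ω X.p fun s => ind (X.Ag r ω s) * X.Dst r s := by
  have h1 := EX_ovr (Ωw := words X.k B) (Ω := X.Ω) (κ := X.kw (X.ro r :: β))
    (cp := (X.mdl T' δ r ω β).cp) X.p1 (fun u _ v _ e => rk_inj e) (fun ξ ξ' u e => Mdl.cp_loc e)
    (fun ξ u _ h => (cp_key hL hS h).1) (fun ξ u u' => cp_inj hL hS)
    (Nat.zero_le ((words X.k B).sup rk + 1)) (fun _ s => ind (X.Ag r ω s) * X.Dst r s)
    fun _ _ _ _ => rfl
  simp only [ovr_zero] at h1
  rw [EX_const X.p1] at h1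
  rw [← h1, ← EX_mul_right]
  refine EX_mono fun ξ _ => ?_
  rw [Pr, ← EX_mul_left]
  refine EX_mono fun η _ => ?_
  rw [mul_comm]
  refine ind_mul_le fun hA => ?_
  generalize hs : ovr _ _ _ _ _ ξ η = s
  have hs' : X.Ag r ω s := fun a ha b e => (hA a ha b e).trans (by
    have := fun u h => (cp_key (T' := T') (δ := δ) (ξ := ξ) (u := u) hL hS h).2 a ha b e
    rw [← hs, Op, Op, mem_ovr]
    grind)
  rw [ind_of hs', one_mul, Dst, ind_of (hs'.lr hL), one_mul, ← hs'.mdl_eq hL]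
  refine det E hk hT' hδ (hs'.lr hL) (hs'.stem hS) fun u a b => ?_
  rw [hs'.mdl_eq hL] at a
  have := a.1.mem hB
  exact hs ▸ mem_ovr.2 (Or.inr ⟨u, this, Nat.lt_succ_of_le (Finset.le_sup (f := rk) this), a, b, rfl⟩)

/-- opening a lateral key does not help the launch -/
theorem La.of_insert (hm : X.m = false) {j : ℕ} (hj : j = 3 ∨ j = 5)
    (h : X.La z (insert (z, X.G.nb z j) ω)) : X.La z ω := by
  have l := c_lev h.1.1
  have a := c_adj h.1.1 (j := j) (by omega)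
  have op : ∀ u v, v ≠ X.G.nb z j ∨ u ≠ z → X.Op (insert (z, X.G.nb z j) ω) u v → X.Op ω u v :=
    fun u v e g => (Finset.mem_insert.1 g).resolve_left fun g => by
      rw [hm] at g
      exact e.elim (fun e => e (congrArg Prod.snd g)) fun e => e (congrArg Prod.fst g)
  refine ⟨h.1, h.2.1, h.2.2.1.imp_right ?_, op _ _ (Or.inl fun e => ?_) h.2.2.2.1, ?_⟩
  · rintro ⟨s, ⟨b, b'⟩, c⟩
    refine ⟨s, ⟨b, ?_⟩, op _ _ (Or.inl a.ne) c⟩
    clear c
    generalize X.G.yv z s = v at b'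
    induction b' with
    | base => exact .base
    | step g1 g2 g3 g4 ih =>
      refine ih.step g2 g3 (op _ _ (Or.inr fun e => ?_) g4)
      cases g1 with
      | base => exact b e.symm
      | step _ _ g _ => exact g.2 (Or.inl e)
  · have := X.G.seven_le z
    have := Grid.nb_inj (by omega) (by omega) (by omega) e
    omega
  · rintro ⟨u, b1, b2, b3, b4⟩
    refine h.2.2.2.2 ⟨u, b1, b2, Finset.mem_insert_of_mem b3, ?_⟩
    rw [if_neg (by simp [hm])] at b4 ⊢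
    exact Reach.mono2 b4 le_rfl (Finset.subset_insert _ _)

theorem lower {lam : ℝ≥0∞} {W : Prop → Prop → ℝ≥0∞}
    (h1 : ∀ a a' b b' : Prop, (a → a') → (b → b') → W a' b' ≤ W a b)
    (h2 : ∀ (Ω : Finset (Pt × Pt)) (κ₁ κ₂ : Pt × Pt), (X.m = false → κ₁ ∈ Ω ∧ κ₂ ∈ Ω ∧ κ₁ ≠ κ₂) →
      lam ≤ EX Ω X.p fun s => W (X.m = true ∨ κ₁ ∈ s) (X.m = true ∨ κ₂ ∈ s)) (r : Option Pt) :
    lam * X.Pr (X.Lr r) ≤
      EX X.Ω X.p fun s => ind (X.Lr r s) * W (X.Rr r s 3) (X.Rr r s 5) := by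
  obtain _ | z := r
  · simp only [Pr, Lr, Option.elim, ind_of trivial, one_mul, Rr, EX_const X.p1, mul_one]
    refine (h2 {(X.o, (0, 0)), (X.o, (0, 1))} (X.o, (0, 0)) (X.o, (0, 1)) (by simp)).trans
      ((EX_mono fun s _ => h1 _ _ _ _ ?_ ?_).trans (EX_const X.p1 _).le) <;>
      exact Or.imp_right False.elim
  by_cases hz : X.Ex z
  swap
  · have : ∀ s, ind (X.Lr (some z) s) = 0 := fun s => ind_of_not fun h => hz h.1
    simp only [Pr, this, EX_zero, mul_zero, zero_le]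
  have l := c_lev hz.1
  have mem : ∀ j < 7, kk X.m z (X.G.nb z j) ∈ X.Ω := fun j hj => by
    have a := c_adj hz.1 hj
    refine X.hΩ _ (H_sub (Hm_H hz.1)) _ ⟨(Grid.tb_inner hz.1.1 (Or.inl rfl) l).2 a, ?_⟩
    have b := hz.1.2
    rw [o, Grid.rt_lev] at b
    rw [Grid.adj_iff] at a
    omega
  rw [mul_comm]
  refine (mul_le_mul_right (h2 X.Ω _ _ fun hm => ⟨mem 3 (by omega), mem 5 (by omega), fun e => ?_⟩)
    _).trans (EX_pos_cor X.p1 fun a => ?_)
  · have := X.G.seven_le z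
    have e := congrArg Prod.snd e
    rw [kk_snd, kk_snd] at e
    have := Grid.nb_inj (by omega) (by omega) (by omega) e
    omega
  cases hm : X.m
  swap
  · exact Or.inr (Or.inr (Or.inr fun s => by simp only [true_or]))
  by_cases e : a = (z, X.G.nb z 3) ∨ a = (z, X.G.nb z 5)
  · refine Or.inr (Or.inl ⟨fun s => ind_mono ?_, fun s => h1 _ _ _ _ ?_ ?_⟩)
    · rcases e with rfl | rfl <;> exact La.of_insert hm (by omega)
    all_goals exact Or.imp_right Finset.mem_insert_of_mem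
  · refine Or.inr (Or.inr (Or.inr fun s => ?_))
    push Not at e
    simp only [kk, Bool.false_eq_true, if_false, Finset.mem_insert, e.1.symm, e.2.symm, false_or]

theorem master (E : Emb X.G T) (hk : ∀ v, X.k ≤ T.deg v) (hT' : ∀ v, T'.deg v = X.k)
    (h : Perc T'.G (kk X.m) X.p) {lam : ℝ≥0∞} (hl : lam < 1) :
    lam * (1 + ∑' z, X.Pr (X.La z)) ≤
      X.p * ∑' d : Pt × Pt, (X.Pr (X.Any d) + X.Pr (X.Two d)) := by
  obtain ⟨B, hB⟩ := X.acc_len
  obtain ⟨δ, hδ, W, h1, h2, h3⟩ := model hT' X.h7 X.p1 h hl B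
  have key : ∀ r, lam * X.Pr (X.Lr r) ≤ X.p * EX X.Ω X.p (X.Dst r) := fun r => by
    rw [← EX_mul_left]
    refine (lower h1 h2 r).trans (EX_class (X.ag_equiv r) fun ω => ?_)
    by_cases hL : X.Lr r ω
    swap
    · refine le_trans (EX_mono fun s _ => ind_mul_le fun a => ind_mul_le fun b => ?_)
        (EX_zero.le.trans zero_le)
      exact absurd (((X.ag_equiv r).symm a).lr b) hL
    obtain ⟨β, hS⟩ := stem_exists hL
    have hB' := fun ξ u => hB T' δ r ω β ξ u hL hS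
    calc _ ≤ EX X.Ω X.p fun s => W (X.Rr r ω 3) (X.Rr r ω 5) * ind (X.Ag r ω s) :=
          EX_mono fun s _ => ind_mul_le fun a => ind_mul_le fun _ => by
            rw [ind_of a, mul_one, a.rr hL (by omega), a.rr hL (by omega)]
      _ ≤ X.p * (_ * X.Pr (X.Ag r ω)) := by
          rw [EX_mul_left, ← mul_assoc]
          exact mul_le_mul_left (h3 _ _ _ (fun e => ⟨Or.inl e, Or.inl e⟩) hB') _
      _ ≤ _ := by
          simp only [mul_left_comm _ X.p]
          rw [EX_mul_left]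
          exact mul_le_mul_right (couple E hk hT' hδ hL hS hB') _
  calc _ = ∑' r, lam * X.Pr (X.Lr r) := by
        rw [ENNReal.tsum_mul_left, tsum_opt]
        simp only [Pr, Lr, Option.elim, ind_of trivial, EX_const X.p1]
    _ ≤ X.p * EX X.Ω X.p fun s => ∑' r, X.Dst r s := by
        rw [EX_tsum, ← ENNReal.tsum_mul_left]
        exact ENNReal.tsum_le_tsum key
    _ ≤ X.p * EX X.Ω X.p fun s => ∑' d : Pt × Pt, (ind (X.Any d s) + ind (X.Two d s)) := by
        refine mul_le_mul_right (EX_mono fun s _ => ?_) _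
        simp only [Dst, ← ENNReal.tsum_mul_left, ← mul_assoc, ← ind_and]
        rw [ENNReal.tsum_comm]
        refine ENNReal.tsum_le_tsum fun d => ?_
        rw [ENNReal.tsum_mul_right]
        exact mul_le_of_le_one_left' ((tsum_ind_le_of_unique (B := True) _ (fun _ _ => trivial)
          fun _ _ a b => terr_unique a.1 b.1 a.2 b.2).trans (ind_le_one _))
    _ = _ := by simp only [EX_tsum, EX_add, Pr]

end Sc
end Gr
end Pool.Agent.P.MP_e4ac67_pr
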