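import Pool.Agent.P.MP_e4ac67_pr.V.Tools

/-! Old paths exist; territories are disjoint. -/

namespace Pool.Agent.P.MP_e4ac67_pr.Gr

theorem dt_last {α : Type} (P : α → Prop) {L : List α} (h : ∃ a ∈ L, P a) :
    ∃ A a r, L = A ++ a :: r ∧ P a ∧ ∀ b ∈ r, ¬P b := by
  induction L with
  | nil => simp at h
  | cons c L ih =>
    by_cases g : ∃ a ∈ L, P a
    · obtain ⟨A, a, r, rfl, e⟩ := ih g
      exact ⟨c :: A, a, r, rfl, e⟩
    · obtain ⟨a, h1, h2⟩ := h
      obtain rfl := (List.mem_cons.1 h1).resolve_right fun e => g ⟨a, e, h2⟩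
      exact ⟨[], a, L, rfl, h2, fun b hb e => g ⟨b, hb, e⟩⟩

theorem Indu.sfx {G : Grid} {t : Pt} {A l : List Pt} (h : Indu G t (A ++ l)) : Indu G t l := by
  induction A with
  | nil => exact h
  | cons a A ih => exact ih h.2

namespace Sc
variable {X : Sc} {r r' : Option Pt} {ω : Cf} {x z z' v : Pt} {F : Set Pt} {A w : List Pt}

theorem dt_lev (h : X.Hm z) : X.y.1 + 2 ≤ z.1 := (Grid.rt_lev (G := X.G) X.y).ge.trans h.1.1

theorem dt_t0 (h : v ∈ X.H) : v ≠ X.t0 := by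
  rintro rfl
  have := h.2.1
  rw [t0, Grid.nb_zero, o, Grid.rt_lev] at this
  omega

theorem dt_o : X.Hm X.o := ⟨Grid.cn_self _, Nat.le_add_right _ _⟩

theorem dt_cv (z : Pt) : X.G.cv z = (z.1 + 1, X.G.A z.1 (z.2 - 1) + 2) := by
  have := X.G.gap_eq z
  have := X.G.gap2 z.1 z.2
  rw [Grid.cv, X.G.nb_ch z (by omega) (by omega)]
  congr 1
  push_cast
  ring

theorem dt_adj (h : X.Hm z) : X.G.Adj z (X.G.cv z) :=
  Grid.adj_nb (by have := dt_lev h; omega) (by have := X.G.seven_le z; omega)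

theorem dt_cv_inj (e : X.G.cv z = X.G.cv z') : z = z' := by
  obtain ⟨n, a⟩ := z
  obtain ⟨n', a'⟩ := z'
  simp only [dt_cv, Prod.mk.injEq] at e
  obtain rfl : n = n' := by omega
  have := (X.G.A_lt n).injective (show X.G.A n (a - 1) = X.G.A n (a' - 1) by omega)
  congr 1
  omega

theorem OP.sfx (h : X.OP ω (A ++ v :: w)) (hv : v ≠ X.t0) : X.OP ω (v :: w) := by
  refine ⟨List.suffix_of_suffix_length_le h.root (List.suffix_append _ _) ?_,
    h.nd.of_append_right, fun u hu => h.dom u (List.mem_append_right _ hu),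
    h.ch.right_of_append, fun e => (h.ind e).sfx⟩
  obtain _ | ⟨c, w⟩ := w
  · obtain ⟨t, e⟩ := h.root
    have := congrArg List.getLast? e
    simp at this
    exact absurd this.symm hv
  · simp

theorem OP.cons (h : X.OP ω (x :: w)) (hv : v ∈ X.H) (hn : v ∉ x :: w) (ha : X.G.Adj x v)
    (ho : X.Op ω x v) (hi : X.m = true → ∀ u ∈ w, u ≠ X.t0 → ¬X.G.Adj u v) :
    X.OP ω (v :: x :: w) :=
  ⟨h.root.trans (List.suffix_cons _ _), List.nodup_cons.2 ⟨hn, h.nd⟩,
    List.forall_mem_cons.2 ⟨Or.inl hv, h.dom⟩, List.isChain_cons_cons.2 ⟨⟨ha, fun _ => ho⟩, h.ch⟩,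
    fun e => ⟨hi e, h.ind e⟩⟩

theorem op_root : X.OP ω [X.o, X.t0] := by
  have a : X.G.Adj X.o X.t0 := Grid.adj_nb (by have := dt_lev (X := X) dt_o; omega)
    (by have := X.G.seven_le X.o; omega)
  refine ⟨List.suffix_rfl, by simpa using a.ne, ?_, by simpa using a.symm, fun _ => by simp [Indu]⟩
  simpa using Or.inl (Hm_H dt_o)

/-- a connection as an open path -/
theorem Rc.op (h : X.Rc F ω v) (hF : F ⊆ X.H) :
    ∃ w, X.OP ω (v :: w) ∧ ∀ u ∈ v :: w, u ∈ F ∨ u = X.o ∨ u = X.t0 := by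
  induction h with
  | base => exact ⟨[X.t0], op_root, by simp⟩
  | @step u v h0 h1 h2 h3 ih =>
    obtain ⟨w, a, b⟩ := ih
    by_cases g : v ∈ u :: w
    · obtain ⟨A, w', e⟩ := List.append_of_mem g
      rw [e] at a b
      exact ⟨w', a.sfx (dt_t0 (hF h2)), fun s hs => b s (List.mem_append_right _ hs)⟩
    obtain ⟨A, c, w', e, c1, c2⟩ := dt_last (L := u :: w)
      (fun c => c ≠ X.t0 ∧ X.G.Adj c v ∧ X.Op ω c v) ⟨u, by simp, dt_t0 (by
        cases h0 with
        | base => exact Hm_H dt_o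
        | step _ _ g _ => exact hF g), h1, h3⟩
    rw [e] at a b g
    refine ⟨c :: w', (a.sfx c1.1).cons (hF h2) (fun s => g (List.mem_append_right _ s)) c1.2.1
      c1.2.2 fun hm s hs s1 s2 => c2 s hs ⟨s1, s2, c1.2.2.site hm _⟩, fun s hs => ?_⟩
    rcases List.mem_cons.1 hs with rfl | hs
    exacts [Or.inl h2, b s (List.mem_append_right _ hs)]

theorem dt_uz (h : X.La z ω) : z ∈ X.Uz z ω := by
  rcases h.2.2.1 with e | ⟨s, a, b⟩
  · exact e ▸ Reach.base
  · exact Reach.step (a.2.mono2 (fun _ h => ⟨h.1, fun e => h.2 (Or.inr e)⟩) le_rfl)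
      (Grid.yv_adj (by have := dt_lev h.1.1; omega) s).symm ⟨Hm_H h.1.1, (dt_adj h.1.1).ne⟩ b

theorem stem_exists (h : X.Lr r ω) : ∃ β, X.Stem r ω β := by
  obtain _ | z := r
  · exact ⟨[X.t0], op_root, rfl, by simp⟩
  obtain ⟨w, a, b⟩ := Rc.op (dt_uz h) Set.sdiff_subset
  have c : X.G.cv z ∉ z :: w := fun e => by
    rcases b _ e with e | e | e
    · exact e.2 rfl
    · have := h.1.1.1.1
      rw [← e, dt_cv] at this
      omega
    · exact dt_t0 (Hm_H h.2.1) e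
  refine ⟨z :: w, a.cons (Hm_H h.2.1) c (dt_adj h.1.1) h.2.2.2.1 fun hm u hu u1 u2 => ?_, rfl,
    fun u hu u1 => ?_⟩
  · obtain ⟨A, w', rfl⟩ := List.append_of_mem hu
    have d := (List.nodup_cons.1 a.nd).1
    refine h.2.2.2.2 ⟨u, u2, fun e => d (e ▸ hu), h.2.2.2.1.site hm _, ?_⟩
    rw [if_pos hm]
    refine ⟨fun e => d ?_, OP.rc (A := z :: A) a u1 fun s hs s1 _ => ⟨s1, ?_⟩⟩
    · exact List.mem_append_right _ ((OP.sfx (A := z :: A) a u1).root.subset (by simp [e]))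
    · rintro (rfl | rfl)
      exacts [d (List.mem_append_right _ hs), c (List.mem_cons_of_mem _ (List.mem_append_right _ hs))]
  · obtain ⟨A, w', e⟩ := List.append_of_mem hu
    rw [e] at a c
    exact a.rc u1 fun s hs s1 _ => ⟨s1, fun e => c (e ▸ List.mem_append_right _ hs)⟩

theorem terr_unique (hL : X.Lr r ω) (hL' : X.Lr r' ω) (h : X.Terr r ω x) (h' : X.Terr r' ω x) :
    r = r' := by
  have key : ∀ {r z}, X.La z ω → X.Terr r ω x → X.Terr (some z) ω x → X.ro r ∉ X.Uz z ω :=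
    fun a b c d => c.1 (Reach.trans d (b.2.mono2
      (fun _ e => ⟨e.1, fun e' => e.2 ⟨_, a, e'⟩⟩) le_rfl))
  obtain _ | z := r <;> obtain _ | z' := r'
  · rfl
  · exact absurd Reach.base (key hL' h h')
  · exact absurd Reach.base (key hL h' h)
  by_contra e
  have ne : X.G.cv z ≠ X.G.cv z' := fun g => e (congrArg _ (dt_cv_inj g))
  have aux : ∀ v, X.Rc X.H ω v → v ∈ X.Uz z ω ∧ v ∈ X.Uz z' ω := fun v hv => by
    induction hv with
    | base => exact ⟨.base, .base⟩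
    | step _ a b c ih =>
      refine ⟨Reach.step ih.1 a ⟨b, fun g => key hL' h h' ?_⟩ c,
        Reach.step ih.2 a ⟨b, fun g => key hL h' h ?_⟩ c⟩
      · obtain rfl : _ = _ := g
        exact Reach.step ih.2 a ⟨b, ne⟩ c
      · obtain rfl : _ = _ := g
        exact Reach.step ih.1 a ⟨b, ne.symm⟩ c
  exact key hL' h h' (aux _ (Reach.step ((dt_uz hL).mono2 Set.sdiff_subset le_rfl)
    (dt_adj hL.1.1) (Hm_H hL.2.1) hL.2.2.2.1)).2

end Sc
end Pool.Agent.P.MP_e4ac67_pr.Gr
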