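import Pool.Agent.P.MP_e4ac67_pr.V.DetD
import Pool.Agent.P.MP_e4ac67_pr.V.DetT

/-! Invariants of the exploration; every stop produces a static event. -/

open scoped ENNReal

namespace Pool.Agent.P.MP_e4ac67_pr.Gr
namespace Sc
variable {X : Sc} {V V' : Type} {T : PlaneTri V} {T' : PlaneTri V'} {δ : V' × V'}
  {r r' : Option Pt} {ω : Cf} {β : List Pt} {ξ : Finset (Wd X.k)} {u u' σ τ : Wd X.k} {x y z : Pt}
  {e : Fin X.k}

theorem acc_len (X : Sc) : ∃ B, ∀ {V' : Type} (T' : PlaneTri V') δ r ω β ξ u, X.Lr r ω →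
    X.Stem r ω β → (X.mdl T' δ r ω β).acc ξ u → u.length < B := by
  refine ⟨(X.Ω.image Prod.snd).card, fun T' δ r ω β ξ u hL hS h => ?_⟩
  have D := dc_of (T' := T') (δ := δ) (ξ := ξ) hL hS
  obtain ⟨B, h1, -, h3⟩ := rl_cons (c := X.ro r) (β := β) u
  have h4 := rl_len (X.ro r :: β) u
  have h5 := (D.inv h).nd
  rw [h1] at h4 h5
  have h6 := List.toFinset_card_of_nodup (List.Nodup.of_append_left (l₁ := _ :: B) h5)
  have h7 : (X.hr (X.ro r :: β) u :: B).toFinset ⊆ X.Ω.image Prod.snd := fun v hv => by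
    have : X.Hm v := by
      rcases List.mem_cons.1 (List.mem_toFinset.1 hv) with rfl | hv
      · exact (D.hm h).1
      · obtain ⟨τ, a, -, rfl⟩ := h3 v hv
        exact (D.hm (Mdl.d_pre h a)).1
    exact Finset.mem_image.2 ⟨_, X.hΩ v (H_sub (Hm_H this)) v (H_sub (Hm_H this)), kk_snd _ _ _⟩
  have := Finset.card_le_card h7
  simp only [List.length_cons, List.length_append] at h4 h6
  omega

/-- the keys of coupled words are in the ground set and are not keys of darts out of `U` -/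
theorem cp_key (hL : X.Lr r ω) (hS : X.Stem r ω β) (h : (X.mdl T' δ r ω β).cp ξ u) :
    X.kw (X.ro r :: β) u ∈ X.Ω ∧
      ∀ a ∈ X.Ur r ω, ∀ b, X.G.Adj a b → kk X.m a b ≠ X.kw (X.ro r :: β) u := by
  have h1 := (dc_of (ξ := ξ) hL hS).hm h.1.2.1.2
  refine ⟨X.hΩ _ (H_sub (Hm_H h1.1)) _ (H_sub (Hm_H (good h).1)), fun a ha b hb e => ?_⟩
  have g := (good h).2.2.2.2.2.2
  unfold kw kk at e
  split_ifs at e with m
  · exact g m a ha ((Prod.mk.inj e).1 ▸ hb)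
  · exact h1.2.1 ((Prod.mk.inj e).1 ▸ ha)

theorem cp_inj (hL : X.Lr r ω) (hS : X.Stem r ω β) (h : (X.mdl T' δ r ω β).cp ξ u)
    (h' : (X.mdl T' δ r ω β).cp ξ u')
    (e : X.kw (X.ro r :: β) u = X.kw (X.ro r :: β) u') : u = u' := by
  have D := dc_of (T' := T') (δ := δ) (ξ := ξ) hL hS
  obtain rfl | ⟨σ, a, rfl⟩ := snoc_cases u
  · exact absurd rfl h.1.1
  obtain rfl | ⟨τ, b, rfl⟩ := snoc_cases u'
  · exact absurd rfl h'.1.1
  have e2 : X.hr (X.ro r :: β) (σ ++ [a]) = X.hr (X.ro r :: β) (τ ++ [b]) := by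
    simpa only [kw, kk_snd] using congrArg Prod.snd e
  obtain rfl : σ = τ := by
    unfold kw kk at e
    split_ifs at e with m
    · rcases lt_trichotomy (rk σ) (rk τ) with c | c | c
      · exact absurd (e2 ▸ D.adj h.1.par a) ((good h').2.2.2.1 m σ (Mdl.d_in h.1.par c.le)
          (by simpa using c))
      · exact rk_inj c
      · exact absurd (e2 ▸ D.adj h'.1.par b) ((good h).2.2.2.1 m τ (Mdl.d_in h'.1.par c.le)
          (by simpa using c))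
    · exact D.hr_inj h.1.par h'.1.par (by simpa using (Prod.mk.inj e).1)
  obtain ⟨t, w, -, -, g⟩ := D.letter h.1.par
  rw [(g a h.1.pos).2.2.2 b h'.1.pos e2]

variable (X β r) in
/-- `y` is a new neighbour of the head of `τ` -/
def Nw (y : Pt) (τ : Wd X.k) : Prop := X.G.Adj (X.hr (X.ro r :: β) τ) y ∧
  y ∉ X.rl (X.ro r :: β) τ ∧
    (τ = [] ∨ ∀ v, (X.rl (X.ro r :: β) τ).tail.head? = some v → ¬X.G.Adj v y)

theorem lat_of (hz : X.Ex z) (h1 : X.G.Adj z y) (h2 : X.G.Adj (X.G.cv z) y) :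
    y = X.G.nb z 3 ∨ y = X.G.nb z 5 := by
  obtain ⟨j, hj, rfl⟩ := Grid.exists_nb h1
  have := hz.seven
  have := Grid.nb_adj (by have := hz.1.lev; omega) (by omega) hj h2
  exact (by omega : j = 3 ∨ j = 5).imp (fun e => by rw [e]) fun e => by rw [e]

namespace DC
variable (D : X.DC T' δ r ω β ξ ω) (hT' : ∀ v, T'.deg v = X.k) (hδ : T'.Dart δ)
include D

theorem rw (h : (X.mdl T' δ r ω β).acc ξ τ) (hz : X.Ex z) (h1 : X.G.Adj (X.hr (X.ro r :: β) τ) y)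
    (h2 : y ∉ X.rl (X.ro r :: β) τ) (h3 : X.m = true → X.Nw r β y τ) (h4 : X.G.Tb z y)
    (h5 : X.G.Viol X.G.Tb Grid.c4 X.k z (X.rl (X.ro r :: β) τ) y) :
    X.RW z (X.hr (X.ro r :: β) τ, y) ω := by
  obtain ⟨t, w, e, -⟩ := D.letter h
  refine ⟨t :: w, e ▸ D.inv h, h1, e ▸ h2, h4, e ▸ h5, fun m v hv c => ?_⟩
  rcases (h3 m).2.2 with rfl | g
  swap
  · exact g v (by rw [e]; exact hv) c
  obtain ⟨st, rfl⟩ := D.hS.shape
  obtain ⟨rfl, rfl⟩ := List.cons.inj (List.cons.inj e).2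
  obtain rfl := Option.some.inj hv
  cases r with
  | none => exact Grid.not_viol (o_wz hz.1) h5
  | some z' =>
    have g : X.G.Tb z z' := by
      rcases lat_of D.hL.1 c h1 with rfl | rfl <;>
        exact Grid.tb_of_nb D.hL.1.seven (by omega) (by omega) (Or.inr h4)
    by_cases g' : Grid.Wz X.G.Tb z (X.G.cv z')
    · exact Grid.not_viol g' h5
    obtain ⟨a, f, a1, a2, a3⟩ := h5
    rw [show X.rl (X.ro (some z') :: X.tl (some z') :: st) [] = X.G.cv z' :: z' :: st from rfl,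
      Grid.itr_pos g', Grid.itr_neg (Or.inr g)] at a1 a2
    obtain rfl := Option.some.inj (a1.symm.trans a2)
    exact a3.elim (fun a => (X.G.tubeOK.lev _ _ h4).2 a.1) fun a => a.2.2 Iff.rfl

include hT' hδ

theorem nw (hR : (X.mdl T' δ r ω β).Real ((X.mdl T' δ r ω β).pre ξ (σ ++ [e])) (σ ++ [e]))
    (hm : X.m = true) (h0 : X.Hm (X.hr (X.ro r :: β) (σ ++ [e]))) :
    X.Nw r β (X.hr (X.ro r :: β) (σ ++ [e])) σ ∧ ∀ v, (X.rl (X.ro r :: β) σ).tail.head? = some v →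
      ¬X.G.Adj v (X.hr (X.ro r :: β) (σ ++ [e])) := by
  obtain ⟨t, w, e0, -, e1⟩ := D.letter hR.par
  have ad := D.adj hR.par e
  have a : ∀ v, (X.rl (X.ro r :: β) σ).tail.head? = some v →
      ¬X.G.Adj v (X.hr (X.ro r :: β) (σ ++ [e])) := fun v hv c => by
    rw [e0] at hv
    obtain rfl : t = v := Option.some.inj hv
    exact hR.mid (M := X.mdl T' δ r ω β) hT' hδ hm (Or.inl hm) (Or.inl hm)
      ((e1 e hR.pos).2.2.1 c)
  refine ⟨⟨ad, fun c => ?_, Or.inr a⟩, a⟩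
  have i := (D.inv hR.par).ind hm
  rw [e0] at c i
  rcases List.mem_cons.1 c with c | c
  · exact ad.ne c.symm
  rcases List.mem_cons.1 c with c | c
  · exact (e1 e hR.pos).1 c
  · exact i.1 _ c (fun c => t0_not (c ▸ h0)) ad.symm

theorem rex (hR : (X.mdl T' δ r ω β).Real ((X.mdl T' δ r ω β).pre ξ (σ ++ [e])) (σ ++ [e]))
    (h0 : ¬X.Hm (X.hr (X.ro r :: β) (σ ++ [e]))) :
    X.REx (X.hr (X.ro r :: β) σ, X.hr (X.ro r :: β) (σ ++ [e])) ω := by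
  obtain ⟨t, w, e0, -, e1⟩ := D.letter hR.par
  have ad := D.adj hR.par e
  have h1 := (D.hm hR.par).1
  have i := e0 ▸ D.inv hR.par
  have l0 := t0_lev (X := X)
  have tt : X.hr (X.ro r :: β) σ = X.o → t = X.t0 := fun c =>
    (List.cons.inj (sfx_uniq (w := t :: w) i.nd (by rw [c]) i.root)).1
  refine ⟨h1, h0, ad, fun c => (e1 e hR.pos).1 (c.trans (tt ?_).symm),
    (OP.rc (A := []) i (fun c => t0_not (c ▸ h1)) fun _ _ a _ => a :
      X.Rc _ ω (X.hr (X.ro r :: β) σ)), fun m c c' => ?_⟩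
  · have a1 := ad.symm.lev
    have a2 := h1.1
    simp only at c
    rw [c] at a1
    have a3 : (X.hr (X.ro r :: β) σ).1 = X.o.1 := by have := a2.1; omega
    have a4 := a2.2
    rw [a3, Nat.sub_self] at a4
    exact Prod.ext a3 (by simp only [Grid.lr, Grid.rr] at a4; omega)
  · refine hR.mid (M := X.mdl T' δ r ω β) hT' hδ m (Or.inl m) (Or.inl m) ((e1 e hR.pos).2.2.1 ?_)
    simp only at c c'
    rw [tt c]
    rw [c] at ad
    generalize X.hr (X.ro r :: β) (σ ++ [e]) = y at ad c'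
    have a1 := Grid.rt_tau (G := X.G) X.y
    have a2 := X.G.tau_succ X.t0.1 X.o.2
    have a3 := X.G.lp_spec X.t0.1 X.o.2
    have a4 : X.t0.2 = X.G.lp X.t0.1 X.o.2 := by rw [t0, Grid.nb_zero]
    rw [l0, show (X.o.1, X.o.2) = X.G.rt X.y from rfl, a1, ← a4] at a2
    rw [← a4] at a3
    rw [Grid.adj_iff] at ad ⊢
    omega

omit hT' hδ in
theorem last_nw (h : (X.mdl T' δ r ω β).acc ξ τ) (h1 : rk τ < rk σ)
    (h2 : X.G.Adj (X.hr (X.ro r :: β) τ) y) (h3 : y ∉ X.rl (X.ro r :: β) σ) :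
    ∃ τ, ((X.mdl T' δ r ω β).acc ξ τ ∧ rk τ < rk σ ∧ X.Nw r β y τ) ∧
      ∀ ρ, (X.mdl T' δ r ω β).acc ξ ρ → rk ρ < rk σ → X.Nw r β y ρ → rk ρ ≤ rk τ := by
  classical
  have ex : ∃ τ, (X.mdl T' δ r ω β).acc ξ τ ∧ rk τ < rk σ ∧ X.Nw r β y τ := by
    induction hn : rk τ using Nat.strong_induction_on generalizing τ with
    | _ n ih =>
    by_contra c
    have key : ∀ ρ a, ρ ++ [a] <+: τ → ¬X.G.Adj (X.hr (X.ro r :: β) ρ) y := fun ρ a b g => by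
      have := (rk_lt_snoc ρ a).trans_le (rk_le_of_prefix b)
      exact c (ih _ (hn ▸ this) (Mdl.d_pre h ((List.prefix_append _ _).trans b)) (by omega) g rfl)
    have sub := (rl_sfx (l := X.ro r :: β) (List.nil_prefix (l := σ))).subset
    refine c ⟨τ, h, h1, h2, fun g => ?_, ?_⟩
    · rcases mem_rl g with ⟨ρ, a, rfl⟩ | g
      · obtain rfl | ⟨ρ, b, rfl⟩ := snoc_cases ρ
        · exact h3 (sub List.mem_cons_self)
        · exact key ρ b a (D.adj (Mdl.d_pre h ((List.prefix_append _ _).trans a)) b)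
      · exact h3 (sub (List.mem_cons_of_mem _ g))
    · refine (snoc_cases τ).imp_right ?_
      rintro ⟨ρ, b, rfl⟩ v hv
      obtain ⟨B, g, -⟩ := rl_cons (c := X.ro r) (β := β) ρ
      rw [rl_snoc, g] at hv
      exact Option.some.inj hv ▸ key ρ b List.prefix_rfl
  obtain ⟨τ, g⟩ := ex
  have g1 := Nat.findGreatest_spec (P := fun n => ∃ τ, ((X.mdl T' δ r ω β).acc ξ τ ∧ rk τ < rk σ ∧
    X.Nw r β y τ) ∧ rk τ = n) g.2.1.le ⟨τ, g, rfl⟩
  obtain ⟨τ', g2, g3⟩ := g1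
  exact ⟨τ', g2, fun ρ a b c => g3 ▸ Nat.le_findGreatest b.le ⟨ρ, ⟨a, b, c⟩, rfl⟩⟩

theorem cls (E : Emb X.G T) (hk : ∀ v, X.k ≤ T.deg v) (hS : (X.mdl T' δ r ω β).Stop ξ (σ ++ [e]))
    (hy : y = X.hr (X.ro r :: β) (σ ++ [e])) : X.Any (X.hr (X.ro r :: β) σ, y) ω ∨
      (X.Nw r β y σ ∧ ∃ τ, ((X.mdl T' δ r ω β).acc ξ τ ∧ rk τ < rk σ ∧ X.Nw r β y τ) ∧
        (∀ ρ, (X.mdl T' δ r ω β).acc ξ ρ → rk ρ < rk σ → X.Nw r β y ρ → rk ρ ≤ rk τ) ∧
        X.Two (X.hr (X.ro r :: β) τ, y) ω) := by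
  obtain ⟨hR, hb⟩ := hS
  have h := hR.par
  have ad := hy ▸ D.adj h e
  by_cases h0 : X.Hm y
  swap
  · exact Or.inl (Or.inl (hy ▸ D.rex hT' hδ hR (hy ▸ h0)))
  have nw := fun m => hy ▸ D.nw hT' hδ hR m (hy ▸ h0)
  by_cases h1 : y ∉ X.rl (X.ro r :: β) σ ∧ ∃ z, X.Ex z ∧ X.G.Tb z y ∧
    X.G.Viol X.G.Tb Grid.c4 X.k z (X.rl (X.ro r :: β) σ) y
  · obtain ⟨a, z, b, c, d⟩ := h1
    exact Or.inl (Or.inr ⟨z, b, Or.inl (D.rw h b ad a (fun m => (nw m).1) c d)⟩)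
  have rf : (∃ z, X.Ex z ∧ X.RF z (X.hr (X.ro r :: β) σ, y) ω) →
      X.Any (X.hr (X.ro r :: β) σ, y) ω := fun ⟨z, a, b⟩ =>
    Or.inr ⟨z, a, Or.inr (Or.inr (Or.inr (Or.inr b)))⟩
  by_cases h3 : X.m = true ∧ ∃ τ, (X.mdl T' δ r ω β).acc ξ τ ∧ rk τ < rk σ ∧
    X.G.Adj (X.hr (X.ro r :: β) τ) y
  · obtain ⟨m, τ, a, b, c⟩ := h3
    obtain ⟨τ, g1, g2⟩ := D.last_nw a b c (nw m).1.2.1
    by_cases g : ∃ z, X.Ex z ∧ X.G.Tb z y ∧ X.G.Viol X.G.Tb Grid.c4 X.k z (X.rl (X.ro r :: β) τ) y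
    · obtain ⟨z, z1, z2, z3⟩ := g
      exact Or.inr ⟨(nw m).1, τ, g1, g2, m, z, z1,
        D.rw g1.1 z1 g1.2.2.1 g1.2.2.2.1 (fun _ => g1.2.2) z2 z3⟩
    · exact Or.inl (rf (D.failB hT' hδ E hk hR m g1.1 g1.2.1 hy h0 (nw m).1.2.1 g1.2.2.2.1 g1.2.2.1
        fun z a b => ⟨fun c => h1 ⟨(nw m).1.2.1, z, a, b, c⟩, fun c => g ⟨z, a, b, c⟩⟩))
  by_cases h2 : ∃ τ, (X.mdl T' δ r ω β).pre ξ (σ ++ [e]) τ ∧ X.hr (X.ro r :: β) τ = y
  · obtain ⟨τ, a, b⟩ := h2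
    cases m : X.m
    · exact Or.inl (rf (hy ▸ D.failA hT' hδ E hk hR m a (hy ▸ b)))
    exfalso
    obtain rfl | ⟨ρ, c, rfl⟩ := snoc_cases τ
    · exact (nw m).1.2.1 ((rl_sfx List.nil_prefix).subset (b ▸ List.mem_cons_self))
    · have g := Mdl.d_pre a.2 (List.prefix_append _ _)
      exact h3 ⟨m, ρ, g, rk_par a.1, b ▸ D.adj g c⟩
  left
  have pf : ∀ τ, τ <+: σ → X.hr (X.ro r :: β) τ ≠ y := fun τ a b =>
    h2 ⟨τ, Mdl.d_in (Mdl.d_pre h a) (rk_le_of_prefix a), b⟩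
  by_cases h5 : X.G.Tb (X.tl r) y ∨ y ∈ X.Ur r ω ∨ (X.m = true ∧ ∃ a ∈ X.Ur r ω, X.G.Adj a y)
  · cases r with
    | none =>
      rcases h5 with g | g | ⟨-, _, g, -⟩
      · have := (X.G.tubeOK.lev _ _ g).1
        have := h0.lev
        have := t0_lev (X := X)
        simp only [tl, Option.getD] at *; omega
      all_goals exact g.elim
    | some z =>
    obtain ⟨B, n1, n2⟩ := D.new h
    have far : X.m = true → ∀ v ∈ B, ¬X.G.Adj v y := fun m v hv c => by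
      obtain ⟨τ, a, b, rfl⟩ := n2 v hv
      exact h3 ⟨m, τ, Mdl.d_pre h a, b, c⟩
    by_cases g1 : X.G.Tb z y
    · exact Or.inr ⟨z, D.hL.1, Or.inr (Or.inr (Or.inl ⟨D.hL, B, n1, ad, g1, far⟩))⟩
    obtain ⟨st, hβ⟩ := D.hS.shape
    have sub : β ⊆ X.rl (X.G.cv z :: β) σ := fun v hv =>
      (rl_sfx List.nil_prefix).subset (List.mem_cons_of_mem _ hv)
    by_cases g2 : y = z
    · cases m : X.m
      · exact rf (hy ▸ D.failT hT' hδ E hk hR m (hy.symm.trans g2))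
      · exact absurd (sub (hβ ▸ g2 ▸ List.mem_cons_self)) (nw m).1.2.1
    by_cases g3 : X.m = false ∧ (y = X.G.nb z 3 ∨ y = X.G.nb z 5) ∧ X.Op ω z y ∧ y ∉ β
    · exact rf (hy ▸ D.failL hT' hδ E hk hR g3.1 hy h0 g3.2.1 g3.2.2.1 g3.2.2.2)
    have g4 : ¬Grid.Wz X.G.Tb z y := fun c => c.elim g2 g1
    refine Or.inr ⟨z, D.hL.1, Or.inr (Or.inr (Or.inr (Or.inl ⟨D.hL, B, n1, ad, Hm_H h0, g4,
      fun c => ?_, ?_, far, fun c => ?_⟩)))⟩
    · rcases List.mem_cons.1 c with c | c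
      · exact ad.ne c.symm
      · obtain ⟨τ, a, -, b⟩ := n2 y c
        exact pf τ a b.symm
    · rcases h5.resolve_left g1 with c | ⟨m, a, b, c⟩
      · obtain ⟨-, a, b, c, d⟩ := (Rc.mem c).resolve_left fun c => g4 (c ▸ o_wz D.hL.1.1)
        exact ⟨a, b, c, Or.inr d⟩
      · exact ⟨a, b, c, Or.inl m⟩
    · replace c : y = X.G.nb z 3 ∨ y = X.G.nb z 5 := c
      cases m : X.m
      · refine ⟨rfl, fun d => ?_⟩
        have g5 : y ∈ st := (List.mem_cons.1 (hβ ▸ by_contra fun c' => g3 ⟨m, c, d, c'⟩)).resolve_left g2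
        obtain ⟨A, w, rfl⟩ := List.append_of_mem g5
        have i : X.OP ω (X.G.cv z :: z :: A ++ y :: w) := by have := D.hS.1; rwa [hβ] at this
        have n := i.nd
        have n8 : X.G.cv z ∉ y :: w := fun c => (List.nodup_cons.1 n).1
          (List.mem_cons_of_mem _ (List.mem_append_right _ c))
        have n9 : z ∉ y :: w := fun c => (List.nodup_cons.1 (List.nodup_cons.1 n).2).1
          (List.mem_append_right _ c)
        have i' := OP.sfx i fun c' => t0_not (c' ▸ h0)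
        refine ⟨fun c' => ?_, i.rc (fun c' => t0_not (c' ▸ h0)) fun v hv a _ => ⟨a, ?_⟩⟩
        · exact n9 (c' ▸ i'.o_mem)
        · rintro (rfl | rfl)
          exacts [n9 hv, n8 hv]
      · exfalso
        have l7 := D.hL.1.seven
        have lv : 1 ≤ z.1 := by have := D.hL.1.1.lev; omega
        have a1 : X.G.Adj z y := by rcases c with c | c <;> exact c ▸ Grid.adj_nb lv (by omega)
        have a2 : X.G.Adj (X.G.cv z) y := by
          rcases c with c | c <;> simp [c, Grid.cv, Grid.nb_lev l7, Grid.adj_iff] <;>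
            omega
        obtain rfl | ⟨ρ, b, rfl⟩ := snoc_cases σ
        · exact (nw m).2 z (by rw [hβ]; rfl) a1
        · exact h3 ⟨m, [], Mdl.d_nil, by rw [rk_nil, rk_snoc]; omega, a2⟩
  have h6 : y ∉ X.rl (X.ro r :: β) σ := fun c => (mem_rl c).elim (fun ⟨τ, a, b⟩ => pf τ a b.symm)
    (D.not_old h0 fun c => h5 (Or.inr (Or.inl c)))
  simp only [mdl, bad, List.dropLast_concat, ← hy] at hb
  rcases hb with c | ⟨z, z1, z2⟩ | c | ⟨m, τ, a, b, c⟩ | c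
  · exact absurd h0 c
  · have z3 := z2
    obtain ⟨_, _, -, -, z3 | z3⟩ := z3
    swap
    · exact absurd ⟨h6, z, z1, z3.1, z2⟩ h1
    obtain ⟨B, g, -, g'⟩ := rl_cons (c := X.ro r) (β := β) σ
    obtain rfl := z3.1
    refine Or.inr ⟨y, z1, Or.inr (Or.inl ⟨rfl, _, g ▸ D.inv h, ad, g ▸ z2, fun m v hv n c => ?_⟩)⟩
    rcases List.mem_append.1 hv with hv | hv
    · obtain ⟨τ, a, b, rfl⟩ := g' v hv
      exact h3 ⟨m, τ, Mdl.d_pre h a, b, c⟩
    · exact h5 (Or.inr (Or.inr ⟨m, v, D.hS.2.2 v hv n, c⟩))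
  · exact absurd c h2
  · exact absurd ⟨m, τ, a.2, b, c⟩ h3
  · exact absurd c h5

end DC

theorem det (E : Emb X.G T) (hk : ∀ v, X.k ≤ T.deg v) (hT' : ∀ v, T'.deg v = X.k)
    (hδ : T'.Dart δ) (hL : X.Lr r ω) (hS : X.Stem r ω β)
    (hω : ∀ u, (X.mdl T' δ r ω β).cp ξ u → u ∈ ξ → X.kw (X.ro r :: β) u ∈ ω) :
    ∑' u, ind ((X.mdl T' δ r ω β).Stop ξ u) ≤
      ∑' d : Pt × Pt, ind (X.Terr r ω d.1) * (ind (X.Any d ω) + ind (X.Two d ω)) := by
  have D : X.DC T' δ r ω β ξ ω := ⟨hL, hS, le_rfl, hω⟩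
  have ex : ∀ u, ∃ b : Bool × Pt × Pt, (X.mdl T' δ r ω β).Stop ξ u → ∃ σ e, u = σ ++ [e] ∧
      b.2.2 = X.hr (X.ro r :: β) u ∧ ((b.1 = false ∧ b.2.1 = X.hr (X.ro r :: β) σ ∧ X.Any b.2 ω) ∨
      (b.1 = true ∧ X.Nw r β b.2.2 σ ∧ ∃ τ, b.2.1 = X.hr (X.ro r :: β) τ ∧
        ((X.mdl T' δ r ω β).acc ξ τ ∧ rk τ < rk σ ∧ X.Nw r β b.2.2 τ) ∧
        (∀ ρ, (X.mdl T' δ r ω β).acc ξ ρ → rk ρ < rk σ → X.Nw r β b.2.2 ρ → rk ρ ≤ rk τ) ∧
        X.Two b.2 ω)) := fun u => by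
    by_cases h : (X.mdl T' δ r ω β).Stop ξ u
    swap
    · exact ⟨default, fun c => absurd c h⟩
    obtain rfl | ⟨σ, e, rfl⟩ := snoc_cases u
    · exact absurd rfl h.1.1
    rcases D.cls hT' hδ E hk h rfl with c | ⟨c, τ, d⟩
    · exact ⟨(false, _), fun _ => ⟨σ, e, rfl, rfl, Or.inl ⟨rfl, rfl, c⟩⟩⟩
    · exact ⟨(true, _, _), fun _ => ⟨σ, e, rfl, rfl, Or.inr ⟨rfl, c, τ, rfl, d⟩⟩⟩
  choose enc henc using ex
  refine (tsum_le_of_enc _ (fun b : Bool × Pt × Pt => ind (X.Terr r ω b.2.1) *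
    if b.1 then ind (X.Two b.2 ω) else ind (X.Any b.2 ω)) enc (fun u u' h h' c => ?_)
      fun u h => ?_).trans_eq ?_
  · replace h := by_contra fun c => h (ind_of_not c)
    replace h' := by_contra fun c => h' (ind_of_not c)
    obtain ⟨σ, e, rfl, a1, a2⟩ := henc u h
    obtain ⟨σ', e', rfl, b1, b2⟩ := henc u' h'
    rw [← c] at b1 b2
    obtain rfl : σ = σ' := by
      rcases a2 with ⟨a2, a3, -⟩ | ⟨a2, a3, τ, a4, a5, a6, -⟩ <;>
        rcases b2 with ⟨b2, b3, -⟩ | ⟨b2, b3, τ', b4, b5, b6, -⟩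
      · exact D.hr_inj h.1.par h'.1.par (a3.symm.trans b3)
      · simp [a2] at b2
      · simp [a2] at b2
      obtain rfl := D.hr_inj a5.1 b5.1 (a4.symm.trans b4)
      rcases lt_trichotomy (rk σ) (rk σ') with g | g | g
      · exact absurd (b6 σ h.1.par g a3) (not_le.2 a5.2.1)
      · exact rk_inj g
      · exact absurd (a6 σ' h'.1.par g b3) (not_le.2 b5.2.1)
    obtain ⟨t, w, -, -, g⟩ := D.letter h.1.par
    rw [(g e h.1.pos).2.2.2 e' h'.1.pos (a1.symm.trans b1)]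
  · replace h := by_contra fun c => h (ind_of_not c)
    obtain ⟨σ, e, rfl, -, ⟨a2, a3, a4⟩ | ⟨a2, -, τ, a4, a5, -, a6⟩⟩ := henc u h
    · simp [a2, ind_of a4, ind_of h, a3, ind_of (D.terr h.1.par)]
    · simp [a2, ind_of a6, ind_of h, a4, ind_of (D.terr a5.1)]
  · rw [ENNReal.tsum_prod', tsum_bool, ← ENNReal.tsum_add]
    simp [mul_add]

end Sc
end Pool.Agent.P.MP_e4ac67_pr.Gr
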