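import Pool.Agent.P.MP_e4ac67_pr.V.TubeL
import Pool.Agent.P.MP_e4ac67_pr.A.Topo

/-! Letters on the grid, and darts that never violate a rule. -/

namespace Pool.Agent.P.MP_e4ac67_pr.Gr
namespace Grid
variable {G : Grid} {k a : ℕ} {z t v y z₁ : Pt} {w : List Pt}

/-- only consecutive neighbours are adjacent -/
theorem nb_adj (hz : 1 ≤ z.1) {i j : ℕ} (hi : i < G.dg z) (hj : j < G.dg z)
    (h : G.Adj (G.nb z i) (G.nb z j)) :
    j = i + 1 ∨ i = j + 1 ∨ (i = 0 ∧ j + 1 = G.dg z) ∨ (j = 0 ∧ i + 1 = G.dg z) := by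
  obtain ⟨n, x⟩ := z
  obtain ⟨n, rfl⟩ : ∃ m, n = m + 1 := ⟨n - 1, by simp at hz; omega⟩
  have h1 := G.gap_eq (n + 1, x)
  have h2 := G.lp_spec n x
  have h3 := G.tau_succ n x
  unfold dg at hi hj ⊢
  rw [adj_iff] at h
  rcases nb_cases (G := G) (n + 1, x) i with ⟨c, e⟩ | ⟨c, e⟩ | ⟨c, c', e⟩ | ⟨c, e⟩ | ⟨c, e⟩ <;>
    rcases nb_cases (G := G) (n + 1, x) j with ⟨d, f⟩ | ⟨d, f⟩ | ⟨d, d', f⟩ | ⟨d, f⟩ | ⟨d, f⟩ <;>
    rw [e, f] at h <;> simp only [Nat.add_sub_cancel, add_sub_cancel_right] at h h1 <;> omega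

theorem hdr_eq (hz : 1 ≤ z.1) (h : G.Adj z t) (h7 : 7 ≤ k) (hk : k ≤ G.dg z) (w : List Pt) :
    ∃ ρ : ℕ → ℕ, ∀ a, 1 ≤ a → a < k → G.hdr G.Tb c4 k z (t :: w) a = G.lk z (G.ps z t + ρ a) ∧
      (ρ a = a ∨ ρ a + k = a + G.dg z) ∧ (∀ b, ρ a = ρ b → a = b) ∧
      (k < G.dg z → G.ps z t + ρ a ≠ 4 ∧ G.ps z t + ρ a ≠ 4 + G.dg z) := by
  have h1 := (ps_spec hz h).1
  refine ⟨fun a => if a < (G.blk G.Tb c4 k z (t :: w) + G.dg z - G.ps z t) % G.dg z then a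
    else a + (G.dg z - k), fun a a1 a2 => ?_⟩
  dsimp only
  refine ⟨rfl, by split_ifs <;> omega, fun b => by split_ifs <;> omega, fun h3 => ?_⟩
  have e : G.ps z t = 4 ∨ ((G.ps z t < 4 ∨ G.dg z + 4 ≤ G.ps z t + k) ∧
      G.blk G.Tb c4 k z (t :: w) = 4) ∨ (4 < G.ps z t ∧ G.ps z t + k < G.dg z + 4 ∧
      G.blk G.Tb c4 k z (t :: w) = G.ps z t + k - G.dg z) := by
    have c : c4 z = 4 := rfl
    rw [blk]
    simp only [List.headD_cons]
    split_ifs <;> omega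
  rcases e with e | ⟨e, e'⟩ | ⟨e, e', e''⟩
  · split_ifs <;> omega
  · rw [e', mod_two (by omega)]
    split_ifs <;> omega
  · rw [e'', mod_two (by omega)]
    split_ifs <;> omega

theorem hdr_spec (hz : 1 ≤ z.1) (h : G.Adj z t) (h7 : 7 ≤ k) (hk : k ≤ G.dg z) (a1 : 1 ≤ a)
    (a2 : a < k) (e : y = G.hdr G.Tb c4 k z (t :: w) a) :
    y ≠ t ∧ (k < G.dg z → y ≠ G.cv z) ∧ (G.Adj t y → a = 1 ∨ a + 1 = k) ∧
      ∀ b, 1 ≤ b → b < k → y = G.hdr G.Tb c4 k z (t :: w) b → a = b := by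
  obtain ⟨ρ, hρ⟩ := hdr_eq hz h h7 hk w
  obtain ⟨h1, h2, h4, h5⟩ := hρ a a1 a2
  have h6 := ps_spec hz h
  rw [h1] at e
  subst e
  refine ⟨fun e => ?_, fun hk e => ?_, fun e => ?_, fun b b1 b2 e => h4 b ?_⟩
  · have := congrArg (G.ps z) e
    rw [ps_lk hz (by omega)] at this
    split_ifs at this <;> omega
  · have := congrArg (G.ps z) e
    rw [ps_lk hz (by omega), cv, ps_nb hz (by omega)] at this
    have := h5 hk
    split_ifs at * <;> omega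
  · rw [← h6.2, ps_nb hz h6.1, lk, mod_two (by omega)] at e
    have := nb_adj hz h6.1 (by split_ifs <;> omega) e
    split_ifs at this <;> omega
  · obtain ⟨g1, g2, -⟩ := hρ b b1 b2
    have := congrArg (G.ps z) e
    rw [g1, ps_lk hz (by omega), ps_lk hz (by omega)] at this
    split_ifs at this <;> omega

theorem not_viol (h : Wz G.Tb z₁ v) : ¬G.Viol G.Tb c4 k z₁ (v :: w) y := by
  rintro ⟨x, f, h1, -⟩
  rw [itr_neg h] at h1
  simp at h1

/-- darts from `z` to its bonus vertex and to the laterals of it are compliant -/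
theorem not_viol_nb {j : ℕ} (hd : 7 < G.dg z) (h3 : 3 ≤ j) (h5 : j ≤ 5) :
    ¬G.Viol G.Tb c4 k z₁ (z :: w) (G.nb z j) := fun h => by
  have h' := h
  obtain ⟨x, f, -, -, h1⟩ := h'
  exact not_viol (Or.inr (tb_of_nb hd h3 h5 (h1.elim (fun e => Or.inl e.1) fun e => Or.inr e.1))) h

theorem nb_lev {j : ℕ} (hd : 7 < G.dg z) (h2 : 2 ≤ j) (h5 : j ≤ 5) :
    G.nb z j = (z.1 + 1, G.A z.1 (z.2 - 1) + j - 2) := by
  have := G.tau_le z
  exact nb_ch _ _ h2 (by unfold dg at hd; omega)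

theorem cv_inj (hd : 7 < G.dg z) (hd' : 7 < G.dg t) (e : G.cv z = G.cv t) : z = t := by
  have h1 := G.tau_le z
  have h2 := G.tau_le t
  have h3 := G.gap_eq z
  have h4 := G.gap_eq t
  rw [cv, cv, nb_lev hd (by omega) (by omega), nb_lev hd' (by omega) (by omega),
    Prod.mk.injEq] at e
  have e1 : t.1 = z.1 := by omega
  unfold dg at hd hd'
  rw [e1] at e h4
  have a := G.lp_eq (n := z.1) (x := z.2) (y := G.A z.1 (z.2 - 1) + 2) (by omega) (by omega)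
  have b := G.lp_eq (n := z.1) (x := t.2) (y := G.A z.1 (z.2 - 1) + 2) (by omega) (by omega)
  exact Prod.ext e1.symm (a.symm.trans b)

theorem rt_mono (hd : 7 < G.dg z) (h : G.Rt z 5 v) : G.Rt z 4 v ∧ v ≠ G.cv z := by
  have key : ∀ i, G.lr (G.nb z 4) i < G.lr (G.nb z 5) i := fun i => by
    induction i with
    | zero => simp [lr, nb_lev hd]
    | succ i ih =>
      simp only [lr, nb_lev hd (j := 4) (by omega) (by omega),
        nb_lev hd (j := 5) (by omega) (by omega)] at ih ⊢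
      exact A_lt_iff.2 (by omega)
  refine ⟨?_, ?_⟩
  · unfold Rt at h ⊢
    split_ifs at h ⊢
    · exact h
    · exact (key _).le.trans h
  · rintro rfl
    have := key 0
    rw [Rt, cv, if_neg (by simp [nb_lev hd]), show (G.nb z 4).1 - (z.1 + 1) = 0 by
      simp [nb_lev hd]] at h
    simp only [lr] at this h
    omega

theorem rt_cv (hd : 7 < G.dg z) : G.Rt z 4 (G.cv z) := by
  rw [Rt, cv, if_neg (by simp [nb_lev hd]), show (G.nb z 4).1 - (z.1 + 1) = 0 by simp [nb_lev hd]]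
  exact le_rfl

/-- a marked arc that ends with its mark in the tube is a violation -/
theorem cross_viol {f l : Pt} (hd : 7 < G.dg z) (hy : G.Tb z y)
    (h : G.Cross c4 z [] (itr G.Tb z w) f l ∨ G.Cross c4 z (itr G.Tb z w) [] f l) :
    G.Viol G.Tb c4 k z w y := by
  rcases h with ⟨h1, h2, h3, h4⟩ | ⟨h1, h2, h3, h4⟩
  · have := rt_mono hd h4
    exact ⟨f, l, by simpa using h1, by simpa using h2, Or.inr ⟨hy, fun e => this.2 e.2,
      fun e => h3 (e.1 this.1)⟩⟩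
  · have := rt_mono hd h4
    exact ⟨l, f, by simpa using h2, by simpa using h1, Or.inr ⟨hy,
      fun e => h3 (e.2 ▸ rt_cv hd), fun e => h3 (e.2 this.1)⟩⟩

theorem MArc.zero {V' : Type} {T' : PlaneTri V'} {ψ : Pt → V'} {L R stem : List Pt}
    (h : G.MArc G.Tb c4 k T' ψ z L R stem) :
    ∃ f l lo hi, lo = G.lo G.Tb z (bas G.Tb z L) f ∧ hi = G.hi G.Tb z (bas G.Tb z R) l ∧
    G.Cross c4 z (itr G.Tb z L) (itr G.Tb z R) f l ∧ (∀ v ∈ itr G.Tb z L, v ∉ itr G.Tb z R) ∧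
    (G.Pocket k z (bas G.Tb z L) (itr G.Tb z L) (itr G.Tb z R) (bas G.Tb z R) lo hi ∨
     (G.AltL k z (bas G.Tb z L) (itr G.Tb z L) (bas G.Tb z R) lo hi ∧ (bas G.Tb z R = z →
        G.Far G.Tb z R stem (itr G.Tb z L) lo hi ∧ G.lk z lo ∉ L ++ R)) ∨
     (G.AltR k z (bas G.Tb z L) (itr G.Tb z R) (bas G.Tb z R) lo hi ∧ (bas G.Tb z L = z →
        G.Far G.Tb z L stem (itr G.Tb z R) lo hi ∧ G.lk z hi ∉ L ++ R))) := by
  obtain ⟨f, l, lo, hi, h1, h2, h3, h4, -, -, h5⟩ := h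
  exact ⟨f, l, lo, hi, h1, h2, h3, h4, h5.imp_right (Or.imp
    (And.imp_right fun a e => ⟨(a e).1, (a e).2.1⟩) (And.imp_right fun a e => ⟨(a e).1, (a e).2.1⟩))⟩

end Grid
end Pool.Agent.P.MP_e4ac67_pr.Gr
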