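import Pool.Agent.P.MP_e4ac67_pr.V.Stat
import Pool.Agent.P.MP_e4ac67_pr.V.TubeL

/-! Tools for the loads: shortcutting, forcing the keys of an arc, insensitivity. -/

open scoped ENNReal

namespace Pool.Agent.P.MP_e4ac67_pr.Gr

/-- shortcutting: a chain contains a chain with the same ends and without chords -/
theorem reduce {α : Type} (R : α → α → Prop) {a : α} {l : List α} (h : (a :: l).IsChain R) :
    ∃ l', l'.Sublist l ∧ (a :: l').IsChain R ∧ (a :: l').getLast? = (a :: l).getLast? ∧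
      (a :: l').Nodup ∧ ∀ d i j, i + 2 ≤ j → j ≤ l'.length →
        ¬R ((a :: l').getD i d) ((a :: l').getD j d) := by
  induction hn : l.length using Nat.strong_induction_on generalizing a l with
  | _ n ih =>
  subst hn
  by_cases h1 : a ∈ l
  · obtain ⟨B, C, rfl⟩ := List.append_of_mem h1
    obtain ⟨l', g1, g2, g3, g4⟩ := ih C.length (by simp; omega) (a := a) (l := C)
      (h.suffix ⟨a :: B, rfl⟩) rfl
    exact ⟨l', g1.trans ((List.sublist_cons_self _ _).trans (List.sublist_append_right _ _)), g2,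
      by rw [g3, ← List.cons_append, List.getLast?_append_of_ne_nil _ (by simp)], g4⟩
  obtain _ | ⟨x, t⟩ := l
  · exact ⟨[], by simp, by simp, rfl, by simp, fun d i j a b => by simp at b; omega⟩
  by_cases h2 : ∃ y ∈ t, R a y
  · obtain ⟨y, h2, h3⟩ := h2
    obtain ⟨B, C, rfl⟩ := List.append_of_mem h2
    obtain ⟨l', g1, g2, g3, g4⟩ := ih (y :: C).length (by simp) (a := a) (l := y :: C)
      (List.isChain_cons_cons.2 ⟨h3, h.suffix ⟨a :: x :: B, rfl⟩⟩) rfl
    exact ⟨l', g1.trans ((List.sublist_append_right _ _).trans (List.sublist_cons_self _ _)), g2,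
      by rw [g3, List.getLast?_cons_cons, ← List.cons_append, ← List.cons_append,
        List.getLast?_append_of_ne_nil _ (by simp)], g4⟩
  obtain ⟨l', g1, g2, g3, g4, g5⟩ := ih t.length (by simp) (a := x) (l := t) h.tail rfl
  refine ⟨x :: l', g1.cons_cons x, List.isChain_cons_cons.2 ⟨(List.isChain_cons_cons.1 h).1, g2⟩,
    by rw [List.getLast?_cons_cons, g3, List.getLast?_cons_cons],
    List.nodup_cons.2 ⟨fun e => h1 ((g1.cons_cons x).subset e), g4⟩, fun d i j a b => ?_⟩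
  obtain ⟨j, rfl⟩ : ∃ j', j = j' + 2 := ⟨j - 2, by omega⟩
  obtain _ | i := i
  · have b' : j < l'.length := by simpa using b
    refine fun e => h2 ⟨_, g1.subset (List.getElem_mem b'), ?_⟩
    simpa [List.getElem?_eq_getElem b'] using e
  · exact g5 d i (j + 1) (by omega) (by simpa using b)

open Classical in
theorem force_gen {ι K : Type} [DecidableEq K] {Ω : Finset K} {p : ℝ≥0∞} (hp : p ≤ 1)
    (S : Finset ι) (κ : ι → K) (ac op : ι → Prop) {E : Finset K → Prop}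
    (h1 : ∀ i ∈ S, ∀ j ∈ S, ac i → ac j → κ i = κ j → i = j)
    (h2 : ∀ i ∈ S, ac i → ∀ ω, E (insert (κ i) ω) ↔ E ω) (h3 : ∀ i ∈ S, ac i → κ i ∈ Ω) :
    (EX Ω p fun ω => ind (E ω ∧ ∀ i ∈ S, ac i → (κ i ∈ ω ↔ op i))) ≤
      (EX Ω p fun ω => ind (E ω)) * ∏ i ∈ S, if ac i then (if op i then p else 1 - p) else 1 := by
  induction S using Finset.induction_on with
  | empty => simp
  | insert a S ha ih =>
    have ih := ih (fun i hi j hj => h1 i (by simp [hi]) j (by simp [hj]))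
      (fun i hi => h2 i (by simp [hi])) fun i hi => h3 i (by simp [hi])
    rw [Finset.prod_insert ha, mul_left_comm]
    simp only [Finset.forall_mem_insert]
    by_cases c : ac a
    swap
    · simpa [c] using ih
    have hf : ∀ ω, ind (E (insert (κ a) ω) ∧ ∀ i ∈ S, ac i → (κ i ∈ insert (κ a) ω ↔ op i)) =
        ind (E ω ∧ ∀ i ∈ S, ac i → (κ i ∈ ω ↔ op i)) := fun ω =>
      ind_congr (and_congr (h2 a (by simp) c ω) (forall₃_congr fun i hi hc => by
        rw [Finset.mem_insert, or_iff_right fun e =>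
          ha (h1 i (by simp [hi]) a (by simp) hc c e ▸ hi)]))
    refine le_trans (le_of_eq ?_) (mul_le_mul_right ih _)
    by_cases c' : op a
    · rw [if_pos c, if_pos c', ← EX_mem hp (h3 a (by simp) c) hf]
      exact EX_congr fun ω _ => by rw [← ind_and]; exact ind_congr (by tauto)
    · rw [if_pos c, if_neg c', ← EX_notMem hp (h3 a (by simp) c) hf]
      exact EX_congr fun ω _ => by rw [← ind_and]; exact ind_congr (by tauto)

/-- a list with a property contains one from which no entry can be deleted -/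
theorem shrink {α : Type} (Φ : List α → Prop) {l : List α} (h : Φ l) :
    ∃ l', l'.Sublist l ∧ Φ l' ∧ ∀ i < l'.length, ¬Φ (l'.eraseIdx i) := by
  induction hn : l.length using Nat.strong_induction_on generalizing l with
  | _ n ih =>
  by_cases c : ∃ i < l.length, Φ (l.eraseIdx i)
  · obtain ⟨i, hi, c⟩ := c
    obtain ⟨l', a, b⟩ := ih _ (by rw [List.length_eraseIdx_of_lt hi]; omega) c rfl
    exact ⟨l', a.trans (List.eraseIdx_sublist _ _), b⟩
  · exact ⟨l, .refl _, h, fun i hi e => c ⟨i, hi, e⟩⟩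

namespace Grid
variable {G : Grid} {z u v b : Pt} {g : ℕ}

/-- a step outside the tube changes the side only below `z` -/
theorem side_adj (h3 : 3 ≤ g) (hg : g ≤ G.gap z + 2) (h : G.Adj u v) (hu : ¬Wz G.Tb z u)
    (hv : ¬Wz G.Tb z v) (hl : u.1 ≤ z.1 ∨ v.1 ≤ z.1) : G.Rt z g u ↔ G.Rt z g v := by
  constructor <;> intro a <;> by_contra c
  · obtain ⟨i, e, e' | e'⟩ := (tubeOK G).cross h3 hg h.symm hv hu c a <;>
      rw [e, e'] at hl <;> simp only [mu, la] at hl <;> omega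
  · obtain ⟨i, e, e' | e'⟩ := (tubeOK G).cross h3 hg h hu hv c a <;>
      rw [e, e'] at hl <;> simp only [mu, la] at hl <;> omega

/-- two adjacent neighbours of a tube vertex are on the same side -/
theorem side_ear (h4 : 4 ≤ g) (hg : g ≤ 5) (h3 : 3 ≤ G.gap z) (hb : G.Tb z b) (h : G.Adj u v)
    (hu : ¬Wz G.Tb z u) (hv : ¬Wz G.Tb z v) (bu : G.Adj b u) (bv : G.Adj b v) :
    G.Rt z g u ↔ G.Rt z g v := by
  by_cases hl : u.1 ≤ z.1 ∨ v.1 ≤ z.1
  · exact side_adj (by omega) (by omega) h hu hv hl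
  have h1 := (tubeOK G).lev z b hb
  have h2 := G.gap_eq z
  have a1 := bu.lev
  have a2 := bv.lev
  obtain ⟨n, x⟩ := u
  obtain ⟨n', y⟩ := v
  obtain ⟨l, w⟩ := b
  simp only at *
  obtain rfl : n = z.1 + 1 + 0 := by omega
  obtain rfl : n' = z.1 + 1 + 0 := by omega
  obtain rfl : l = z.1 := by omega
  have e : w ≠ z.2 := fun e => h1.2 (by rw [e])
  rw [adj_iff] at bu bv
  rw [rt_up, rt_up, lr, G.nb_ch z (by omega) (by omega)]
  simp only at bu bv ⊢
  rcases lt_or_gt_of_ne e with e | e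
  · have : G.A z.1 w ≤ G.A z.1 (z.2 - 1) := G.A_le (by omega)
    omega
  · have : G.A z.1 z.2 ≤ G.A z.1 (w - 1) := G.A_le (by omega)
    omega

end Grid

/-- An arc with the directions of its keys: step `i` goes forward if `fw i`, the chord over
index `i` goes forward if `fe i`, the spokes go out of `z` if `fl`. -/
structure Ak where
  z : Pt
  b : Pt
  I : List Pt
  e : Pt
  eo : ℕ → Prop
  ee : ℕ → Prop
  el : ℕ → Prop
  fw : ℕ → Prop
  fe : ℕ → Prop
  fl : Prop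

namespace Ak
variable (s : Ak)

def A (i : ℕ) : Pt := Grid.vx s.b s.I s.e i
open Classical in
noncomputable def so (i : ℕ) : Pt × Pt := if s.fw i then (s.A i, s.A (i + 1)) else (s.A (i + 1), s.A i)
open Classical in
noncomputable def se (i : ℕ) : Pt × Pt :=
  if s.fe i then (s.A (i - 1), s.A (i + 1)) else (s.A (i + 1), s.A (i - 1))
open Classical in
noncomputable def sl (i : ℕ) : Pt × Pt := if s.fl then (s.z, s.A i) else (s.A i, s.z)

/-- conditions under which all keys are different -/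
structure OK (m : Bool) : Prop where
  nd : s.I.Nodup
  hb : s.b ∉ s.I
  he : s.e ∉ s.I
  hz : s.z ∉ s.I ∨ ∀ i, ¬s.el i
  loop : s.b = s.e → 2 ≤ s.I.length ∧ (s.eo 0 → s.fw 0) ∧
    ∀ i, s.ee i → 4 ≤ s.I.length ∨ (2 ≤ i ∧ i < s.I.length)
  zb : s.b = s.z → (∀ i, ¬s.el i) ∨ ∀ i, s.el i ∨ s.ee i → i ≠ 1
  ze : s.e = s.z → (∀ i, ¬s.el i) ∨ ∀ i, s.el i ∨ s.ee i → i ≠ s.I.length
  site : m = true → ∀ i, s.eo i → s.eo (i + 1) → s.fw i → s.fw (i + 1)

variable {s} {m : Bool} {i j : ℕ}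

theorem A_zero : s.A 0 = s.b := rfl

theorem A_mid (h : i < s.I.length) : s.A (i + 1) = s.I[i] := by
  simp [A, Grid.vx, List.getElem?_append_left h, List.getElem?_eq_getElem h]

theorem A_last : s.A (s.I.length + 1) = s.e := by simp [A, Grid.vx]

theorem A_mem (h1 : 1 ≤ i) (h2 : i ≤ s.I.length) : s.A i ∈ s.I := by
  obtain ⟨i, rfl⟩ : ∃ j, i = j + 1 := ⟨i - 1, by omega⟩
  rw [A_mid h2]
  exact List.getElem_mem _

theorem A_mem' (h : i ≤ s.I.length) : s.A i ∈ s.b :: s.I := by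
  obtain _ | i := i
  exacts [List.mem_cons_self, List.mem_cons_of_mem _ (A_mem (by omega) h)]

theorem A_all (h : i ≤ s.I.length + 1) : s.A i ∈ s.b :: s.I ++ [s.e] := by
  rcases h.lt_or_eq with h | rfl
  exacts [List.mem_append_left _ (A_mem' (by omega)), by simp [A_last]]

theorem OK.inj (h : s.OK m) (hi : i ≤ s.I.length + 1) (hj : j ≤ s.I.length + 1)
    (e : s.A i = s.A j) : i = j ∨
      (s.b = s.e ∧ (i = 0 ∧ j = s.I.length + 1 ∨ j = 0 ∧ i = s.I.length + 1)) := by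
  wlog c : i < j generalizing i j
  · rcases (not_lt.1 c).lt_or_eq with c | c
    · exact (this hj hi e.symm c).imp Eq.symm (And.imp_right Or.symm)
    · exact Or.inl c.symm
  obtain ⟨j, rfl⟩ : ∃ j', j = j' + 1 := ⟨j - 1, by omega⟩
  obtain _ | i := i
  · rcases hj.lt_or_eq with c' | c'
    · exact absurd (A_mem (s := s) (i := j + 1) (by omega) (by omega)) (e ▸ h.hb)
    · exact Or.inr ⟨by rw [c', A_last] at e; exact e, Or.inl ⟨rfl, c'⟩⟩
  · rcases hj.lt_or_eq with c' | c'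
    · rw [A_mid (by omega), A_mid (by omega), h.nd.getElem_inj_iff] at e
      omega
    · rw [c', A_last] at e
      exact absurd (A_mem (s := s) (i := i + 1) (by omega) (by omega)) (e ▸ h.he)

theorem OK.zi (h : s.OK m) (hj : s.el j) (hi : i ≤ s.I.length + 1) (e : s.A i = s.z) :
    (i = 0 ∧ ∀ i, s.el i ∨ s.ee i → i ≠ 1) ∨
      (i = s.I.length + 1 ∧ ∀ i, s.el i ∨ s.ee i → i ≠ s.I.length) := by
  obtain _ | i := i
  · exact Or.inl ⟨rfl, (h.zb e).resolve_left fun c => c j hj⟩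
  rcases hi.lt_or_eq with c | c
  · exact absurd (A_mem (s := s) (i := i + 1) (by omega) (by omega))
      (e ▸ h.hz.resolve_right fun c => c j hj)
  · rw [c, A_last] at e
    exact Or.inr ⟨c, (h.ze e).resolve_left fun c => c j hj⟩

theorem so_cases (i : ℕ) : (s.fw i ∧ s.so i = (s.A i, s.A (i + 1))) ∨
    (¬s.fw i ∧ s.so i = (s.A (i + 1), s.A i)) := by unfold so; split_ifs with h <;> simp [h]

theorem se_cases (i : ℕ) : (s.fe i ∧ s.se i = (s.A (i - 1), s.A (i + 1))) ∨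
    (¬s.fe i ∧ s.se i = (s.A (i + 1), s.A (i - 1))) := by unfold se; split_ifs with h <;> simp [h]

theorem sl_cases (i : ℕ) : (s.fl ∧ s.sl i = (s.z, s.A i)) ∨ (¬s.fl ∧ s.sl i = (s.A i, s.z)) := by
  unfold sl; split_ifs with h <;> simp [h]

theorem OK.oo (h : s.OK m) (hi : i ≤ s.I.length) (hj : j ≤ s.I.length) (a : s.eo i) (b : s.eo j)
    (e : kk m (s.so i).1 (s.so i).2 = kk m (s.so j).1 (s.so j).2) : i = j := by
  have k1 := h.inj (i := i) (j := j) (by omega) (by omega)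
  have k2 := h.inj (i := i + 1) (j := j) (by omega) (by omega)
  have k3 := h.inj (i := i) (j := j + 1) (by omega) (by omega)
  have k4 := h.inj (i := i + 1) (j := j + 1) (by omega) (by omega)
  have k5 := h.loop
  have k6 := h.site
  rcases so_cases (s := s) i with ⟨c, d⟩ | ⟨c, d⟩ <;> rcases so_cases (s := s) j with ⟨c', d'⟩ | ⟨c', d'⟩ <;>
    rw [d, d'] at e <;> cases m <;> simp only [kk, Bool.false_eq_true, if_false, if_true,
      Prod.mk.injEq, and_self] at e <;> grind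

theorem OK.oe (h : s.OK m) (hi : i ≤ s.I.length) (hj : j ≤ s.I.length) (j1 : 1 ≤ j) (b : s.ee j) :
    s.so i ≠ s.se j := fun e => by
  have k1 := h.inj (i := i) (j := j - 1) (by omega) (by omega)
  have k2 := h.inj (i := i + 1) (j := j - 1) (by omega) (by omega)
  have k3 := h.inj (i := i) (j := j + 1) (by omega) (by omega)
  have k4 := h.inj (i := i + 1) (j := j + 1) (by omega) (by omega)
  have k5 := fun c => (h.loop c).2.2 j b
  rcases so_cases (s := s) i with ⟨-, d⟩ | ⟨-, d⟩ <;> rcases se_cases (s := s) j with ⟨-, d'⟩ | ⟨-, d'⟩ <;>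
    rw [d, d', Prod.mk.injEq] at e <;> grind

theorem OK.eee (h : s.OK m) (hi : i ≤ s.I.length) (hj : j ≤ s.I.length) (i1 : 1 ≤ i) (j1 : 1 ≤ j)
    (a : s.ee i) (e : s.se i = s.se j) : i = j := by
  have k1 := h.inj (i := i - 1) (j := j - 1) (by omega) (by omega)
  have k2 := h.inj (i := i + 1) (j := j - 1) (by omega) (by omega)
  have k3 := h.inj (i := i - 1) (j := j + 1) (by omega) (by omega)
  have k4 := h.inj (i := i + 1) (j := j + 1) (by omega) (by omega)
  have k5 := fun c => (h.loop c).2.2 i a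
  rcases se_cases (s := s) i with ⟨-, d⟩ | ⟨-, d⟩ <;> rcases se_cases (s := s) j with ⟨-, d'⟩ | ⟨-, d'⟩ <;>
    rw [d, d', Prod.mk.injEq] at e <;> grind

theorem OK.ol (h : s.OK m) (hi : i ≤ s.I.length) (hj : j ≤ s.I.length) (b : s.el j)
    (c : s.z ≠ s.A j) : s.so i ≠ s.sl j := fun e => by
  have k1 := h.inj (i := i) (j := j) (by omega) (by omega)
  have k2 := h.inj (i := i + 1) (j := j) (by omega) (by omega)
  have k3 := h.zi b (i := i) (by omega)
  have k4 := h.zi b (i := i + 1) (by omega)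
  rcases so_cases (s := s) i with ⟨-, d⟩ | ⟨-, d⟩ <;> rcases sl_cases (s := s) j with ⟨-, d'⟩ | ⟨-, d'⟩ <;>
    rw [d, d', Prod.mk.injEq] at e <;> grind

theorem OK.eel (h : s.OK m) (hi : i ≤ s.I.length) (i1 : 1 ≤ i) (a : s.ee i) (b : s.el j) :
    s.se i ≠ s.sl j := fun e => by
  have k3 := h.zi b (i := i - 1) (by omega)
  have k4 := h.zi b (i := i + 1) (by omega)
  rcases se_cases (s := s) i with ⟨-, d⟩ | ⟨-, d⟩ <;> rcases sl_cases (s := s) j with ⟨-, d'⟩ | ⟨-, d'⟩ <;>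
    rw [d, d', Prod.mk.injEq] at e <;> grind

theorem OK.ll (h : s.OK m) (hi : i ≤ s.I.length) (hj : j ≤ s.I.length) (e : s.sl i = s.sl j) :
    i = j := by
  have k1 := h.inj (i := i) (j := j) (by omega) (by omega)
  rcases sl_cases (s := s) i with ⟨c, d⟩ | ⟨c, d⟩ <;> rcases sl_cases (s := s) j with ⟨c', d'⟩ | ⟨c', d'⟩ <;>
    rw [d, d', Prod.mk.injEq] at e <;> grind

end Ak

namespace Sc
variable (X : Sc)

/-- the darts whose keys are prescribed -/
def Used (s : Ak) (d : Pt × Pt) : Prop := ∃ i ≤ s.I.length, (s.eo i ∧ d = s.so i) ∨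
  (X.m = false ∧ s.ee i ∧ 1 ≤ i ∧ X.G.Adj (s.A (i - 1)) (s.A (i + 1)) ∧ d = s.se i) ∨
  (X.m = false ∧ s.el i ∧ X.G.Adj s.z (s.A i) ∧ d = s.sl i)

/-- the event of an arc: steps open, ears and spokes closed (absent for site) -/
def AE (s : Ak) (ω : Cf) : Prop := (∀ v ∈ s.z :: s.b :: s.I ++ [s.e], v ∈ X.G.Hs X.y (X.N + 3)) ∧
  ∀ i ≤ s.I.length, (s.eo i → X.Op ω (s.so i).1 (s.so i).2) ∧
    (s.ee i → 1 ≤ i → X.G.Adj (s.A (i - 1)) (s.A (i + 1)) →
      X.m = false ∧ ¬X.Op ω (s.se i).1 (s.se i).2) ∧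
    (s.el i → X.G.Adj s.z (s.A i) → X.m = false ∧ ¬X.Op ω (s.sl i).1 (s.sl i).2)

/-- the event `E` does not see the key of the dart `d` -/
def Nb (E : Cf → Prop) (d : Pt × Pt) : Prop :=
  ∀ ω, E (insert (kk X.m d.1 d.2) ω) ↔ E ω

variable {X} {E E' : Cf → Prop} {s : Ak} {d : Pt × Pt} {ω : Cf} {F : Set Pt} {a b v z : Pt}

theorem force (h : s.OK X.m) (hE : ∀ d, X.Used s d → X.Nb E d) :
    (X.Pr fun ω => E ω ∧ X.AE s ω) ≤ X.Pr E * X.G.wt X.nm s.z s.b s.I s.e s.eo s.ee s.el := by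
  classical
  by_cases c : ∃ ω, X.AE s ω
  swap
  · exact le_trans (EX_mono fun ω _ => (ind_of_not fun e => c ⟨ω, e.2⟩).le) (by simp [EX_zero])
  obtain ⟨ω₀, c1, c2⟩ := c
  have hA : ∀ i ≤ s.I.length + 1, s.A i ∈ X.G.Hs X.y (X.N + 3) := fun i hi =>
    c1 _ (List.mem_cons_of_mem _ (Ak.A_all hi))
  let κ : ℕ × Fin 3 → Pt × Pt := fun x => ![s.so x.1, s.se x.1, s.sl x.1] x.2
  let ac : ℕ × Fin 3 → Prop := fun x => ![s.eo x.1,
    s.ee x.1 ∧ 1 ≤ x.1 ∧ X.G.Adj (s.A (x.1 - 1)) (s.A (x.1 + 1)), s.el x.1 ∧ X.G.Adj s.z (s.A x.1)] x.2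
  have m1 : ∀ i ≤ s.I.length, ac (i, 1) → X.m = false := fun i hi a =>
    ((c2 i hi).2.1 a.1 a.2.1 a.2.2).1
  have m2 : ∀ i ≤ s.I.length, ac (i, 2) → X.m = false := fun i hi a => ((c2 i hi).2.2 a.1 a.2).1
  have kb : X.m = false → ∀ d : Pt × Pt, kk X.m d.1 d.2 = d := fun e d => by simp [kk, e]
  refine le_trans (EX_mono fun ω _ => ind_mono ?_) ((force_gen X.p1
    (Finset.range (s.I.length + 1) ×ˢ Finset.univ) (fun x => kk X.m (κ x).1 (κ x).2) ac
    (fun x => x.2 = 0) (E := E) ?_ ?_ ?_).trans (mul_le_mul_right ?_ _))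
  rotate_left
  · rintro ⟨i, j⟩ hx ⟨i', j'⟩ hx' a a' e
    have hi : i ≤ s.I.length := by simpa [Nat.lt_succ_iff] using hx
    have hi' : i' ≤ s.I.length := by simpa [Nat.lt_succ_iff] using hx'
    fin_cases j <;> fin_cases j'
    · rw [h.oo hi hi' a a' e]
    · rw [kb (m1 _ hi' a'), kb (m1 _ hi' a')] at e
      exact absurd e (h.oe hi hi' a'.2.1 a'.1)
    · rw [kb (m2 _ hi' a'), kb (m2 _ hi' a')] at e
      exact absurd e (h.ol hi hi' a'.1 a'.2.ne)
    · rw [kb (m1 _ hi a), kb (m1 _ hi a)] at e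
      exact absurd e.symm (h.oe hi' hi a.2.1 a.1)
    · rw [kb (m1 _ hi a), kb (m1 _ hi a)] at e
      rw [h.eee hi hi' a.2.1 a'.2.1 a.1 e]
    · rw [kb (m1 _ hi a), kb (m1 _ hi a)] at e
      exact absurd e (h.eel hi a.2.1 a.1 a'.1)
    · rw [kb (m2 _ hi a), kb (m2 _ hi a)] at e
      exact absurd e.symm (h.ol hi' hi a.1 a.2.ne)
    · rw [kb (m2 _ hi a), kb (m2 _ hi a)] at e
      exact absurd e.symm (h.eel hi' a'.2.1 a'.1 a.1)
    · rw [kb (m2 _ hi a), kb (m2 _ hi a)] at e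
      rw [h.ll hi hi' e]
  · rintro ⟨i, j⟩ hx a
    have hi : i ≤ s.I.length := by simpa [Nat.lt_succ_iff] using hx
    refine hE _ ⟨i, hi, ?_⟩
    fin_cases j
    · exact Or.inl ⟨a, rfl⟩
    · exact Or.inr (Or.inl ⟨m1 i hi a, a.1, a.2.1, a.2.2, rfl⟩)
    · exact Or.inr (Or.inr ⟨m2 i hi a, a.1, a.2, rfl⟩)
  · rintro ⟨i, j⟩ hx a
    have hi : i ≤ s.I.length := by simpa [Nat.lt_succ_iff] using hx
    have a1 := hA i (by omega)
    have a2 := hA (i + 1) (by omega)
    have a3 := hA (i - 1) (by omega)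
    have a4 := c1 s.z (by simp)
    fin_cases j
    · rcases Ak.so_cases (s := s) i with ⟨-, d⟩ | ⟨-, d⟩ <;> simp only [κ] <;> erw [d] <;>
        apply X.hΩ <;> assumption
    · rcases Ak.se_cases (s := s) i with ⟨-, d⟩ | ⟨-, d⟩ <;> simp only [κ] <;> erw [d] <;>
        apply X.hΩ <;> assumption
    · rcases Ak.sl_cases (s := s) i with ⟨-, d⟩ | ⟨-, d⟩ <;> simp only [κ] <;> erw [d] <;>
        apply X.hΩ <;> assumption
  · rw [Finset.prod_product, Grid.wt]
    refine Finset.prod_le_prod' fun i hi => ?_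
    have hi : i ≤ s.I.length := by simpa [Nat.lt_succ_iff] using hi
    rw [Fin.prod_univ_three]
    refine mul_le_mul' (mul_le_mul' (le_of_eq ?_) ?_) ?_
    · exact if_congr Iff.rfl (if_pos rfl) rfl
    · by_cases a : ac (i, 1)
      · rw [if_pos a, if_neg (by simp)]
        exact le_trans (by simp [nm, m1 i hi a]) (if_pos a).ge
      · rw [if_neg a]
        exact (if_neg a).ge
    · by_cases a : ac (i, 2)
      · rw [if_pos a, if_neg (by simp)]
        exact le_trans (by simp [nm, m2 i hi a]) (if_pos a).ge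
      · rw [if_neg a]
        exact (if_neg a).ge
  · rintro e
    refine ⟨e.1, ?_⟩
    rintro ⟨i, j⟩ hx a
    have := e.2.2 i (by simpa [Nat.lt_succ_iff] using hx)
    fin_cases j
    · exact iff_of_true (this.1 a) rfl
    · exact iff_of_false (this.2.1 a.1 a.2.1 a.2.2).2 (by simp)
    · exact iff_of_false (this.2.2 a.1 a.2).2 (by simp)

theorem force_one (hE : X.Nb E (a, b)) : (X.Pr fun ω => E ω ∧ X.Op ω a b) ≤ X.Pr E * X.p := by
  have := EX_force_le (Ω := X.Ω) (f := fun ω => ind (E ω)) X.p1 {kk X.m a b}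
    fun x hx ω => by rw [Finset.mem_singleton.1 hx]; exact ind_congr (hE ω)
  rw [Finset.card_singleton, pow_one, mul_comm] at this
  refine le_trans (EX_mono fun ω _ => ?_) this
  rw [← ind_and]
  exact ind_mono fun e => ⟨Finset.singleton_subset_iff.2 e.2, e.1⟩

theorem force_not (ha : kk X.m a b ∈ X.Ω) (hE : X.Nb E (a, b)) :
    (X.Pr fun ω => E ω ∧ ¬X.Op ω a b) = X.Pr E * (1 - X.p) := by
  rw [mul_comm, Pr, Pr, ← EX_notMem X.p1 ha fun ω => ind_congr (hE ω)]
  exact EX_congr fun ω _ => by rw [and_comm, ind_and]; rfl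

theorem force_bk (ha : a ∈ X.G.Hs X.y (X.N + 3)) (hb : b ∈ X.G.Hs X.y (X.N + 3))
    (hE : X.m = false → X.Nb E (a, b)) :
    (X.Pr fun ω => E ω ∧ (X.m = false → ¬X.Op ω a b)) ≤ X.Pr E * Grid.bk X.nm := by
  cases hm : X.m
  · simpa [Grid.bk, nm, hm] using (force_not (X.hΩ a ha b hb) (hE hm)).le
  · simp [Grid.bk, nm, hm]

/-- the spoke event -/
theorem force_sp (hE : ∀ s, X.Nb E (X.G.yv z s, z)) :
    (X.Pr fun ω => E ω ∧ ∃ s, X.Op ω (X.G.yv z s) z) ≤ X.Pr E * X.nm.sp := by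
  cases hm : X.m
  swap
  · refine le_trans (EX_mono fun ω _ => ind_mono fun e => ⟨e.1, ?_⟩)
      ((force_one (hE true)).trans (by simp [nm, hm]))
    obtain ⟨s, e⟩ := e.2
    simpa [Op, kk, hm] using e
  rw [show X.nm.sp = X.p + (1 - X.p) * X.p by simp [nm, hm, par]]
  by_cases c : kk X.m (X.G.yv z false) z ∈ X.Ω ∧ X.G.yv z false ≠ X.G.yv z true
  · refine le_trans (EX_mono fun ω _ => (ind_mono ?_).trans (ind_or_le
      (E ω ∧ X.Op ω (X.G.yv z false) z)
      ((E ω ∧ X.Op ω (X.G.yv z true) z) ∧ ¬X.Op ω (X.G.yv z false) z))) ?_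
    · rintro ⟨e, _ | _, e'⟩ <;> tauto
    rw [EX_add, mul_add]
    refine add_le_add (force_one (hE false)) ((force_not c.1 fun ω => and_congr (hE false ω) ?_).trans_le ?_)
    · simp [Op, kk, hm, c.2.symm]
    · rw [mul_comm (1 - X.p), ← mul_assoc]
      exact mul_le_mul_left (force_one (hE true)) _
  · refine le_trans (EX_mono fun ω hω => ind_mono fun e => ⟨e.1, ?_⟩)
      ((force_one (hE true)).trans (mul_le_mul_right le_self_add _))
    obtain ⟨_ | _, e⟩ := e.2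
    · rwa [not_not.1 fun e' => c ⟨hω e, e'⟩] at e
    · exact e

theorem Nb.and (h : X.Nb E d) (h' : X.Nb E' d) : X.Nb (fun ω => E ω ∧ E' ω) d :=
  fun ω => and_congr (h ω) (h' ω)

theorem Nb.or (h : X.Nb E d) (h' : X.Nb E' d) : X.Nb (fun ω => E ω ∨ E' ω) d :=
  fun ω => or_congr (h ω) (h' ω)

theorem Nb.not (h : X.Nb E d) : X.Nb (fun ω => ¬E ω) d := fun ω => not_congr (h ω)

theorem Nb.ex {ι : Sort*} {E : ι → Cf → Prop} (h : ∀ i, X.Nb (E i) d) :
    X.Nb (fun ω => ∃ i, E i ω) d := fun ω => exists_congr fun i => h i ω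

theorem nb_const (A : Prop) : X.Nb (fun _ => A) d := fun _ => Iff.rfl

theorem nb_rc (h : d.2 ∉ F) : X.Nb (fun ω => X.Rc F ω v) d := by
  refine fun ω => ⟨fun e => ?_, fun e => e.mono2 le_rfl (Finset.subset_insert _ _)⟩
  induction e with
  | base => exact .base
  | step _ h1 h2 h3 ih =>
    refine Reach.step ih h1 h2 ((Finset.mem_insert.1 h3).resolve_left fun e => h ?_)
    have := congrArg Prod.snd e
    rw [kk_snd, kk_snd] at this
    exact this ▸ h2

theorem nb_op (h : d.2 ≠ b ∨ (X.m = false ∧ d.1 ≠ a)) : X.Nb (fun ω => X.Op ω a b) d := by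
  refine fun ω => Finset.mem_insert.trans (or_iff_right fun e => ?_)
  rcases h with h | h
  · have := congrArg Prod.snd e
    rw [kk_snd, kk_snd] at this
    exact h this.symm
  · simp only [kk, h.1, Bool.false_eq_true, if_false, Prod.mk.injEq] at e
    exact h.2 e.1.symm

theorem nb_ae (h : ∀ d', X.Used s d' → d.2 ≠ d'.2 ∨ (X.m = false ∧ d.1 ≠ d'.1)) :
    X.Nb (X.AE s) d := by
  refine fun ω => and_congr_right fun _ => forall₂_congr fun i hi => and_congr ?_ (and_congr ?_ ?_)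
  · exact forall_congr' fun a => nb_op (h _ ⟨i, hi, Or.inl ⟨a, rfl⟩⟩) ω
  · exact forall₃_congr fun a b c => and_congr_right fun e =>
      not_congr (nb_op (h _ ⟨i, hi, Or.inr (Or.inl ⟨e, a, b, c, rfl⟩)⟩) ω)
  · exact forall₂_congr fun a b => and_congr_right fun e =>
      not_congr (nb_op (h _ ⟨i, hi, Or.inr (Or.inr ⟨e, a, b, rfl⟩)⟩) ω)

/-- where the heads of the prescribed darts are -/
theorem Used.head (h : X.Used s d) : d.2 ∈ s.I ∨
    (d.2 = s.b ∧ ((s.eo 0 ∧ ¬s.fw 0) ∨ (s.ee 1 ∧ ¬s.fe 1) ∨ (s.el 0 ∧ s.fl))) ∨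
    (d.2 = s.e ∧ d.1 ∈ s.b :: s.I ∧ ((s.eo s.I.length ∧ s.fw s.I.length) ∨
      (X.m = false ∧ s.ee s.I.length ∧ s.fe s.I.length))) ∨
    (d.2 = s.z ∧ ¬s.fl ∧ ∃ i, s.el i) := by
  obtain ⟨i, hi, ⟨a, rfl⟩ | ⟨m, a, b, -, rfl⟩ | ⟨m, a, -, rfl⟩⟩ := h
  · rcases Ak.so_cases (s := s) i with ⟨c, d⟩ | ⟨c, d⟩ <;> rw [d]
    · rcases hi.lt_or_eq with e | rfl
      · exact Or.inl (Ak.A_mem (by omega) e)
      · exact Or.inr (Or.inr (Or.inl ⟨Ak.A_last, Ak.A_mem' hi, Or.inl ⟨a, c⟩⟩))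
    · obtain _ | i := i
      · exact Or.inr (Or.inl ⟨rfl, Or.inl ⟨a, c⟩⟩)
      · exact Or.inl (Ak.A_mem (by omega) hi)
  · rcases Ak.se_cases (s := s) i with ⟨c, d⟩ | ⟨c, d⟩ <;> rw [d]
    · rcases hi.lt_or_eq with e | rfl
      · exact Or.inl (Ak.A_mem (by omega) e)
      · exact Or.inr (Or.inr (Or.inl ⟨Ak.A_last, Ak.A_mem' (by omega), Or.inr ⟨m, a, c⟩⟩))
    · rcases b.lt_or_eq with e | rfl
      · exact Or.inl (Ak.A_mem (by omega) (by omega))
      · exact Or.inr (Or.inl ⟨rfl, Or.inr (Or.inl ⟨a, c⟩)⟩)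
  · rcases Ak.sl_cases (s := s) i with ⟨c, d⟩ | ⟨c, d⟩ <;> rw [d]
    · obtain _ | i := i
      · exact Or.inr (Or.inl ⟨rfl, Or.inr (Or.inr ⟨a, c⟩)⟩)
      · exact Or.inl (Ak.A_mem (by omega) hi)
    · exact Or.inr (Or.inr (Or.inr ⟨rfl, c, i, a⟩))

theorem Op.site (h : X.Op ω a v) (hm : X.m = true) (b : Pt) : X.Op ω b v := by
  simpa [Op, kk, hm] using h

theorem Pr_mono (h : ∀ ω, E ω → E' ω) : X.Pr E ≤ X.Pr E' := EX_mono fun ω _ => ind_mono (h ω)

theorem Pr_or : (X.Pr fun ω => E ω ∨ E' ω) ≤ X.Pr E + X.Pr E' :=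
  (EX_mono fun _ _ => ind_or_le _ _).trans (EX_add _ _).le

theorem Pr_ex {ι : Type} (E : ι → Cf → Prop) : (X.Pr fun ω => ∃ i, E i ω) ≤ ∑' i, X.Pr (E i) :=
  (EX_mono fun _ _ => ind_exists_le _).trans (EX_tsum _).le

theorem Pr_and (A : Prop) : (X.Pr fun ω => A ∧ E ω) = ind A * X.Pr E := by
  simp only [Pr, ind_and, EX_mul_left]

/-- events that determine their index -/
theorem Pr_sum {ι : Type} (E : ι → Cf → Prop) (π : ι → Pt × Pt) (R : Pt × Pt → Cf → Prop)
    (h : ∀ d ω, R d ω → ∃ i, π i = d ∧ E i ω) : ∑' d, X.Pr (R d) ≤ ∑' i, X.Pr (E i) := by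
  calc _ ≤ ∑' d, ∑' i, ind (π i = d) * X.Pr (E i) := ENNReal.tsum_le_tsum fun d =>
        (Pr_mono (h d)).trans ((Pr_ex _).trans (ENNReal.tsum_le_tsum fun i => (Pr_and _).le))
    _ ≤ _ := by
      rw [ENNReal.tsum_comm]
      refine ENNReal.tsum_le_tsum fun i => ?_
      rw [ENNReal.tsum_mul_right]
      exact mul_le_of_le_one_left' ((tsum_ind_le_of_unique (B := True) _ (fun _ _ => trivial)
        fun _ _ a b => a.symm.trans b).trans (ind_le_one _))

theorem H_sub : X.H ⊆ X.G.Hs X.y (X.N + 3) := by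
  exact fun v h => ⟨h.1, by have := h.2.2; omega⟩

theorem Hm_H (h : X.Hm v) : v ∈ X.H := by
  have h1 := h.1.1
  have h2 := h.2
  rw [o, Grid.rt_lev] at h1 h2
  exact ⟨Grid.cone_trans (Grid.rt_cone _) h.1, h1, h2⟩

theorem o_wz (h : X.Hm z) : Grid.Wz X.G.Tb z X.o := by
  exact (em _).imp_right (X.G.tubeOK.anc _ _ (Grid.cone_anc h.1))

/-- the part of an open path up to `b` -/
theorem OP.rc {A r : List Pt} (h : X.OP ω (A ++ b :: r)) (hb : b ≠ X.t0)
    (hF : ∀ v ∈ b :: r, v ∈ X.H → v ≠ X.o → v ∈ F) : X.Rc F ω b := by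
  have h1 : [X.o, X.t0] <:+ b :: r := by
    refine List.suffix_of_suffix_length_le h.root (List.suffix_append _ _) ?_
    obtain _ | ⟨c, r⟩ := r
    · obtain ⟨t, e⟩ := h.root
      have := congrArg List.getLast? e
      simp at this
      exact absurd this.symm hb
    · simp
  have h2 := h.nd.of_append_right
  have h3 := fun v hv => h.dom v (List.mem_append_right _ hv)
  have h4 := h.ch.right_of_append
  clear h
  induction r generalizing b with
  | nil => simpa using h1.length_le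
  | cons c r ih =>
    rcases List.suffix_cons_iff.1 h1 with e | e
    · exact (List.cons.inj e).1 ▸ Reach.base
    have t : c ≠ X.t0 := by
      rintro rfl
      rcases List.suffix_cons_iff.1 e with e | e
      · exact (List.nodup_cons.1 h2.of_cons).1 ((List.cons.inj e).2 ▸ List.mem_cons_self)
      · exact (List.nodup_cons.1 h2.of_cons).1 (e.subset (by simp))
    have a := (List.isChain_cons_cons.1 h4).1
    exact Reach.step (ih t (fun v hv => hF v (List.mem_cons_of_mem _ hv)) e h2.of_cons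
      (fun v hv => h3 v (List.mem_cons_of_mem _ hv)) h4.tail) a.1
      (hF b (by simp) ((h3 b (by simp)).resolve_right hb)
        fun e' => (List.nodup_cons.1 h2).1 (e.subset (by simp [e']))) (a.2 t)

/-- a connection as a list, oldest vertex first -/
theorem Rc.list (h : X.Rc F ω v) : ∃ l, (X.o :: l).Nodup ∧ (X.o :: l).getLast? = some v ∧
    (∀ u ∈ l, u ∈ F) ∧ (X.o :: l).IsChain fun a b => X.G.Adj a b ∧ X.Op ω a b := by
  obtain ⟨l, h1, h2, h3⟩ : ∃ l, (X.o :: l).getLast? = some v ∧ (∀ u ∈ l, u ∈ F) ∧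
      (X.o :: l).IsChain fun a b => X.G.Adj a b ∧ X.Op ω a b := by
    induction h with
    | base => exact ⟨[], rfl, by simp, by simp⟩
    | @step u v _ h1 h2 h3 ih =>
      obtain ⟨l, a, b, c⟩ := ih
      refine ⟨l ++ [v], by rw [← List.cons_append, List.getLast?_concat],
        List.forall_mem_append.2 ⟨b, by simpa using h2⟩, ?_⟩
      rw [← List.cons_append]
      refine c.append (by simp) fun x hx y hy => ?_
      obtain rfl : u = x := by simpa [a] using hx
      obtain rfl : v = y := by simpa using hy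
      exact ⟨h1, h3⟩
  obtain ⟨l', g1, g2, g3, g4, -⟩ := reduce _ h3
  exact ⟨l', g4, g3.trans h1, fun u hu => h2 u (g1.subset hu), g2⟩

theorem Rc.of_list {l : List Pt} (h : X.Rc F ω a) (hF : ∀ u ∈ l, u ∈ F)
    (hc : (a :: l).IsChain fun a b => X.G.Adj a b ∧ X.Op ω a b) (hv : v ∈ a :: l) :
    X.Rc F ω v := by
  induction l generalizing a with
  | nil => exact List.mem_singleton.1 hv ▸ h
  | cons b l ih =>
    rcases List.mem_cons.1 hv with rfl | hv
    · exact h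
    · have c := (List.isChain_cons_cons.1 hc).1
      exact ih (Reach.step h c.1 (hF b (by simp)) c.2) (fun u hu => hF u (by simp [hu])) hc.tail hv

end Sc
end Pool.Agent.P.MP_e4ac67_pr.Gr
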