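import Pool.Agent.P.MP_e4ac67_pr.V.Proc
import Pool.Agent.P.MP_e4ac67_pr.V.Tools
import Pool.Agent.P.MP_e4ac67_pr.V.DetA

/-! Invariants of the exploration. -/

namespace Pool.Agent.P.MP_e4ac67_pr

theorem snoc_cases {α : Type} (u : List α) : u = [] ∨ ∃ σ e, u = σ ++ [e] :=
  (List.eq_nil_or_concat u).imp_right fun ⟨σ, e, h⟩ => ⟨σ, e, by simpa using h⟩

theorem rk_par {k : ℕ} {σ τ : Wd k} {e e' : Fin k} (h : rk (τ ++ [e]) < bt (σ ++ [e'])) :
    rk τ < rk σ := by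
  rw [rk_snoc, bt_snoc] at h
  exact Nat.lt_of_mul_lt_mul_left (a := k) (by omega)

theorem rk_batch {k : ℕ} {σ τ : Wd k} {e' : Fin k} (h : bt (σ ++ [e']) ≤ rk τ)
    (h' : rk τ < rk (σ ++ [e'])) : ∃ e, τ = σ ++ [e] := by
  rw [bt_snoc] at h
  rcases snoc_cases τ with rfl | ⟨τ, e, rfl⟩
  · simp [rk_nil] at h
  rw [rk_snoc] at h h'
  rw [rk_snoc] at h'
  have h1 := e.2
  have h2 := e'.2
  have h3 : rk σ < rk τ + 1 := Nat.lt_of_mul_lt_mul_left (a := k) (by rw [mul_add]; omega)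
  have h4 : rk τ < rk σ + 1 := Nat.lt_of_mul_lt_mul_left (a := k) (by rw [mul_add]; omega)
  exact ⟨e, by rw [rk_inj (by omega : rk τ = rk σ)]⟩

namespace Mdl
variable {V' : Type} {k : ℕ} {M : Mdl V' k} {ξ : Finset (Wd k)} {u σ τ τ' : Wd k} {e : Fin k}

theorem d_nil : M.acc ξ [] := acc_iff.2 (Or.inl rfl)

theorem d_snoc : M.acc ξ (σ ++ [e]) ↔ M.cp ξ (σ ++ [e]) ∧ σ ++ [e] ∈ ξ := by simp [acc_iff]

theorem Real.par (h : M.Real (M.pre ξ (σ ++ [e])) (σ ++ [e])) : M.acc ξ σ := by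
  simpa using h.2.1.2

theorem d_pre (h : M.acc ξ σ) (hp : τ <+: σ) : M.acc ξ τ := by
  induction σ using List.reverseRecOn with
  | nil => rwa [List.prefix_nil.1 hp]
  | append_singleton σ e ih =>
    rcases List.prefix_concat_iff.1 hp with rfl | hp
    · exact h
    · exact ih (d_snoc.1 h).1.1.par hp

theorem d_in (h : M.acc ξ τ) (h' : rk τ ≤ rk σ) : M.pre ξ (σ ++ [e]) τ :=
  ⟨h'.trans_lt (rk_lt_bt _ _), h⟩

theorem d_hd (σ : Wd k) (e : Fin k) : M.hd (σ ++ [e]) =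
    M.T.rot (M.hd σ) (M.T.run M.δ σ).1 (lift k (M.T.deg (M.hd σ)) e) := M.T.hd_snoc _ _ _

theorem Real.pos (h : M.Real (M.pre ξ (σ ++ [e])) (σ ++ [e])) : 1 ≤ (e : ℕ) := by
  refine Nat.pos_of_ne_zero fun e0 => ?_
  have h1 : M.hd (σ ++ [e]) = (M.T.run M.δ σ).1 := by rw [d_hd, e0]; simp [lift]
  rcases snoc_cases σ with rfl | ⟨τ, e', rfl⟩
  · exact h.2.2.1 (Or.inl h1)
  · rw [PlaneTri.run_snoc_fst] at h1
    exact h.2.2.2.1 τ (d_in (d_pre h.par (List.prefix_append _ _)) (rk_le_append _ _)) h1.symm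

theorem d_inj {α : Type} (f : Wd k → α) (h1 : ∀ u τ, M.cp ξ u → M.pre ξ u τ → f τ ≠ f u)
    (h2 : ∀ σ e e', M.cp ξ (σ ++ [e]) → M.cp ξ (σ ++ [e']) → f (σ ++ [e]) = f (σ ++ [e']) → e = e')
    (h : M.acc ξ τ) (h' : M.acc ξ τ') (e : f τ = f τ') : τ = τ' := by
  wlog c : rk τ < rk τ' generalizing τ τ'
  · rcases (not_lt.1 c).lt_or_eq with c | c
    · exact (this h' h e.symm c).symm
    · exact rk_inj c.symm
  rcases snoc_cases τ' with rfl | ⟨σ, b, rfl⟩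
  · simp [rk_nil] at c
  rcases lt_or_ge (rk τ) (bt (σ ++ [b])) with c' | c'
  · exact absurd e (h1 _ _ (d_snoc.1 h').1 ⟨c', h⟩)
  · obtain ⟨a, rfl⟩ := rk_batch c' c
    rw [h2 σ a b (d_snoc.1 h).1 (d_snoc.1 h').1 e]

variable (hT : ∀ v, M.T.deg v = k) (hδ : M.T.Dart M.δ)
include hT hδ

theorem d_hd_inj (h : M.acc ξ τ) (h' : M.acc ξ τ') (e : M.hd τ = M.hd τ') : τ = τ' :=
  d_inj M.hd (fun _ τ a b => a.1.2.2.2.1 τ b) (fun σ a b _ _ e => PlaneTri.step_inj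
    (PlaneTri.run_dart hδ σ) (hT _).ge (by simpa only [hd, PlaneTri.hd_snoc] using e)) h h' e

/-- the first and the last letter read neighbours of the tail -/
theorem d_ear (h : (e : ℕ) = 1 ∨ (e : ℕ) + 1 = k) :
    M.T.G.Adj (M.T.run M.δ σ).1 (M.hd (σ ++ [e])) := by
  have h1 : M.T.G.Adj (M.hd σ) (M.T.run M.δ σ).1 := (PlaneTri.run_dart hδ σ).symm
  rw [d_hd, hT, lift_reg]
  rcases h with h | h
  · rw [h]; exact PlaneTri.adj_nx2 h1
  · have := PlaneTri.adj_nx2 (PlaneTri.adj_rot h1 e)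
    rw [← PlaneTri.rot_succ, h.trans (hT (M.hd σ)).symm, PlaneTri.rot_deg h1] at this
    exact this.symm

/-- site: these two letters are not real -/
theorem Real.mid (h : M.Real (M.pre ξ (σ ++ [e])) (σ ++ [e])) (hm : M.m = true) (h1 : M.r1)
    (h2 : M.r2) : ¬((e : ℕ) = 1 ∨ (e : ℕ) + 1 = k) := fun c => by
  rcases snoc_cases σ with rfl | ⟨τ, e', rfl⟩
  · refine h.2.2.1 (Or.inr ?_)
    rw [d_hd, hT, lift_reg]
    exact c.imp (fun c => ⟨h1, by rw [c]; rfl⟩) fun c => ⟨h2, by rw [show (e : ℕ) = k - 1 by omega]; rfl⟩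
  · have := d_ear hT hδ (σ := τ ++ [e']) c
    rw [PlaneTri.run_snoc_fst] at this
    exact h.2.2.2.2 hm τ (d_in (d_pre h.par (List.prefix_append _ _)) (rk_le_append _ _))
      (by simpa using rk_lt_snoc τ e') this

end Mdl

namespace Gr
namespace Sc
variable {X : Sc} {l s w β : List Pt} {σ τ u : Wd X.k} {e : Fin X.k} {v c x z : Pt} {ω ω' : Cf}
  {r : Option Pt}

theorem rl_snoc (l : List Pt) (σ : Wd X.k) (e : Fin X.k) : X.rl l (σ ++ [e]) =
    X.hr l (σ ++ [e]) :: X.rl l σ := by simp [hr, rl, List.foldl_append]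

theorem hr_snoc (h : X.rl l σ = x :: w) (e : Fin X.k) :
    X.hr l (σ ++ [e]) = X.G.hdr X.G.Tb Grid.c4 X.k x w e := by
  have : X.hr l (σ ++ [e]) = X.G.hdr X.G.Tb Grid.c4 X.k ((X.rl l σ).headD X.o) (X.rl l σ).tail e := by
    simp [hr, rl, List.foldl_append]
  rw [this, h]; rfl

theorem rl_sfx (h : τ <+: σ) : X.rl l τ <:+ X.rl l σ := by
  induction σ using List.reverseRecOn with
  | nil => rw [List.prefix_nil.1 h]
  | append_singleton σ e ih =>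
    rcases List.prefix_concat_iff.1 h with rfl | h
    · exact List.suffix_rfl
    · exact rl_snoc l σ e ▸ (ih h).trans (List.suffix_cons _ _)

theorem rl_len (l : List Pt) (σ : Wd X.k) : (X.rl l σ).length = σ.length + l.length := by
  induction σ using List.reverseRecOn with
  | nil => simp [rl]
  | append_singleton σ e ih => simp [rl_snoc, ih]; omega

theorem rl_cons (σ : Wd X.k) : ∃ B, X.rl (c :: β) σ = X.hr (c :: β) σ :: (B ++ β) ∧
    (X.hr (c :: β) σ :: B).getLast? = some c ∧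
    ∀ v ∈ B, ∃ τ, τ <+: σ ∧ rk τ < rk σ ∧ v = X.hr (c :: β) τ := by
  induction σ using List.reverseRecOn with
  | nil => exact ⟨[], rfl, rfl, by simp⟩
  | append_singleton σ e ih =>
    obtain ⟨B, h1, h2, h3⟩ := ih
    refine ⟨_ :: B, by rw [rl_snoc, h1]; rfl, by rw [List.getLast?_cons_cons, h2],
      List.forall_mem_cons.2 ⟨⟨σ, List.prefix_append _ _, rk_lt_snoc _ _, rfl⟩, fun v hv => ?_⟩⟩
    obtain ⟨τ, a, b, c⟩ := h3 v hv
    exact ⟨τ, a.trans (List.prefix_append _ _), b.trans (rk_lt_snoc _ _), c⟩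

theorem rl_of_sfx (h : s <:+ X.rl l σ) (hl : l.length ≤ s.length) : ∃ τ, τ <+: σ ∧ s = X.rl l τ := by
  induction σ using List.reverseRecOn with
  | nil => exact ⟨[], List.prefix_rfl, h.eq_of_length_le hl⟩
  | append_singleton σ e ih =>
    rw [rl_snoc] at h
    rcases List.suffix_cons_iff.1 h with h | h
    · exact ⟨_, List.prefix_rfl, h.trans (rl_snoc _ _ _).symm⟩
    · obtain ⟨τ, a, b⟩ := ih h
      exact ⟨τ, a.trans (List.prefix_append _ _), b⟩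

theorem mem_rl (h : v ∈ X.rl (c :: β) σ) : (∃ τ, τ <+: σ ∧ v = X.hr (c :: β) τ) ∨ v ∈ β := by
  obtain ⟨B, h1, -, h3⟩ := rl_cons (c := c) (β := β) σ
  rw [h1, List.mem_cons, List.mem_append] at h
  rcases h with h | h | h
  · exact Or.inl ⟨σ, List.prefix_rfl, h⟩
  · exact Or.inl ((h3 v h).imp fun _ a => ⟨a.1, a.2.2⟩)
  · exact Or.inr h

theorem o_lev : 3 ≤ X.o.1 := by have := X.y1; rw [o, Grid.rt_lev]; omega

theorem Hm.lev (h : X.Hm v) : 3 ≤ v.1 ∧ X.o.1 ≤ v.1 := ⟨o_lev.trans h.1.1, h.1.1⟩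

theorem t0_lev : X.t0.1 + 1 = X.o.1 := by
  have := o_lev (X := X); rw [t0, Grid.nb_zero]; simp only; omega

theorem t0_not : ¬X.Hm X.t0 := fun h => by have := h.lev.2; have := t0_lev (X := X); omega

theorem hm_o : X.Hm X.o := ⟨Grid.cn_self _, Nat.le_add_right _ _⟩

theorem t0_adj : X.G.Adj X.o X.t0 :=
  Grid.adj_nb (by have := o_lev (X := X); omega) (by have := X.G.seven_le X.o; omega)

theorem Ex.seven (h : X.Ex z) : 7 < X.G.dg z := X.h7.trans_lt h.2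

theorem Ex.lev (h : X.Ex z) : (X.G.cv z).1 = z.1 + 1 := by
  rw [Grid.cv, Grid.nb_lev h.seven (by omega) (by omega)]

theorem Ex.adj (h : X.Ex z) : X.G.Adj z (X.G.cv z) :=
  Grid.adj_nb (by have := h.1.lev; omega) (by have := h.seven; omega)

theorem Ex.ne (h : X.Ex z) : X.G.cv z ≠ X.o := fun e => by
  have := h.lev; have := h.1.lev; rw [e] at *; omega

theorem Rc.mem {F : Set Pt} (h : X.Rc F ω v) : v = X.o ∨
    (v ∈ F ∧ ∃ u, X.Rc F ω u ∧ X.G.Adj u v ∧ X.Op ω u v) := by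
  cases h with
  | base => exact Or.inl rfl
  | step a b c d => exact Or.inr ⟨c, _, a, b, d⟩

theorem OP.mono (h : X.OP ω w) (hs : ω ⊆ ω') : X.OP ω' w :=
  ⟨h.root, h.nd, h.dom, h.ch.imp fun _ _ a => ⟨a.1, fun b => hs (a.2 b)⟩, h.ind⟩

theorem Indu.suf {G : Grid} {t : Pt} (h : Indu G t w) (hs : s <:+ w) : Indu G t s := by
  induction w with
  | nil => rw [List.suffix_nil.1 hs]; trivial
  | cons a w ih => exact (List.suffix_cons_iff.1 hs).elim (fun e => e ▸ h) (ih h.2)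

theorem Indu.left {G : Grid} {t : Pt} (h : Indu G t (s ++ w)) : Indu G t s := by
  induction s with
  | nil => trivial
  | cons a s ih =>
    refine ⟨fun v hv => h.1 v ?_, ih h.2⟩
    cases s with
    | nil => simp at hv
    | cons b s => exact List.mem_append_left _ hv

theorem OP.suf (h : X.OP ω w) (hs : s <:+ w) (h2 : 2 ≤ s.length) : X.OP ω s :=
  ⟨List.suffix_of_suffix_length_le h.root hs h2, h.nd.sublist hs.sublist,
    fun v hv => h.dom v (hs.subset hv), h.ch.suffix hs, fun m => Indu.suf (h.ind m) hs⟩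

theorem OP.shape (h : X.OP ω (x :: w)) : ∃ t w', w = t :: w' ∧ X.G.Adj x t := by
  have := h.root.length_le
  obtain _ | ⟨t, w⟩ := w
  · simp at this
  exact ⟨t, w, rfl, (List.isChain_cons_cons.1 h.ch).1.1.symm⟩

theorem OP.last (h : X.OP ω w) : w.getLast? = some X.t0 := by
  obtain ⟨B, rfl⟩ := h.root
  simp

theorem OP.o_mem (h : X.OP ω w) : X.o ∈ w := h.root.subset (by simp)

theorem Lr.ro (h : X.Lr r ω) : X.Hm (X.ro r) ∧ X.ro r ∉ X.Ur r ω ∧ ¬X.G.Tb (X.tl r) (X.ro r) := by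
  cases r with
  | none => exact ⟨hm_o, id, fun e => by
      have := (X.G.tubeOK.lev _ _ e).1
      have := t0_lev (X := X)
      simp only [tl, Sc.ro, Option.getD, Option.elim] at *; omega⟩
  | some z => exact ⟨h.2.1, fun e => (Rc.mem e).elim h.1.ne fun e => e.1.2 rfl, fun e => by
      have := (X.G.tubeOK.lev _ _ e).1
      have := h.1.lev
      simp only [tl, Sc.ro, Option.getD, Option.elim] at *; omega⟩

variable (X) in
/-- the hypotheses on one exploration; `ω'` contains the keys of the accepted words -/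
structure DC {V' : Type} (T' : PlaneTri V') (δ : V' × V') (r : Option Pt) (ω : Cf) (β : List Pt)
    (ξ : Finset (Wd X.k)) (ω' : Cf) : Prop where
  hL : X.Lr r ω
  hS : X.Stem r ω β
  sub : ω ⊆ ω'
  op : ∀ u, (X.mdl T' δ r ω β).cp ξ u → u ∈ ξ → X.kw (X.ro r :: β) u ∈ ω'

variable {V' : Type} {T' : PlaneTri V'} {δ : V' × V'} {ξ : Finset (Wd X.k)}

theorem dc_of (hL : X.Lr r ω) (hS : X.Stem r ω β) :
    X.DC T' δ r ω β ξ (ω ∪ ξ.image (X.kw (X.ro r :: β))) :=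
  ⟨hL, hS, Finset.subset_union_left, fun _ _ h =>
    Finset.mem_union_right _ (Finset.mem_image_of_mem _ h)⟩

theorem good (h : (X.mdl T' δ r ω β).cp ξ u) : X.Hm (X.hr (X.ro r :: β) u) ∧
    (∀ z, X.Ex z → ¬X.G.Viol X.G.Tb Grid.c4 X.k z (X.rl (X.ro r :: β) u.dropLast)
      (X.hr (X.ro r :: β) u)) ∧
    (∀ τ, (X.mdl T' δ r ω β).pre ξ u τ → X.hr (X.ro r :: β) τ ≠ X.hr (X.ro r :: β) u) ∧
    (X.m = true → ∀ τ, (X.mdl T' δ r ω β).pre ξ u τ → rk τ < rk u.dropLast →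
      ¬X.G.Adj (X.hr (X.ro r :: β) τ) (X.hr (X.ro r :: β) u)) ∧
    ¬X.G.Tb (X.tl r) (X.hr (X.ro r :: β) u) ∧ X.hr (X.ro r :: β) u ∉ X.Ur r ω ∧
    (X.m = true → ∀ a ∈ X.Ur r ω, ¬X.G.Adj a (X.hr (X.ro r :: β) u)) := by
  have := h.2
  simp only [mdl, bad, not_or, not_not, not_exists, not_and] at this
  exact this

namespace DC
variable (D : X.DC T' δ r ω β ξ ω')
include D

theorem hm (h : (X.mdl T' δ r ω β).acc ξ u) : X.Hm (X.hr (X.ro r :: β) u) ∧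
    X.hr (X.ro r :: β) u ∉ X.Ur r ω ∧ ¬X.G.Tb (X.tl r) (X.hr (X.ro r :: β) u) := by
  rcases Mdl.acc_iff.1 h with rfl | h
  · exact D.hL.ro
  · exact ⟨(good h.1).1, (good h.1).2.2.2.2.2.1, (good h.1).2.2.2.2.1⟩

theorem not_old (h : X.Hm v) (h' : v ∉ X.Ur r ω) : v ∉ β := fun e =>
  h' (D.hS.2.2 v e fun e => t0_not (e ▸ h))

theorem adj (h : (X.mdl T' δ r ω β).acc ξ σ) (e : Fin X.k) :
    X.G.Adj (X.hr (X.ro r :: β) σ) (X.hr (X.ro r :: β) (σ ++ [e])) := by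
  obtain ⟨B, h1, -⟩ := rl_cons (c := X.ro r) (β := β) σ
  rw [hr_snoc h1]
  exact Grid.adj_rg (by have := (D.hm h).1.lev; omega) _ _

theorem inv (h : (X.mdl T' δ r ω β).acc ξ u) : X.OP ω' (X.rl (X.ro r :: β) u) := by
  induction u using List.reverseRecOn with
  | nil => exact D.hS.1.mono D.sub
  | append_singleton σ e ih =>
    have h0 := D.hm h
    obtain ⟨h1, h2⟩ := Mdl.d_snoc.1 h
    have h3 := h1.1.par
    have ih := ih h3
    have g := good h1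
    have ad := D.adj h3 e
    have op := D.op _ h1 h2
    obtain ⟨B, e1, -, e3⟩ := rl_cons (c := X.ro r) (β := β) σ
    rw [rl_snoc]
    refine ⟨ih.root.trans (List.suffix_cons _ _), List.nodup_cons.2 ⟨fun c => ?_, ih.nd⟩,
      List.forall_mem_cons.2 ⟨Or.inl (Hm_H h0.1), ih.dom⟩, ?_, fun m => ⟨fun v hv n => ?_, ih.ind m⟩⟩
    · rcases mem_rl c with ⟨τ, a, b⟩ | c
      · exact g.2.2.1 τ (Mdl.d_in (Mdl.d_pre h3 a) (rk_le_of_prefix a)) b.symm
      · exact D.not_old h0.1 h0.2.1 c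
    · rw [e1] at ih ⊢
      exact List.isChain_cons_cons.2 ⟨⟨ad, fun _ => by simpa [kw, Op] using op⟩, ih.ch⟩
    · rw [e1] at hv
      rcases List.mem_append.1 hv with hv | hv
      · obtain ⟨τ, a, b, rfl⟩ := e3 v hv
        exact g.2.2.2.1 m τ (Mdl.d_in (Mdl.d_pre h3 a) b.le) (by simpa using b)
      · exact g.2.2.2.2.2.2 m v (D.hS.2.2 v hv n)

/-- the letters at an accepted word -/
theorem letter (h : (X.mdl T' δ r ω β).acc ξ σ) : ∃ t w, X.rl (X.ro r :: β) σ =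
    X.hr (X.ro r :: β) σ :: t :: w ∧ X.G.Adj (X.hr (X.ro r :: β) σ) t ∧ ∀ e : Fin X.k, 1 ≤ (e : ℕ) →
      X.hr (X.ro r :: β) (σ ++ [e]) ≠ t ∧ (X.k < X.G.dg (X.hr (X.ro r :: β) σ) →
        X.hr (X.ro r :: β) (σ ++ [e]) ≠ X.G.cv (X.hr (X.ro r :: β) σ)) ∧
      (X.G.Adj t (X.hr (X.ro r :: β) (σ ++ [e])) → (e : ℕ) = 1 ∨ (e : ℕ) + 1 = X.k) ∧
      ∀ b : Fin X.k, 1 ≤ (b : ℕ) →
        X.hr (X.ro r :: β) (σ ++ [e]) = X.hr (X.ro r :: β) (σ ++ [b]) → e = b := by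
  obtain ⟨B, e1, -⟩ := rl_cons (c := X.ro r) (β := β) σ
  have h1 := D.inv h
  rw [e1] at h1
  obtain ⟨t, w, e2, ad⟩ := OP.shape h1
  rw [e2] at e1
  have lv : 1 ≤ (X.hr (X.ro r :: β) σ).1 := by have := (D.hm h).1.lev; omega
  refine ⟨t, w, e1, ad, fun e he => ?_⟩
  have := Grid.hdr_spec lv ad X.h7 (X.hk _ lv) he e.2 (hr_snoc e1 e)
  exact ⟨this.1, this.2.1, this.2.2.1, fun b hb c =>
    Fin.ext (this.2.2.2 b hb b.2 (c.trans (hr_snoc e1 b)))⟩

theorem hr_inj (h : (X.mdl T' δ r ω β).acc ξ σ) (h' : (X.mdl T' δ r ω β).acc ξ τ)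
    (e : X.hr (X.ro r :: β) σ = X.hr (X.ro r :: β) τ) : σ = τ :=
  Mdl.d_inj (X.hr (X.ro r :: β)) (fun _ τ a b => (good a).2.2.1 τ b) (fun σ a b c d e => by
    obtain ⟨t, w, -, -, h⟩ := D.letter c.1.par
    exact (h a c.1.pos).2.2.2 b d.1.pos e) h h' e

end DC
end Sc
end Gr
end Pool.Agent.P.MP_e4ac67_pr
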