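import Pool.Agent.P.MP_e4ac67_pr.V.DetB
import Pool.Agent.P.MP_e4ac67_pr.Stops

/-! Territories, new paths, and the branches seen by the topological lemma. -/

namespace Pool.Agent.P.MP_e4ac67_pr.Gr

theorem isChain_of_sfx {α : Type} {R : α → α → Prop} {B st : List α} {top : α}
    (h : ∀ u v w, u :: v :: w <:+ B ++ top :: st → top :: st <:+ v :: w → R u v) :
    (B ++ [top]).IsChain R := by
  induction B with
  | nil => simp
  | cons a B ih =>
    have ih := ih fun u v w h1 => h u v w (h1.trans (List.suffix_cons _ _))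
    cases B with
    | nil => exact List.isChain_cons_cons.2 ⟨h a top st List.suffix_rfl List.suffix_rfl, ih⟩
    | cons b B =>
      exact List.isChain_cons_cons.2
        ⟨h a b (B ++ top :: st) List.suffix_rfl (List.suffix_append (b :: B) _), ih⟩

namespace Sc
variable {X : Sc} {l s w β B st : List Pt} {σ τ u : Wd X.k} {e : Fin X.k} {v c x y z top : Pt}
  {ω ω' : Cf} {r : Option Pt} {V' : Type} {T' : PlaneTri V'} {δ : V' × V'} {ξ : Finset (Wd X.k)}
  {ψ : Pt → V'}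

theorem rl_append (l : List Pt) (a b : Wd X.k) : ∃ P, X.rl l (a ++ b) = P ++ X.rl l a ∧
    P.length = b.length ∧ (∀ v ∈ P, ∃ d, d ≠ [] ∧ d <+: b ∧ v = X.hr l (a ++ d)) ∧
    ∀ v, P.getLast? = some v → ∃ e, [e] <+: b ∧ v = X.hr l (a ++ [e]) := by
  induction b using List.reverseRecOn with
  | nil => exact ⟨[], by simp, rfl, by simp, by simp⟩
  | append_singleton b e ih =>
    obtain ⟨P, h1, h2, h3, h4⟩ := ih
    refine ⟨X.hr l (a ++ (b ++ [e])) :: P, by rw [← List.append_assoc, rl_snoc, h1]; rfl,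
      by simp [h2], List.forall_mem_cons.2 ⟨⟨_, by simp, List.prefix_rfl, rfl⟩, fun v hv =>
        (h3 v hv).imp fun _ c => ⟨c.1, c.2.1.trans (List.prefix_append _ _), c.2.2⟩⟩, fun v hv => ?_⟩
    cases P with
    | nil =>
      obtain rfl := List.length_eq_zero_iff.1 h2.symm
      exact ⟨e, List.prefix_rfl, (Option.some.inj hv).symm⟩
    | cons q P => exact (h4 v hv).imp fun _ c => ⟨c.1.trans (List.prefix_append _ _), c.2⟩

theorem Stem.shape (h : X.Stem r ω β) : ∃ st, β = X.tl r :: st := by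
  have := h.2.1
  cases β with
  | nil => simp at this
  | cons a st => exact ⟨st, by rw [Option.some.inj this]⟩

theorem La.mem (h : X.La z ω) (hS : X.Stem (some z) ω β) : z ∈ X.Uz z ω := by
  obtain ⟨st, rfl⟩ := hS.shape
  exact hS.2.2 z List.mem_cons_self fun e => t0_not (e ▸ h.1.1)

variable (X r β δ T') in
/-- the images of the vertices on the path of `σ` -/
def Im (ψ : Pt → V') (σ : Wd X.k) : Prop :=
  (∀ τ, τ <+: σ → ψ (X.hr (X.ro r :: β) τ) = T'.hd δ τ) ∧ ψ (X.tl r) = δ.1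

theorem Im.pre (h : X.Im β r T' δ ψ σ) (hp : τ <+: σ) : X.Im β r T' δ ψ τ :=
  ⟨fun _ a => h.1 _ (a.trans hp), h.2⟩

theorem Im.tail {t : Pt} (h : X.Im β r T' δ ψ σ) (hS : X.Stem r ω β)
    (e : X.rl (X.ro r :: β) σ = x :: t :: w) : ψ x = T'.hd δ σ ∧ ψ t = (T'.run δ σ).1 := by
  have e1 : x = X.hr (X.ro r :: β) σ := by rw [hr, e]; rfl
  refine ⟨e1 ▸ h.1 σ List.prefix_rfl, ?_⟩
  rcases snoc_cases σ with rfl | ⟨τ, a, rfl⟩
  · obtain ⟨st, rfl⟩ := hS.shape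
    obtain rfl : X.tl r = t := (List.cons.inj (List.cons.inj e).2).1
    exact h.2
  · rw [rl_snoc] at e
    have e2 : t = X.hr (X.ro r :: β) τ := by rw [hr, (List.cons.inj e).2]; rfl
    rw [PlaneTri.run_snoc_fst, e2, h.1 τ (List.prefix_append _ _)]

namespace DC

theorem terr (D : X.DC T' δ r ω β ξ ω) (h : (X.mdl T' δ r ω β).acc ξ u) :
    X.Terr r ω (X.hr (X.ro r :: β) u) := by
  refine ⟨(D.hm h).2.1, ?_⟩
  induction u using List.reverseRecOn with
  | nil => exact .base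
  | append_singleton σ e ih =>
    obtain ⟨h1, h2⟩ := Mdl.d_snoc.1 h
    have h3 := h1.1.par
    have op : X.Op ω (X.hr (X.ro r :: β) σ) (X.hr (X.ro r :: β) (σ ++ [e])) := by
      simpa [kw, Op] using D.op _ h1 h2
    refine (ih h3).step (D.adj h3 e) ⟨Hm_H (D.hm h).1, ?_⟩ op
    rintro ⟨z, hz, e1⟩
    obtain ⟨t, w, e2, -, e3⟩ := D.letter h3
    have n1 : X.hr (X.ro r :: β) σ ≠ z := fun c =>
      (e3 e h1.1.pos).2.1 (c ▸ hz.1.2) (c ▸ e1)
    have i1 := D.inv h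
    have i2 := D.inv h3
    rw [rl_snoc, e1, e2] at i1
    rw [e2] at i2
    have n2 := (List.nodup_cons.1 i1.nd).1
    have n3 : X.hr (X.ro r :: β) σ ≠ X.t0 := fun c => t0_not (c ▸ (D.hm h3).1)
    refine hz.2.2.2.2 ⟨_, e1 ▸ D.adj h3 e, n1, e1 ▸ op, ?_⟩
    split_ifs with m
    · have n4 : z ∉ X.hr (X.ro r :: β) σ :: t :: w := fun c =>
        (i1.ind m).1 z ((List.mem_cons.1 c).resolve_left n1.symm)
          (fun c => t0_not (c ▸ hz.1.1)) hz.1.adj
      exact ⟨fun c => n4 (c ▸ i2.o_mem), OP.rc (A := []) i2 n3 fun v hv a _ =>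
        ⟨a, by rintro (rfl | rfl) <;> contradiction⟩⟩
    · exact OP.rc (A := []) i2 n3 fun v hv a _ => ⟨a, by rintro rfl; contradiction⟩

theorem new (D : X.DC T' δ (some z) ω β ξ ω) (h : (X.mdl T' δ (some z) ω β).acc ξ σ) :
    ∃ B, X.New z ω (X.hr (X.G.cv z :: β) σ :: B) ∧
      ∀ v ∈ B, ∃ τ, τ <+: σ ∧ rk τ < rk σ ∧ v = X.hr (X.G.cv z :: β) τ := by
  obtain ⟨B, h1, h2, h3⟩ := rl_cons (c := X.G.cv z) (β := β) σ
  have i : X.OP ω (X.rl (X.G.cv z :: β) σ) := D.inv h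
  rw [h1, ← List.cons_append] at i
  have m : ∀ v ∈ X.hr (X.G.cv z :: β) σ :: B, ∃ τ, (X.mdl T' δ (some z) ω β).acc ξ τ ∧
      v = X.hr (X.G.cv z :: β) τ := List.forall_mem_cons.2 ⟨⟨σ, h, rfl⟩, fun v hv =>
    (h3 v hv).imp fun _ a => ⟨Mdl.d_pre h a.1, a.2.2⟩⟩
  refine ⟨B, ⟨h2, i.nd.of_append_left, fun v hv => ?_,
    i.ch.left_of_append.imp_of_mem_imp fun a b _ hb c => ⟨c.1, c.2 ?_⟩, fun hm v hv n => ?_,
    fun hm => Indu.left (i.ind hm)⟩, h3⟩
  · obtain ⟨τ, a, rfl⟩ := m v hv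
    have := D.hm a
    exact ⟨Hm_H this.1, this.2.1, fun c => c.elim
      (fun c => this.2.1 (c.symm ▸ La.mem D.hL D.hS)) this.2.2⟩
  · obtain ⟨τ, a, rfl⟩ := m v hv
    rcases Mdl.acc_iff.1 a with rfl | a
    · exact absurd rfl n
    · exact (good a.1).2.2.2.2.2.2 hm
  · obtain ⟨τ, a, rfl⟩ := m b hb
    exact fun c => t0_not (c ▸ (D.hm a).1)

variable (D : X.DC T' δ r ω β ξ ω')
include D

theorem exists_im (y : Pt) (y' : V') : ∃ ψ : Pt → V', ψ y = y' ∧ ∀ σ,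
    (X.mdl T' δ r ω β).acc ξ σ → y ∉ X.rl (X.ro r :: β) σ → X.Im β r T' δ ψ σ := by
  classical
  refine ⟨fun v => if v = y then y' else if h : ∃ τ, (X.mdl T' δ r ω β).acc ξ τ ∧
    X.hr (X.ro r :: β) τ = v then T'.hd δ h.choose else δ.1, if_pos rfl,
    fun σ h n => ⟨fun τ a => ?_, ?_⟩⟩
  · obtain ⟨B, e, -⟩ := rl_cons (c := X.ro r) (β := β) τ
    have c : ∃ τ', (X.mdl T' δ r ω β).acc ξ τ' ∧ X.hr (X.ro r :: β) τ' = X.hr (X.ro r :: β) τ :=
      ⟨τ, Mdl.d_pre h a, rfl⟩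
    dsimp only
    rw [if_neg fun c => n ((rl_sfx a).subset (by rw [e, ← c]; simp)), dif_pos c,
      D.hr_inj c.choose_spec.1 (Mdl.d_pre h a) c.choose_spec.2]
  · obtain ⟨st, e⟩ := D.hS.shape
    have m : X.tl r ∈ β := e ▸ List.mem_cons_self
    dsimp only
    rw [if_neg fun c : X.tl r = y => n ((rl_sfx (List.nil_prefix (l := σ))).subset
      (List.mem_cons_of_mem _ (c ▸ m))), dif_neg]
    rintro ⟨τ, a, b⟩
    exact D.not_old (D.hm a).1 (D.hm a).2.1 (b ▸ m)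

theorem stp (hT' : ∀ v, T'.deg v = X.k) (h : (X.mdl T' δ r ω β).acc ξ σ)
    (hψ : X.Im β r T' δ ψ σ) (e1 : X.rl (X.ro r :: β) σ = x :: w) (he : 1 ≤ (e : ℕ)) :
    X.G.Stp X.G.Tb Grid.c4 X.k T' ψ x w (X.hr (X.ro r :: β) (σ ++ [e])) (T'.hd δ (σ ++ [e])) := by
  obtain ⟨t, w, rfl, -⟩ := OP.shape (e1 ▸ D.inv h)
  have := hψ.tail D.hS e1
  refine ⟨e, he, e.2, hr_snoc e1 e, ?_⟩
  rw [List.headD_cons, this.1, this.2, PlaneTri.hd_snoc, PlaneTri.step, hT', lift_reg]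
  rfl

/-- the darts of the path of an accepted word are compliant -/
theorem rule (h : (X.mdl T' δ r ω β).acc ξ σ) (hz : X.Ex z) {t : Pt}
    (hs : v :: t :: w <:+ X.rl (X.ro r :: β) σ) (hl : β.length ≤ w.length + 1) (ht : X.Hm t) :
    ¬X.G.Viol X.G.Tb Grid.c4 X.k z (t :: w) v := by
  obtain ⟨τ, a, b⟩ := rl_of_sfx hs (by simpa using hl)
  rcases snoc_cases τ with rfl | ⟨τ, e, rfl⟩
  · obtain ⟨rfl, rfl⟩ := List.cons.inj b
    obtain rfl : t = X.tl r := Option.some.inj D.hS.2.1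
    cases r with
    | none => exact absurd ht t0_not
    | some z' => exact Grid.not_viol_nb (j := 4) D.hL.1.seven (by omega) (by omega)
  · rw [rl_snoc] at b
    obtain ⟨rfl, b'⟩ := List.cons.inj b
    simpa [b'] using (good (Mdl.d_snoc.1 (Mdl.d_pre h a)).1).2.1 z hz

theorem hm_of (h : (X.mdl T' δ r ω β).acc ξ σ) (e : X.rl (X.ro r :: β) σ = B ++ top :: st)
    (hl : β.length ≤ st.length + 1) (hv : v ∈ B) : ∃ τ, τ <+: σ ∧ v = X.hr (X.ro r :: β) τ := by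
  refine (mem_rl (e ▸ List.mem_append_left _ hv)).resolve_right fun c => ?_
  have h1 : β <:+ top :: st := List.suffix_of_suffix_length_le
    ((List.suffix_cons _ _).trans (rl_sfx (List.nil_prefix (l := σ))))
    (e ▸ List.suffix_append _ _) hl
  exact (List.nodup_append.1 (e ▸ (D.inv h).nd)).2.2 v hv v (h1.subset c) rfl

theorem hm_sfx (h : (X.mdl T' δ r ω β).acc ξ σ) (e : X.rl (X.ro r :: β) σ = B ++ top :: st)
    (hl : β.length ≤ st.length + 1) (ht : X.Hm top) (h1 : v :: w <:+ B ++ top :: st)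
    (h2 : top :: st <:+ v :: w) : X.Hm v := by
  obtain ⟨A, h1⟩ := h1
  obtain ⟨C, h2⟩ := h2
  cases C with
  | nil => exact (List.cons.inj h2).1 ▸ ht
  | cons a C =>
    rw [← h2, ← List.append_assoc, List.append_cancel_right_eq] at h1
    obtain ⟨τ, a, b⟩ := D.hm_of (v := v) h e hl (by simp [← h1, (List.cons.inj h2).1])
    exact b ▸ (D.hm (Mdl.d_pre h a)).1

variable (hT' : ∀ v, T'.deg v = X.k) (hδ : T'.Dart δ)
include hT' hδ

theorem br (h : (X.mdl T' δ r ω β).acc ξ σ) (hψ : X.Im β r T' δ ψ σ)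
    (e : X.rl (X.ro r :: β) σ = B ++ top :: st) (hl : β.length ≤ st.length + 1) (ht : X.Hm top) :
    X.G.Br X.G.Tb Grid.c4 X.k T' ψ X.o X.N B top st where
  real v hv := by
    obtain ⟨τ, a, rfl⟩ := D.hm_of h e hl hv
    exact (D.hm (Mdl.d_pre h a)).1
  ch := e ▸ (D.inv h).ch.imp fun _ _ a => a.1.symm
  ch' := isChain_of_sfx fun u v w h1 h2 => by
    obtain ⟨τ, a, b⟩ := rl_of_sfx (e ▸ h1) (by have := h2.length_le; simp at this ⊢; omega)
    have := (hψ.pre a).tail D.hS b.symm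
    rw [this.1, this.2]
    exact (PlaneTri.run_dart hδ τ).symm
  rule z h1 h2 v w h3 h4 _ := by
    have := h4.length_le
    obtain _ | ⟨t, w⟩ := w
    · simp at this
    exact D.rule h ⟨h1, h2⟩ (e ▸ h3) (by simp at this; omega)
      (D.hm_sfx h e hl ht ((List.suffix_cons _ _).trans h3) h4)
  step u v w h1 h2 := by
    have := h2.length_le
    obtain ⟨τ, a, b⟩ := rl_of_sfx (e ▸ h1) (by simp at this ⊢; omega)
    rcases snoc_cases τ with rfl | ⟨τ, e, rfl⟩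
    · have := congrArg List.length b
      simp [rl] at *; omega
    have a' := Mdl.d_pre h a
    rw [rl_snoc] at b
    obtain ⟨rfl, b'⟩ := List.cons.inj b
    rw [hψ.1 _ a]
    exact D.stp hT' (Mdl.d_snoc.1 a').1.1.par (hψ.pre ((List.prefix_append _ _).trans a)) b'.symm
      (Mdl.d_snoc.1 a').1.1.pos

/-- the branch extended by a word that is not accepted -/
theorem br_cons (h : (X.mdl T' δ r ω β).acc ξ σ) (hψ : X.Im β r T' δ ψ σ)
    (e1 : X.rl (X.ro r :: β) σ = x :: B ++ top :: st) (hl : β.length ≤ st.length + 1)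
    (ht : X.Hm top) (he : 1 ≤ (e : ℕ)) (hy : y = X.hr (X.ro r :: β) (σ ++ [e])) (hm : X.Hm y)
    (hy' : ψ y = T'.hd δ (σ ++ [e]))
    (hv : ∀ z, X.Ex z → y ≠ z → ¬X.G.Viol X.G.Tb Grid.c4 X.k z (X.rl (X.ro r :: β) σ) y) :
    X.G.Br X.G.Tb Grid.c4 X.k T' ψ X.o X.N (y :: x :: B) top st := by
  have b := D.br hT' hδ h hψ e1 hl ht
  have ex : x = X.hr (X.ro r :: β) σ := by rw [hr, e1]; rfl
  refine ⟨List.forall_mem_cons.2 ⟨hm, b.real⟩, List.isChain_cons_cons.2 ⟨?_, b.ch⟩,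
    List.isChain_cons_cons.2 ⟨?_, b.ch'⟩, fun z h1 h2 v w h3 h4 h5 => ?_, fun u v w h1 h2 => ?_⟩
  · rw [hy, ex]; exact (D.adj h e).symm
  · rw [hy', ex, hψ.1 σ List.prefix_rfl]; exact (PlaneTri.adj_hd_snoc hδ σ e).symm
  · rcases List.suffix_cons_iff.1 h3 with c | c
    · obtain ⟨rfl, rfl⟩ := List.cons.inj c
      exact (e1 ▸ hv z ⟨h1, h2⟩ (h5.resolve_right fun c => c rfl) :
        ¬X.G.Viol _ _ _ _ (x :: B ++ top :: st) _)
    · have := h4.length_le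
      obtain _ | ⟨t, w⟩ := w
      · simp at this
      exact D.rule h ⟨h1, h2⟩ (e1 ▸ c) (by simp at this; omega)
        (D.hm_sfx h e1 hl ht ((List.suffix_cons _ _).trans c) h4)
  · rcases List.suffix_cons_iff.1 h1 with c | c
    · obtain ⟨rfl, c'⟩ := List.cons.inj c
      rw [hy', hy]
      exact D.stp hT' h hψ (e1.trans c'.symm) he
    · exact b.step u v w c h2

end DC
end Sc
end Pool.Agent.P.MP_e4ac67_pr.Gr
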