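import Pool.Agent.P.MP_e4ac67_pr.V.DetC

/-! Collisions give the data of the topological lemma. -/

namespace Pool.Agent.P.MP_e4ac67_pr.Gr
namespace Sc
variable {X : Sc} {β P P' Q st : List Pt} {σ τ u : Wd X.k} {e : Fin X.k} {v x y z top : Pt}
  {ω : Cf} {r : Option Pt} {V V' : Type} {T : PlaneTri V} {T' : PlaneTri V'} {δ : V' × V'}
  {ξ : Finset (Wd X.k)} {ψ : Pt → V'}

theorem fail_of (h : X.OP ω (Q ++ top :: st)) (hs : st ≠ []) (ht : X.Hm top)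
    (nd : (P ++ Q ++ top :: st).Nodup) (bP : X.G.Br X.G.Tb Grid.c4 X.k T' ψ X.o X.N P top st)
    (bQ : X.G.Br X.G.Tb Grid.c4 X.k T' ψ X.o X.N Q top st) (h3 : 2 ≤ P.length + Q.length)
    (cl : X.G.Adj (P.headD top) (Q.headD top))
    (inj : ∀ u ∈ P ++ Q ++ [top], ∀ v ∈ P ++ Q ++ [top], ψ u = ψ v → u = v)
    (tp : ∀ u v, P.getLast? = some u → Q.getLast? = some v →
      (T'.G.Adj (ψ top) (ψ (st.headD top)) ∧ X.G.Stp X.G.Tb Grid.c4 X.k T' ψ top st u (ψ u) ∧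
        X.G.Stp X.G.Tb Grid.c4 X.k T' ψ top st v (ψ v) ∧
        (X.k < X.G.dg top → ¬X.G.Viol X.G.Tb Grid.c4 X.k top st top)) ∨
      (v = X.G.rg top u 1 ∧ ψ v = T'.nx (ψ top) (ψ u)) ∨
      (u = X.G.rg top v 1 ∧ ψ u = T'.nx (ψ top) (ψ v))) :
    X.G.Fail X.G.Tb Grid.c4 X.k T' ψ X.o X.N P Q top st := by
  refine ⟨⟨by have := o_lev (X := X); omega, Grid.cone_trans X.y0 (Grid.rt_cone _)⟩, ?_,
    fun v hv => (h.dom v (by simp [hv])).imp_left fun a => ⟨Grid.cone_trans X.y0 a.1, ?_⟩,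
    ht, nd, bP, bQ, h3, cl, inj, tp⟩
  · have := h.last
    rwa [List.getLast?_append_of_ne_nil _ (by simp), List.getLast?_cons_of_ne_nil hs] at this
  · rw [o, Grid.rt_lev]; exact a.2.1

theorem MA0_of {L R stem : List Pt} (h : X.G.MArc X.G.Tb Grid.c4 X.k T' ψ z L R stem) :
    X.G.MA0 X.k z L R stem := h.zero

namespace DC
variable (D : X.DC T' δ r ω β ξ ω) (hT' : ∀ v, T'.deg v = X.k) (hδ : T'.Dart δ)
include D hT' hδ

omit hT' D in
theorem not_rm (h : (X.mdl T' δ r ω β).acc ξ σ) : ¬(X.mdl T' δ r ω β).Rm (T'.hd δ σ) := by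
  rcases Mdl.acc_iff.1 h with rfl | h
  · rintro (c | c | c)
    · exact hδ.ne' c
    · exact (PlaneTri.adj_rot hδ.symm _).ne c.2
    · exact (PlaneTri.adj_rot hδ.symm _).ne c.2
  · exact h.1.1.2.2.1

omit hT' hδ in
/-- a dart into `z` that was accepted satisfies the rule of `z` -/
theorem self {w : List Pt} (h : (X.mdl T' δ r ω β).acc ξ σ) (e : X.rl (X.ro r :: β) σ = x :: w) :
    X.k < X.G.dg x → ¬X.G.Viol X.G.Tb Grid.c4 X.k x w x := fun hk => by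
  have hx : X.Hm x := by have := (D.hm h).1; rwa [hr, e] at this
  rcases snoc_cases σ with rfl | ⟨τ, a, rfl⟩
  · obtain ⟨st, rfl⟩ := D.hS.shape
    obtain ⟨rfl, rfl⟩ := List.cons.inj e
    have ad := (List.isChain_cons_cons.1 D.hS.1.ch).1.1
    refine Grid.not_viol (Or.inr (X.G.tubeOK.anc _ _ (.step .base ?_ ?_) ad.ne))
    all_goals
      have : (X.ro r).1 = (X.tl r).1 + 1 := by
        cases r
        · exact t0_lev.symm
        · exact D.hL.1.lev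
      have := X.G.adj_iff.1 ad
      try unfold Grid.Ch
      omega
  · rw [rl_snoc] at e
    obtain ⟨rfl, rfl⟩ := List.cons.inj e
    simpa using (good (Mdl.d_snoc.1 h).1).2.1 _ ⟨hx, hk⟩

/-- two accepted words and their common part -/
theorem split (h : (X.mdl T' δ r ω β).acc ξ σ) (h' : (X.mdl T' δ r ω β).acc ξ τ)
    (hn : ¬σ <+: τ) : ∃ B Q top st, X.rl (X.ro r :: β) σ = X.hr (X.ro r :: β) σ :: B ++ top :: st ∧
      X.rl (X.ro r :: β) τ = Q ++ top :: st ∧ β.length ≤ st.length ∧ X.Hm top ∧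
      (X.hr (X.ro r :: β) σ :: B ++ Q ++ top :: st).Nodup ∧
      (∀ v ∈ X.hr (X.ro r :: β) σ :: B ++ Q ++ [top], ∃ ρ, (ρ <+: σ ∨ ρ <+: τ) ∧
        v = X.hr (X.ro r :: β) ρ) ∧
      ∀ ψ : Pt → V', X.Im β r T' δ ψ σ → X.Im β r T' δ ψ τ → ∀ u v,
        (X.hr (X.ro r :: β) σ :: B).getLast? = some u → Q.getLast? = some v →
        T'.G.Adj (ψ top) (ψ (st.headD top)) ∧ X.G.Stp X.G.Tb Grid.c4 X.k T' ψ top st u (ψ u) ∧
        X.G.Stp X.G.Tb Grid.c4 X.k T' ψ top st v (ψ v) ∧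
        (X.k < X.G.dg top → ¬X.G.Viol X.G.Tb Grid.c4 X.k top st top) := by
  obtain ⟨a, b₁, b₂, rfl, rfl, h3⟩ := exists_lcp σ τ
  obtain ⟨P, p1, p2, p3, p4⟩ := rl_append (X.ro r :: β) a b₁
  obtain ⟨Q, q1, q2, q3, q4⟩ := rl_append (X.ro r :: β) a b₂
  have ha := Mdl.d_pre h (List.prefix_append _ _)
  obtain ⟨t, w, e, -⟩ := D.letter ha
  obtain _ | ⟨x, B⟩ := P
  · obtain rfl := List.length_eq_zero_iff.1 p2.symm
    exact absurd (by simp) hn
  obtain rfl : x = X.hr (X.ro r :: β) (a ++ b₁) := by rw [hr, p1]; rfl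
  have n1 := (D.inv h).nd
  have n2 := (D.inv h').nd
  rw [p1, e] at n1
  rw [q1, e] at n2
  have pf : ∀ {b d : Wd X.k}, d <+: b → a ++ d <+: a ++ b := (List.prefix_append_right_inj a).2
  refine ⟨B, Q, _, t :: w, e ▸ p1, e ▸ q1, ?_, (D.hm ha).1, ?_, fun v hv => ?_,
    fun ψ i1 i2 u v hu hv => ?_⟩
  · have := rl_len (X.ro r :: β) a
    rw [e] at this
    simp at this ⊢; omega
  · rw [List.append_assoc, List.nodup_append]
    refine ⟨n1.of_append_left, n2, fun u hu v hv c => ?_⟩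
    subst c
    rcases List.mem_append.1 hv with hv | hv
    · obtain ⟨d, d1, d2, d3⟩ := p3 u hu
      obtain ⟨d', -, d4, d5⟩ := q3 u hv
      have := D.hr_inj (Mdl.d_pre h (pf d2)) (Mdl.d_pre h' (pf d4)) (d3.symm.trans d5)
      exact d1 (h3 d d2 (List.append_cancel_left this ▸ d4))
    · exact (List.nodup_append.1 n1).2.2 u hu u hv rfl
  · rcases List.mem_append.1 hv with hv | hv
    · rcases List.mem_append.1 hv with hv | hv
      · obtain ⟨d, -, d2, d3⟩ := p3 v hv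
        exact ⟨_, Or.inl (pf d2), d3⟩
      · obtain ⟨d, -, d2, d3⟩ := q3 v hv
        exact ⟨_, Or.inr (pf d2), d3⟩
    · exact ⟨a, Or.inl (List.prefix_append _ _), List.mem_singleton.1 hv⟩
  · obtain ⟨c, c1, rfl⟩ := p4 u hu
    obtain ⟨d, d1, rfl⟩ := q4 v hv
    have ia := i1.pre (List.prefix_append _ _)
    have := ia.tail D.hS e
    rw [i1.1 _ (pf c1), i2.1 _ (pf d1)]
    refine ⟨?_, D.stp hT' ha ia e (Mdl.d_snoc.1 (Mdl.d_pre h (pf c1))).1.1.pos,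
      D.stp hT' ha ia e (Mdl.d_snoc.1 (Mdl.d_pre h' (pf d1))).1.1.pos, D.self ha e⟩
    rw [List.headD_cons, this.1, this.2]
    exact (PlaneTri.run_dart hδ a).symm

variable (E : Emb X.G T) (hk : ∀ v, X.k ≤ T.deg v)
  (hR : (X.mdl T' δ r ω β).Real ((X.mdl T' δ r ω β).pre ξ (σ ++ [e])) (σ ++ [e]))
include E hk hR

/-- bond: the dart hits a vertex accepted before -/
theorem failA (hm : X.m = false) (h' : (X.mdl T' δ r ω β).pre ξ (σ ++ [e]) τ)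
    (hy : X.hr (X.ro r :: β) τ = X.hr (X.ro r :: β) (σ ++ [e])) :
    ∃ z, X.Ex z ∧ X.RF z (X.hr (X.ro r :: β) σ, X.hr (X.ro r :: β) (σ ++ [e])) ω := by
  have h := hR.par
  obtain ⟨t, w, e0, -, e1⟩ := D.letter h
  have ad := D.adj h e
  obtain ⟨B, Q, top, st, s1, s2, s3, s4, s5, s6, s7⟩ := D.split hT' hδ h h'.2 (by
    rintro ⟨d, rfl⟩
    obtain _ | ⟨a, d⟩ := d
    · exact ad.ne (by simpa using hy)
    · have := rk_le_append (σ ++ [a]) d
      have := h'.1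
      rw [bt_snoc] at this
      simp only [rk_snoc, List.append_assoc, List.singleton_append] at *
      omega)
  obtain ⟨ψ, -, hψ⟩ := D.exists_im (0, 0) δ.1
  have no : ∀ {ρ}, (X.mdl T' δ r ω β).acc ξ ρ → (0, 0) ∉ X.rl (X.ro r :: β) ρ := fun a c => by
    have := t0_lev (X := X)
    have := o_lev (X := X)
    rcases (D.inv a).dom _ c with c | c
    · exact absurd c.2.1 (by simp)
    · have := congrArg Prod.fst c
      simp only at this; omega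
  have i1 := hψ σ h (no h)
  have i2 := hψ τ h'.2 (no h'.2)
  have im : ∀ v ∈ X.hr (X.ro r :: β) σ :: B ++ Q ++ [top], ∃ ρ, (X.mdl T' δ r ω β).pre ξ (σ ++ [e]) ρ ∧
      v = X.hr (X.ro r :: β) ρ ∧ ψ v = T'.hd δ ρ := fun v hv => by
    obtain ⟨ρ, a | a, rfl⟩ := s6 v hv
    · exact ⟨ρ, Mdl.d_in (Mdl.d_pre h a) (rk_le_of_prefix a), rfl, i1.1 ρ a⟩
    · exact ⟨ρ, ⟨(rk_le_of_prefix a).trans_lt h'.1, Mdl.d_pre h'.2 a⟩, rfl, i2.1 ρ a⟩
  have hq : Q.headD top = X.hr (X.ro r :: β) (σ ++ [e]) := by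
    rw [← hy, hr, s2]; cases Q <;> rfl
  have hs : st ≠ [] := by
    obtain ⟨_, c⟩ := D.hS.shape
    rintro rfl; simp [c] at s3
  have o2 := s2 ▸ D.inv h'.2
  refine (Grid.topo E X.G.tubeOK X.h7 hk hT'
    (fail_of o2 hs s4 s5 (D.br hT' hδ h i1 s1 (by omega) s4) (D.br hT' hδ h'.2 i2 s2 (by omega) s4)
      ?_ (hq ▸ ad) (fun u hu v hv c => ?_) fun u v hu hv => Or.inl (s7 ψ i1 i2 u v hu hv))
    (Or.inl ⟨_, B, _, rfl, hq ▸ D.stp hT' h i1 s1 hR.pos, D.self h s1, fun v hv c => ?_⟩)).imp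
    fun z ⟨z1, z2, _, z4, z5, _, z7⟩ => ⟨⟨z1, z2⟩, _, Q, top, st, hs, s1 ▸ D.inv h, o2, rfl, ad,
      z4, hq ▸ z5, _, s5, Or.inl ⟨hm, rfl, hq.symm⟩, z7.imp MA0_of MA0_of⟩
  · by_contra c
    obtain ⟨rfl, rfl⟩ : B = [] ∧ Q = [] := by
      simp only [← List.length_eq_zero_iff, List.length_cons] at c ⊢; omega
    rw [e0] at s1
    exact (e1 e hR.pos).1 (hq.symm.trans (List.cons.inj (List.cons.inj s1).2).1.symm)
  · obtain ⟨ρ, a1, rfl, a2⟩ := im u hu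
    obtain ⟨ρ', b1, rfl, b2⟩ := im v hv
    rw [Mdl.d_hd_inj (M := X.mdl T' δ r ω β) hT' hδ a1.2 b1.2 (a2.symm.trans (c.trans b2))]
  · obtain ⟨ρ, a1, -, a2⟩ := im v hv
    exact hR.2.2.2.1 ρ a1 (a2.symm.trans c)

/-- site: the head of the dart is adjacent to a vertex processed before -/
theorem failB (hm : X.m = true) (h' : (X.mdl T' δ r ω β).acc ξ τ) (hr : rk τ < rk σ)
    (hy : y = X.hr (X.ro r :: β) (σ ++ [e])) (h0 : X.Hm y) (h1 : y ∉ X.rl (X.ro r :: β) σ)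
    (h2 : y ∉ X.rl (X.ro r :: β) τ) (h3 : X.G.Adj (X.hr (X.ro r :: β) τ) y)
    (h4 : ∀ z, X.Ex z → X.G.Tb z y →
      ¬X.G.Viol X.G.Tb Grid.c4 X.k z (X.rl (X.ro r :: β) σ) y ∧
      ¬X.G.Viol X.G.Tb Grid.c4 X.k z (X.rl (X.ro r :: β) τ) y) :
    ∃ z, X.Ex z ∧ X.RF z (X.hr (X.ro r :: β) σ, y) ω := by
  have h := hR.par
  obtain ⟨t, w, e0, -, e1⟩ := D.letter h
  have ad := hy ▸ D.adj h e
  obtain ⟨B, Q, top, st, s1, s2, s3, s4, s5, s6, s7⟩ := D.split hT' hδ h h' fun c =>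
    absurd (rk_le_of_prefix c) (by omega)
  obtain ⟨ψ, py, hψ⟩ := D.exists_im y (T'.hd δ (σ ++ [e]))
  have i1 := hψ σ h h1
  have i2 := hψ τ h' h2
  have im : ∀ v ∈ X.hr (X.ro r :: β) σ :: B ++ Q ++ [top], ∃ ρ, (X.mdl T' δ r ω β).pre ξ (σ ++ [e]) ρ ∧
      v = X.hr (X.ro r :: β) ρ ∧ ψ v = T'.hd δ ρ := fun v hv => by
    obtain ⟨ρ, a | a, rfl⟩ := s6 v hv
    · exact ⟨ρ, Mdl.d_in (Mdl.d_pre h a) (rk_le_of_prefix a), rfl, i1.1 ρ a⟩
    · exact ⟨ρ, Mdl.d_in (Mdl.d_pre h' a) ((rk_le_of_prefix a).trans hr.le), rfl, i2.1 ρ a⟩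
  have hq : Q.headD top = X.hr (X.ro r :: β) τ := by rw [Sc.hr, s2]; cases Q <;> rfl
  have hs : st ≠ [] := by
    obtain ⟨_, c⟩ := D.hS.shape
    rintro rfl; simp [c] at s3
  have o2 := s2 ▸ D.inv h'
  have nd : (y :: X.hr (X.ro r :: β) σ :: B ++ Q ++ top :: st).Nodup := List.nodup_cons.2
    ⟨fun c => by rw [s1] at h1; rw [s2] at h2; simp at c h1 h2; tauto, s5⟩
  have na : ¬T'.G.Adj (ψ y) (ψ (Q.headD top)) := fun c => by
    rw [py, hq, i2.1 τ List.prefix_rfl] at c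
    exact hR.2.2.2.2 hm τ (Mdl.d_in h' hr.le) (by simpa using hr) c.symm
  have ne : ∀ v ∈ X.hr (X.ro r :: β) σ :: B ++ Q ++ [top], ψ v ≠ ψ y := fun v hv c => by
    obtain ⟨ρ, a1, -, a2⟩ := im v hv
    exact hR.2.2.2.1 ρ a1 (a2.symm.trans (c.trans py))
  refine (Grid.topo E X.G.tubeOK X.h7 hk hT'
    (fail_of o2 hs s4 nd (D.br_cons hT' hδ h i1 s1 (by omega) s4 hR.pos hy h0 py fun z a b c => ?_)
      (D.br hT' hδ h' i2 s2 (by omega) s4) (by simp; omega) (hq ▸ h3.symm) (fun u hu v hv c => ?_)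
      fun u v hu hv => Or.inl (s7 ψ i1 i2 u v hu hv)) (Or.inr na)).imp
    fun z ⟨z1, z2, _, z4, z5, z6, z7⟩ => ⟨⟨z1, z2⟩, _, Q, top, st, hs, s1 ▸ D.inv h, o2, rfl, ad,
      z4, z6 na, _, nd, Or.inr ⟨hm, rfl, hq ▸ h3.symm, z5, fun c => ?_, fun v hv c => ?_⟩,
      z7.imp MA0_of MA0_of⟩
  · have c' := c
    obtain ⟨_, _, -, -, c' | c'⟩ := c'
    · exact b c'.1
    · exact (h4 z a c'.1).1 c
  · rcases List.mem_cons.1 hu with a | hu' <;> rcases List.mem_cons.1 hv with b | hv'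
    · rw [a, b]
    · exact absurd (a ▸ c.symm) (ne v hv')
    · exact absurd (b ▸ c) (ne u hu')
    obtain ⟨ρ, a1, rfl, a2⟩ := im u hu'
    obtain ⟨ρ', b1, rfl, b2⟩ := im v hv'
    rw [Mdl.d_hd_inj (M := X.mdl T' δ r ω β) hT' hδ a1.2 b1.2 (a2.symm.trans (c.trans b2))]
  · refine (h4 z ⟨z1, z2⟩ c).2 ?_
    rw [s2]
    rcases z7 with ⟨f, l, _, _, -, -, a, -⟩ | ⟨f, l, _, _, -, -, a, -⟩ <;>
      rw [List.cons_append, Grid.itr_neg (Or.inr c)] at a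
    · exact Grid.cross_viol (X.h7.trans_lt z2) c (Or.inl a)
    · exact Grid.cross_viol (X.h7.trans_lt z2) c (Or.inr a)
  · rw [← s1, e0] at hv
    obtain rfl : t = v := Option.some.inj hv
    exact hR.mid (M := X.mdl T' δ r ω β) hT' hδ hm (Or.inl hm) (Or.inl hm)
      ((e1 e hR.pos).2.2.1 (hy ▸ c))

end DC

namespace DC
variable (D : X.DC T' δ (some z) ω β ξ ω) (hT' : ∀ v, T'.deg v = X.k) (hδ : T'.Dart δ)
  (E : Emb X.G T) (hk : ∀ v, X.k ≤ T.deg v)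
  (hR : (X.mdl T' δ (some z) ω β).Real ((X.mdl T' δ (some z) ω β).pre ξ (σ ++ [e])) (σ ++ [e]))
include D hT' hδ E hk hR

theorem failZ (hm : X.m = false) (hβ : β = z :: st) (i1 : X.Im β (some z) T' δ ψ σ)
    (o2 : X.OP ω (Q ++ z :: st)) (bQ : X.G.Br X.G.Tb Grid.c4 X.k T' ψ X.o X.N Q z st)
    (hQ : ∀ v ∈ Q, v ∈ X.Uz z ω ∧ (X.mdl T' δ (some z) ω β).Rm (ψ v) ∧ ψ v ≠ δ.1 ∧ ∀ u ∈ Q, v = u)
    (hq : Q.headD z = X.hr (X.G.cv z :: β) (σ ++ [e]))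
    (tp : ∀ v, Q.getLast? = some v →
      (v = X.G.rg z (X.G.cv z) 1 ∧ ψ v = T'.nx δ.1 δ.2) ∨
      (X.G.cv z = X.G.rg z v 1 ∧ δ.2 = T'.nx δ.1 (ψ v))) :
    ∃ z', X.Ex z' ∧ X.RF z' (X.hr (X.G.cv z :: β) σ, X.hr (X.G.cv z :: β) (σ ++ [e])) ω := by
  have h := hR.par
  obtain ⟨t, w, e0, -, e1⟩ := D.letter h
  have ad : X.G.Adj (X.hr (X.G.cv z :: β) σ) (X.hr (X.G.cv z :: β) (σ ++ [e])) := D.adj h e
  obtain ⟨B, s1, s2, s3⟩ := rl_cons (c := X.G.cv z) (β := β) σ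
  replace s1 : X.rl (X.G.cv z :: β) σ = X.hr (X.G.cv z :: β) σ :: B ++ z :: st := by
    rw [s1, ← hβ]; rfl
  have o1 : X.OP ω (X.hr (X.G.cv z :: β) σ :: B ++ z :: st) := s1 ▸ D.inv h
  have hz : X.Hm z := D.hL.1.1
  have hs : st ≠ [] := by
    rintro rfl
    have := o2.last
    simp only [List.getLast?_append, List.getLast?_singleton, Option.some_or,
      Option.some.injEq] at this
    exact t0_not (this ▸ hz)
  have im : ∀ v ∈ X.hr (X.G.cv z :: β) σ :: B, ∃ ρ, (X.mdl T' δ (some z) ω β).pre ξ (σ ++ [e]) ρ ∧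
      v = X.hr (X.G.cv z :: β) ρ ∧ ψ v = T'.hd δ ρ := List.forall_mem_cons.2
    ⟨⟨σ, Mdl.d_in h le_rfl, rfl, i1.1 σ List.prefix_rfl⟩, fun v hv => by
      obtain ⟨ρ, a, b, rfl⟩ := s3 v hv
      exact ⟨ρ, Mdl.d_in (Mdl.d_pre h a) b.le, rfl, i1.1 ρ a⟩⟩
  have rm : ∀ v ∈ Q ++ [z], (X.mdl T' δ (some z) ω β).Rm (ψ v) := fun v hv =>
    (List.mem_append.1 hv).elim (fun a => (hQ v a).2.1) fun a =>
      Or.inl (List.mem_singleton.1 a ▸ i1.2)
  have nd : (X.hr (X.G.cv z :: β) σ :: B ++ Q ++ z :: st).Nodup := by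
    rw [List.append_assoc, List.nodup_append]
    refine ⟨o1.nd.of_append_left, o2.nd, fun u hu v hv c => ?_⟩
    subst c
    rcases List.mem_append.1 hv with hv | hv
    · obtain ⟨ρ, a, b, -⟩ := im u hu
      exact (D.hm a.2).2.1 (b ▸ (hQ u hv).1)
    · exact (List.nodup_append.1 o1.nd).2.2 u hu u hv rfl
  refine (Grid.topo E X.G.tubeOK X.h7 hk hT'
    (fail_of o2 hs hz nd (D.br hT' hδ h i1 s1 (by simp [hβ]) hz) bQ
      ?_ (hq ▸ ad) (fun u hu v hv c => ?_) fun u v hu hv => Or.inr ?_)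
    (Or.inl ⟨_, B, _, rfl, hq ▸ D.stp hT' h i1 s1 hR.pos, D.self h s1, fun v hv c => ?_⟩)).imp
    fun z' ⟨z1, z2, _, z4, z5, _, z7⟩ => ⟨⟨z1, z2⟩, _, Q, z, st, hs, o1, o2, rfl, ad,
      z4, hq ▸ z5, _, nd, Or.inl ⟨hm, rfl, hq.symm⟩, z7.imp MA0_of MA0_of⟩
  · by_contra c
    obtain ⟨rfl, rfl⟩ : B = [] ∧ Q = [] := by
      simp only [← List.length_eq_zero_iff, List.length_cons] at c ⊢; omega
    rw [show X.rl (X.G.cv z :: β) σ = _ from e0] at s1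
    exact (e1 e hR.pos).1 (hq.symm.trans (List.cons.inj (List.cons.inj s1).2).1.symm)
  · rw [List.append_assoc] at hu hv
    rcases List.mem_append.1 hu with hu | hu <;> rcases List.mem_append.1 hv with hv | hv
    · obtain ⟨ρ, a1, rfl, a2⟩ := im u hu
      obtain ⟨ρ', b1, rfl, b2⟩ := im v hv
      rw [Mdl.d_hd_inj (M := X.mdl T' δ (some z) ω β) hT' hδ a1.2 b1.2 (a2.symm.trans (c.trans b2))]
    · obtain ⟨ρ, a1, -, a2⟩ := im u hu
      exact absurd (a2 ▸ c ▸ rm v hv) (not_rm hδ a1.2)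
    · obtain ⟨ρ, a1, -, a2⟩ := im v hv
      exact absurd (a2 ▸ c ▸ rm u hu) (not_rm hδ a1.2)
    · have i2 : ψ z = δ.1 := i1.2
      rcases List.mem_append.1 hu with hu | hu <;> rcases List.mem_append.1 hv with hv | hv
      · exact (hQ u hu).2.2.2 v hv
      · exact absurd (c.trans (List.mem_singleton.1 hv ▸ i2)) (hQ u hu).2.2.1
      · exact absurd (c.symm.trans (List.mem_singleton.1 hu ▸ i2)) (hQ v hv).2.2.1
      · rw [List.mem_singleton.1 hu, List.mem_singleton.1 hv]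
  · obtain rfl : X.G.cv z = u := Option.some.inj (s2.symm.trans hu)
    rw [show ψ z = δ.1 from i1.2, show ψ (X.G.cv z) = δ.2 from i1.1 [] List.nil_prefix]
    exact tp v hv
  · rw [List.append_assoc] at hv
    rcases List.mem_append.1 hv with hv | hv
    · obtain ⟨ρ, a1, -, a2⟩ := im v hv
      exact hR.2.2.2.1 ρ a1 (a2.symm.trans c)
    · exact hR.2.2.1 (c ▸ rm v hv : Mdl.Rm _ (T'.hd δ (σ ++ [e])))

omit hT' hδ E hk hR in
theorem old (hβ : β = z :: st) : X.OP ω (z :: st) := D.hS.1.suf (hβ ▸ List.suffix_cons _ _) (by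
  have := D.hS.1.last
  cases st
  · exact absurd ((by simpa [hβ] using this : z = X.t0) ▸ D.hL.1.1) t0_not
  · simp)

/-- bond: the dart returns to the tail of the root -/
theorem failT (hm : X.m = false) (hy : X.hr (X.G.cv z :: β) (σ ++ [e]) = z) :
    ∃ z', X.Ex z' ∧ X.RF z' (X.hr (X.G.cv z :: β) σ, X.hr (X.G.cv z :: β) (σ ++ [e])) ω := by
  obtain ⟨st, hβ⟩ := D.hS.shape
  obtain ⟨ψ, -, hψ⟩ := D.exists_im (0, 0) δ.1
  have o2 : X.OP ω (z :: st) := D.old hβ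
  refine D.failZ hT' hδ E hk hR (Q := []) hm hβ (hψ σ hR.par fun c => ?_) o2
    ⟨by simp, o2.ch.imp fun _ _ a => a.1.symm, by simp, fun _ _ _ v w a b => ?_,
      fun u v w a b => ?_⟩ (by simp) hy.symm (by simp)
  · have := t0_lev (X := X)
    have := o_lev (X := X)
    rcases (D.inv hR.par).dom _ c with c | c
    · exact absurd c.2.1 (by simp)
    · have := congrArg Prod.fst c
      simp only at this; omega
  all_goals
    have := a.length_le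
    have := b.length_le
    simp at *; omega

/-- bond: the dart hits a removed lateral -/
theorem failL (hm : X.m = false) (hy : y = X.hr (X.G.cv z :: β) (σ ++ [e])) (h0 : X.Hm y)
    (h1 : y = X.G.nb z 3 ∨ y = X.G.nb z 5) (h2 : X.Op ω z y) (h3 : y ∉ β) :
    ∃ z', X.Ex z' ∧ X.RF z' (X.hr (X.G.cv z :: β) σ, X.hr (X.G.cv z :: β) (σ ++ [e])) ω := by
  classical
  obtain ⟨st, hβ⟩ := D.hS.shape
  have hz := D.hL.1
  have h7 := hz.seven
  have lv : 1 ≤ z.1 := by have := hz.1.lev; omega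
  have ad : X.G.Adj z y := by rcases h1 with rfl | rfl <;> exact Grid.adj_nb lv (by omega)
  have yu : y ∈ X.Uz z ω := Reach.step (La.mem D.hL D.hS) ad ⟨Hm_H h0, fun c => by
    rcases h1 with rfl | rfl <;> have := Grid.nb_inj lv (by omega) (by omega) c <;> omega⟩ h2
  have o2 : X.OP ω (z :: st) := D.old hβ
  obtain ⟨ψ, py, hψ⟩ := D.exists_im y (T'.rot δ.2 δ.1 (if y = X.G.nb z 3 then 1 else X.k - 1))
  have i1 := hψ σ hR.par fun c => (mem_rl c).elim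
    (fun ⟨ρ, a, b⟩ => (D.hm (Mdl.d_pre hR.par a)).2.1 (b ▸ yu)) h3
  have k7 := X.h7
  have e5 : T'.rot δ.2 δ.1 (X.k - 1) = T'.nx δ.1 δ.2 := by
    refine PlaneTri.nx_inj (PlaneTri.adj_rot hδ.symm _) (PlaneTri.adj_nx2 hδ) ?_
    rw [← PlaneTri.rot_succ, show X.k - 1 + 1 = T'.deg δ.2 by rw [hT']; omega,
      PlaneTri.rot_deg hδ.symm, T'.face _ _ hδ]
  have a5 : T'.G.Adj δ.1 (ψ y) := by
    rw [py]
    split_ifs
    · exact PlaneTri.adj_nx2 hδ.symm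
    · exact e5 ▸ PlaneTri.adj_nx1 hδ
  have ch : (y :: z :: st).IsChain fun u v => X.G.Adj v u ∧ (v ≠ X.t0 → X.Op ω v u) :=
    List.isChain_cons_cons.2 ⟨⟨ad, fun _ => h2⟩, o2.ch⟩
  refine D.failZ hT' hδ E hk hR (Q := [y]) hm hβ i1 ⟨o2.root.trans (List.suffix_cons _ _),
    List.nodup_cons.2 ⟨hβ ▸ h3, o2.nd⟩, List.forall_mem_cons.2 ⟨Or.inl (Hm_H h0), o2.dom⟩, ch,
    by simp [hm]⟩ ⟨List.forall_mem_singleton.2 h0, ch.imp fun _ _ a => a.1.symm,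
      by simpa [show ψ z = δ.1 from i1.2] using a5.symm, fun _ _ _ v w a b _ => ?_,
      fun u v w a b => ?_⟩ ?_ hy ?_
  · obtain ⟨rfl, rfl⟩ := List.cons.inj (a.eq_of_length_le (by have := b.length_le; simpa using this))
    rcases h1 with rfl | rfl <;> exact Grid.not_viol_nb h7 (by omega) (by omega)
  · have := a.length_le
    have := b.length_le
    simp at *; omega
  · simp only [List.mem_singleton, forall_eq, and_true]
    refine ⟨yu, Or.inr ?_, a5.ne'⟩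
    rw [py]
    split_ifs with c
    · exact Or.inl ⟨Or.inr (c ▸ h2 : X.Op ω z _), rfl⟩
    · exact Or.inr ⟨Or.inr (h1.resolve_left c ▸ h2 : X.Op ω z _), rfl⟩
  · simp only [List.getLast?_singleton, Option.some.injEq, forall_eq']
    rw [py]
    split_ifs with c
    · refine Or.inr ⟨?_, (T'.face _ _ hδ.symm).symm⟩
      rw [c, Grid.rg, Grid.ps_nb lv (by omega), Nat.mod_eq_of_lt (by omega)]; rfl
    · refine Or.inl ⟨?_, e5⟩
      rw [h1.resolve_left c, Grid.rg, Grid.cv, Grid.ps_nb lv (by omega),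
        Nat.mod_eq_of_lt (by omega)]

end DC
end Sc
end Pool.Agent.P.MP_e4ac67_pr.Gr
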