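import Pool.Agent.P.MP_e4ac67_pr.V.L1B

/-! Loads of arcs that end in the bonus vertex. -/

open scoped ENNReal

namespace Pool.Agent.P.MP_e4ac67_pr.Gr
namespace Sc
open Grid L1
variable {X : Sc} {z : Pt}

section
variable {b x y : Pt} {ω : Cf} {I J B : List Pt} {E : Cf → Prop} {eo ee el : ℕ → Prop} {t : ℕ}
variable (X)

noncomputable def aS (z b : Pt) (I : List Pt) : Ak :=
  ⟨z, b, I, X.G.cv z, (· ≠ 0), fun i => 2 ≤ i ∨ X.m = true, (1 ≤ ·), fun _ => False, (· ≤ 1), True⟩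

noncomputable def aL (z b : Pt) (I : List Pt) (eo ee el : ℕ → Prop) : Ak :=
  ⟨z, b, I, X.G.cv z, eo, ee, el, fun _ => True, fun _ => True, True⟩

noncomputable def aX (z b : Pt) (I : List Pt) (t : ℕ) (ee el : ℕ → Prop) : Ak :=
  ⟨z, b, I, X.G.cv z, fun i => i ≠ t ∧ (X.m = true → i + 1 ≠ t), ee, el, (· < t), (· ≤ t + 1), True⟩

def evL (z b : Pt) (I : List Pt) (E : Cf → Prop) (ω : Cf) : Prop :=
  (X.G.Tb z b ∧ X.G.Arc z b I (X.G.cv z)) ∧ ((E ω ∧ X.AE (X.aL z b I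
    (fun i => X.m = true → i ≠ I.length) (fun _ => True) fun _ => False) ω) ∧ X.Op ω z (X.G.cv z))

def ev (z b : Pt) (I : List Pt) (t : ℕ) (ee el : ℕ → Prop) (E : Cf → Prop) (ω : Cf) : Prop :=
  ((E ω ∧ (X.m = false → ¬X.Op ω (vx b I (X.G.cv z) t) (vx b I (X.G.cv z) (t + 1)))) ∧
    X.AE (X.aX z b I t ee el) ω) ∧ X.Op ω z (X.G.cv z)

def evX (w : Bool) (z b : Pt) (I : List Pt) (t : ℕ) (E : Cf → Prop) (ω : Cf) : Prop :=
  (X.G.Tb z b ∧ X.G.Arc z b I (X.G.cv z) ∧ 1 ≤ t ∧ t ≤ I.length) ∧ X.ev z b I t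
    (fun i => ¬(w = true ∧ X.m = true ∧ i = t ∧ i = I.length))
    (fun i => t < i ∨ (X.m = true ∧ t = i)) E ω

/-- the relation of the old part of a collision -/
def RY (ω : Cf) (y u v : Pt) : Prop := X.G.Adj u v ∧ ((X.m = true ∧ v = y) ∨ X.Op ω u v)

variable {X}

theorem evL_le (hz : X.Ex z) (hE : ∀ d, d.2 ∈ X.G.cv z :: I → ¬Wz X.G.Tb z d.2 → X.Nb E d) :
    X.Pr (X.evL z b I E) ≤ X.p * (ind (X.G.Tb z b) * (X.Pr E * X.G.fL X.nm z b I)) := by
  refine (Pr_and _).trans_le (ind_mul_le fun ⟨c1, c2⟩ => ?_)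
  have k : X.CK z (X.aL z b I (fun i => X.m = true → i ≠ I.length) (fun _ => True)
      fun _ => False) := ⟨rfl, rfl, trivial, c2, Or.inr c1, id, fun _ => trivial, fun _ => trivial,
    fun e => absurd e (X.G.tubeOK.lev _ _ c1).2,
    fun a _ => Bool.eq_false_iff.2 fun e => a e rfl, fun _ _ _ _ => id⟩
  refine (k.force hz fun _ => k.nb hz hE).trans (le_of_eq ?_)
  simp only [fL, ind_of c1, ind_of c2, one_mul]
  exact mul_left_comm _ _ _

theorem ev_le (hz : X.Ex z) (k : X.CK z (X.aX z b I t ee el)) (h1 : 1 ≤ t) (h2 : t ≤ I.length)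
    (hE : ∀ d, d.2 ∈ X.G.cv z :: I → ¬Wz X.G.Tb z d.2 → X.Nb E d) :
    X.Pr (X.ev z b I t ee el E) ≤ X.Pr E * (X.p * bk X.nm * X.G.wt X.nm z b I (X.G.cv z)
      (fun i => i ≠ t ∧ (X.m = true → i + 1 ≠ t)) ee el) := by
  have m1 : vx b I (X.G.cv z) t ∈ I := vx_mem h1 h2
  have m2 : vx b I (X.G.cv z) (t + 1) ∈ X.G.cv z :: I := vx_mem1 (by omega) (by omega)
  by_cases c : ∀ v ∈ X.G.cv z :: I, v ∈ X.G.Hs X.y (X.N + 3)
  swap
  · refine (Pr_mono (E' := fun _ => False ∧ True) fun ω h => ⟨c fun v hv => h.1.2.1 v ?_, trivial⟩).trans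
      ((Pr_and _).trans_le (ind_mul_le False.elim))
    simp only [aX]
    grind
  refine (k.force hz fun d u => (k.nb hz hE u).and fun ω => imp_congr_right fun hm =>
    (nb_op ?_).not ω).trans ?_
  · rcases u with u | rfl
    · exact (k.back hz u h1 h2 fun a => a.1 rfl).imp_right fun a => ⟨hm, a⟩
    · exact Or.inr ⟨hm, fun e => k.arc.2.2.2.2 _ m1 (Or.inl e.symm)⟩
  · refine (mul_le_mul_left (force_bk (c _ (List.mem_cons_of_mem _ m1)) (c _ m2) fun _ =>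
      hE _ m2 ((List.mem_cons.1 m2).elim (fun e c => l1_nwz hz (e.subst c))
        (k.arc.2.2.2.2 _))) _).trans
      (le_of_eq ?_)
    simp only [aX]
    ring

theorem evX_le (hz : X.Ex z) (w : Bool)
    (hE : ∀ d, d.2 ∈ X.G.cv z :: I → ¬Wz X.G.Tb z d.2 → X.Nb E d) :
    ∑' t, X.Pr (X.evX w z b I t E) ≤ ind (X.G.Tb z b) * (X.Pr E * X.G.fX X.nm w z b I) := by
  rw [fX, ← ENNReal.tsum_mul_left, ← ENNReal.tsum_mul_left]
  refine ENNReal.tsum_le_tsum fun t => (Pr_and _).trans_le (ind_mul_le fun ⟨c1, c2⟩ => ?_)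
  rw [ind_of c1, ind_of c2, one_mul, one_mul]
  exact ev_le hz ⟨rfl, rfl, trivial, c2.1, Or.inr c1, by simp only [aX]; omega, fun _ => c2.2.1,
    fun _ => by simp only [aX]; omega, fun e => absurd e (X.G.tubeOK.lev _ _ c1).2,
    fun _ a => by simp only [aX] at a; omega, fun _ i _ a c => by
      have := a.1
      simp only [aX] at c ⊢; omega⟩ c2.2.1 c2.2.2 hE

theorem sum_lk (hz : X.Ex z) (F : Pt → List Pt → ℝ≥0∞) :
    ∑' x : Pt × List Pt, ind (X.G.Tb z x.1) * (X.Pr (X.LK z (X.G.cv z :: x.2)) * F x.1 x.2) ≤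
      (2 * X.p + X.G.sT X.nm z none (X.G.fW X.nm z)) * X.G.sT X.nm z none F * X.PG z := by
  rw [mul_right_comm, sT.eq_def (F := F), ← ENNReal.tsum_mul_left]
  refine ENNReal.tsum_le_tsum fun x => ?_
  rw [Option.elim_none, one_mul, mul_left_comm]
  exact mul_le_mul_left (LK_le hz.1) _

theorem sum_eb (hz : X.Ex z) (F : Pt → List Pt → ℝ≥0∞)
    (hF : ∀ b I, F b I ≠ 0 → X.G.Arc z b I (X.G.cv z)) :
    ∑' x : Pt × List Pt, ind (X.G.Tb z x.1) * (X.Pr (X.EB z x.1 (X.G.cv z :: x.2)) * F x.1 x.2) ≤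
      X.nm.sp * X.SA z F := by
  refine le_trans ?_ (mul_le_mul_right (chain_sum hz.1 F fun b I h => ?_) _)
  · rw [← ENNReal.tsum_mul_left]
    refine ENNReal.tsum_le_tsum fun x =>
      (mul_le_mul_right (mul_le_mul_left EB_le _) _).trans (le_of_eq ?_)
    ring
  · obtain ⟨h1, -, -, h2, h3⟩ := hF b I h
    obtain ⟨a, I, rfl⟩ := List.exists_cons_of_ne_nil h2
    exact ⟨(List.isChain_cons_cons.1 h1).1, h3 a List.mem_cons_self⟩

theorem ae_L {R : Pt → Pt → Prop} (hz : X.Ex z) (hc : X.Hm (X.G.cv z)) (ra : RA R b I (X.G.cv z))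
    (hR : ∀ u v, R u v → X.Ro ω u v) (hH : ∀ v ∈ b :: I, v ∈ X.Uz z ω)
    (he : ∀ i, ee (i + 1) → i + 1 ≤ I.length → X.Ro ω (vx b I (X.G.cv z) i)
      (vx b I (X.G.cv z) (i + 2)) → R (vx b I (X.G.cv z) i) (vx b I (X.G.cv z) (i + 2)))
    (hl : ∀ i ≤ I.length, el i → X.G.Adj z (vx b I (X.G.cv z) i) →
      X.m = false ∧ ¬X.Op ω z (vx b I (X.G.cv z) i)) : X.AE (X.aL z b I eo ee el) ω := by
  refine ⟨fun v h => H_sub ?_, fun i hi => ?_⟩
  · have := Hm_H hz.1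
    have := Hm_H hc
    have := fun v h => (uz_mem hz (hH v h)).1
    simp only [aL] at h
    grind
  simp only [aL, Ak.so, Ak.se, Ak.sl, Ak.A, if_true] at hi ⊢
  refine ⟨fun _ => (hR _ _ (ra.st hi)).2, fun e1 e2 e3 => ?_, hl i hi⟩
  obtain ⟨i, rfl⟩ : ∃ j, i = j + 1 := ⟨i - 1, by omega⟩
  exact nochord (fun k => ra.nc i (i + 2) le_rfl (by omega) (he i e1 hi k))
    (hR _ _ (ra.st hi)).2 e3

theorem RA.ry (ra : RA (X.RY ω y) b I y) {i j : ℕ} (h1 : i + 2 ≤ j) (h2 : j ≤ I.length + 1)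
    (ha : X.G.Adj (vx b I y i) (vx b I y j)) :
    X.m = false ∧ ¬X.Op ω (vx b I y i) (vx b I y j) := by
  obtain ⟨j, rfl⟩ : ∃ n, j = n + 1 := ⟨j - 1, by omega⟩
  have n := ra.nc i _ h1 h2
  exact ⟨Bool.eq_false_iff.2 fun e => n ⟨ha, (ra.st (i := j) (by omega)).2.imp_right
    fun c => c.site e _⟩, fun c => n ⟨ha, Or.inr c⟩⟩

/-- the arc of a collision -/
theorem arc_X (h : X.RX z (x, y) ω) : ∃ J, (∀ v ∈ X.G.cv z :: J, v ∉ X.Uz z ω) ∧
    ∀ b I, RA (X.RY ω y) b I y → (∀ v ∈ I, ¬Wz X.G.Tb z v) → (∀ v ∈ b :: I, v ∈ X.Uz z ω) →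
      X.G.Arc z b (I ++ y :: J) (X.G.cv z) ∧ vx b (I ++ y :: J) (X.G.cv z) (I.length + 1) = y ∧
      vx b (I ++ y :: J) (X.G.cv z) (I.length + 1 + 1) = x ∧ ∀ (ee el : ℕ → Prop) (E : Cf → Prop),
      (ee (I.length + 1) → J = [] → vx b I y I.length ≠ z ∧
        (X.m = true → X.Off z ω (vx b I y I.length))) →
      (∀ i ≤ I.length + 1, el i → X.G.Adj z (vx b I y i) → X.m = false ∧ ¬X.Op ω z (vx b I y i)) →
      E ω → X.ev z b (I ++ y :: J) (I.length + 1) ee el E ω := by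
  obtain ⟨hL, B, hN, ha, hH, hw, hy, ⟨u, u1, u2, u3⟩, hB, -⟩ := h
  simp only at ha hH hw hy hN u2 u3 hB
  have hz := hL.1
  obtain ⟨J, nd, ch, h1, hJ, st, er⟩ := new_arc hN hy ha
  have hc := hJ _ List.mem_cons_self
  have yz : y ≠ z := fun e => hw (Or.inl e)
  have yu : X.m = false → y ∈ X.Uz z ω := fun e => Reach.step u1 u2 ⟨hH, fun c => hy (c ▸ hc)⟩
    (u3.resolve_left (by simp [e]))
  refine ⟨J, fun v h => (hN.dom v (hJ v h)).2.1, fun b I ra hI hU => ?_⟩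
  have n1 := nd_iff.1 nd
  have n2 := nd_iff.1 ra.nd
  have dj : ∀ v ∈ I, v ∉ X.G.cv z :: J := fun v a c =>
    (hN.dom v (hJ v c)).2.1 (hU v (List.mem_cons_of_mem _ a))
  have e1 : vx b (I ++ y :: J) (X.G.cv z) (I.length + 1) = y := vx_right (j := 0)
  have e2 : vx b (I ++ y :: J) (X.G.cv z) (I.length + 1 + 1) = x := vx_right.trans h1
  refine ⟨⟨?_, ?_, by grind, by simp, fun v h => ?_⟩, e1, e2, fun ee el E he hl hE =>
    ⟨⟨⟨hE, fun e => ?_⟩, fun v h => H_sub ?_, fun i hi => ?_⟩, hL.2.2.2.1⟩⟩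
  · rw [List.cons_append, List.append_assoc, List.cons_append, List.isChain_cons_split]
    exact ⟨ra.ch.imp fun _ _ k => k.1, ch⟩
  · simp only [List.nodup_append, List.nodup_cons]
    grind
  · have := fun v h => (hN.dom v (hJ v (List.mem_cons_of_mem _ h))).2.2
    grind
  · rw [e1, e2]
    exact (cross hL hN (yu e) List.mem_cons_self (fun _ => ⟨yz, by simp [e]⟩) ha.symm).2
  · have := Hm_H hz.1
    have := fun v h => (uz_mem hz (hU v h)).1
    have := fun v h => (hN.dom v (hJ v h)).1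
    simp only [aX] at h
    grind
  simp only [aX, Ak.so, Ak.se, Ak.sl, Ak.A, if_true, List.length_append, List.length_cons] at hi ⊢
  rcases le_or_gt i I.length with c | c
  · rw [if_pos (by omega), if_pos (by omega), vx_left (by omega), vx_left (by omega),
      vx_left (by omega)]
    refine ⟨fun a => (ra.st c).2.resolve_left fun k => a.2 k.1
      (vx_inj ra.nd (by omega) le_rfl (k.2.trans vx_last.symm)),
      fun _ a => RA.ry ra (by omega) (by omega), hl i (by omega)⟩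
  obtain ⟨j, rfl⟩ : ∃ j, i = I.length + 1 + j := ⟨i - (I.length + 1), by omega⟩
  rw [if_neg (by omega), add_assoc _ j, vx_right, vx_right]
  have mem : ∀ n, 1 ≤ n → n ≤ J.length + 1 → vx y J (X.G.cv z) n ∈ x :: B := fun n a b =>
    hJ _ (vx_mem1 a b)
  rcases Nat.eq_zero_or_pos j with rfl | hj
  · rw [if_pos (by omega), vx_left (by omega), h1]
    refine ⟨fun a => absurd rfl a.1, fun a _ => cross hL hN (hU _ (vx_mem0 le_rfl))
      List.mem_cons_self fun k => he a (List.length_eq_zero_iff.1 ?_), fun a => ?_⟩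
    · have := vx_inj nd (by omega) le_rfl (h1.trans (k.trans vx_last.symm))
      omega
    · have := hl _ le_rfl a
      rwa [vx_last] at this
  refine ⟨fun _ => st j hj (by omega), fun _ _ => ?_, fun _ => cross hL hN hL.uz1
    (mem j hj (by omega)) fun k => absurd (k ▸ vx_mem hj (by omega)) n1.2.2.1⟩
  rw [show I.length + 1 + j - 1 = I.length + 1 + (j - 1) by omega, vx_right]
  rcases (by omega : 1 = j ∨ 2 ≤ j) with rfl | hj
  · rw [if_pos le_rfl]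
    intro a
    have m2 := mem 2 (by omega) (by omega)
    have e : X.m = false := Bool.eq_false_iff.2 fun e => hB e _ ((List.mem_cons.1 m2).resolve_left
      fun k => absurd (vx_inj nd (by omega) (by omega) (k.trans h1.symm)) (by omega)) a.symm
    exact cross hL hN (yu e) m2 (fun _ => ⟨yz, by simp [e]⟩) a
  · rw [if_neg (by omega)]
    exact er j hj (by omega)

end

theorem load_lost (hz : X.Ex z) (hc : X.Hm (X.G.cv z)) : X.Pr (X.Lost z) ≤ X.p *
    ((X.G.sGam X.nm z + (2 * X.p + X.G.sT X.nm z none (X.G.fW X.nm z)) *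
      (ind (X.m = false) * X.G.sT X.nm z none (X.G.fL X.nm z))) * X.PG z +
      X.nm.sp * X.SA z (X.G.fL X.nm z)) := by
  have key : ∀ ω, X.Lost z ω → ((∃ I, (X.m = false ∧ X.G.Arc z z I (X.G.cv z)) ∧
      ((X.GS z (X.G.cv z :: I) ω ∧ X.AE (X.aL z z I (fun _ => True) (2 ≤ ·) (2 ≤ ·)) ω) ∧
        X.Op ω z (X.G.cv z))) ∨ (X.m = false ∧ ∃ x : Pt × List Pt,
      X.evL z x.1 x.2 (X.LK z (X.G.cv z :: x.2)) ω)) ∨
      ∃ x : Pt × List Pt, X.evL z x.1 x.2 (X.EB z x.1 (X.G.cv z :: x.2)) ω := by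
    rintro ω ⟨hG, ho, a, a1, a2, a3, a4⟩
    let R := fun u v => X.Ro ω u v ∧ ¬(u = z ∧ v = X.G.cv z)
    have r1 : ∀ u v, R u v → v ≠ X.G.cv z → X.Ro ω u v := fun _ _ h _ => h.1
    have r2 : ∀ u v, X.Ro ω u v → v ≠ X.G.cv z → R u v := fun _ _ h k => ⟨h, fun c => k c.2⟩
    have tube : ∀ b I E, X.G.Tb z b → RA R b I (X.G.cv z) → (∀ v ∈ I, ¬Wz X.G.Tb z v) →
        (∀ v ∈ b :: I, v ∈ X.Uz z ω) → E ω → X.evL z b I E ω := fun b I E hb ra hI hU hE => by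
      refine ⟨⟨hb, ra_arc ra (fun _ _ h => h.1.1) ?_ hI⟩, ⟨hE, ae_L hz hc ra (fun _ _ h => h.1) hU
        (fun i _ hi k => ⟨k, fun c => ?_⟩) fun _ _ => False.elim⟩, ho⟩
      · rintro rfl
        exact l1_tb hz hb (ra.st (i := 0) le_rfl).1.1
      · rcases List.mem_cons.1 (vx_mem0 (b := b) (I := I) (e := X.G.cv z) (i := i) (by omega)) with e | e
        · exact (X.G.tubeOK.lev _ _ hb).2 (e.symm.trans c.1)
        · exact hI _ e (Or.inl c.1)
    by_cases hB : ∃ u, X.Off z ω u ∧ R u (X.G.cv z)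
    · obtain ⟨u, u1, u2⟩ := hB
      obtain ⟨b, I, hb, ra, hI, hU, hS⟩ := cutB hz r1 r2 (l1_nwz hz) u1 u2
      exact Or.inr ⟨(b, I), tube b I _ hb ra hI (fun v h => (hU v h).uz1)
        ⟨⟨u1.1, hS _ fun v h => Or.inl h⟩, (hG.resolve_left u1.1).imp fun _ h => h.2⟩⟩
    have hm : X.m = false := Bool.eq_false_iff.2 fun e =>
      hB ⟨a, by simpa [e] using a4, ⟨a1, a3⟩, fun c => a2 c.1⟩
    have first : z ≠ X.o → ∀ v, X.Rc (X.H \ {z}) ω v → X.Off z ω v := fun n v h => by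
      induction h with
      | base => exact ⟨n, .base⟩
      | step _ h2 h3 h4 ih => exact ⟨n, .step ih.2 h2 ⟨h3.1, fun c => c.elim h3.2 fun c =>
          hB ⟨_, ih, ⟨c ▸ h2, c ▸ h4⟩, fun e => ih.ne e.1⟩⟩ h4⟩
    have h0 : X.G0 z ω := (em (z = X.o)).imp_right fun n =>
      (hG.resolve_left n).imp fun _ h => ⟨first n _ h.1, h.2⟩
    obtain ⟨b, I, ra, hI, hU, hb⟩ := cut0 hz r1 r2 (l1_nwz hz) h0 hB (by simpa [hm] using a4)
      ⟨⟨a1, a3⟩, fun c => a2 c.1⟩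
    have hS : ∀ v ∈ X.G.cv z :: I, ¬X.Off z ω v := fun v h => (List.mem_cons.1 h).elim
      (fun e c => (uz_mem hz c.uz1).2 e) fun e => (hI v e).2
    rcases hb with rfl | ⟨hb, hL⟩
    · refine Or.inl (Or.inl ⟨I, ⟨hm, ra_arc ra (fun _ _ h => h.1.1) ?_ fun v h => (hI v h).1⟩,
        ⟨h0.gs hS, ae_L hz hc ra (fun _ _ h => h.1) hU (fun i a hi k => ⟨k, fun c =>
          (hI _ (vx_mem (by omega) (by omega))).1 (Or.inl c.1)⟩) fun i hi a k => ⟨hm, fun c =>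
          ra.nc 0 i a (by omega) ⟨⟨k, c⟩, fun e => ?_⟩⟩⟩, ho⟩)
      · rintro rfl
        exact (ra.st (i := 0) le_rfl).2 ⟨rfl, rfl⟩
      · exact (nd_iff.1 ra.nd).2.2.1 (e.2.subst (vx_mem (by omega) hi))
    · exact Or.inl (Or.inr ⟨hm, (b, I), tube b I _ hb ra (fun v h => (hI v h).1) hU
        (hL _ fun v h => ⟨hS v h, Or.inl h⟩)⟩)
  refine (Pr_mono key).trans (Pr_or.trans ?_)
  rw [mul_add, add_mul, mul_add]
  refine add_le_add (Pr_or.trans (add_le_add ((Pr_ex _).trans ?_) ((Pr_and _).trans_le ?_)))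
    ((Pr_ex _).trans ?_)
  · rw [sGam, ← ENNReal.tsum_mul_right, ← ENNReal.tsum_mul_left]
    refine ENNReal.tsum_le_tsum fun I => (Pr_and _).trans_le (ind_mul_le fun c => ?_)
    have k : X.CK z (X.aL z z I (fun _ => True) (2 ≤ ·) (2 ≤ ·)) := ⟨rfl, rfl, trivial, c.2,
      Or.inl rfl, by simp [aL], fun _ => trivial, fun _ => trivial,
      fun _ i a => by simp only [aL] at a; omega, fun _ _ => c.1, fun _ _ _ _ => id⟩
    refine (k.force hz fun _ => k.nb hz fun _ a b => GS_nb a fun e => b (Or.inl e)).trans ?_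
    rw [ind_of (A := X.nm.m = false ∧ _) c, one_mul, ← mul_assoc X.p, mul_comm _ (X.PG z)]
    exact mul_le_mul_left GS_le _
  · refine (mul_le_mul_right ((Pr_ex _).trans ((ENNReal.tsum_le_tsum fun x =>
      evL_le hz fun _ => LK_nb hz.1).trans (ENNReal.tsum_mul_left.trans_le
        (mul_le_mul_right (sum_lk hz _) _)))) _).trans (le_of_eq ?_)
    ring
  · exact (ENNReal.tsum_le_tsum fun x => evL_le hz fun _ a b => EB_nb a fun e => b (Or.inl e)).trans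
      (ENNReal.tsum_mul_left.trans_le (mul_le_mul_right (sum_eb hz _ fun b I h =>
        by_contra fun c => h (by rw [fL, ind_of_not c, zero_mul])) _))

theorem load_X (hz : X.Ex z) : ∑' d, X.Pr (X.RX z d) ≤
    (X.G.sX0 X.nm z + (2 * X.p + X.G.sT X.nm z none (X.G.fW X.nm z)) *
      X.G.sT X.nm z none (X.G.fX X.nm true z)) * X.PG z +
      X.nm.sp * X.SA z (X.G.fX X.nm false z) := by
  let π := fun (i : (Pt × List Pt) × ℕ) =>
    (vx i.1.1 i.1.2 (X.G.cv z) (i.2 + 1), vx i.1.1 i.1.2 (X.G.cv z) i.2)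
  let E0 := fun (i : List Pt × ℕ) ω => (X.G.Arc z z i.1 (X.G.cv z) ∧ 1 ≤ i.2 ∧ i.2 ≤ i.1.length ∧
    ¬(i.2 = 1 ∧ (i.1.head? = some (X.G.nb z 3) ∨ i.1.head? = some (X.G.nb z 5)))) ∧
    X.ev z z i.1 i.2 (fun j => 2 ≤ j ∧ ¬(X.m = true ∧ j = i.2 ∧ j = i.1.length)) (2 ≤ ·)
      (X.GS z (X.G.cv z :: i.1)) ω
  have key : ∀ d ω, X.RX z d ω → ((∃ i : List Pt × ℕ, π ((z, i.1), i.2) = d ∧ E0 i ω) ∨
      ∃ i, π i = d ∧ X.evX true z i.1.1 i.1.2 i.2 (X.LK z (X.G.cv z :: i.1.2)) ω) ∨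
      ∃ i, π i = d ∧ X.evX false z i.1.1 i.1.2 i.2 (X.EB z i.1.1 (X.G.cv z :: i.1.2)) ω := by
    rintro ⟨x, y⟩ ω h
    obtain ⟨J, hJ, arc⟩ := arc_X h
    obtain ⟨hL, B, hN, ha, -, hw, -, ⟨u, u1, u2, u3⟩, -, h35⟩ := h
    simp only at hN ha hw u2 u3 h35
    have r1 : ∀ u v, X.RY ω y u v → v ≠ y → X.Ro ω u v := fun _ _ h k =>
      ⟨h.1, h.2.resolve_left fun c => k c.2⟩
    have r2 : ∀ u v, X.Ro ω u v → v ≠ X.G.cv z → X.RY ω y u v := fun _ _ h _ => ⟨h.1, Or.inr h.2⟩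
    have hS : ∀ I : List Pt, (∀ v ∈ I, ¬X.Off z ω v) → ¬X.Off z ω y →
        ∀ v ∈ X.G.cv z :: (I ++ y :: J), ¬X.Off z ω v := fun I a b v h c => by
      have := c.uz1
      grind
    have zero : ∀ I, RA (X.RY ω y) z I y → (∀ v ∈ I, ¬Wz X.G.Tb z v ∧ ¬X.Off z ω v) →
        (∀ v ∈ z :: I, v ∈ X.Uz z ω) → ¬X.Off z ω y →
        ∃ i : List Pt × ℕ, π ((z, i.1), i.2) = (x, y) ∧ E0 i ω := fun I ra hI hU hy => by
      obtain ⟨k1, k2, k3, k4⟩ := arc z I ra (fun v h => (hI v h).1) hU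
      refine ⟨(I ++ y :: J, I.length + 1), Prod.ext k3 k2, ⟨k1, by simp, by simp, fun c => ?_⟩,
        k4 _ _ _ (fun a e => ⟨fun c => (hI _ (vx_mem (by omega) le_rfl)).1 (Or.inl c),
          fun m => absurd ⟨m, rfl, by simp [e]⟩ a.2⟩) (fun i hi a => RA.ry ra (i := 0) a hi)
          (G0.gs hL.2.2.1 (hS I (fun v h => (hI v h).2) hy))⟩
      obtain rfl : I = [] := List.length_eq_zero_iff.1 (by have := c.1; simp only at this; omega)
      have k := h35 (by simpa using c.2)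
      exact hy (k.2 ((ra.st (i := 0) le_rfl).2.resolve_left (by simp [k.1])))
    by_cases c1 : X.m = true ∧ X.G.Adj z y
    · exact Or.inl (Or.inl (zero [] ⟨by simpa using ⟨c1.2, Or.inl ⟨c1.1, rfl⟩⟩,
        by simpa using c1.2.ne, fun i j a b => by simp at b; omega⟩ (by simp)
        (by simpa using hL.uz1) fun c => by
          simpa [c1.1] using (cross hL hN c.uz1 List.mem_cons_self (fun _ => ⟨c.ne, fun _ => c⟩)
            ha.symm).1))
    have tube : ∀ w b I E, X.G.Tb z b → RA (X.RY ω y) b I y → (∀ v ∈ I, ¬Wz X.G.Tb z v) →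
        (∀ v ∈ b :: I, v ∈ X.Uz z ω) → (w = false → ∀ v ∈ b :: I, X.Off z ω v) → E ω →
        π ((b, I ++ y :: J), I.length + 1) = (x, y) ∧
          X.evX w z b (I ++ y :: J) (I.length + 1) E ω := fun w b I E hb ra hI hU hO hE => by
      obtain ⟨k1, k2, k3, k4⟩ := arc b I ra hI hU
      have m := vx_mem0 (b := b) (I := I) (e := y) le_rfl
      refine ⟨Prod.ext k3 k2, ⟨hb, k1, by simp, by simp⟩, k4 _ _ _ (fun a e => ⟨fun c => ?_,
        fun c => hO (Bool.eq_false_iff.2 fun k => a ⟨k, c, rfl, by simp [e]⟩) _ m⟩)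
        (fun i hi a k => ?_) hE⟩
      · rcases List.mem_cons.1 m with e | e
        · exact (X.G.tubeOK.lev _ _ hb).2 (e.symm.trans c)
        · exact hI _ e (Or.inl c)
      · obtain ⟨a', rfl⟩ := a.resolve_left (by omega)
        exact absurd ⟨a', by rwa [vx_last] at k⟩ c1
    by_cases c2 : ∃ u, X.Off z ω u ∧ X.RY ω y u y
    · obtain ⟨u, u1, u2⟩ := c2
      obtain ⟨b, I, hb, ra, hI, hU, hD⟩ := cutB hz r1 r2 hw u1 u2
      exact Or.inr ⟨_, tube false b I _ hb ra hI (fun v h => (hU v h).uz1) (fun _ => hU)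
        ⟨⟨u1.1, hD _ (by grind)⟩, (hL.2.2.1.resolve_left u1.1).imp fun _ h => h.2⟩⟩
    have hy : ¬X.Off z ω y := fun c => by
      have k := c.2
      cases k with
      | base => exact hw (o_wz hz.1)
      | step a b _ e => exact c2 ⟨_, ⟨c.1, a⟩, b, Or.inr e⟩
    obtain ⟨b, I, ra, hI, hU, rfl | ⟨hb, hK⟩⟩ := cut0 hz r1 r2 hw hL.2.2.1 c2 u1
      ⟨u2, u3.imp_left fun e => ⟨e, rfl⟩⟩
    · exact Or.inl (Or.inl (zero I ra hI hU hy))
    · exact Or.inl (Or.inr ⟨_, tube true b I _ hb ra (fun v h => (hI v h).1) hU (by simp)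
        (hK _ fun v h => ⟨hS I (fun v h => (hI v h).2) hy v h, by grind⟩)⟩)
  refine (ENNReal.tsum_le_tsum fun d => (Pr_mono (key d)).trans
    (Pr_or.trans (add_le_add Pr_or le_rfl))).trans ?_
  rw [ENNReal.tsum_add, ENNReal.tsum_add, add_mul]
  refine add_le_add (add_le_add ((Pr_sum _ _ _ fun _ _ => id).trans ?_)
    ((Pr_sum _ _ _ fun _ _ => id).trans ?_)) ((Pr_sum _ _ _ fun _ _ => id).trans ?_)
  · rw [sX0, ← ENNReal.tsum_mul_right]
    refine ENNReal.tsum_le_tsum fun i => (Pr_and _).trans_le (ind_mul_le fun c => ?_)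
    rw [ind_of c, one_mul, mul_comm _ (X.PG z)]
    exact (ev_le hz ⟨rfl, rfl, trivial, c.1, Or.inl rfl, by simp [aX], fun _ => c.2.1,
      fun a => absurd a.1 (by omega), fun _ j a => by simp only [aX] at a; omega,
      fun _ a => absurd a (not_lt.2 c.2.2.1), fun _ j _ a c => by
        have := a.1
        simp only [aX] at c ⊢; omega⟩ c.2.1 c.2.2.1
      fun _ a b => GS_nb a fun e => b (Or.inl e)).trans (mul_le_mul_left GS_le _)
  · rw [ENNReal.tsum_prod']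
    exact (ENNReal.tsum_le_tsum fun x => evX_le hz true fun _ => LK_nb hz.1).trans (sum_lk hz _)
  · rw [ENNReal.tsum_prod']
    exact (ENNReal.tsum_le_tsum fun x => evX_le hz false fun _ a b =>
      EB_nb a fun e => b (Or.inl e)).trans (sum_eb hz _ fun b I h => by_contra fun c => h (by
        simp only [fX, ind_of_not (fun k => c (And.left k)), zero_mul, tsum_zero]))

theorem load_S (hz : X.Ex z) :
    ∑' d, X.Pr (X.RS z d) ≤ X.G.sT X.nm z none (X.G.fS X.nm z) * X.PG z := by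
  refine (Pr_sum (fun (x : Pt × List Pt) ω => (X.G.Tb z x.1 ∧ X.G.Arc z x.1 x.2 (X.G.cv z)) ∧
    ((X.GS z (X.G.cv z :: x.2) ω ∧ X.AE (X.aS z x.1 x.2) ω) ∧ X.Op ω z (X.G.cv z)))
    (fun x => (x.2.headD z, x.1)) _ ?_).trans ?_
  · rintro ⟨x, y⟩ ω ⟨hL, B, hN, ha, hb, hB⟩
    obtain ⟨J, nd, ch, h1, hJ, st, er⟩ := new_arc hN (fun c => (hN.dom y c).2.2 (Or.inr hb)) ha
    have hne : J ≠ [] := by rintro rfl; exact l1_tb hz hb (by simpa using ch)
    have n := nd_iff.1 nd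
    refine ⟨(y, J), Prod.ext ((vx_head hne z).symm.trans h1) rfl, ⟨hb, ch, n.1, n.2.2.1, hne,
      fun v h => (hN.dom v (hJ v (List.mem_cons_of_mem _ h))).2.2⟩,
      ⟨G0.gs hL.2.2.1 fun v h c => (hN.dom v (hJ v h)).2.1 c.uz1, fun v h => ?_, fun i hi => ?_⟩,
      hL.2.2.2.1⟩
    · have := H_sub (Hm_H hz.1)
      have := l1_hs hz.1 hb (hN.dom x List.mem_cons_self).1 ha
      have := fun v h => H_sub (hN.dom v (hJ v h)).1
      simp only [aS] at h
      grind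
    simp only [aS, Ak.so, Ak.se, Ak.sl, Ak.A, if_true, if_false] at hi ⊢
    refine ⟨fun a => st i (by omega) hi, fun a c => ?_, fun a => cross hL hN hL.uz1
      (hJ _ (List.mem_cons_of_mem _ (vx_mem a hi))) fun k => absurd (k ▸ vx_mem a hi) n.2.2.1⟩
    rcases (by omega : 1 = i ∨ 2 ≤ i) with rfl | c
    · exact fun k => absurd k.symm (hB (a.resolve_left (by omega)) _ ((List.mem_cons.1
        (hJ _ (vx_mem1 (i := 2) (by omega) (by omega)))).resolve_left fun k =>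
          absurd (vx_inj nd (by omega) (by omega) (k.trans h1.symm)) (by omega)))
    · rw [if_neg (by omega)]
      exact er i c hi
  rw [sT, ← ENNReal.tsum_mul_right]
  refine ENNReal.tsum_le_tsum fun x => (Pr_and _).trans_le (ind_mul_le fun ⟨c1, c2⟩ => ?_)
  have k : X.CK z (X.aS z x.1 x.2) := ⟨rfl, rfl, trivial, c2, Or.inr c1, by simp [aS],
    fun a => a rfl, fun _ => le_refl 1, fun e => absurd e (X.G.tubeOK.lev _ _ c1).2, fun _ => False.elim,
    fun _ _ _ _ => id⟩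
  refine (k.force hz fun _ => k.nb hz fun _ a b => GS_nb a fun e => b (Or.inl e)).trans ?_
  simp only [fS, ind_of c1, ind_of c2, Option.elim_none, one_mul]
  exact (mul_le_mul_left GS_le _).trans (mul_comm _ _).le

end Sc
end Pool.Agent.P.MP_e4ac67_pr.Gr
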