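import Pool.Agent.P.MP_e4ac67_pr.V.L2b

/-! Loads of the rule. -/

open scoped ENNReal

namespace Pool.Agent.P.MP_e4ac67_pr.Gr

section
variable {R : Pt → Pt → Prop} {b e x f : Pt} {I l : List Pt} {i : ℕ}

theorem l2_gd (l : List Pt) (e : Pt) (i : ℕ) : (l ++ [e]).getD i e = l.getD i e := by
  induction l generalizing i with
  | nil => cases i <;> simp
  | cons a l ih => cases i with
    | zero => rfl
    | succ i => exact ih i

theorem l2_vx (b : Pt) (I : List Pt) (e : Pt) (i : ℕ) : Grid.vx b I e i = (b :: I).getD i e :=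
  l2_gd (b :: I) e i

theorem l2_ch (h : l.IsChain R) (d : Pt) (a : i + 1 < l.length) :
    R (l.getD i d) (l.getD (i + 1) d) := by
  rw [List.getD_eq_getElem _ _ a, List.getD_eq_getElem _ _ (Nat.lt_of_succ_lt a)]
  exact List.isChain_iff_getElem.1 h i a

theorem l2_fw (h : (b :: I).IsChain R) (a : i < I.length) :
    R (Grid.vx b I e i) (Grid.vx b I e (i + 1)) := by
  rw [l2_vx, l2_vx]
  exact l2_ch h e (by simpa using a)

theorem l2_bw (h : (I ++ [e]).IsChain R) (a : i ≤ I.length) (c : 1 ≤ i) :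
    R (Grid.vx b I e i) (Grid.vx b I e (i + 1)) := by
  obtain ⟨i, rfl⟩ : ∃ j, i = j + 1 := ⟨i - 1, by omega⟩
  exact l2_ch h e (by simp; omega)

theorem l2_mem (a : i ≤ I.length) (c : 1 ≤ i) : Grid.vx b I e i ∈ I := by
  obtain ⟨i, rfl⟩ : ∃ j, i = j + 1 := ⟨i - 1, by omega⟩
  rw [l2_vx, List.getD_cons_succ, List.getD_eq_getElem _ _ a]
  exact List.getElem_mem _

theorem l2_ne (h : (b :: I).Nodup) (hx : I.getLast? = some x) (a : i < I.length) :
    Grid.vx b I e i ∈ b :: I ∧ Grid.vx b I e i ≠ x := by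
  obtain ⟨J, rfl⟩ := List.getLast?_eq_some_iff.1 hx
  have a' : i < (b :: J).length := by simpa using a
  have : Grid.vx b (J ++ [x]) e i ∈ b :: J := by
    rw [l2_vx, ← List.cons_append, List.getD_append _ _ _ _ a', List.getD_eq_getElem _ _ a']
    exact List.getElem_mem _
  rw [← List.cons_append] at h ⊢
  exact ⟨List.mem_append_left _ this, (List.nodup_append.1 h).2.2 _ this _ (by simp)⟩

/-- shortcutting the inner part of an arc, keeping its ends -/
theorem l2_red (hc : l.IsChain R) (h1 : l.head? = some f) (h2 : l.getLast? = some x) :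
    ∃ I : List Pt, I.Sublist l ∧ I.IsChain R ∧ I.head? = some f ∧ I.getLast? = some x ∧ I.Nodup ∧
      ∀ b e i j, 1 ≤ i → i + 2 ≤ j → j ≤ I.length → ¬R (Grid.vx b I e i) (Grid.vx b I e j) := by
  obtain ⟨l, rfl⟩ := List.head?_eq_some_iff.1 h1
  obtain ⟨l', a1, a2, a3, a4, a5⟩ := reduce R hc
  refine ⟨f :: l', a1.cons_cons f, a2, rfl, a3.trans h2, a4, fun b e i j c1 c2 c3 => ?_⟩
  obtain ⟨i, rfl⟩ : ∃ k, i = k + 1 := ⟨i - 1, by omega⟩
  obtain ⟨j, rfl⟩ : ∃ k, j = k + 1 := ⟨j - 1, by omega⟩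
  rw [l2_vx, l2_vx]
  exact a5 e i j (by omega) (by simpa using c3)

theorem l2_shr (Φ : List Pt → Prop) (h : Φ l) :
    ∃ l' : List Pt, l'.Sublist l ∧ Φ l' ∧ ∀ P v Q, l' = P ++ v :: Q → ¬Φ (P ++ Q) := by
  obtain ⟨l', a, c, d⟩ := shrink Φ h
  refine ⟨l', a, c, ?_⟩
  rintro P v Q rfl
  simpa [List.eraseIdx_append_of_length_le] using d P.length (by simp)

theorem l2_dec (a : i + 1 < I.length) : ∃ P Q, I = P ++ Grid.vx b I e (i + 1) ::
    Grid.vx b I e (i + 1 + 1) :: Q ∧ (b :: P).getLast? = some (Grid.vx b I e i) := by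
  induction I generalizing b i with
  | nil => simp at a
  | cons c I ih =>
    cases i with
    | zero =>
      cases I with
      | nil => simp at a
      | cons c' Q => exact ⟨[], Q, rfl, rfl⟩
    | succ i =>
      obtain ⟨P, Q, h1, h2⟩ := ih (b := c) (i := i) (by simpa using a)
      exact ⟨c :: P, Q, congrArg (c :: ·) h1, List.getLast?_cons_cons.trans h2⟩

theorem l2_lst (hx : I.getLast? = some x) : Grid.vx b I e I.length = x := by
  obtain ⟨J, rfl⟩ := List.getLast?_eq_some_iff.1 hx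
  simp [l2_vx, List.getD_eq_getElem?_getD]

/-- shortcutting that keeps the last vertex and the side of the first one -/
theorem l2_red1 {G : Grid} {z : Pt} (hR : ∀ u v, R u v → G.Adj u v) (h3 : 3 ≤ G.gap z)
    (hb : G.Tb z b) (hc : (b :: l).IsChain R) (h2 : l.getLast? = some x)
    (hw : ∀ v ∈ l, ¬Grid.Wz G.Tb z v) : ∃ I : List Pt, I.Sublist l ∧ (b :: I).IsChain R ∧
      I.getLast? = some x ∧ (G.Rt z 4 (I.headD z) ↔ G.Rt z 4 (l.headD z)) ∧
      ∀ e i, i + 1 < I.length → ¬R (Grid.vx b I e i) (Grid.vx b I e (i + 1 + 1)) := by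
  obtain ⟨I, a1, ⟨a2, a3, a4, a5⟩, a6⟩ := l2_shr (fun I => (b :: I).IsChain R ∧
    I.getLast? = some x ∧ (∀ v ∈ I, ¬Grid.Wz G.Tb z v) ∧
      (G.Rt z 4 (I.headD z) ↔ G.Rt z 4 (l.headD z))) ⟨hc, h2, hw, Iff.rfl⟩
  refine ⟨I, a1, a2, a3, a5, fun e i a q => ?_⟩
  obtain ⟨P, Q, e1, e2⟩ := l2_dec (b := b) (e := e) a
  generalize Grid.vx b I e i = u at *
  generalize Grid.vx b I e (i + 1) = v at *
  generalize Grid.vx b I e (i + 1 + 1) = w at *
  subst e1
  have c := List.isChain_append.1 (show ((b :: P) ++ v :: w :: Q).IsChain R from a2)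
  refine a6 P v (w :: Q) rfl ⟨c.1.append c.2.1.tail fun u' hu w' hw' => ?_, ?_,
    fun t ht => a4 t ?_, ?_⟩
  · rw [e2] at hu
    obtain rfl := Option.some.inj hu
    obtain rfl := Option.some.inj hw'
    exact q
  · rw [List.getLast?_append_cons] at a3 ⊢
    exact List.getLast?_cons_cons.symm.trans a3
  · exact (List.mem_append.1 ht).elim (List.mem_append_left _)
      fun k => List.mem_append_right _ (List.mem_cons_of_mem _ k)
  · cases P with
    | cons p P => exact a5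
    | nil =>
      obtain rfl := Option.some.inj e2
      exact (Grid.side_ear le_rfl (by omega) h3 hb (hR _ _ c.2.1.rel) (a4 v (by simp))
        (a4 w (by simp)) (hR _ _ (c.2.2 _ rfl _ rfl)) (hR _ _ q)).symm.trans a5

theorem l2_arc {G : Grid} (h : I.IsChain G.Adj) (h1 : I.head? = some f) (h2 : I.getLast? = some x)
    (a1 : G.Adj b f) (a2 : G.Adj x e) : (b :: I ++ [e]).IsChain G.Adj := by
  refine List.IsChain.append (h.cons fun y hy => ?_) (List.isChain_singleton _) fun u hu v hv => ?_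
  · rw [h1] at hy
    exact Option.some.inj hy ▸ a1
  · obtain ⟨J, rfl⟩ := List.getLast?_eq_some_iff.1 h2
    rw [← List.cons_append, List.getLast?_concat] at hu
    obtain rfl := Option.some.inj hu
    obtain rfl := Option.some.inj hv
    exact a2

theorem l2_indu {G : Grid} {t u v : Pt} {A r : List Pt} (h : Indu G t (A ++ u :: r))
    (hv : v ∈ r.tail) (ht : v ≠ t) : ¬G.Adj v u := by
  induction A with
  | nil => exact h.1 v hv ht
  | cons a A ih => exact ih h.2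

end

theorem l2_low {G : Grid} {y z v : Pt} (hz : G.Cn 0 (G.rt y) z) (hv : G.Tb z v)
    (hl : v.1 = y.1 + 1) : G.Cn 0 y v := by
  have h0 := hz.1
  rw [Grid.rt_lev] at h0
  obtain ⟨n, w⟩ := v
  obtain rfl : n = y.1 + 1 := hl
  rw [Grid.cn_iff]
  simp only [Grid.lr, Grid.rr, add_zero]
  rcases hv with ⟨i, h1, h2, h⟩ | ⟨-, h⟩
  · obtain ⟨j, rfl⟩ : ∃ j, i = j + 1 := ⟨i - 1, by omega⟩
    simp only at h2 h
    have a1 := Grid.an_cone hz j 0 (by rw [Grid.rt_lev]; omega)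
    have a2 := Grid.an_ar (G := G) z j
    have a3 := Grid.an_ar (G := G) z (j + 1)
    simp only [Grid.lr, Grid.rr, Grid.rt_eq] at a1
    have g1 := G.gap2 y.1 y.2
    have g2 := G.gap3 (y.1 + 1) (G.A y.1 (y.2 - 1) + 1) (G.not_two (x := y.2) (by omega) (by omega))
    have g3 := G.A_pred (y.1 + 1) (G.A y.1 (y.2 - 1))
    rw [add_sub_cancel_right] at g2
    have e : z.1 - (j + 1) = y.1 + 1 := by omega
    have b1 : G.A y.1 (y.2 - 1) - 1 < G.an z (j + 1) := by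
      rw [Grid.an, e]
      exact Grid.lt_lp (by omega)
    have b2 : G.ar z (j + 1) ≤ G.A y.1 (y.2 - 1) + 1 := by
      rw [Grid.ar, e]
      exact Grid.rp_le (by omega)
    rcases h with h | h | ⟨h, -, h', -⟩
    · omega
    · omega
    · refine ⟨?_, by omega⟩
      by_contra q
      have b3 : G.an z (j + 1) = G.A y.1 (y.2 - 1) := by omega
      have g4 := G.gap2 y.1 (y.2 - 1)
      have b4 : G.an z (j + 1 + 1) = y.2 - 1 := by
        rw [Grid.an, show z.1 - (j + 1 + 1) = y.1 by omega, b3, G.lp_eq (G.A_pred _ _) le_rfl]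
      rw [Grid.sL, b4, show z.1 - (j + 1 + 1) = y.1 by omega] at h'
      omega
  · have := (Grid.lt1_lev (G := G) z).1
    rw [← h] at this
    omega

namespace Sc
variable {X : Sc} {z x y : Pt} {ω : Cf} {w : List Pt}

theorem l2_hs (hz : X.Hm z) (hy : X.G.Tb z y) (hx : x ∈ X.H) (h : X.G.Adj x y) :
    y ∈ X.G.Hs X.y (X.N + 3) := by
  have h1 := ((Grid.tubeOK X.G).lev z y hy).1
  have h2 := hz.2
  have h3 := hx.2.1
  rw [l2b_ol] at h2
  refine ⟨?_, by omega⟩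
  by_cases e : X.y.1 + 2 ≤ y.1
  · exact (Grid.tb_inner (u := y) hz.1 (Or.inr hy) e).1
  · rw [X.G.adj_iff] at h
    exact l2_low hz.1 hy (by omega)

theorem l2_t0 (hz : z ∈ X.H) : z ≠ X.t0 := by
  intro e
  have h1 := hz.2.1
  have h2 := l2b_ol (X := X)
  rw [e, Sc.t0, X.G.nb_zero] at h1
  simp only at h1
  omega

/-- the last part of an open path off the tube -/
theorem l2_word (hz : X.Hm z) (h : X.OP ω w) {f : Pt}
    (h2 : (Grid.itr X.G.Tb z w).getLast? = some f) : ∃ l b r, Grid.itr X.G.Tb z w = l ∧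
      Grid.bas X.G.Tb z w = b ∧ w = l ++ b :: r ∧ Grid.Wz X.G.Tb z b ∧ b ≠ X.t0 ∧ b ∈ X.H ∧
      (∀ v ∈ l, v ∈ X.H ∧ ¬Grid.Wz X.G.Tb z v ∧ v ∉ b :: r) ∧ (X.G.Adj b f ∧ X.Op ω b f) ∧
      (l.IsChain fun u v => X.G.Adj v u ∧ X.Op ω v u) ∧ X.o ∈ b :: r ∧
      ∀ F, ∀ c ∈ b :: r, c ≠ X.t0 → (∀ v ∈ b :: r, v ∈ X.H → v ∈ F) → X.Rc F ω c := by
  obtain ⟨A, rfl⟩ := h.root
  obtain ⟨r, e, hb⟩ := Grid.itr_bas (W := X.G.Tb) (z := z) (w := A ++ [X.o, X.t0])
    ⟨X.o, by simp, o_wz hz⟩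
  obtain ⟨s1, s2, -⟩ := Grid.itr_split (W := X.G.Tb) (l := A) (w := [X.t0]) (o_wz hz)
  have n : X.t0 ∉ A ++ [X.o] := fun q => by
    have := h.nd
    rw [show A ++ [X.o, X.t0] = (A ++ [X.o]) ++ [X.t0] by simp] at this
    exact (List.nodup_append.1 this).2.2 _ q _ (by simp) rfl
  have hc := h.ch
  have nd := h.nd
  have dm := h.dom
  generalize Grid.bas X.G.Tb z (A ++ [X.o, X.t0]) = b at *
  have s3 := fun v => Grid.itr_not (W := X.G.Tb) (z := z) (w := A ++ [X.o, X.t0]) (v := v)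
  generalize Grid.itr X.G.Tb z (A ++ [X.o, X.t0]) = l at *
  have b0 : b ≠ X.t0 := fun q => n (q ▸ s2)
  have l0 : ∀ v ∈ l, v ≠ X.t0 := fun v hv q => n (q ▸ List.mem_append_left _ (s1 v hv))
  rw [e] at hc nd dm
  refine ⟨l, b, r, rfl, rfl, e, hb, b0, (dm b (by simp)).resolve_right b0, fun v hv =>
    ⟨(dm v (List.mem_append_left _ hv)).resolve_right (l0 v hv), s3 v hv,
      fun q => List.disjoint_of_nodup_append nd hv q⟩, ?_,
    hc.left_of_append.imp_of_mem_imp fun _ v _ hv q => ⟨q.1, q.2 (l0 v hv)⟩, ?_,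
    fun F c hc c0 hF => ?_⟩
  · exact ((List.isChain_append.1 hc).2.2 f h2 b rfl).imp_right fun q => q b0
  · have : X.o ∈ l ++ b :: r := e ▸ by simp
    exact (List.mem_append.1 this).resolve_left fun q => s3 _ q (o_wz hz)
  · obtain ⟨B, r', e'⟩ := List.append_of_mem hc
    rw [e, e', ← List.append_assoc] at h
    exact h.rc c0 fun v hv q _ => hF v (e' ▸ List.mem_append_right _ hv) q

/-- arcs read forward, with a free last step -/
def l2_sf (z b : Pt) (I : List Pt) (e : Pt) (ee el : ℕ → Prop) : Ak :=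
  ⟨z, b, I, e, (· ≠ I.length), ee, el, fun _ => True, fun _ => True, False⟩

theorem l2_par {v : Pt} (h : X.OP ω (x :: w)) (hm : X.m = true) (hv : v ∈ w) (hH : v ∈ X.H)
    (ha : X.G.Adj v x) : w.head? = some v := by
  cases w with
  | nil => simp at hv
  | cons a w =>
    rw [(List.mem_cons.1 hv).resolve_right fun q => (h.ind hm).1 v q (l2_t0 hH) ha]
    rfl

theorem l2_fwd (hz : X.Ex z) (h : X.OP ω (x :: w)) {x' f e : Pt}
    (h1 : (Grid.itr X.G.Tb z (x :: w)).head? = some x')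
    (h2 : (Grid.itr X.G.Tb z (x :: w)).getLast? = some f) (he : Grid.Wz X.G.Tb z e)
    (hb : z ∉ x :: w ∨ Grid.bas X.G.Tb z (x :: w) ≠ z)
    (ha : X.G.Adj x e) (hs : e ∈ X.G.Hs X.y (X.N + 3)) (ee el : List Pt → ℕ → Prop)
    (hee : ∀ I i, ee I i → i < I.length ∨ X.m = true ∧ ∀ v, w.head? = some v → ¬X.G.Adj v e)
    (hl : ∀ I i, el I i → i < I.length ∧ ∀ v ∈ w, v ≠ X.t0 → ¬X.G.Adj v z) :
    ∃ b r I, X.G.Tb z b ∧ (∀ v ∈ b :: r, v ∈ x :: w) ∧ b ≠ X.t0 ∧
      (X.G.Rt z 4 (I.headD z) ↔ X.G.Rt z 4 f) ∧ I.getLastD z = x ∧ x' = x ∧ X.G.Arc z b I e ∧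
      X.o ∈ b :: r ∧
      (∀ F, ∀ c ∈ b :: r, c ≠ X.t0 → (∀ v ∈ b :: r, v ∈ X.H → v ∉ I → v ∈ F) → X.Rc F ω c) ∧
      X.AE (l2_sf z b I e (ee I) (el I)) ω := by
  obtain ⟨l, b, r, e1, e2, e3, b1, b2, b3, b4, b5, b6, b7, b8⟩ := l2_word hz.1 h h2
  rw [e1] at h1 h2
  obtain rfl : x' = x := by
    obtain ⟨l, rfl⟩ := List.head?_eq_some_iff.1 h1
    exact (List.cons.inj e3).1.symm
  have bz : X.G.Tb z b := b1.resolve_left fun q => hb.elim (fun k => k (by rw [e3, ← q]; simp))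
    fun k => k (e2.trans q)
  have g3 : 3 ≤ X.G.gap z := by
    have := hz.2
    have := X.h7
    have := X.G.tau_le z
    unfold Grid.dg at *
    omega
  have a3 := List.head?_reverse.trans h2
  obtain ⟨I, a1, c1, a4, a2, a6⟩ := l2_red1 (R := fun u v => X.G.Adj u v ∧ X.Op ω u v)
    (fun _ _ q => q.1) g3 bz ((List.isChain_reverse.2 b6).cons fun y hy => by
      rw [a3] at hy
      exact Option.some.inj hy ▸ b5) (List.getLast?_reverse.trans h1)
    fun v hv => (b4 v (List.mem_reverse.1 hv)).2.1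
  rw [List.headD_eq_head?_getD (l := l.reverse), a3] at a2
  have sub : ∀ v ∈ I, v ∈ l := fun v hv => List.mem_reverse.1 (a1.subset hv)
  have a5 : I.Nodup := (List.nodup_reverse.2 (e3 ▸ h.nd).of_append_left).sublist a1
  have nd : (b :: I).Nodup := List.nodup_cons.2 ⟨fun q => (b4 b (sub b q)).2.1 b1, a5⟩
  have key : ∀ i < I.length, Grid.vx b I e i ∈ w ∧ Grid.vx b I e i ∈ X.H := fun i k1 => by
    obtain ⟨k3, k4⟩ := l2_ne (e := e) nd a4 k1
    have k5 : Grid.vx b I e i ∈ x' :: w ∧ Grid.vx b I e i ∈ X.H := by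
      rw [e3]
      rcases List.mem_cons.1 k3 with q | q
      · rw [q]
        exact ⟨by simp, b3⟩
      · exact ⟨List.mem_append_left _ (sub _ q), (b4 _ (sub _ q)).1⟩
    exact ⟨(List.mem_cons.1 k5.1).resolve_left k4, k5.2⟩
  refine ⟨b, r, I, bz, fun v hv => e3 ▸ List.mem_append_right _ hv, b2, a2,
    by rw [List.getLastD_eq_getLast?, a4]; rfl, rfl,
    ⟨(c1.imp fun _ _ q => q.1).append (List.isChain_singleton _) fun u hu v hv => ?_, a5,
      fun q => (b4 e (sub e q)).2.1 he, by rintro rfl; simp at a4,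
      fun v hv => (b4 v (sub v hv)).2.1⟩, b7,
    fun F c hc c0 hF => b8 F c hc c0 fun v hv q => hF v hv q fun k => (b4 v (sub v k)).2.2 hv,
    fun v hv => ?_, fun i hi => ⟨fun a => ?_, fun a c d => ?_, fun a c => ?_⟩⟩
  · obtain ⟨J, rfl⟩ := List.getLast?_eq_some_iff.1 a4
    rw [← List.cons_append, List.getLast?_concat] at hu
    obtain rfl := Option.some.inj hu
    obtain rfl := Option.some.inj hv
    exact ha
  · simp only [l2_sf, List.cons_append, List.mem_cons, List.mem_append, List.not_mem_nil,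
      or_false] at hv
    rcases hv with rfl | rfl | hv | rfl
    exacts [H_sub (Hm_H hz.1), H_sub b3, H_sub (b4 v (sub v hv)).1, hs]
  · simpa [Ak.so, Ak.A, l2_sf] using (l2_fw (e := e) c1 (lt_of_le_of_ne hi a)).2
  · obtain ⟨i, rfl⟩ : ∃ j, i = j + 1 := ⟨i - 1, by omega⟩
    have d' : X.G.Adj (Grid.vx b I e i) (Grid.vx b I e (i + 1 + 1)) := d
    rcases (show i + 1 ≤ I.length from hi).lt_or_eq with a' | a'
    · have k := a6 e i a'
      have : X.m = false ∧ ¬X.Op ω (Grid.vx b I e i) (Grid.vx b I e (i + 1 + 1)) := by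
        refine ⟨?_, fun q => k ⟨d', q⟩⟩
        by_contra hm
        exact k ⟨d', (l2_fw c1 a').2.site (by simpa using hm) _⟩
      simpa [Ak.se, Ak.A, l2_sf] using this
    · obtain ⟨k1, k2⟩ := (hee I _ a).resolve_left a'.not_lt
      have k3 := (l2_fw (e := e) c1 (i := i) (by omega)).1
      rw [a', l2_lst a4] at k3
      rw [a', l2b_last] at d'
      exact absurd d' (k2 _ (l2_par h k1 (key i (by omega)).1 (key i (by omega)).2 k3))
  · obtain ⟨k1, k2⟩ := hl I i a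
    exact absurd c.symm (k2 _ (key i k1).1 (l2_t0 (key i k1).2))

theorem l2_force {b e c : Pt} {I : List Pt} {ee el : ℕ → Prop} (hA : X.G.Arc z b I e)
    (hb : X.G.Tb z b) (hbe : b ≠ e) {F : Set Pt} (A : Prop)
    (hee : ∀ i, ee i → i < I.length ∨ X.m = true ∧ ∀ i, ¬el i)
    (hl : ∀ i, el i → i < I.length ∧ z ∉ F) :
    (X.Pr fun ω => (A ∧ X.Rc (F \ {v | v ∈ I}) ω c) ∧ X.AE (l2_sf z b I e ee el) ω) ≤
      (X.Pr fun ω => A ∧ X.Rc F ω c) * X.G.wt X.nm z b I e (· ≠ I.length) ee el := by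
  obtain ⟨-, a1, a2, -, a3⟩ := hA
  refine (force (s := l2_sf z b I e ee el) ⟨a1, fun q => a3 _ q (Or.inr hb), a2,
    Or.inl fun q => a3 _ q (Or.inl rfl), fun q => absurd q hbe,
    fun q => absurd q ((Grid.tubeOK X.G).lev z b hb).2, fun _ => ?_,
    fun _ _ _ _ _ => trivial⟩ fun d hd => (nb_const _).and (nb_rc fun q => ?_)).trans
      (mul_le_mul_left (Pr_mono fun ω q => ⟨q.1, q.2.mono2 Set.sdiff_subset le_rfl⟩) _)
  · refine (Classical.em _).imp_right fun k i q => (q.elim (fun k => (hl i k).1) fun q => ?_).ne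
    exact (hee i q).resolve_right fun q => k q.2
  rcases hd.head with k | k | ⟨-, -, k | k⟩ | ⟨k, -, i, k'⟩
  · exact q.2 k
  · simp [l2_sf] at k
  · exact k.1 rfl
  · exact (hee _ k.2.1).elim (lt_irrefl _) fun q => by simpa [k.1] using q.1
  · exact (hl i k').2 ((show d.2 = z from k) ▸ q.1)

theorem l2_hd {b e : Pt} {I : List Pt} (h : X.G.Arc z b I e) :
    X.G.Adj b (I.headD z) ∧ ¬Grid.Wz X.G.Tb z (I.headD z) := by
  obtain ⟨a1, -, -, a2, a3⟩ := h
  cases I with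
  | nil => exact absurd rfl a2
  | cons f I => exact ⟨(List.isChain_cons_cons.1 a1).1, a3 f List.mem_cons_self⟩

theorem load_Z (hz : X.Ex z) : ∑' d, X.Pr (X.RZ z d) ≤ X.SA z (X.G.fSz X.k X.nm z) := by
  refine (Pr_sum (fun (j : Pt × List Pt) ω => (X.G.Tb z j.1 ∧ X.G.Arc z j.1 j.2 z ∧
    X.G.VZ X.k z (j.2.headD z) (j.2.getLastD z)) ∧ ((z ≠ X.o ∧
      X.Rc ((X.H \ {z}) \ {v | v ∈ j.2}) ω j.1) ∧
        X.AE (l2_sf z j.1 j.2 z (· < j.2.length) fun i => X.m = true ∧ i < j.2.length) ω))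
    (fun j => (j.2.getLastD z, z)) _ ?_).trans (le_trans (ENNReal.tsum_le_tsum fun j => ?_)
      (chain_sum hz.1 _ fun b I hF => l2_hd (e := z) ?_))
  · rintro ⟨x, y⟩ ω ⟨rfl, w, h, ha, ⟨x', f, h1, h2, hv⟩, hm⟩
    obtain ⟨-, hn, hv⟩ := hv.resolve_right fun q => ((Grid.tubeOK X.G).lev _ _ q.1).2 rfl
    obtain ⟨b, r, I, b1, b2, b3, e', e, rfl, b4, b5, b6, b7⟩ := l2_fwd hz h h1 h2 (Or.inl rfl)
      (Or.inl hn) ha (H_sub (Hm_H hz.1)) (fun I i => i < I.length)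
      (fun I i => X.m = true ∧ i < I.length) (fun _ _ => Or.inl) fun I i q => ⟨q.2, hm q.1⟩
    have k : ∀ v ∈ b :: r, v ≠ y := fun v hv q => hn (q ▸ b2 v hv)
    refine ⟨(b, I), Prod.ext e rfl, ⟨b1, b4, ?_⟩,
      ⟨(k _ b5).symm, b6 _ b List.mem_cons_self b3 fun v hv q q' => ⟨⟨q, k v hv⟩, q'⟩⟩, b7⟩
    rw [Grid.VZ, e, e']
    exact hv
  · rw [Pr_and]
    refine ind_mul_le fun hA => ?_
    have bz := ((Grid.tubeOK X.G).lev z _ hA.1).2
    rw [ind_of hA.1, one_mul, Grid.fSz, ind_of hA.2, one_mul]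
    exact l2_force hA.2.1 hA.1 bz _ (fun _ => Or.inl) fun i q => ⟨q.2, fun k => k.2 rfl⟩
  · by_contra q
    exact hF (by rw [Grid.fSz, ind_of_not fun k => q k.1, zero_mul])

/-- arcs from `z`, listed from their end in the tube -/
def l2_sb (m : Bool) (z y : Pt) (I : List Pt) : Ak :=
  ⟨z, y, I, z, (· ≠ 0), fun i => (2 ≤ i ∨ m = true) ∧ i < I.length,
    fun i => m = true ∧ 1 ≤ i ∧ i < I.length, fun _ => False, fun _ => False, True⟩

theorem l2_bwd (hz : X.Hm z) (h : X.OP ω (x :: w)) {x' f : Pt}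
    (h1 : (Grid.itr X.G.Tb z (x :: w)).head? = some x')
    (h2 : (Grid.itr X.G.Tb z (x :: w)).getLast? = some f) (hb : Grid.bas X.G.Tb z (x :: w) = z)
    (hy : X.G.Tb z y) (ha : X.G.Adj x y) (hn : y ∉ x :: w)
    (hm : X.m = true → ∀ v, w.head? = some v → ¬X.G.Adj v y) :
    ∃ I : List Pt, I.headD z = x ∧ I.getLastD z = f ∧ x' = x ∧ 
      X.G.Arc z y I z ∧ X.Rc ((X.H \ {y}) \ {v | v ∈ I}) ω z ∧ X.AE (l2_sb X.m z y I) ω := by
  obtain ⟨l, b, r, e1, e2, e3, b1, b2, b3, b4, b5, b6, -, b8⟩ := l2_word hz h h2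
  obtain rfl : z = b := hb.symm.trans e2
  rw [e1] at h1 h2
  obtain rfl : x' = x := by
    obtain ⟨l, rfl⟩ := List.head?_eq_some_iff.1 h1
    exact (List.cons.inj e3).1.symm
  obtain ⟨I, a1, a2, a3, a4, a5, a6⟩ := l2_red b6 h1 h2
  have sub : ∀ v ∈ I, v ∈ l := fun v hv => a1.subset hv
  have c1 : (I ++ [z]).IsChain fun u v => X.G.Adj v u ∧ X.Op ω v u :=
    a2.append (List.isChain_singleton _) fun u hu v hv => by
      rw [a4] at hu
      obtain rfl := Option.some.inj hu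
      obtain rfl := Option.some.inj hv
      exact b5
  have nd : (y :: I).Nodup := List.nodup_cons.2 ⟨fun q => (b4 y (sub y q)).2.1 (Or.inr hy), a5⟩
  refine ⟨I, by rw [List.headD_eq_head?_getD, a3]; rfl, by rw [List.getLastD_eq_getLast?, a4]; rfl,
    rfl, ⟨l2_arc (a2.imp fun _ _ q => q.1.symm) a3 a4 ha.symm b5.1.symm, a5,
      fun q => (b4 z (sub z q)).2.1 b1, by rintro rfl; simp at a3, fun v hv => (b4 v (sub v hv)).2.1⟩,
    b8 _ z List.mem_cons_self b2 fun v hv q => ⟨⟨q, fun k => hn (e3 ▸ List.mem_append_right _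
      ((show v = y from k) ▸ hv))⟩, fun k => (b4 v (sub v k)).2.2 hv⟩,
    fun v hv => ?_, fun i hi => ⟨fun a => ?_, fun a c d => ?_, fun a c => ?_⟩⟩
  · simp only [l2_sb, List.cons_append, List.mem_cons, List.mem_append, List.not_mem_nil,
      or_false] at hv
    rcases hv with rfl | rfl | hv | rfl
    exacts [H_sub b3, l2_hs hz hy (b4 _ (List.mem_of_head? h1)).1 ha, H_sub (b4 v (sub v hv)).1,
      H_sub b3]
  · simpa [Ak.so, Ak.A, l2_sb] using (l2_bw (b := y) c1 hi (Nat.pos_of_ne_zero a)).2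
  · obtain ⟨i, rfl⟩ : ∃ j, i = j + 1 := ⟨i - 1, by omega⟩
    have a' : (2 ≤ i + 1 ∨ X.m = true) ∧ i + 1 < I.length := a
    rcases Nat.eq_zero_or_pos i with rfl | i0
    · have k1 := a'.1.resolve_left (by omega)
      obtain ⟨J, rfl⟩ := List.head?_eq_some_iff.1 a3
      have k4 := sub _ (l2_mem (b := y) (e := z) a'.2 (by omega))
      have k5 := (l2_bw (b := y) c1 hi le_rfl).1
      have k6 : Grid.vx y (x' :: J) z (0 + 1 + 1) ∈ x' :: w := e3 ▸ List.mem_append_left _ k4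
      exact absurd d.symm (hm k1 _ (l2_par h k1 ((List.mem_cons.1 k6).resolve_left k5.ne)
        (b4 _ k4).1 k5))
    have k := a6 y z i (i + 1 + 1) (by omega) le_rfl a'.2
    have : X.m = false ∧ ¬X.Op ω (Grid.vx y I z (i + 1 + 1)) (Grid.vx y I z i) := by
      refine ⟨?_, fun q => k ⟨d.symm, q⟩⟩
      by_contra hm
      exact k ⟨d.symm, (l2_bw c1 (by omega) (by omega)).2.site (by simpa using hm) _⟩
    simpa [Ak.se, Ak.A, l2_sb] using this
  · obtain ⟨k1, k2, k3⟩ := a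
    obtain ⟨A, B, e⟩ := List.append_of_mem (sub _ (l2_mem (b := y) (e := z) hi k2))
    have k4 := h.ind k1
    rw [e3, e, List.append_assoc, List.cons_append] at k4
    refine absurd c (l2_indu k4 ?_ b2)
    cases B with
    | nil =>
      rw [e, List.getLast?_concat] at h2
      exact absurd (Option.some.inj h2) (l2_ne nd a4 k3).2
    | cons u B => exact List.mem_append_right B List.mem_cons_self

theorem load_W (hz : X.Ex z) : ∑' d, X.Pr (X.RW z d) ≤
    (X.G.sT X.nm z none (X.G.fZW X.nm z) + X.G.sT X.nm z none (X.G.fWW X.nm z)) * X.PZ z +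
      X.SA z (X.G.fWW X.nm z) := by
  let E1 : Pt × List Pt → Cf → Prop := fun j ω => (X.G.Tb z j.1 ∧ X.G.Arc z j.1 j.2 z ∧
    j.2.getLastD z ≠ X.G.cv z ∧ ¬(X.G.Rt z 4 (j.2.headD z) ↔ X.G.Rt z 4 (j.2.getLastD z))) ∧
    (X.Rc ((X.H \ {j.1}) \ {v | v ∈ j.2}) ω z ∧ X.AE (l2_sb X.m z j.1 j.2) ω)
  let C : (Pt × List Pt) × Pt → Prop := fun j => X.G.Tb z j.1.1 ∧ X.G.Tb z j.2 ∧ j.2 ≠ j.1.1 ∧
    X.G.Arc z j.1.1 j.1.2 j.2 ∧ ¬(X.G.Rt z 4 (j.1.2.headD z) ↔ X.G.Rt z 4 (j.1.2.getLastD z))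
  let E2 : (Pt × List Pt) × Pt → Cf → Prop := fun j ω => C j ∧
    ((True ∧ X.Rc (X.H \ {v | v ∈ j.1.2}) ω z) ∧ X.AE (l2_sf z j.1.1 j.1.2 j.2
      (fun i => i < j.1.2.length ∨ X.m = true) fun _ => False) ω)
  let E3 : (Pt × List Pt) × Pt → Cf → Prop := fun j ω => C j ∧
    ((z ≠ X.o ∧ X.Rc ((X.H \ {z}) \ {v | v ∈ j.1.2}) ω j.1.1) ∧
      X.AE (l2_sf z j.1.1 j.1.2 j.2 (fun i => i < j.1.2.length ∨ X.m = true) fun _ => False) ω)
  let π1 : Pt × List Pt → Pt × Pt := fun j => (j.2.headD z, j.1)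
  let π2 : (Pt × List Pt) × Pt → Pt × Pt := fun j => (j.1.2.getLastD z, j.2)
  have h : ∀ d, X.Pr (X.RW z d) ≤ ((X.Pr fun ω => ∃ j, π1 j = d ∧ E1 j ω) +
      X.Pr fun ω => ∃ j, π2 j = d ∧ E2 j ω) + X.Pr fun ω => ∃ j, π2 j = d ∧ E3 j ω := by
    rintro ⟨x, y⟩
    refine (Pr_mono fun ω ⟨w, h, ha, hn, hy, ⟨x', f, h1, h2, hv⟩, hm⟩ => ?_).trans
      (Pr_or.trans (add_le_add Pr_or le_rfl))
    obtain ⟨-, v1, v2⟩ := hv.resolve_left fun q => ((Grid.tubeOK X.G).lev _ _ hy).2 q.1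
    by_cases hb : Grid.bas X.G.Tb z (x :: w) = z
    · obtain ⟨I, e1, rfl, rfl, a1, a2, a3⟩ := l2_bwd hz.1 h h1 h2 hb hy ha hn hm
      refine Or.inl (Or.inl ⟨(y, I), Prod.ext e1 rfl, ⟨hy, a1, fun q => v1 ⟨hb, q⟩, fun q => v2 ?_⟩,
        a2, a3⟩)
      rw [e1] at q
      exact q.symm
    have xH : x ∈ X.H := by
      obtain ⟨l, b, r, e1, -, e3, -, -, -, b4, -⟩ := l2_word hz.1 h h2
      obtain ⟨l, rfl⟩ := List.head?_eq_some_iff.1 (e1 ▸ h1 : l.head? = some x')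
      exact (show x = x' from (List.cons.inj e3).1) ▸ (b4 _ List.mem_cons_self).1
    obtain ⟨b, r, I, b1, b2, b3, e', e, rfl, b4, b5, b6, b7⟩ := l2_fwd hz h h1 h2 (Or.inr hy)
      (Or.inr hb) ha (l2_hs hz.1 hy xH ha) (fun I i => i < I.length ∨ X.m = true)
      (fun _ _ => False) (fun _ _ q => q.imp_right fun q => ⟨q, hm q⟩) fun _ _ q => q.elim
    have c : C ((b, I), y) := ⟨b1, hy,
      fun q => hn (b2 y (by rw [show y = b from q]; exact List.mem_cons_self)), b4, by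
        rw [e, e']; exact v2⟩
    by_cases k : z ∈ b :: r
    · exact Or.inl (Or.inr ⟨((b, I), y), Prod.ext e rfl, c,
        ⟨trivial, b6 _ z k (l2_t0 (Hm_H hz.1)) fun v _ q q' => ⟨q, q'⟩⟩, b7⟩)
    · exact Or.inr ⟨((b, I), y), Prod.ext e rfl, c, ⟨fun q => k (q ▸ b5),
        b6 _ b List.mem_cons_self b3 fun v hv q q' => ⟨⟨q, fun k' => k (k' ▸ hv)⟩, q'⟩⟩, b7⟩
  refine (ENNReal.tsum_le_tsum h).trans ?_
  rw [ENNReal.tsum_add, ENNReal.tsum_add, add_mul]
  refine add_le_add (add_le_add ((Pr_sum E1 π1 _ fun _ _ q => q).trans ?_)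
    ((Pr_sum E2 π2 _ fun _ _ q => q).trans ?_)) ((Pr_sum E3 π2 _ fun _ _ q => q).trans ?_)
  · rw [Grid.sT, ← ENNReal.tsum_mul_right]
    refine ENNReal.tsum_le_tsum fun j => ?_
    rw [Pr_and]
    refine ind_mul_le fun hA => ?_
    have bz := ((Grid.tubeOK X.G).lev z _ hA.1).2
    rw [ind_of hA.1, one_mul, Grid.fZW, ind_of hA.2, one_mul, Option.elim_none, one_mul, mul_comm]
    obtain ⟨hb, ⟨-, a1, a2, -, a3⟩, -⟩ := hA
    refine (force (s := l2_sb X.m z j.1 j.2) ⟨a1, fun q => a3 _ q (Or.inr hb), a2, Or.inl a2,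
      fun q => absurd q bz, fun q => absurd q bz,
      fun _ => Or.inr fun i q => (q.elim (fun k => k.2.2) And.right).ne,
      fun _ _ _ _ q => q⟩ fun d hd => nb_rc fun q => ?_).trans
        (mul_le_mul_left (Pr_mono fun ω q => q.mono2 (fun _ k => k.1.1) le_rfl) _)
    rcases hd.head with k | k | k | k
    · exact q.2 k
    · exact q.1.2 k.1
    all_goals simp [l2_sb] at k
  · rw [Grid.sT, ← ENNReal.tsum_mul_right, ENNReal.tsum_prod']
    refine ENNReal.tsum_le_tsum fun j => ?_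
    rw [Option.elim_none, one_mul, Grid.fWW, ← ENNReal.tsum_mul_left, ← ENNReal.tsum_mul_right]
    refine ENNReal.tsum_le_tsum fun e => ?_
    rw [Pr_and]
    refine ind_mul_le fun hA => ?_
    rw [ind_of hA.1, one_mul, ind_of hA.2, one_mul, mul_comm]
    exact (l2_force hA.2.2.2.1 hA.1 hA.2.2.1.symm _
      (fun _ q => q.imp_right fun q => ⟨q, fun _ => id⟩) fun _ q => q.elim).trans
      (mul_le_mul_left (Pr_mono fun _ q => q.2) _)
  · refine le_trans ?_ (chain_sum hz.1 _ fun b I hF => ?_)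
    · rw [ENNReal.tsum_prod']
      refine ENNReal.tsum_le_tsum fun j => ?_
      rw [Grid.fWW, ← ENNReal.tsum_mul_left, ← ENNReal.tsum_mul_left]
      refine ENNReal.tsum_le_tsum fun e => ?_
      rw [Pr_and]
      refine ind_mul_le fun hA => ?_
      rw [ind_of hA.1, one_mul, ind_of hA.2, one_mul]
      exact l2_force hA.2.2.2.1 hA.1 hA.2.2.1.symm _
        (fun _ q => q.imp_right fun q => ⟨q, fun _ => id⟩) fun _ q => q.elim
    · by_contra q
      refine hF (ENNReal.tsum_eq_zero.2 fun e => ?_)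
      rw [ind_of_not fun k => q (l2_hd k.2.2.1), zero_mul]

end Sc
end Pool.Agent.P.MP_e4ac67_pr.Gr
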