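import Pool.Agent.P.MP_e4ac67_pr.V.L3d

/-! Loads of the marked arcs. -/

open scoped ENNReal

namespace Pool.Agent.P.MP_e4ac67_pr.Gr

theorem Grid.l3_fF {G : Grid} {k : ℕ} {P : Nm} {κ : ℝ≥0∞} {z b e : Pt} {I : List Pt}
    (h : G.fF k P κ z b I e ≠ 0) : G.Arc z b I e := by
  by_contra c
  exact h (ENNReal.tsum_eq_zero.2 fun x => by rw [ind_of_not fun a => c a.1, zero_mul])

namespace Sc
variable {X : Sc} {z : Pt}

theorem l3_or {R A B : Pt × Pt → Cf → Prop} {a b : ℝ≥0∞} (h : ∀ d ω, R d ω → A d ω ∨ B d ω)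
    (ha : ∑' d, X.Pr (A d) ≤ a) (hb : ∑' d, X.Pr (B d) ≤ b) : ∑' d, X.Pr (R d) ≤ a + b := by
  refine le_trans (ENNReal.tsum_le_tsum fun d => (Pr_mono (h d)).trans Pr_or) ?_
  rw [ENNReal.tsum_add]
  exact add_le_add ha hb

theorem l3_PZ : (X.Pr fun ω => X.Rc (X.H \ ∅) ω z) = X.PZ z := by rw [Set.sdiff_empty]; rfl

theorem l3_oe (b : Pt) : Grid.oe X.nm b b = 1 := if_neg fun a => a.2 rfl

/-- the classes with one end at `z` or both, charged to the probability of `z` -/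
theorem l3_z {ι : Type} (hz : X.Ex z) (A : ι → Prop) (bL : ι → Pt) (I : ι → List Pt) (bR : ι → Pt) :
    ∑' d, (X.Pr fun ω => ∃ i x, X.dar (bL i) (I i) (bR i) x = d ∧
      A i ∧ X.Ev z (bL i) (I i) (bR i) x ∅ z z z ω) ≤
      (∑' i, ind (A i) * X.G.fF X.k X.nm 1 z (bL i) (I i) (bR i)) * X.PZ z := by
  refine (cls (z := z) bL I bR _ (fun i => ind (A i) * X.PZ z) 1 fun i x => ?_).trans (le_of_eq ?_)
  · rw [Pr_and, mul_assoc]
    exact mul_le_mul_right ((ev_le3 hz).trans (by rw [l3_PZ, l3_oe, one_mul])) _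
  · rw [← ENNReal.tsum_mul_right]
    exact tsum_congr fun i => mul_right_comm _ _ _

/-- the classes with two ends in the tube -/
theorem l3_4 (hz : X.Ex z) (A : Prop) (S : Set Pt) (v : Pt → Pt)
    (bL : (Pt × List Pt) × Pt → Pt) (I : (Pt × List Pt) × Pt → List Pt)
    (bR : (Pt × List Pt) × Pt → Pt) :
    ∑' d, (X.Pr fun ω => ∃ i x, X.dar (bL i) (I i) (bR i) x = d ∧ (X.G.Tb z i.1.1 ∧ X.G.Tb z i.2) ∧
      A ∧ X.Ev z (bL i) (I i) (bR i) x S (v i.1.1) i.1.1 i.2 ω) ≤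
      ∑' y : Pt × List Pt, ind (X.G.Tb z y.1) * ((X.Pr fun ω => A ∧ X.Rc (X.H \ S) ω (v y.1)) *
        ∑' e, ind (X.G.Tb z e) * (Grid.oe X.nm y.1 e *
          X.G.fF X.k X.nm 1 z (bL (y, e)) (I (y, e)) (bR (y, e)))) := by
  refine (cls (z := z) bL I bR _ (fun i => ind (X.G.Tb z i.1.1) * ind (X.G.Tb z i.2) *
    (ind A * (X.Pr fun ω => X.Rc (X.H \ S) ω (v i.1.1)) * Grid.oe X.nm i.1.1 i.2)) 1
    fun i x => ?_).trans (le_of_eq ?_)
  · rw [Pr_and, Pr_and, ind_and, mul_assoc _ (_ * _), mul_assoc _ (Grid.oe _ _ _), mul_assoc (ind A)]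
    exact mul_le_mul_right (mul_le_mul_right (ev_le3 hz) _) _
  · rw [ENNReal.tsum_prod']
    refine tsum_congr fun y => ?_
    rw [← ENNReal.tsum_mul_left, ← ENNReal.tsum_mul_left, Pr_and]
    exact tsum_congr fun e => by ring

/-- the classes with one end at `z`, charged to the chain -/
theorem l3_k (hz : X.Ex z) (bL : Pt × List Pt → Pt) (I : Pt × List Pt → List Pt)
    (bR g : Pt × List Pt → Pt) :
    ∑' d, (X.Pr fun ω => ∃ i x, X.dar (bL i) (I i) (bR i) x = d ∧ X.G.Tb z i.1 ∧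
      z ≠ X.o ∧ X.Ev z (bL i) (I i) (bR i) x {z} i.1 i.1 z ω ∧
        (X.m = false → ¬X.G.Pk X.k z (bL i) (I i) (bR i) x.1 → X.Th z (I i) i.1 (g i) ω)) ≤
      Grid.oe X.nm z (X.G.cv z) * ∑' y : Pt × List Pt, ind (X.G.Tb z y.1) *
        ((X.Pr fun ω => z ≠ X.o ∧ X.Rc (X.H \ {z}) ω y.1) *
          X.G.fF X.k X.nm (X.G.kap X.nm z) z (bL y) (I y) (bR y)) := by
  refine (cls (z := z) bL I bR _ (fun i => ind (X.G.Tb z i.1) * (ind (z ≠ X.o) *
    ((X.Pr fun ω => X.Rc (X.H \ {z}) ω i.1) * Grid.oe X.nm z (X.G.cv z)))) (X.G.kap X.nm z)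
    fun i x => ?_).trans (le_of_eq ?_)
  · rw [Pr_and, mul_assoc]
    by_cases c : X.G.Tb z i.1
    · rw [Pr_and, mul_assoc, mul_assoc]
      exact mul_le_mul_right (mul_le_mul_right (evk_le hz c) _) _
    · rw [ind_of_not c, zero_mul, zero_mul]
  · rw [← ENNReal.tsum_mul_left]
    exact tsum_congr fun y => by rw [Pr_and]; ring

theorem load_F (hz : X.Ex z) : ∑' d, X.Pr (X.RF z d) ≤
    (X.G.sFzz X.k X.nm z + X.G.sT X.nm z none (X.G.fFz X.k X.nm 1 z) +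
      X.G.sT X.nm z none (X.G.fF4L X.k X.nm z)) * X.PZ z +
    (Grid.oe X.nm z (X.G.cv z) * X.SA z (X.G.fFz X.k X.nm (X.G.kap X.nm z) z) +
      X.SA z (X.G.fF4L X.k X.nm z) + X.SA z (X.G.fF4R X.k X.nm z)) := by
  have c1 := l3_z hz (fun _ : List Pt => True) (fun _ => z) id fun _ => z
  have c2 := l3_z hz (fun y : Pt × List Pt => X.G.Tb z y.1) (·.1) (·.2) fun _ => z
  have c3 := l3_z hz (fun y : Pt × List Pt => X.G.Tb z y.1) (fun _ => z) (·.2.reverse) (·.1)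
  have c4 := l3_4 hz True ∅ (fun _ => z) (·.1.1) (·.1.2) (·.2)
  have c5 := l3_k hz (·.1) (·.2) (fun _ => z) fun y => X.G.lk z (X.G.lo X.G.Tb z y.1 (y.2.headD z))
  have c6 := l3_k hz (fun _ => z) (·.2.reverse) (·.1)
    fun y => X.G.lk z (X.G.hi X.G.Tb z y.1 (y.2.reverse.getLastD z))
  have c7 := l3_4 hz (z ≠ X.o) {z} id (·.1.1) (·.1.2) (·.2)
  have c8 := l3_4 hz (z ≠ X.o) {z} id (·.2) (·.1.2.reverse) (·.1.1)
  replace c7 := c7.trans (chain_sum hz.1 (X.G.fF4L X.k X.nm z) fun b I h => by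
    obtain ⟨e, h⟩ := not_forall.1 (mt ENNReal.tsum_eq_zero.2 h)
    exact (Grid.l3_fF (right_ne_zero_of_mul (right_ne_zero_of_mul h))).l3_head)
  replace c8 := c8.trans (chain_sum hz.1 (X.G.fF4R X.k X.nm z) fun b I h => by
    obtain ⟨e, h⟩ := not_forall.1 (mt ENNReal.tsum_eq_zero.2 h)
    exact (Grid.l3_fF (right_ne_zero_of_mul (right_ne_zero_of_mul h))).l3_last)
  have c9 := chain_sum hz.1 (X.G.fFz X.k X.nm (X.G.kap X.nm z) z) fun b I h => by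
    by_cases c : X.G.fF X.k X.nm (X.G.kap X.nm z) z b I z = 0
    · rw [Grid.fFz, c, zero_add] at h
      exact (Grid.l3_fF h).l3_last
    · exact (Grid.l3_fF c).l3_head
  refine (l3_or (fun d ω h => ?_) (l3_or (fun _ _ => id) (l3_or (fun _ _ => id) c1
    (l3_or (fun _ _ => id) c2 c3)) c4) (l3_or (fun _ _ => id) (l3_or (fun _ _ => id)
    (l3_or (fun _ _ => id) c5 c6) c7) c8)).trans (add_le_add (le_of_eq ?_) ?_)
  · obtain ⟨bL, I, bR, x, hd, h | h | h | h⟩ := det3 hz h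
    · rcases h.2.1.1.2.2.1 with rfl | hL <;> rcases h.2.1.1.2.2.2 with hR | hR
      · exact Or.inl (Or.inl (Or.inl ⟨I, x, hR ▸ hd, trivial, hR ▸ h.2⟩))
      · exact Or.inl (Or.inl (Or.inr (Or.inr ⟨(bR, I.reverse), x, by simpa using hd, hR,
          by simpa using h.2⟩)))
      · exact Or.inl (Or.inl (Or.inr (Or.inl ⟨(bL, I), x, hR ▸ hd, hL, hR ▸ h.2⟩)))
      · exact (h.1.elim (X.G.tubeOK.lev _ _ hL).2 (X.G.tubeOK.lev _ _ hR).2).elim
    · exact Or.inl (Or.inr ⟨((bL, I), bR), x, hd, ⟨h.1, h.2.1⟩, trivial, h.2.2⟩)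
    · rcases h.2.2.1.1.2 with rfl | hR
      · exact Or.inr (Or.inl (Or.inl (Or.inl ⟨(bL, I), x, hd, h.1, h.2.1, h.2.2.1, h.2.2.2 rfl⟩)))
      · exact Or.inr (Or.inl (Or.inr ⟨((bL, I), bR), x, hd, ⟨h.1, hR⟩, h.2.1, h.2.2.1⟩))
    · rcases h.2.2.1.1.2 with rfl | hL
      · exact Or.inr (Or.inl (Or.inl (Or.inr ⟨(bR, I.reverse), x, by simpa using hd, h.1, h.2.1,
          by simpa using h.2.2.1, by simpa using h.2.2.2 rfl⟩)))
      · exact Or.inr (Or.inr ⟨((bR, I.reverse), bL), x, by simpa using hd, ⟨h.1, hL⟩, h.2.1,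
          by simpa using h.2.2.1⟩)
  · simp only [Grid.sFzz, Grid.sT, Grid.fFz, Grid.fF4L, ind_of trivial, Option.elim, one_mul, id,
      true_and, l3_PZ, mul_add, add_mul, ENNReal.tsum_add]
    rw [← ENNReal.tsum_mul_right (f := fun y : Pt × List Pt => ind (X.G.Tb z y.1) * ∑' _, _)]
    congr 1
    exact tsum_congr fun y => by ring
  · refine add_le_add_left (add_le_add_left ?_ _) _
    rw [← mul_add, ← ENNReal.tsum_add]
    refine mul_le_mul_right (le_trans (le_of_eq ?_) c9) _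
    exact tsum_congr fun y => by rw [Grid.fFz]; ring

end Sc
end Pool.Agent.P.MP_e4ac67_pr.Gr
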