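import Pool.Agent.P.MP_e4ac67_pr.V.Couple
import Pool.Agent.P.MP_e4ac67_pr.V.L1
import Pool.Agent.P.MP_e4ac67_pr.V.L2
import Pool.Agent.P.MP_e4ac67_pr.V.L3
import Pool.Agent.P.MP_e4ac67_pr.E.Fin

/-! Gains pay for loads: growth on the grid. -/

open scoped ENNReal

namespace Pool.Agent.P.MP_e4ac67_pr.Gr
namespace Sc
variable {X : Sc} {z : Pt} {θ : ℝ≥0∞} {V V' : Type} {T : PlaneTri V} {T' : PlaneTri V'}

/-- expected number of stops charged to `z` -/
noncomputable def ld (X : Sc) (z : Pt) : ℝ≥0∞ :=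
  Grid.dS X.nm * ∑' d, X.Pr (X.RW z d) + ∑' d, X.Pr (X.RZ z d) + ∑' d, X.Pr (X.RS z d) +
    ∑' d, X.Pr (X.RX z d) + ∑' d, X.Pr (X.RF z d)

theorem o_lev2 (X : Sc) : X.o.1 = X.y.1 + 2 := Grid.rt_lev _

theorem load (h : Tab X.k X.nm X.p X.g1 X.g2 θ) (hz : X.Ex z) :
    X.p * X.ld z + ind (X.Hm (X.G.cv z)) * X.Pr (X.Lost z) ≤ θ * (X.p * X.PG z) := by
  obtain ⟨K, h1, h2, h3, h4⟩ := (h X.G).1 z
    (by have := hz.1.1.1; have := X.o_lev2; have := X.y1; omega) hz.2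
  have h5 := joint hz.1 h2 h3 h4
  have h6 := PZ_le hz
  calc _ ≤ X.p * (_ * _ + _ + _ + _ + _) + _ := add_le_add (mul_le_mul_right (add_le_add
        (add_le_add (add_le_add (add_le_add (mul_le_mul_right ((load_W hz).trans
          (add_le_add_left (mul_le_mul_right h6 _) _)) _) (load_Z hz)) (load_S hz)) (load_X hz))
        ((load_F hz).trans (add_le_add_left (mul_le_mul_right h6 _) _))) _)
        (ind_mul_le (load_lost hz))
    _ = X.p * (X.G.free X.k X.nm z * X.PG z + (X.G.chg X.k X.nm z false * X.al z false +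
        X.G.chg X.k X.nm z true * X.al z true)) := by
      simp only [Grid.free, Grid.chg, Grid.zc, SA]
      rw [show X.nm.p = X.p from rfl, show X.nm.m = X.m from rfl]
      ring
    _ ≤ X.p * (X.G.free X.k X.nm z * X.PG z + K * X.PG z) := by gcongr
    _ ≤ _ := by rw [← add_mul, mul_left_comm]; gcongr

theorem stops_le : ∑' d : Pt × Pt, (X.Pr (X.Any d) + X.Pr (X.Two d)) ≤
    ∑' d, X.Pr (X.REx d) + ∑' z, ind (X.Ex z) * X.ld z := by
  have e : Grid.dS X.nm = 1 + ind (X.m = true) := by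
    rw [Grid.dS, show X.nm.m = X.m from rfl]
    cases X.m <;> simp [ind, one_add_one_eq_two]
  calc _ ≤ ∑' d : Pt × Pt, (X.Pr (X.REx d) + ∑' z, ind (X.Ex z) * (X.Pr (X.RW z d) +
        (X.Pr (X.RZ z d) + (X.Pr (X.RS z d) + (X.Pr (X.RX z d) + X.Pr (X.RF z d))))) +
        ind (X.m = true) * ∑' z, ind (X.Ex z) * X.Pr (X.RW z d)) := by
        refine ENNReal.tsum_le_tsum fun d => add_le_add (Pr_or.trans (add_le_add_right
          ((Pr_ex _).trans (ENNReal.tsum_le_tsum fun z => (Pr_and _).le.trans (mul_le_mul_right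
            (Pr_or.trans (add_le_add_right (Pr_or.trans (add_le_add_right
              (Pr_or.trans (add_le_add_right Pr_or _)) _)) _)) _))) _))
          ((Pr_and _).le.trans (mul_le_mul_right ((Pr_ex _).trans
            (ENNReal.tsum_le_tsum fun z => (Pr_and _).le)) _))
    _ = _ := by
        simp only [ENNReal.tsum_add, ← ENNReal.tsum_mul_left, add_assoc]
        rw [ENNReal.tsum_comm, ENNReal.tsum_comm (f := fun d z => ind (X.m = true) * _),
          ← ENNReal.tsum_add]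
        congr 2
        funext z
        simp only [ld, e, ENNReal.tsum_add, ENNReal.tsum_mul_left]
        ring

theorem hs_fin (G : Grid) (y : Pt) (n : ℕ) : (G.Hs y n).Finite := by
  refine (Set.Finite.biUnion (Set.finite_Iic n) fun i _ =>
    (Set.finite_Icc (G.lr y i) (G.rr y i)).image fun x => ((y.1 + i, x) : Pt)).subset ?_
  intro v hv
  obtain ⟨i, x, rfl, h⟩ := Grid.cn_ex hv.1
  exact Set.mem_biUnion (x := i) (by have := hv.2; simp at this ⊢; omega) ⟨x, h, rfl⟩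

theorem core_end (E : Emb X.G T) (hk : ∀ v, X.k ≤ T.deg v) (hT' : ∀ v, T'.deg v = X.k)
    (hP : Perc T'.G (kk X.m) X.p) (h : Tab X.k X.nm X.p X.g1 X.g2 θ) {lam : ℝ≥0∞} (h1 : θ ≤ lam)
    (hl : lam < 1) : lam - θ ≤ 3 * X.top := by
  set S := ∑' z, ind (X.Ex z ∧ X.Hm (X.G.cv z)) * (X.p * X.PG z) with hS
  have hfin : 1 + S ≠ ⊤ := by
    refine ENNReal.add_ne_top.2 ⟨by simp, ?_⟩
    rw [hS, tsum_eq_sum (s := (hs_fin X.G X.y (X.N + 3)).toFinset) fun z hz => by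
      rw [ind_of_not fun e => hz (by simpa using H_sub (Hm_H e.1.1)), zero_mul]]
    exact ENNReal.sum_ne_top.2 fun z _ => ne_top_of_le_ne_top ENNReal.one_ne_top
      (mul_le_one' (ind_le_one _) (mul_le_one' X.p1 (EX_ind_le_one X.p1 _)))
  have a1 : S ≤ ∑' z, X.Pr (X.La z) +
      ∑' z, ind (X.Ex z) * (ind (X.Hm (X.G.cv z)) * X.Pr (X.Lost z)) := by
    rw [← ENNReal.tsum_add]
    refine ENNReal.tsum_le_tsum fun z => ind_mul_le fun e => ?_
    rw [ind_of e.1, ind_of e.2, one_mul, one_mul]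
    exact gain e.1 e.2
  have a2 : ∑' z, ind (X.Ex z) * (X.p * X.ld z + ind (X.Hm (X.G.cv z)) * X.Pr (X.Lost z)) ≤
      θ * S + X.top := by
    refine le_trans ?_ (add_le_add_right load_top _)
    rw [hS, ← ENNReal.tsum_mul_left, ← ENNReal.tsum_add]
    refine ENNReal.tsum_le_tsum fun z => ind_mul_le fun e => (load h e).trans ?_
    by_cases c : X.Hm (X.G.cv z)
    · rw [ind_of ⟨e, c⟩, one_mul]; exact le_self_add
    · rw [ind_of (A := _ ∧ ¬_) ⟨e, c⟩, one_mul]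
      exact (mul_le_of_le_one_left' (h1.trans hl.le)).trans le_add_self
  have a3 := (h X.G).2 X.o (by have := X.o_lev2; have := X.y1; omega) (Grid.rt_tau _)
  have a4 : lam * (1 + S) ≤ 3 * X.top + θ * (1 + S) :=
    calc _ ≤ lam * (1 + ∑' z, X.Pr (X.La z)) + lam *
          ∑' z, ind (X.Ex z) * (ind (X.Hm (X.G.cv z)) * X.Pr (X.Lost z)) := by
          rw [← mul_add, add_assoc]; gcongr
      _ ≤ X.p * (∑' d, X.Pr (X.REx d) + ∑' z, ind (X.Ex z) * X.ld z) +
          ∑' z, ind (X.Ex z) * (ind (X.Hm (X.G.cv z)) * X.Pr (X.Lost z)) :=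
          add_le_add ((master E hk hT' hP hl).trans (mul_le_mul_right stops_le _))
            (mul_le_of_le_one_left' hl.le)
      _ = X.p * ∑' d, X.Pr (X.REx d) + ∑' z, ind (X.Ex z) *
          (X.p * X.ld z + ind (X.Hm (X.G.cv z)) * X.Pr (X.Lost z)) := by
          simp only [mul_add, ENNReal.tsum_add, ← ENNReal.tsum_mul_left, add_assoc, mul_left_comm]
      _ ≤ (2 * X.top + θ) + (θ * S + X.top) :=
          add_le_add (load_ex.trans (add_le_add_right a3 _)) a2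
      _ = _ := by ring
  have hθ : θ * (1 + S) ≠ ⊤ := ENNReal.mul_ne_top (ne_top_of_lt (h1.trans_lt hl)) hfin
  calc lam - θ ≤ (lam - θ) * (1 + S) := le_mul_of_one_le_right' le_self_add
    _ = lam * (1 + S) - θ * (1 + S) := ENNReal.sub_mul fun _ _ => hfin
    _ ≤ _ := tsub_le_iff_right.2 a4

end Sc

theorem perc_pos {V K : Type} {G : SimpleGraph V} {key : V → V → K} {p : ℝ≥0∞}
    (h : Perc G key p) : p ≠ 0 := by
  classical
  rintro rfl
  obtain ⟨θ, h0, v, h⟩ := h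
  obtain ⟨Ω, h⟩ := h 1
  refine h0 (nonpos_iff_eq_zero.1 (h.trans ?_))
  rw [EX, Finset.sum_eq_zero]
  intro s _
  rcases s.eq_empty_or_nonempty with rfl | hs
  · rw [ind_of_not, mul_zero]
    rintro ⟨f, -, h1, -⟩
    simpa using (h1 0 one_pos).2
  · rw [zero_pow hs.card_pos.ne', zero_mul, zero_mul]

/-- the tables give the comparison -/
theorem cmp_of_tab {V V' : Type} {T : PlaneTri V} {T' : PlaneTri V'} {k : ℕ} (h7 : 7 ≤ k)
    (hk : ∀ v, k ≤ T.deg v) (hT' : ∀ v, T'.deg v = k) {m : Bool} {b : ℝ}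
    (h : ∀ X : Sc, X.k = k → X.m = m → X.p ≤ ENNReal.ofReal b →
      ∃ θ < 1, ∀ Y : Sc, Y.k = k → Y.m = m → Y.p = X.p → Tab k Y.nm Y.p Y.g1 Y.g2 θ) :
    T.Cmp T' m b := by
  classical
  intro G E p hb hp hP
  let X : ∀ y : Pt, 1 ≤ y.1 → G.Cn 0 (0, 0) y → ℕ → Sc := fun y y1 y0 n =>
    ⟨G, k, m, y, n, p, (Sc.hs_fin G y (n + 3)).toFinset ×ˢ (Sc.hs_fin G y (n + 3)).toFinset, h7,
      fun v hv => E.deg v hv ▸ hk _, y1, y0, perc_pos hP, hp,
      fun a ha b hb => kk_mem m (by simpa using ha) (by simpa using hb)⟩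
  have hy : G.Cn 0 (0, 0) (G.rt (0, 0)) := Grid.rt_cone _
  obtain ⟨θ, h1, h2⟩ := h (X _ (by rw [Grid.rt_lev]; omega) hy 0) rfl rfl hb
  obtain ⟨lam, h3, h4⟩ := exists_between h1
  refine ⟨(lam - θ) / 3, ?_, fun y y1 y0 => ⟨G.rt y, Grid.rt_cone y, Grid.rt_lev y, fun n =>
    ⟨(X y y1 y0 n).Ω, ENNReal.div_le_of_le_mul' (Sc.core_end (X := X y y1 y0 n) E hk hT' hP
      (h2 _ rfl rfl rfl) h3.le h4)⟩⟩⟩
  simp [(tsub_pos_of_lt h3).ne']

end Pool.Agent.P.MP_e4ac67_pr.Gr
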