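import Pool.Agent.P.MP_e4ac67_pr.V.Tools
import Pool.Agent.P.MP_e4ac67_pr.V.Chain

/-! The chain to the entrance vertices and the joint normalisation. -/

open scoped ENNReal

namespace Pool.Agent.P.MP_e4ac67_pr

section
variable {V K : Type} {G : SimpleGraph V} {key : V → V → K} {F : Set V} {x v : V} {ω : Finset K}

/-- the first visit of `c` -/
theorem Reach.jnt_first (h : Reach G key F x ω v) (c : V) : Reach G key (F \ {c}) x ω v ∨
    ∃ a, Reach G key (F \ {c}) x ω a ∧ G.Adj a c ∧ c ∈ F ∧ key a c ∈ ω := by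
  induction h with
  | base => exact Or.inl .base
  | @step u v _ h1 h2 h3 ih =>
    rcases ih with ih | ih
    · by_cases e : v = c
      · subst e
        exact Or.inr ⟨u, ih, h1, h2, h3⟩
      · exact Or.inl (ih.step h1 ⟨h2, e⟩ h3)
    · exact Or.inr ih

theorem Reach.jnt_last (h : Reach G key F x ω v) : v = x ∨ (v ∈ F ∧ ∃ a, key a v ∈ ω) := by
  cases h with
  | base => exact Or.inl rfl
  | step _ _ h2 h3 => exact Or.inr ⟨h2, _, h3⟩

theorem Reach.jnt_two {a b : V} (h : Reach G key F x ω a) (e : b ≠ a) :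
    Reach G key (F \ {b}) x ω a ∨ Reach G key (F \ {a}) x ω b := by
  rcases h.jnt_first b with h | ⟨u, h1, h2, h3, h4⟩
  · exact Or.inl h
  rcases h1.jnt_first a with h | ⟨w, k1, k2, k3, k4⟩
  · exact Or.inr ((h.mono2 (F' := F \ {a}) (fun _ k => ⟨k.1.1, k.2⟩) le_rfl).step h2 ⟨h3, e⟩ h4)
  · exact Or.inl ((k1.mono2 (fun _ k => k.1) le_rfl).step k2 k3 k4)

/-- keys with head outside the domain are not seen -/
theorem jnt_ins [DecidableEq V] {m : Bool} {d : V × V} (h : d.2 ∉ F) (s : Finset (V × V)) :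
    Reach G (kk m) F x (insert d s) v ↔ Reach G (kk m) F x s v := by
  refine ⟨fun r => ?_, fun r => r.mono2 le_rfl (Finset.subset_insert _ _)⟩
  induction r with
  | base => exact .base
  | step _ h1 h2 h3 ih =>
    exact ih.step h1 h2 ((Finset.mem_insert.1 h3).resolve_left fun e => h (by
      rw [← e, kk_snd]; exact h2))

theorem jnt_or_and {ι : Type} {Ω : Finset ι} {p : ℝ≥0∞} (A B : Finset ι → Prop) :
    (EX Ω p fun s => ind (A s)) + (EX Ω p fun s => ind (B s)) =
      (EX Ω p fun s => ind (A s ∨ B s)) + EX Ω p fun s => ind (A s ∧ B s) := by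
  rw [← EX_add, ← EX_add]
  exact EX_congr fun s _ => by by_cases h : A s <;> by_cases k : B s <;> simp [ind, h, k]

/-- site: two points are both reached with probability at most `p` times the probability that
one of them is reached -/
theorem jnt_site [DecidableEq V] {Ω : Finset (V × V)} {p : ℝ≥0∞} (hp : p ≤ 1) {a b : V}
    (e : b ≠ a) (hb : b ≠ x) (ka : (a, a) ∈ Ω) (kb : (b, b) ∈ Ω) :
    (EX Ω p fun s => ind (Reach G (kk true) F x s a ∧ Reach G (kk true) F x s b)) ≤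
      p * EX Ω p fun s => ind (Reach G (kk true) F x s a ∨ Reach G (kk true) F x s b) := by
  have i1 : ∀ s, ind (Reach G (kk true) (F \ {b}) x (insert (b, b) s) a) =
      ind (Reach G (kk true) (F \ {b}) x s a) := fun s => ind_congr (jnt_ins (by simp) s)
  have i2 : ∀ s, ind (¬Reach G (kk true) (F \ {b}) x (insert (a, a) (insert (a, a) s)) a ∧
      Reach G (kk true) (F \ {a}) x (insert (a, a) s) b) =
      ind (¬Reach G (kk true) (F \ {b}) x (insert (a, a) s) a ∧
        Reach G (kk true) (F \ {a}) x s b) := fun s =>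
    ind_congr (and_congr (by rw [Finset.insert_idem]) (jnt_ins (by simp) s))
  calc _ ≤ EX Ω p fun s => ind ((b, b) ∈ s) * ind (Reach G (kk true) (F \ {b}) x s a) +
        ind ((a, a) ∈ s) * ind (¬Reach G (kk true) (F \ {b}) x (insert (a, a) s) a ∧
          Reach G (kk true) (F \ {a}) x s b) := by
        refine EX_mono fun s _ => ?_
        rw [← ind_and, ← ind_and]
        refine le_trans (ind_mono ?_) (ind_or_le _ _)
        rintro ⟨h1, h2⟩
        by_cases t : Reach G (kk true) (F \ {b}) x s a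
        · obtain ⟨-, u, hu⟩ := h2.jnt_last.resolve_left hb
          exact Or.inl ⟨hu, t⟩
        · obtain ⟨-, u, hu⟩ := h1.jnt_last.resolve_left (by rintro rfl; exact t .base)
          have hu' : (a, a) ∈ s := hu
          exact Or.inr ⟨hu', by rwa [Finset.insert_eq_of_mem hu'], (h1.jnt_two e).resolve_left t⟩
    _ = p * EX Ω p fun s => ind (Reach G (kk true) (F \ {b}) x s a) +
        ind (¬Reach G (kk true) (F \ {b}) x (insert (a, a) s) a ∧
          Reach G (kk true) (F \ {a}) x s b) := by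
        rw [EX_add, EX_add, EX_mem (f := fun s => ind (Reach G (kk true) (F \ {b}) x s a)) hp kb i1,
          EX_mem (f := fun s => ind (¬Reach G (kk true) (F \ {b}) x (insert (a, a) s) a ∧
            Reach G (kk true) (F \ {a}) x s b)) hp ka i2, mul_add]
    _ ≤ _ := by
        refine mul_le_mul_right (EX_mono fun s _ => ?_) _
        by_cases t : Reach G (kk true) (F \ {b}) x s a
        · rw [ind_of_not (A := ¬_ ∧ _) (fun k => k.1 (t.mono2 le_rfl (Finset.subset_insert _ _))),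
            add_zero]
          exact ind_mono fun k => Or.inl (k.mono2 Set.sdiff_subset le_rfl)
        · rw [ind_of_not t, zero_add]
          exact ind_mono fun k => Or.inr (k.2.mono2 Set.sdiff_subset le_rfl)

end

theorem jnt_half {t a b u C D : ℝ≥0∞} (h : D ≤ C) (h1 : a ≤ u) (h2 : a + b ≤ u + t * u) :
    C * a + D * b ≤ (C + t * D) * u := by
  obtain ⟨d, rfl⟩ := exists_add_of_le h
  calc _ = D * (a + b) + d * a := by ring
    _ ≤ D * (u + t * u) + d * u := by gcongr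
    _ = _ := by ring

namespace Gr
namespace Sc
variable {X : Sc} {z b f : Pt}

theorem jnt_o_lev : X.o.1 = X.y.1 + 2 := Grid.rt_lev X.y

theorem jnt_key {u v : Pt} (hu : u ∈ X.H) (hv : v ∈ X.H) : kk X.m u v ∈ X.Ω :=
  X.hΩ u ⟨hu.1, by have := hu.2.2; omega⟩ v ⟨hv.1, by have := hv.2.2; omega⟩

theorem jnt_H (hz : X.Hm z) : z ∈ X.H :=
  (Grid.mem_hd (G := X.G) (y := X.y) hz (Or.inl rfl) (jnt_o_lev ▸ hz.1.1)).1

theorem jnt_lev (hz : X.Hm z) (ho : z ≠ X.o) : X.y.1 + 3 ≤ z.1 := by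
  have h1 := hz.1.1
  have h2 := jnt_o_lev (X := X)
  by_contra c
  have e : z.1 = X.o.1 := by omega
  have h3 := hz.1.2
  rw [e, Nat.sub_self] at h3
  simp only [Grid.lr, Grid.rr] at h3
  exact ho (Prod.ext e (by omega))

theorem jnt_yv (hz : X.Hm z) (ho : z ≠ X.o) (s : Bool) : X.G.yv z s ∈ X.H \ {z} := by
  have h1 := jnt_lev hz ho
  have h2 := Grid.yv_adj (G := X.G) (z := z) (by omega) s
  have h3 := h2.symm.lev
  exact ⟨(Grid.mem_hd (G := X.G) (y := X.y) hz (Or.inr (Grid.yv_tb (by omega) s)) (by omega)).1,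
    h2.ne.symm⟩

theorem jnt_zero {E : Cf → Prop} (h : ∀ ω, ¬E ω) : X.Pr E = 0 := by
  simp only [Pr, ind_of_not (h _), EX_zero]

theorem jnt_al (ho : z ≠ X.o) (v : Pt) : (X.Pr fun ω => z ≠ X.o ∧ X.Rc (X.H \ {z}) ω v) =
    EX X.Ω X.p fun ω => ind (Reach X.G.gr (kk X.m) (X.G.Hd X.y X.N \ {z}) X.o ω v) :=
  EX_congr fun _ _ => ind_congr (and_iff_right ho)

theorem chain (hz : X.Hm z) (hb : X.G.Tb z b) (hf : X.G.Adj b f) (hw : ¬Grid.Wz X.G.Tb z f) :
    (X.Pr fun ω => z ≠ X.o ∧ X.Rc (X.H \ {z}) ω b) ≤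
      X.G.ch X.nm.iv X.nm.il z b * X.al z (X.G.tg z b f) := by
  by_cases ho : z = X.o
  · rw [jnt_zero fun _ h => h.1 ho]
    exact zero_le
  by_cases hy : X.y.1 + 2 ≤ b.1
  swap
  · rw [jnt_zero fun ω h => hy ?_]
    · exact zero_le
    rcases Reach.jnt_last h.2 with e | e
    · rw [e, jnt_o_lev]
    · exact e.1.1.2.1
  have inv : ∀ r : ℝ≥0∞, X.p ≤ r → r ≤ 1 → 1 ≤ r⁻¹ * r := fun r h1 h2 =>
    (ENNReal.inv_mul_cancel (fun e => X.p0 (nonpos_iff_eq_zero.1 (e ▸ h1)))
      (ne_top_of_le_ne_top ENNReal.one_ne_top h2)).ge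
  have b1 := r1_le_one X.p1
  have c := mul_le_one' b1 b1
  have d := mul_le_one' b1 X.p1
  rw [al, jnt_al ho, jnt_al ho]
  refine Grid.chain X.p1 hz (fun u hu v hv _ => jnt_key hu.1 hv.1) (inv _ ?_ ?_) (inv _ ?_ ?_)
    hb hy hf hw
  all_goals split_ifs
  exacts [le_rfl, le_par _ _, X.p1, par_le_one X.p1 (par_le_one c d), le_rfl, le_par _ _, X.p1,
    par_le_one X.p1 d]

/-- arcs charged to the entrance vertices; `F b I` vanishes unless `I` starts next to `b` -/
theorem chain_sum (hz : X.Hm z) (F : Pt → List Pt → ℝ≥0∞)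
    (hF : ∀ b I, F b I ≠ 0 → X.G.Adj b (I.headD z) ∧ ¬Grid.Wz X.G.Tb z (I.headD z)) :
    ∑' x : Pt × List Pt, ind (X.G.Tb z x.1) *
      ((X.Pr fun ω => z ≠ X.o ∧ X.Rc (X.H \ {z}) ω x.1) * F x.1 x.2) ≤ X.SA z F := by
  rw [SA, Grid.sT, Grid.sT, ← ENNReal.tsum_mul_right, ← ENNReal.tsum_mul_right,
    ← ENNReal.tsum_add]
  refine ENNReal.tsum_le_tsum fun x => ind_mul_le fun hb => ?_
  by_cases h0 : F x.1 x.2 = 0
  · rw [h0, mul_zero]
    exact zero_le
  refine (mul_le_mul_left (chain hz hb (hF _ _ h0).1 (hF _ _ h0).2) _).trans ?_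
  simp only [Option.elim, ind_of hb, one_mul]
  cases h : X.G.tg z x.1 (x.2.headD z)
  · rw [ind_of rfl, one_mul, mul_right_comm]
    exact le_self_add
  · rw [ind_of (rfl : true = true), one_mul, mul_right_comm]
    exact le_add_self

noncomputable def g1 (X : Sc) : ℝ≥0∞ := if X.m then X.p else X.p * (1 + (1 - X.p) * X.p)
noncomputable def g2 (X : Sc) : ℝ≥0∞ := if X.m then ⊤ else X.p * (1 + (1 - X.p))

theorem joint (hz : X.Hm z) {C D K : ℝ≥0∞} (k1 : C + X.p * D ≤ K * X.g1)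
    (k2 : D + X.p * C ≤ K * X.g1) (k3 : C + D ≤ K * X.g2) :
    C * X.al z false + D * X.al z true ≤ K * X.PG z := by
  by_cases ho : z = X.o
  · rw [al, al, jnt_zero fun _ h => h.1 ho, jnt_zero fun _ h => h.1 ho]
    simp
  have hp := X.p1
  have l1 := jnt_lev hz ho
  have hH := jnt_H hz
  have y0 := jnt_yv hz ho false
  have y1 := jnt_yv hz ho true
  have a01 := Grid.yv_yv (G := X.G) (z := z) (by omega)
  have q0 := jnt_key y0.1 hH
  have q1 := jnt_key y1.1 hH
  have q2 := jnt_key y0.1 y1.1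
  have q3 := jnt_key y1.1 y0.1
  have ins : ∀ u v : Pt, Ins (fun s : Cf =>
      ind (Reach X.G.gr (kk X.m) (X.G.Hd X.y X.N \ {z}) X.o s v)) (kk X.m u z) :=
    fun u v s => ind_congr (jnt_ins (by simp [kk_snd]) s)
  rw [al, al, jnt_al ho, jnt_al ho]
  have G0 : ∀ ω, (Reach X.G.gr (kk X.m) (X.G.Hd X.y X.N \ {z}) X.o ω (X.G.yv z false) ∧
      kk X.m (X.G.yv z false) z ∈ ω) ∨ (Reach X.G.gr (kk X.m) (X.G.Hd X.y X.N \ {z}) X.o ω
        (X.G.yv z true) ∧ kk X.m (X.G.yv z true) z ∈ ω) → X.Gz z ω := fun ω h =>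
    Or.inr (h.elim (fun h => ⟨false, h⟩) fun h => ⟨true, h⟩)
  rw [g1] at k1 k2
  rw [g2] at k3
  generalize X.G.yv z false = u at *
  generalize X.G.yv z true = v at *
  rw [PG]
  generalize X.Gz z = E at *
  rw [Pr]
  cases hm : X.m <;> rw [hm] at k1 k2 k3 q0 q1 q2 q3 ins G0
  · simp only [Bool.false_eq_true, if_false, ← mul_assoc] at k1 k2 k3
    have n : kk false u z ≠ kk false v z := fun e => a01.ne (congrArg Prod.fst e)
    refine joint_le (p := X.p) (q := 1 - X.p) (t := X.p) (ENNReal.sub_ne_top ENNReal.one_ne_top)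
      ?_ ?_ ?_ ?_ (by simpa only [mul_assoc] using k1) (by simpa only [mul_assoc] using k2) k3
    · rw [mul_comm]
      exact (mul_le_mul_right (reach_one hp a01 y1 q2) _).trans (reach_chain hp _ _ _ _)
    · rw [mul_comm]
      exact (mul_le_mul_right (reach_one hp a01.symm y0 q3) _).trans (reach_chain hp _ _ _ _)
    · exact (EX_two_spokes hp q0 q1 n (ins u u) (ins u v) (ins v v)).trans
        (EX_mono fun s _ => ind_mono (G0 s))
    · exact (EX_two_spokes hp q1 q0 n.symm (ins v v) (ins v u) (ins u u)).trans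
        (EX_mono fun s _ => ind_mono fun h => G0 s h.symm)
  · simp only [if_true] at k1 k2
    set F : Set Pt := X.G.Hd X.y X.N \ {z}
    have s1 : (EX X.Ω X.p fun s => ind (Reach X.G.gr (kk true) F X.o s u ∧
        Reach X.G.gr (kk true) F X.o s v)) ≤ X.p * EX X.Ω X.p fun s =>
          ind (Reach X.G.gr (kk true) F X.o s u ∨ Reach X.G.gr (kk true) F X.o s v) := by
      by_cases e : v = X.o
      · have := jnt_site (G := X.G.gr) (F := F) (x := X.o) hp a01.ne (e ▸ a01.ne) q2 q3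
        simpa only [and_comm, or_comm] using this
      · exact jnt_site hp a01.ne.symm e q3 q2
    have s2 := (jnt_or_and (Ω := X.Ω) (p := X.p) (fun s => Reach X.G.gr (kk true) F X.o s u)
      fun s => Reach X.G.gr (kk true) F X.o s v).le.trans (add_le_add_right s1 _)
    have s3 : X.p * (EX X.Ω X.p fun s => ind (Reach X.G.gr (kk true) F X.o s u ∨
        Reach X.G.gr (kk true) F X.o s v)) ≤ EX X.Ω X.p fun s => ind (E s) := by
      rw [← EX_mem (f := fun s => ind (Reach X.G.gr (kk true) F X.o s u ∨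
        Reach X.G.gr (kk true) F X.o s v)) hp q0 fun s =>
          ind_congr (or_congr (jnt_ins (by simp [kk_snd, F]) s) (jnt_ins (by simp [kk_snd, F]) s))]
      refine EX_mono fun s _ => ?_
      rw [← ind_and]
      exact ind_mono fun h => G0 s (h.2.imp (fun k => ⟨k, h.1⟩) fun k => ⟨k, h.1⟩)
    refine le_trans ?_ (mul_le_mul_right s3 K)
    rw [← mul_assoc]
    rcases le_total D C with e | e
    · exact (jnt_half e (EX_mono fun s _ => ind_mono Or.inl) s2).trans (mul_le_mul_left k1 _)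
    · rw [add_comm] at s2 ⊢
      exact (jnt_half e (EX_mono fun s _ => ind_mono Or.inr) s2).trans (mul_le_mul_left k2 _)

theorem gain (hz : X.Ex z) (hc : X.Hm (X.G.cv z)) :
    X.p * X.PG z ≤ X.Pr (X.La z) + X.Pr (X.Lost z) := by
  have hp := X.p1
  have q := jnt_key (jnt_H hz.1) (jnt_H hc)
  have m1 : Monotone fun ω => ind (X.Gz z ω) := ind_monotone fun _ _ h k =>
    k.imp_right fun ⟨s, k1, k2⟩ => ⟨s, k1.mono2 le_rfl h, h k2⟩
  have m2 : Monotone fun ω : Cf => ind (kk X.m z (X.G.cv z) ∈ ω) := ind_monotone fun _ _ h k => h k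
  have h := EX_harris (Ω := X.Ω) hp m2 m1
  rw [EX_one_mem hp q] at h
  refine h.trans (le_trans (EX_mono fun ω _ => ?_) Pr_or)
  rw [← ind_and]
  refine ind_mono fun ⟨h1, h2⟩ => ?_
  by_cases hb : X.Bad z ω
  · exact Or.inr ⟨h2, h1, hb⟩
  refine Or.inl ⟨hz, hc, ?_, h1, hb⟩
  by_cases ho : z = X.o
  · exact Or.inl ho
  obtain ⟨s, k1, k2⟩ := h2.resolve_left ho
  have e : (X.H \ {z}) \ {X.G.cv z} = X.H \ {z, X.G.cv z} := by
    rw [Set.sdiff_sdiff]; rfl
  rcases Reach.jnt_first k1 (X.G.cv z) with r | ⟨a, r, r1, -, r2⟩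
  · exact Or.inr ⟨s, ⟨ho, e ▸ r⟩, k2⟩
  refine absurd ⟨a, r1, ?_, r2, ?_⟩ hb
  · rcases r.jnt_last with c | c
    · exact c ▸ Ne.symm ho
    · exact c.1.1.2
  · split_ifs
    · exact ⟨ho, e ▸ r⟩
    · exact r.mono2 (fun _ k => ⟨k.1.1, k.2⟩) le_rfl

end Sc
end Gr
end Pool.Agent.P.MP_e4ac67_pr
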