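import Pool.Agent.P.MP_e4ac67_pr.V.Jnt

/-! Arcs without chords, the geometry near the bonus vertex and the three base events. -/

open scoped ENNReal

namespace Pool.Agent.P.MP_e4ac67_pr.Gr
namespace L1
open Grid
variable {b e y : Pt} {I J q : List Pt} {R : Pt → Pt → Prop} {i j : ℕ}

theorem vx_zero : vx b I e 0 = b := rfl

theorem vx_last : vx b I e (I.length + 1) = e := by simp [vx]

theorem vx_get (h : i ≤ I.length + 1) : vx b I e i = (b :: I ++ [e])[i]'(by simp; omega) :=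
  List.getD_eq_getElem _ _ _

theorem vx_mem (h1 : 1 ≤ i) (h2 : i ≤ I.length) : vx b I e i ∈ I := by
  obtain ⟨i, rfl⟩ : ∃ j, i = j + 1 := ⟨i - 1, by omega⟩
  rw [vx_get (by omega)]
  simp [List.getElem_append_left (show i < I.length by omega)]

theorem vx_mem0 (h : i ≤ I.length) : vx b I e i ∈ b :: I := by
  rcases Nat.eq_zero_or_pos i with rfl | h1
  · exact List.mem_cons_self
  · exact List.mem_cons_of_mem _ (vx_mem h1 h)

theorem vx_mem1 (h1 : 1 ≤ i) (h : i ≤ I.length + 1) : vx b I e i ∈ e :: I := by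
  rcases h.eq_or_lt with rfl | h
  · rw [vx_last]; exact List.mem_cons_self
  · exact List.mem_cons_of_mem _ (vx_mem h1 (by omega))

theorem vx_inj (nd : (b :: I ++ [e]).Nodup) (hi : i ≤ I.length + 1) (hj : j ≤ I.length + 1)
    (h : vx b I e i = vx b I e j) : i = j := by
  rw [vx_get hi, vx_get hj] at h
  exact (nd.getElem_inj_iff).1 h

theorem vx_left (h : i ≤ I.length + 1) : vx b (I ++ y :: J) e i = vx b I y i := by
  have e1 : b :: (I ++ y :: J) ++ [e] = (b :: I ++ [y]) ++ (J ++ [e]) := by simp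
  rw [vx, e1, List.getD_append _ _ _ _ (by simp; omega), vx_get h, List.getD_eq_getElem]

theorem vx_right : vx b (I ++ y :: J) e (I.length + 1 + j) = vx y J e j := by
  have e1 : b :: (I ++ y :: J) ++ [e] = (b :: I) ++ (y :: J ++ [e]) := by simp
  rw [vx, e1, List.getD_append_right _ _ _ _ (by simp), vx]
  simp

theorem vx_head (h : I ≠ []) (d : Pt) : vx b I e 1 = I.headD d := by
  obtain ⟨a, I, rfl⟩ := List.exists_cons_of_ne_nil h
  rfl

/-- simple chains without chords -/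
structure RA (R : Pt → Pt → Prop) (b : Pt) (I : List Pt) (e : Pt) : Prop where
  ch : (b :: I ++ [e]).IsChain R
  nd : (b :: I ++ [e]).Nodup
  nc : ∀ i j, i + 2 ≤ j → j ≤ I.length + 1 → ¬R (vx b I e i) (vx b I e j)

theorem RA.st (h : RA R b I e) (hi : i ≤ I.length) : R (vx b I e i) (vx b I e (i + 1)) := by
  rw [vx_get (by omega), vx_get (by omega)]
  exact h.ch.getElem _ _

theorem nd_iff : (b :: I ++ [e]).Nodup ↔ I.Nodup ∧ b ∉ I ∧ e ∉ I ∧ b ≠ e := by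
  simp only [List.cons_append, List.nodup_cons, List.mem_append, List.mem_singleton,
    List.nodup_append, List.nodup_nil, List.not_mem_nil]
  grind

theorem reduce' (h : (b :: q ++ [e]).IsChain R) (hne : b ≠ e) :
    ∃ I, (∀ v ∈ I, v ∈ q) ∧ RA R b I e := by
  obtain ⟨l, h1, h2, h3, h4, h5⟩ := reduce R (a := b) (l := q ++ [e]) h
  rw [← List.cons_append, List.getLast?_concat] at h3
  rcases l.eq_nil_or_concat' with rfl | ⟨I, x, rfl⟩
  · exact absurd (by simpa using h3) hne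
  rw [← List.cons_append, List.getLast?_concat] at h3
  obtain rfl : x = e := Option.some.inj h3
  refine ⟨I, fun v hv => ?_, h2, h4, fun i j a c => h5 x i j a (by simpa using c)⟩
  rcases List.mem_append.1 (h1.subset (List.mem_append_left _ hv)) with a | a
  · exact a
  · exact absurd hv (List.mem_singleton.1 a ▸ (nd_iff.1 h4).2.2.1)

theorem split_last (P : Pt → Prop) {l : List Pt} (h : ∃ v ∈ l, P v) :
    ∃ r b q, l = r ++ b :: q ∧ P b ∧ ∀ v ∈ q, ¬P v := by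
  induction l with
  | nil => simp at h
  | cons a l ih =>
    by_cases c : ∃ v ∈ l, P v
    · obtain ⟨r, b, q, rfl, h1⟩ := ih c
      exact ⟨a :: r, b, q, rfl, h1⟩
    · exact ⟨[], a, l, rfl, by grind, by grind⟩

theorem split_first (P : Pt → Prop) {l : List Pt} (h : ∃ v ∈ l, P v) :
    ∃ q b r, l = q ++ b :: r ∧ P b ∧ ∀ v ∈ q, ¬P v := by
  induction l with
  | nil => simp at h
  | cons a l ih =>
    by_cases c : P a
    · exact ⟨[], a, l, rfl, c, by simp⟩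
    · obtain ⟨q, b, r, rfl, h1⟩ := ih (by grind)
      exact ⟨a :: q, b, r, rfl, h1.1, by grind⟩

end L1

namespace Sc
open Grid L1
variable {X : Sc} {z a b u v e : Pt} {ω : Cf} {F F' : Set Pt} {S S' I : List Pt}
  {d : Pt × Pt} {B : Cf → Prop}

theorem l1_lev (hz : X.Hm z) : X.y.1 + 2 ≤ z.1 := by
  have := hz.1.1
  rwa [o, rt_lev] at this

theorem l1_one (hz : X.Hm z) : 1 ≤ z.1 := by have := l1_lev hz; omega

theorem l1_cv (hz : X.Ex z) : X.G.cv z = (z.1 + 1, X.G.A z.1 (z.2 - 1) + 2) ∧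
    X.G.A z.1 (z.2 - 1) + 3 ≤ X.G.A z.1 z.2 := by
  have h1 := X.h7
  have h2 := hz.2
  have h3 := X.G.tau_le z
  have h4 := X.G.gap_eq z
  unfold dg at h2
  rw [cv, nb_ch _ _ (by omega) (by omega)]
  exact ⟨Prod.ext rfl (by push_cast; ring), by omega⟩

theorem l1_adj (hz : X.Ex z) : X.G.Adj z (X.G.cv z) := by
  have := l1_cv hz
  rw [this.1]
  exact X.G.adj_iff.2 (Or.inr (Or.inl ⟨rfl, by simp only; omega, by simp only; omega⟩))

theorem l1_nwz (hz : X.Ex z) : ¬Wz X.G.Tb z (X.G.cv z) := fun h => by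
  have h1 := congrArg Prod.fst (l1_cv hz).1
  rcases h with h | h
  · rw [h] at h1; simp at h1
  · have := (X.G.tubeOK.lev _ _ h).1
    simp only at h1
    omega

theorem l1_tb (hz : X.Ex z) (hb : X.G.Tb z b) : ¬X.G.Adj b (X.G.cv z) := fun h => by
  have h1 := l1_cv hz
  have h2 := X.G.tubeOK.lev _ _ hb
  rw [h1.1, adj_iff] at h
  simp only at h
  have e : b.1 = z.1 := by omega
  rw [e] at h
  have a1 := (A_lt_iff (G := X.G) (n := z.1) (x := z.2 - 1) (y := b.2)).1 (by omega)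
  have a2 := (A_lt_iff (G := X.G) (n := z.1) (x := b.2 - 1) (y := z.2)).1 (by omega)
  exact h2.2 (Prod.ext e (by omega))

theorem l1_oH : X.o ∈ X.H := Hm_H ⟨⟨le_rfl, by simp [lr], by simp [rr]⟩, by omega⟩

theorem l1_oc (hz : X.Ex z) : X.o ≠ X.G.cv z := fun e => l1_nwz hz (e ▸ o_wz hz.1)

theorem l1_hs (hz : X.Hm z) (hb : X.G.Tb z b) (hv : v ∈ X.H) (ha : X.G.Adj v b) :
    b ∈ X.G.Hs X.y (X.N + 3) := by
  have h1 := hz.2
  have h2 := (X.G.tubeOK.lev _ _ hb).1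
  have h3 := l1_lev hz
  have h4 := hv.2.1
  have h5 := ha.symm.lev
  rw [o, rt_lev] at h1
  refine ⟨?_, by omega⟩
  rcases (by omega : X.y.1 + 2 ≤ b.1 ∨ b.1 = X.y.1 + 1) with h | h
  · exact (tb_inner (u := b) hz.1 (Or.inr hb) h).1
  obtain ⟨n, x⟩ := b
  simp only at h
  subst h
  rw [cone_iff]
  rcases hb with ⟨i, i1, i2, hb⟩ | ⟨-, hb⟩
  swap
  · have := (lt1_lev (G := X.G) z).1
    rw [← hb] at this
    simp only at this
    omega
  obtain ⟨j, rfl⟩ : ∃ j, i = j + 1 := ⟨i - 1, by omega⟩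
  simp only at i2 hb
  have c1 := an_cone hz.1 j 0 (by rw [o, rt_lev]; omega)
  have c2 := an_ar (G := X.G) z j
  have c3 := an_ar (G := X.G) z (j + 1)
  have g1 := X.G.gap2 X.y.1 X.y.2
  have g2 := X.G.gap2 X.y.1 (X.y.2 + 1)
  have g3 := X.G.gap2 X.y.1 (X.y.2 - 1)
  have g4 := X.G.A_gap (X.y.1 + 1) (X.G.A X.y.1 (X.y.2 - 1)) 2
  have g5 := X.G.A_pred (X.y.1 + 1) (X.G.A X.y.1 (X.y.2 - 1))
  simp only [lr, rr, o, rt_eq, add_sub_cancel_right, add_zero] at c1 g2 ⊢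
  have e1 : z.1 - (j + 1) = X.y.1 + 1 := by omega
  have d1 : X.G.A X.y.1 (X.y.2 - 1) - 1 < X.G.an z (j + 1) := by
    rw [an, e1]; exact lt_lp (by omega)
  have d2 : X.G.ar z (j + 1) ≤ X.G.A X.y.1 (X.y.2 - 1) + (2 : ℕ) := by
    rw [ar, e1]; exact rp_le (by omega)
  have e2 : z.1 - (j + 1 + 1) = X.y.1 := by omega
  rcases hb with hb | ⟨hb, -, k, -⟩ | ⟨hb, -, k, -⟩
  · omega
  · rw [sR, e2] at k
    have : X.G.ar z (j + 1) ≠ X.G.A X.y.1 X.y.2 := fun c => by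
      have : X.y.2 + 1 ≤ X.G.ar z (j + 1 + 1) := by
        rw [ar, e2]; exact le_rp (by simp [c])
      have := X.G.A_le (n := X.y.1) this
      omega
    omega
  · rw [sL, e2] at k
    have : X.G.an z (j + 1) ≠ X.G.A X.y.1 (X.y.2 - 1) := fun c => by
      have : X.G.an z (j + 1 + 1) ≤ X.y.2 - 1 := by
        rw [an, e2]; exact lp_le c.le
      have := X.G.A_le (n := X.y.1) (show X.G.an z (j + 1 + 1) - 1 ≤ X.y.2 - 1 - 1 by omega)
      omega
    omega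

theorem Rc.shrink (h : X.Rc F ω v) (hF : ∀ u ∈ F, X.Rc F ω u → u ∈ F') : X.Rc F' ω v := by
  induction h with
  | base => exact .base
  | step h1 h2 h3 h4 ih => exact .step ih h2 (hF _ h3 (.step h1 h2 h3 h4)) h4

theorem Rc.sub (h : X.Rc F ω v) (hF : F ⊆ F') : X.Rc F' ω v := h.mono2 hF le_rfl

theorem Off.uz1 (h : X.Off z ω v) : v ∈ X.Uz z ω := h.2.sub fun _ h => ⟨h.1, fun e => h.2 (Or.inr e)⟩

theorem Off.ne (h : X.Off z ω v) : v ≠ z := by
  rintro rfl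
  have := h.2
  cases this with
  | base => exact h.1 rfl
  | step _ _ h3 _ => exact h3.2 (Or.inl rfl)

theorem uz_mem (hz : X.Ex z) (h : v ∈ X.Uz z ω) : v ∈ X.H ∧ v ≠ X.G.cv z :=
  Reach.mem (F := X.H \ {X.G.cv z}) h ⟨l1_oH, l1_oc hz⟩

theorem nochord (h : ¬(X.G.Adj u v ∧ X.Op ω u v)) (ho : X.Op ω a v) (ha : X.G.Adj u v) :
    X.m = false ∧ ¬X.Op ω u v :=
  ⟨Bool.eq_false_iff.2 fun hm => h ⟨ha, ho.site hm u⟩, fun c => h ⟨ha, c⟩⟩

variable (X)

/-- `z` is entered without `z` and its bonus vertex -/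
def G0 (z : Pt) (ω : Cf) : Prop :=
  z = X.o ∨ ∃ s, X.Off z ω (X.G.yv z s) ∧ X.Op ω (X.G.yv z s) z

/-- the domain without `z` and `S` -/
def Dm (z : Pt) (S : List Pt) : Set Pt := {v | v ∈ X.H ∧ v ≠ z ∧ v ∉ S}

def GS (z : Pt) (S : List Pt) (ω : Cf) : Prop :=
  z = X.o ∨ ∃ s, X.Rc (X.Dm z S) ω (X.G.yv z s) ∧ X.Op ω (X.G.yv z s) z

def EB (z b : Pt) (S : List Pt) (ω : Cf) : Prop :=
  (z ≠ X.o ∧ X.Rc (X.Dm z S) ω b) ∧ ∃ s, X.Op ω (X.G.yv z s) z

/-- arcs from `z` to the tube, listed from the tube -/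
def sW (z b : Pt) (I : List Pt) : Ak :=
  ⟨z, b, I, z, fun _ => True, (· < I.length), (· < I.length), fun _ => False, fun _ => False, True⟩

def LK (z : Pt) (S : List Pt) (ω : Cf) : Prop :=
  (∃ s, X.GS z (X.G.yv z s :: S) ω ∧ X.Op ω z (X.G.yv z s)) ∨
  ∃ x : Pt × List Pt, (X.G.Tb z x.1 ∧ X.G.Arc z x.1 x.2 z ∧ ∀ v ∈ x.2, v ∉ S) ∧
    (X.GS z (x.1 :: x.2 ++ S) ω ∧ X.AE (sW z x.1 x.2) ω)

variable {X}

theorem Dm_sub : X.Dm z S ⊆ X.H \ {z} := fun _ h => ⟨h.1, h.2.1⟩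

theorem GS_le : X.Pr (X.GS z S) ≤ X.PG z :=
  Pr_mono fun _ h => h.imp_right fun ⟨s, h1, h2⟩ => ⟨s, h1.sub Dm_sub, h2⟩

theorem GS_nb (h : d.2 ∈ S) (h' : d.2 ≠ z) : X.Nb (X.GS z S) d :=
  (nb_const _).or (Nb.ex fun _ => (nb_rc fun c => c.2.2 h).and (nb_op (Or.inl h')))

theorem G0.gs (h : X.G0 z ω) (hS : ∀ v ∈ S, ¬X.Off z ω v) : X.GS z S ω :=
  h.imp_right fun ⟨s, h1, h2⟩ => ⟨s, h1.2.shrink fun u a c =>
    ⟨a.1, fun e => a.2 (Or.inl e), fun e => hS u e ⟨h1.1, c⟩⟩, h2⟩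

theorem EB_le : X.Pr (X.EB z b S) ≤
    (X.Pr fun ω => z ≠ X.o ∧ X.Rc (X.H \ {z}) ω b) * X.nm.sp :=
  (force_sp fun _ => (nb_const _).and (nb_rc fun c => c.2.1 rfl)).trans
    (mul_le_mul_left (Pr_mono fun _ h => ⟨h.1, h.2.sub Dm_sub⟩) _)

theorem EB_nb (h : d.2 ∈ S) (h' : d.2 ≠ z) : X.Nb (X.EB z b S) d :=
  ((nb_const _).and (nb_rc fun c => c.2.2 h)).and (Nb.ex fun _ => nb_op (Or.inl h'))

theorem sW_head (h : X.Used (sW z b I) d) : d.2 ∈ b :: I := by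
  rcases h.head with h | h | h | h
  · exact List.mem_cons_of_mem _ h
  · exact h.1 ▸ List.mem_cons_self
  · simp [sW] at h
  · simp [sW] at h

theorem LK_nb (hz : X.Hm z) (h : d.2 ∈ S) (h' : ¬Wz X.G.Tb z d.2) : X.Nb (X.LK z S) d := by
  have n : d.2 ≠ z := fun e => h' (Or.inl e)
  refine (Nb.ex fun s => (GS_nb (List.mem_cons_of_mem _ h) n).and (nb_op (Or.inl fun e =>
    h' (Or.inr (e ▸ yv_tb (l1_one hz) s))))).or (Nb.ex fun x ω => and_congr_right fun c => ?_)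
  refine ((GS_nb (List.mem_append_right _ h) n).and (nb_ae fun d' u => Or.inl fun e => ?_)) ω
  rcases List.mem_cons.1 (sW_head u) with a | a
  · exact h' (Or.inr (by rw [e, a]; exact c.1))
  · exact c.2.2 _ a (e ▸ h)

theorem LK_le (hz : X.Hm z) :
    X.Pr (X.LK z S) ≤ (2 * X.p + X.G.sT X.nm z none (X.G.fW X.nm z)) * X.PG z := by
  rw [add_mul]
  refine Pr_or.trans (add_le_add ((Pr_ex _).trans ?_) ((Pr_ex _).trans ?_))
  · have k : ∀ s, (X.Pr fun ω => X.GS z (X.G.yv z s :: S) ω ∧ X.Op ω z (X.G.yv z s)) ≤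
        X.p * X.PG z := fun s =>
      (force_one (GS_nb List.mem_cons_self (yv_adj (l1_one hz) s).ne.symm)).trans
        ((mul_le_mul_left GS_le _).trans (mul_comm _ _).le)
    rw [tsum_bool, two_mul, add_mul]
    exact add_le_add (k _) (k _)
  · rw [sT, ← ENNReal.tsum_mul_right]
    refine ENNReal.tsum_le_tsum fun x => ?_
    rw [Pr_and]
    refine ind_mul_le fun ⟨c1, c2, c3⟩ => ?_
    have n := (X.G.tubeOK.lev _ _ c1).2
    have n' : x.1 ∉ x.2 := fun e => c2.2.2.2.2 _ e (Or.inr c1)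
    refine (force (s := sW z x.1 x.2) ⟨c2.2.1, n', c2.2.2.1, Or.inl c2.2.2.1, fun e => absurd e n,
      fun e => absurd e n, fun _ => Or.inr fun i a => by simp only [sW] at a ⊢; omega,
      fun _ _ _ _ => id⟩ fun d u => GS_nb (List.mem_append_left _ (sW_head u)) fun e => ?_).trans ?_
    · rcases List.mem_cons.1 (sW_head u) with a | a
      · exact n (a.symm.trans e)
      · exact c2.2.2.1 (e ▸ a)
    · simp only [fW, ind_of c1, ind_of c2, Option.elim_none, one_mul]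
      exact (mul_le_mul_left GS_le _).trans (mul_comm _ _).le

end Sc
end Pool.Agent.P.MP_e4ac67_pr.Gr
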