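import Pool.Agent.P.MP_e4ac67_pr.V.L1A

/-! Cutting old and new paths into arcs, and forcing the arcs that end in the bonus vertex. -/

open scoped ENNReal

namespace Pool.Agent.P.MP_e4ac67_pr.Gr
namespace Sc
open Grid L1
variable {X : Sc} {z a b u v e x y : Pt} {ω : Cf} {F : Set Pt} {S I q l r B : List Pt}
  {d : Pt × Pt} {E : Cf → Prop} {R : Pt → Pt → Prop}

/-- open darts -/
abbrev Ro (X : Sc) (ω : Cf) (u v : Pt) : Prop := X.G.Adj u v ∧ X.Op ω u v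

theorem ra_arc (h : RA R b I e) (hR : ∀ u v, R u v → X.G.Adj u v) (hI : I ≠ [])
    (hw : ∀ v ∈ I, ¬Wz X.G.Tb z v) : X.G.Arc z b I e :=
  ⟨h.ch.imp hR, (nd_iff.1 h.nd).1, (nd_iff.1 h.nd).2.2.1, hI, hw⟩

theorem link_of (hz : X.Ex z) (h0 : X.G0 z ω) (hc : (z :: q ++ [b]).IsChain (X.Ro ω))
    (hb : X.G.Tb z b) (hq : ∀ v ∈ q, ¬Wz X.G.Tb z v ∧ v ∉ S)
    (hH : ∀ v ∈ b :: q, v ∈ X.H ∧ ¬X.Off z ω v) (hS : ∀ v ∈ S, ¬X.Off z ω v) : X.LK z S ω := by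
  have h1 : (b :: q.reverse ++ [z]).IsChain fun u v => X.Ro ω v u := by
    simpa using (List.isChain_reverse (R := fun u v => X.Ro ω v u)).2 hc
  obtain ⟨I, hI, ra⟩ := reduce' h1 (X.G.tubeOK.lev _ _ hb).2
  simp only [List.mem_reverse] at hI
  have hb' := hH b List.mem_cons_self
  have hq' := fun v h => hH v (List.mem_cons_of_mem _ (hI v h))
  by_cases c : I = []
  · subst c
    have k : X.Ro ω z b := ra.st (i := 0) le_rfl
    obtain ⟨s, rfl⟩ := tb_link (l1_one hz.1) hb k.1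
    exact Or.inl ⟨s, h0.gs (by grind), k.2⟩
  refine Or.inr ⟨(b, I), ⟨hb, ra_arc ra (fun _ _ h => h.1.symm) c fun v h => (hq v (hI v h)).1,
    fun v h => (hq v (hI v h)).2⟩, h0.gs (by grind), fun v h => H_sub ?_, fun i hi => ?_⟩
  · have := Hm_H hz.1
    simp only [sW] at h
    grind
  simp only [sW, Ak.so, Ak.se, Ak.sl, Ak.A, if_false, if_true] at hi ⊢
  refine ⟨fun _ => (ra.st hi).2, fun e1 e2 e3 => ?_, fun e1 e2 => ?_⟩
  · obtain ⟨i, rfl⟩ : ∃ j, i = j + 1 := ⟨i - 1, by omega⟩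
    exact nochord (ra.nc i (i + 1 + 1) le_rfl (by omega)) (ra.st (i := i) (by omega)).2 e3.symm
  · have := ra.nc i (I.length + 1) (by omega) le_rfl
    rw [vx_last] at this
    exact nochord this (ra.st hi).2 e2

theorem old_path (hz : X.Ex z) (hR1 : ∀ u v, R u v → v ≠ e → X.Ro ω u v)
    (hR2 : ∀ u v, X.Ro ω u v → v ≠ X.G.cv z → R u v) (he : ¬Wz X.G.Tb z e)
    (hF : X.G.cv z ∉ F) (hu : X.Rc F ω u) (hue : R u e) :
    ∃ l, (X.o :: l ++ [e]).IsChain R ∧ (X.o :: l ++ [e]).Nodup ∧ (∀ v ∈ l, v ∈ F) ∧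
      (X.o :: l).IsChain (X.Ro ω) ∧ ∀ v ∈ X.o :: l, X.Rc F ω v := by
  obtain ⟨l, -, h2, h3, h4⟩ := hu.list
  have h5 : (X.o :: l ++ [e]).IsChain R := List.isChain_append.2
    ⟨h4.imp_of_mem_tail_imp fun a b _ hb h => hR2 a b h fun c => hF (c ▸ h3 b hb),
      List.isChain_singleton _, by simpa [h2] using hue⟩
  obtain ⟨I, hI, ra⟩ := reduce' h5 fun c => he (c ▸ o_wz hz.1)
  have h6 : (X.o :: I).IsChain (X.Ro ω) := ra.ch.left_of_append.imp_of_mem_tail_imp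
    fun a b _ hb h => hR1 a b h fun c => (nd_iff.1 ra.nd).2.2.1 (c ▸ hb)
  exact ⟨I, ra.ch, ra.nd, fun v h => h3 v (hI v h), h6,
    fun v h => Rc.of_list .base (fun v h => h3 v (hI v h)) h6 h⟩

theorem rc_pre (hc : (X.o :: l).IsChain (X.Ro ω)) (h : X.o :: l = r ++ b :: q)
    (hF : ∀ v ∈ r ++ [b], v ∈ F) : X.Rc F ω b := by
  cases r with
  | nil => exact (List.cons.inj h).1 ▸ .base
  | cons a r =>
    obtain ⟨rfl, rfl⟩ := List.cons.inj h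
    exact Rc.of_list (l := r ++ [b]) .base (fun v h => hF v (List.mem_cons_of_mem _ h))
      (List.isChain_cons_split.1 hc).1 (by simp)

theorem off_run (hR1 : ∀ u v, R u v → v ≠ e → X.Ro ω u v) (hc : (v :: q ++ [e]).IsChain R)
    (hq : ∀ w ∈ q, w ∈ X.H ∧ w ≠ z ∧ w ≠ X.G.cv z ∧ w ≠ e) (hv : X.Off z ω v) :
    ∃ u, X.Off z ω u ∧ R u e := by
  induction q generalizing v with
  | nil => exact ⟨v, hv, by simpa using hc⟩
  | cons w q ih =>
    obtain ⟨h1, h2⟩ := List.isChain_cons_cons.1 hc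
    obtain ⟨a1, a2, a3, a4⟩ := hq w List.mem_cons_self
    have k := hR1 _ _ h1 a4
    exact ih h2 (fun w h => hq w (List.mem_cons_of_mem _ h))
      ⟨hv.1, .step hv.2 k.1 ⟨a1, by simp [a2, a3]⟩ k.2⟩

theorem cutB (hz : X.Ex z) (hR1 : ∀ u v, R u v → v ≠ e → X.Ro ω u v)
    (hR2 : ∀ u v, X.Ro ω u v → v ≠ X.G.cv z → R u v) (he : ¬Wz X.G.Tb z e)
    (hu : X.Off z ω u) (hue : R u e) : ∃ b I, X.G.Tb z b ∧ RA R b I e ∧
      (∀ v ∈ I, ¬Wz X.G.Tb z v) ∧ (∀ v ∈ b :: I, X.Off z ω v) ∧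
      ∀ S : List Pt, (∀ v ∈ S, v ∈ e :: I ∨ v ∉ X.Uz z ω) → X.Rc (X.Dm z S) ω b := by
  obtain ⟨l, h1, h2, -, h4, h5⟩ := old_path hz hR1 hR2 he (by simp) hu.2 hue
  obtain ⟨r, b, q, h6, h7, h8⟩ := split_last (Wz X.G.Tb z) ⟨_, List.mem_cons_self (l := l), o_wz hz.1⟩
  have h9 : ∀ v ∈ r ++ b :: q, X.Off z ω v := fun v h => ⟨hu.1, h5 v (h6 ▸ h)⟩
  rw [h6, List.append_assoc] at h1 h2
  obtain ⟨I, hI, ra⟩ := reduce' (q := q) h1.right_of_append fun c => he (c ▸ h7)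
  refine ⟨b, I, h7.resolve_left (h9 b (by simp)).ne, ra, fun v h => h8 v (hI v h), by grind,
    fun S hS => rc_pre h4 h6 fun v h => ?_⟩
  have k := h9 v (by grind)
  refine ⟨(uz_mem hz k.uz1).1, k.ne, fun c => (hS v c).elim (fun c => ?_) fun c => c k.uz1⟩
  simp only [List.nodup_append, List.nodup_cons, List.cons_append] at h2
  grind

theorem cut0 (hz : X.Ex z) (hR1 : ∀ u v, R u v → v ≠ e → X.Ro ω u v)
    (hR2 : ∀ u v, X.Ro ω u v → v ≠ X.G.cv z → R u v) (he : ¬Wz X.G.Tb z e) (h0 : X.G0 z ω)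
    (hn : ¬∃ u, X.Off z ω u ∧ R u e) (hu : u ∈ X.Uz z ω) (hue : R u e) : ∃ b I, RA R b I e ∧
      (∀ v ∈ I, ¬Wz X.G.Tb z v ∧ ¬X.Off z ω v) ∧ (∀ v ∈ b :: I, v ∈ X.Uz z ω) ∧
      (b = z ∨ (X.G.Tb z b ∧ ∀ S : List Pt,
        (∀ v ∈ S, ¬X.Off z ω v ∧ (v ∈ e :: I ∨ v ∉ X.Uz z ω)) → X.LK z S ω)) := by
  obtain ⟨l, h1, h2, h3, h4, h5⟩ := old_path hz hR1 hR2 he (F := X.H \ {X.G.cv z}) (by simp) hu hue
  have h3' : ∀ v ∈ X.o :: l, v ∈ X.H ∧ v ≠ X.G.cv z ∧ v ≠ e := fun v h =>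
    ⟨(uz_mem hz (h5 v h)).1, (uz_mem hz (h5 v h)).2, by have := nd_iff.1 h2; grind⟩
  have hm : z ∈ X.o :: l := by_contra fun c =>
    hn (off_run hR1 h1 (by grind) ⟨fun e => c (e ▸ List.mem_cons_self), .base⟩)
  obtain ⟨r, p, h6⟩ := List.append_of_mem hm
  rw [h6] at h1 h2 h3' h4 h5
  rw [List.append_assoc] at h1 h2
  replace h1 := h1.right_of_append
  replace h2 := h2.of_append_right
  replace h4 := h4.right_of_append
  have h7 : ∀ v ∈ p, ¬X.Off z ω v := fun v h c => by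
    obtain ⟨p1, p2, rfl⟩ := List.append_of_mem h
    rw [← List.cons_append, List.append_assoc] at h1
    have := nd_iff.1 h2
    exact hn (off_run hR1 h1.right_of_append (by grind) c)
  obtain ⟨r', b, q, k1, k2, k3⟩ := split_last (Wz X.G.Tb z) ⟨z, List.mem_cons_self (l := p), Or.inl rfl⟩
  have k4 := h1
  rw [k1, List.append_assoc] at k4
  obtain ⟨I, hI, ra⟩ := reduce' (q := q) k4.right_of_append fun c => he (c ▸ k2)
  cases r' with
  | nil =>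
    obtain ⟨rfl, rfl⟩ := List.cons.inj k1
    exact ⟨z, I, ra, by grind, fun v h => h5 v (by grind), Or.inl rfl⟩
  | cons w r' =>
    obtain ⟨rfl, rfl⟩ := List.cons.inj k1
    have n := nd_iff.1 h2
    refine ⟨b, I, ra, by grind, fun v h => h5 v (by grind),
      Or.inr ⟨k2.resolve_left (by grind), fun S hS => ?_⟩⟩
    obtain ⟨q1, b1, r1, m1, m2, m3⟩ := split_first (Wz X.G.Tb z) (l := r' ++ [b]) ⟨b, by simp, k2⟩
    have m4 : ∀ v ∈ b1 :: q1, v ∈ r' ++ [b] := by grind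
    have m5 : r'.append (b :: q) = q1 ++ b1 :: (r1 ++ q) := by
      simpa using congrArg (· ++ q) m1
    rw [m5] at h4
    refine link_of (q := q1) (b := b1) hz h0 (List.isChain_cons_split.1 h4).1
      (m2.resolve_left (by grind)) (fun v h => ⟨m3 v h, fun c => ?_⟩) (by grind) fun v h => (hS v h).1
    have m6 := m4 v (List.mem_cons_of_mem _ h)
    refine (hS v c).2.elim (fun c => ?_) fun c => c (h5 v (by grind))
    have n1 := n.1
    simp only [List.append_eq, List.nodup_append, List.nodup_cons] at n1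
    grind

theorem new_arc (h : X.New z ω (x :: B)) (hy : y ∉ x :: B) (ha : X.G.Adj x y) :
    ∃ J, (y :: J ++ [X.G.cv z]).Nodup ∧ (y :: J ++ [X.G.cv z]).IsChain X.G.Adj ∧
      vx y J (X.G.cv z) 1 = x ∧ (∀ v ∈ X.G.cv z :: J, v ∈ x :: B) ∧
      (∀ i, 1 ≤ i → i ≤ J.length → X.Op ω (vx y J (X.G.cv z) (i + 1)) (vx y J (X.G.cv z) i)) ∧
      ∀ i, 2 ≤ i → i ≤ J.length →
        X.G.Adj (vx y J (X.G.cv z) (i - 1)) (vx y J (X.G.cv z) (i + 1)) → X.m = false ∧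
          ¬X.Op ω (vx y J (X.G.cv z) (i + 1)) (vx y J (X.G.cv z) (i - 1)) := by
  obtain ⟨q, hq⟩ := List.getLast?_eq_some_iff.1 h.last
  have h1 : (y :: q ++ [X.G.cv z]).IsChain fun u v => (u = y ∧ v = x) ∨ (u ≠ y ∧ X.Ro ω v u) := by
    rw [List.cons_append, ← hq]
    exact List.isChain_cons_cons.2 ⟨Or.inl ⟨rfl, rfl⟩, h.ch.imp_of_mem_imp fun a b ha _ k =>
      Or.inr ⟨fun c => hy (c ▸ ha), k⟩⟩
  obtain ⟨J, hJ, ra⟩ := reduce' h1 fun c => hy (by simp [hq, c])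
  have n : ∀ i, 1 ≤ i → i ≤ J.length + 1 → vx y J (X.G.cv z) i ≠ y := fun i a b c => by
    have := vx_inj ra.nd b (Nat.zero_le _) c
    omega
  have st : ∀ i, 1 ≤ i → i ≤ J.length →
      X.Op ω (vx y J (X.G.cv z) (i + 1)) (vx y J (X.G.cv z) i) := fun i a b =>
    ((ra.st b).resolve_left fun c => n i a (by omega) c.1).2.2
  refine ⟨J, ra.nd, ra.ch.imp fun u v k => k.elim (fun c => c.1 ▸ c.2 ▸ ha.symm) fun c => c.2.1.symm,
    ((ra.st (Nat.zero_le _)).resolve_right fun c => c.1 rfl).2, by grind, st, fun i a b c => ?_⟩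
  obtain ⟨i, rfl⟩ : ∃ j, i = j + 1 := ⟨i - 1, by omega⟩
  exact nochord (fun k => ra.nc i (i + 1 + 1) le_rfl (by omega)
    (Or.inr ⟨n i (by omega) (by omega), k⟩)) (st i (by omega) (by omega)) c.symm

theorem La.uz1 (h : X.La z ω) : z ∈ X.Uz z ω := by
  rcases h.2.2.1 with e | ⟨s, h1, h2⟩
  · exact e ▸ Reach.base
  · exact Reach.step h1.uz1 (yv_adj (l1_one h.1.1) s).symm ⟨Hm_H h.1.1, (l1_adj h.1).ne⟩ h2

/-- darts from the old cluster into the new territory -/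
theorem cross (h : X.La z ω) (hN : X.New z ω l) (hu : u ∈ X.Uz z ω) (hv : v ∈ l)
    (hc : v = X.G.cv z → u ≠ z ∧ (X.m = true → X.Off z ω u)) (ha : X.G.Adj u v) :
    X.m = false ∧ ¬X.Op ω u v := by
  by_cases c : v = X.G.cv z
  · subst c
    have n : ¬X.Op ω u (X.G.cv z) := fun k => h.2.2.2.2 ⟨u, ha, (hc rfl).1, k, by
      split_ifs with e
      exacts [(hc rfl).2 e, hu]⟩
    exact ⟨Bool.eq_false_iff.2 fun e => n (h.2.2.2.1.site e u), n⟩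
  · exact ⟨Bool.eq_false_iff.2 fun e => hN.far e v hv c u hu ha,
      fun k => (hN.dom v hv).2.1 (Reach.step hu ha ⟨(hN.dom v hv).1, c⟩ k)⟩

variable (X) in
/-- the shape of the arcs that end in the bonus vertex -/
structure CK (z : Pt) (s : Ak) : Prop where
  hz : s.z = z
  he : s.e = X.G.cv z
  fl : s.fl
  arc : X.G.Arc z s.b s.I (X.G.cv z)
  wz : Wz X.G.Tb z s.b
  l0 : ¬s.el 0
  o0 : s.eo 0 → s.fw 0
  e1 : s.ee 1 → s.fe 1
  zb : s.b = z → ∀ i, s.el i ∨ s.ee i → i ≠ 1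
  ol : s.eo s.I.length → s.fw s.I.length → X.m = false
  site : X.m = true → ∀ i, s.eo i → s.eo (i + 1) → s.fw i → s.fw (i + 1)

variable {s : Ak}

theorem CK.nd (hz : X.Ex z) (h : X.CK z s) : (s.b :: s.I ++ [s.e]).Nodup :=
  nd_iff.2 ⟨h.arc.2.1, fun c => h.arc.2.2.2.2 _ c h.wz, h.he ▸ h.arc.2.2.1,
    fun c => l1_nwz hz (h.he ▸ c ▸ h.wz)⟩

theorem CK.used (h : X.CK z s) (u : X.Used s d) :
    d.2 ∈ X.G.cv z :: s.I ∧ (d.2 ≠ X.G.cv z ∨ (X.m = false ∧ d.1 ≠ z)) := by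
  have nz : ∀ i, 1 ≤ i → i ≤ s.I.length → s.A i ≠ z := fun i a b c =>
    h.arc.2.2.2.2 _ (vx_mem (b := s.b) (e := s.e) a b) (Or.inl c)
  have inn : ∀ i, 1 ≤ i → i ≤ s.I.length → s.A i ∈ X.G.cv z :: s.I ∧
      (s.A i ≠ X.G.cv z ∨ (X.m = false ∧ d.1 ≠ z)) := fun i a b =>
    ⟨List.mem_cons_of_mem _ (vx_mem a b), Or.inl fun c => h.arc.2.2.1 (c ▸ vx_mem a b)⟩
  have pos := List.length_pos_iff.2 h.arc.2.2.2.1
  have top : ∀ i ≤ s.I.length, s.A (i + 1) ∈ X.G.cv z :: s.I := fun i a =>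
    h.he ▸ vx_mem1 (by omega) (by omega)
  obtain ⟨i, hi, ⟨a, rfl⟩ | ⟨a1, a2, a3, -, rfl⟩ | ⟨-, a, -, rfl⟩⟩ := u
  · unfold Ak.so at *
    split_ifs at * with c
    · rcases hi.eq_or_lt with rfl | hi
      · exact ⟨top _ le_rfl, Or.inr ⟨h.ol a c, nz _ pos le_rfl⟩⟩
      · exact inn (i + 1) (by omega) hi
    · exact inn i (Nat.pos_of_ne_zero (by rintro rfl; exact c (h.o0 a))) hi
  · unfold Ak.se at *
    split_ifs at * with c
    · refine ⟨top i hi, Or.inr ⟨a1, ?_⟩⟩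
      rcases a3.eq_or_lt with rfl | a3
      · exact fun e => h.zb e 1 (Or.inr a2) rfl
      · exact nz _ (by omega) (by omega)
    · have : i ≠ 1 := by rintro rfl; exact c (h.e1 a2)
      exact inn (i - 1) (by omega) (by omega)
  · simp only [Ak.sl, if_pos h.fl] at *
    exact inn i (Nat.pos_of_ne_zero (by rintro rfl; exact h.l0 a)) hi

theorem CK.back (hz : X.Ex z) (h : X.CK z s) (u : X.Used s d) {t : ℕ} (h1 : 1 ≤ t)
    (h2 : t ≤ s.I.length) (h3 : ¬s.eo t) : d.2 ≠ s.A (t + 1) ∨ d.1 ≠ s.A t := by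
  by_contra c
  simp only [ne_eq, not_or, not_not] at c
  have inj : ∀ i j, i ≤ s.I.length + 1 → j ≤ s.I.length + 1 → s.A i = s.A j → i = j :=
    fun i j => vx_inj (h.nd hz)
  obtain ⟨i, hi, ⟨a, rfl⟩ | ⟨-, -, a3, -, rfl⟩ | ⟨-, a, -, rfl⟩⟩ := u
  · unfold Ak.so at c
    split_ifs at c <;> have := inj _ _ (by omega) (by omega) c.1 <;>
      have := inj _ _ (by omega) (by omega) c.2
    · exact h3 (this ▸ a)
    · omega
  · unfold Ak.se at c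
    split_ifs at c <;> have := inj _ _ (by omega) (by omega) c.1 <;>
      have := inj _ _ (by omega) (by omega) c.2 <;> omega
  · simp only [Ak.sl, if_pos h.fl] at c
    exact h.arc.2.2.2.2 _ (vx_mem (b := s.b) (e := s.e) h1 h2) (Or.inl (c.2.symm.trans h.hz))

theorem CK.force (hz : X.Ex z) (h : X.CK z s)
    (hE : ∀ d, X.Used s d ∨ d = (z, X.G.cv z) → X.Nb E d) :
    (X.Pr fun ω => (E ω ∧ X.AE s ω) ∧ X.Op ω z (X.G.cv z)) ≤
      X.Pr E * (X.p * X.G.wt X.nm z s.b s.I (X.G.cv z) s.eo s.ee s.el) := by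
  have n := nd_iff.1 (h.nd hz)
  refine (force_one ((hE _ (Or.inr rfl)).and (nb_ae fun d u => (h.used u).2.imp Ne.symm
    fun c => ⟨c.1, c.2.symm⟩))).trans ?_
  rw [mul_comm X.p, ← mul_assoc, ← h.he, ← h.hz]
  exact mul_le_mul_left (Sc.force ⟨n.1, n.2.1, n.2.2.1,
    Or.inl fun c => h.arc.2.2.2.2 _ c (Or.inl h.hz), fun c => absurd c n.2.2.2,
    fun c => Or.inr (h.zb (c.trans h.hz)),
    fun c => absurd (h.he.symm.trans (c.trans h.hz)).symm (l1_adj hz).ne, h.site⟩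
    fun d u => hE d (Or.inl u)) _

/-- for base events that do not see keys with heads on the arc -/
theorem CK.nb (hz : X.Ex z) (h : X.CK z s)
    (hE : ∀ d, d.2 ∈ X.G.cv z :: s.I → ¬Wz X.G.Tb z d.2 → X.Nb E d)
    (u : X.Used s d ∨ d = (z, X.G.cv z)) : X.Nb E d := by
  have k : d.2 ∈ X.G.cv z :: s.I := u.elim (fun u => (h.used u).1) fun e => e ▸ List.mem_cons_self
  exact hE d k ((List.mem_cons.1 k).elim (fun e => e ▸ l1_nwz hz) (h.arc.2.2.2.2 _))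

end Sc
end Pool.Agent.P.MP_e4ac67_pr.Gr
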