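import Pool.Agent.P.MP_e4ac67_pr.V.Jnt
import Pool.Agent.P.MP_e4ac67_pr.E.Cone

/-! The probability of `z`, exits. -/

open scoped ENNReal

namespace Pool.Agent.P.MP_e4ac67_pr.Gr

theorem l2b_last (b : Pt) (I : List Pt) (e : Pt) : Grid.vx b I e (I.length + 1) = e := by
  simp [Grid.vx, List.getD_eq_getElem?_getD]

/-- a chain with different ends contains an arc without chords -/
theorem l2b_arc (R : Pt → Pt → Prop) {b e : Pt} {l : List Pt} (h : (b :: l).IsChain R)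
    (he : (b :: l).getLast? = some e) (hb : b ≠ e) : ∃ I, (I ++ [e]).Sublist l ∧
      (b :: I ++ [e]).IsChain R ∧ (b :: I ++ [e]).Nodup ∧
      (∀ i ≤ I.length, R (Grid.vx b I e i) (Grid.vx b I e (i + 1))) ∧
      ∀ i j, i + 2 ≤ j → j ≤ I.length + 1 → ¬R (Grid.vx b I e i) (Grid.vx b I e j) := by
  obtain ⟨l', h1, h2, h3, h4, h5⟩ := reduce R h
  rw [he] at h3
  obtain ⟨I, rfl⟩ : ∃ I, l' = I ++ [e] := by
    rcases List.eq_nil_or_concat l' with rfl | ⟨I, x, rfl⟩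
    · exact absurd (by simpa using h3) hb
    · rw [List.concat_eq_append, ← List.cons_append, List.getLast?_concat] at h3
      exact ⟨I, by rw [List.concat_eq_append, Option.some.inj h3]⟩
  refine ⟨I, h1, h2, h4, fun i hi => ?_, fun i j a c => h5 e i j a (by simpa using c)⟩
  have a : i + 1 < (b :: I ++ [e]).length := by simp; omega
  unfold Grid.vx
  rw [List.getD_eq_getElem _ _ a, List.getD_eq_getElem _ _ (Nat.lt_of_succ_lt a)]
  exact List.isChain_iff_getElem.1 h2 i a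

theorem l2b_split (P : Pt → Prop) {l : List Pt} (h : ∃ a ∈ l, P a) :
    ∃ A b r, l = A ++ b :: r ∧ P b ∧ ∀ v ∈ r, ¬P v := by
  induction l with
  | nil => simp at h
  | cons a l ih =>
    by_cases k : ∃ a ∈ l, P a
    · obtain ⟨A, b, r, rfl, h'⟩ := ih k
      exact ⟨a :: A, b, r, rfl, h'⟩
    · obtain ⟨x, hx, hP⟩ := h
      rcases List.mem_cons.1 hx with rfl | hx
      · exact ⟨[], x, l, rfl, hP, fun v hv q => k ⟨v, hv, q⟩⟩
      · exact absurd ⟨x, hx, hP⟩ k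

theorem l2b_cv (G : Grid) (z : Pt) : G.cv z = (z.1 + 1, G.A z.1 (z.2 - 1) + 2) := by
  have h1 := G.gap_eq z
  have h2 := G.gap2 z.1 z.2
  rw [Grid.cv, G.nb_ch z (by omega) (by omega)]
  congr 1
  push_cast
  ring

namespace Sc
variable {X : Sc} {z : Pt}

theorem l2b_o : X.Hm X.o := ⟨Grid.cn_self _, Nat.le_add_right _ _⟩

theorem l2b_ol : X.o.1 = X.y.1 + 2 := Grid.rt_lev _

theorem l2b_lev (h : X.Hm z) : 1 ≤ z.1 := by
  have := h.1.1
  rw [l2b_ol] at this
  omega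

/-- the event of a forward arc without chords -/
theorem l2b_ae {ω : Cf} {b e : Pt} {I : List Pt} (ee el : ℕ → Prop)
    (hH : ∀ v ∈ z :: b :: I ++ [e], v ∈ X.H)
    (h1 : ∀ i ≤ I.length, X.G.Adj (Grid.vx b I e i) (Grid.vx b I e (i + 1)) ∧
      X.Op ω (Grid.vx b I e i) (Grid.vx b I e (i + 1)))
    (h2 : ∀ i j, i + 2 ≤ j → j ≤ I.length + 1 → ¬(X.G.Adj (Grid.vx b I e i) (Grid.vx b I e j) ∧
      X.Op ω (Grid.vx b I e i) (Grid.vx b I e j)))
    (hl : ∀ i, el i → z = e ∧ i < I.length) :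
    X.AE ⟨z, b, I, e, fun _ => True, ee, el, fun _ => True, fun _ => True, False⟩ ω := by
  have key : ∀ i j, i + 1 ≤ j → j ≤ I.length → X.G.Adj (Grid.vx b I e i) (Grid.vx b I e (j + 1)) →
      X.m = false ∧ ¬X.Op ω (Grid.vx b I e i) (Grid.vx b I e (j + 1)) := by
    intro i j a c d
    have := h2 i (j + 1) (by omega) (by omega)
    refine ⟨?_, fun q => this ⟨d, q⟩⟩
    by_contra hm
    exact this ⟨d, (h1 j c).2.site (by simpa using hm) _⟩
  refine ⟨fun v hv => H_sub (hH v hv), fun i hi => ⟨fun _ => ?_, fun _ a c => ?_, fun a c => ?_⟩⟩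
  · simpa [Ak.so, Ak.A] using (h1 i hi).2
  · simpa [Ak.se, Ak.A] using key (i - 1) i (by omega) hi c
  · obtain ⟨rfl, a'⟩ := hl i a
    have := key i I.length a' le_rfl
    rw [l2b_last] at this
    simpa [Ak.sl, Ak.A] using this c.symm

theorem PZ_le (hz : X.Ex z) : X.PZ z ≤ X.PG z + X.SA z (X.G.fW X.nm z) := by
  let s : Pt × List Pt → Ak := fun x => ⟨z, x.1, x.2, z, fun _ => True, (· < x.2.length),
    (· < x.2.length), fun _ => True, fun _ => True, False⟩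
  refine (Pr_mono (E' := fun ω => X.Gz z ω ∨ ∃ x : Pt × List Pt, (X.G.Tb z x.1 ∧
    X.G.Arc z x.1 x.2 z) ∧ ((z ≠ X.o ∧ X.Rc (X.H \ {v | v = z ∨ v ∈ x.2}) ω x.1) ∧ X.AE (s x) ω))
    fun ω h => ?_).trans (Pr_or.trans (add_le_add le_rfl ((Pr_ex _).trans
      (le_trans (ENNReal.tsum_le_tsum fun x => ?_) (chain_sum hz.1 _ fun b I hF => ?_)))))
  · by_cases e : z = X.o
    · exact Or.inl (Or.inl e)
    obtain ⟨l, nd, hl, hH, hc⟩ := h.list
    obtain ⟨A, b, r, e1, hb, hr⟩ := l2b_split (X.G.Tb z) (l := X.o :: l)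
      ⟨_, List.mem_cons_self, (o_wz hz.1).resolve_left (Ne.symm e)⟩
    have bz := ((Grid.tubeOK X.G).lev z b hb).2
    have hH' : ∀ v ∈ A ++ b :: r, v ∈ X.H := by
      rw [← e1]
      exact List.forall_mem_cons.2 ⟨Hm_H l2b_o, hH⟩
    obtain ⟨l0, e0⟩ : ∃ l0, A ++ [b] = X.o :: l0 := by
      cases A with
      | nil => exact ⟨[], by rw [(List.cons.inj e1).1]; rfl⟩
      | cons a A => exact ⟨A ++ [b], by rw [(List.cons.inj e1).1]; rfl⟩
    rw [e1] at nd hl hc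
    rw [List.getLast?_append_cons] at hl
    obtain ⟨I, s1, s2, s3, s4, s5⟩ := l2b_arc _ hc.right_of_append hl bz
    have e2 : A ++ b :: r = (A ++ [b]) ++ r := by simp
    have hrc : X.Rc (X.H \ {v | v = z ∨ v ∈ I}) ω b := by
      rw [e2] at nd hc
      refine Rc.of_list (a := X.o) (l := l0) Reach.base (fun u hu => ?_) (e0 ▸ hc.left_of_append)
        (e0 ▸ by simp)
      have hu' : u ∈ A ++ [b] := e0 ▸ List.mem_cons_of_mem _ hu
      refine ⟨hH' u (e2 ▸ List.mem_append_left _ hu'), fun q => ?_⟩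
      exact List.disjoint_of_nodup_append nd hu' (s1.subset (by simpa [or_comm] using q))
    by_cases hI : I = []
    · subst hI
      have := s4 0 le_rfl
      simp only [Grid.vx, List.cons_append, List.nil_append, List.getD_cons_zero, zero_add,
        List.getD_cons_succ] at this
      obtain ⟨t, rfl⟩ := Grid.tb_link (l2b_lev hz.1) hb this.1.symm
      exact Or.inl (Or.inr ⟨t, hrc.mono2 (fun v hv => ⟨hv.1, fun q => hv.2 (Or.inl q)⟩) le_rfl,
        this.2⟩)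
    have n1 := List.nodup_append.1 (List.nodup_cons.1 s3).2
    have zI : z ∉ I := fun q => n1.2.2 z q z (by simp) rfl
    have hI' : ∀ v ∈ I ++ [z], v ∈ r := fun v hv => s1.subset hv
    refine Or.inr ⟨(b, I), ⟨hb, s2.imp fun _ _ q => q.1, n1.1, zI, hI, fun v hv q => ?_⟩,
      ⟨e, hrc⟩, l2b_ae _ _ (fun v hv => ?_) s4 s5 fun i q => ⟨rfl, q⟩⟩
    · exact q.elim (fun q => zI (q ▸ hv)) (hr v (hI' v (List.mem_append_left _ hv)))
    · refine hH' v (List.mem_append_right _ ?_)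
      rcases List.mem_cons.1 hv with rfl | hv
      · exact List.mem_cons_of_mem _ (hI' _ (by simp))
      · exact (List.mem_cons.1 hv).elim (fun q => q ▸ List.mem_cons_self)
          fun q => List.mem_cons_of_mem _ (hI' _ q)
  · rw [Pr_and]
    refine ind_mul_le fun hA => ?_
    rw [ind_of hA.1, one_mul, Grid.fW, ind_of hA.2, one_mul]
    have bz := ((Grid.tubeOK X.G).lev z _ hA.1).2
    obtain ⟨hb, -, a1, a2, -, a3⟩ := hA
    refine (force (s := s x) ⟨a1, fun q => a3 _ q (Or.inr hb), a2, Or.inl a2, fun q => absurd q bz,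
      fun q => absurd q bz, fun _ => Or.inr fun i q => (q.elim id id).ne, fun _ _ _ _ _ => trivial⟩
      fun d hd => (nb_const _).and (nb_rc fun q => q.2 ?_)).trans (mul_le_mul_left (Pr_mono
        fun ω q => ⟨q.1, q.2.mono2 (fun v hv => ⟨hv.1, fun q => hv.2 (Or.inl q)⟩) le_rfl⟩) _)
    rcases hd.head with q | q | q | q
    · exact Or.inr q
    · simp [s] at q
    · exact Or.inl q.1
    · exact Or.inl q.1
  · have hA : X.G.Arc z b I z := by
      by_contra q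
      exact hF (by rw [Grid.fW, ind_of_not q, zero_mul])
    obtain ⟨a1, -, -, a2, a3⟩ := hA
    cases I with
    | nil => exact absurd rfl a2
    | cons f I => exact ⟨(List.isChain_cons_cons.1 a1).1, a3 f List.mem_cons_self⟩

/-- expected number of points reached on the exit level -/
noncomputable def top (X : Sc) : ℝ≥0∞ :=
  ∑ x ∈ Finset.Icc (X.G.lr X.y (X.N + 3)) (X.G.rr X.y (X.N + 3)),
    X.Pr fun ω => X.Rc (X.G.Hs X.y (X.N + 3)) ω (X.y.1 + (X.N + 3), x)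

theorem l2b_top : ∑' v : Pt, ind (v.1 = X.y.1 + (X.N + 3) ∧ X.G.Cn 0 X.y v) *
    (X.Pr fun ω => X.Rc (X.G.Hs X.y (X.N + 3)) ω v) ≤ X.top := by
  rw [tsum_eq_sum (s := (Finset.Icc (X.G.lr X.y (X.N + 3)) (X.G.rr X.y (X.N + 3))).image
    fun x => (X.y.1 + (X.N + 3), x)), Finset.sum_image fun _ _ _ _ h => (Prod.mk.inj h).2]
  · exact Finset.sum_le_sum fun x _ => ind_mul_le fun _ => le_rfl
  · rintro ⟨n, x⟩ h
    rw [ind_of_not, zero_mul]
    rintro ⟨rfl, k⟩
    exact h (Finset.mem_image_of_mem _ (Finset.mem_Icc.2 (Grid.cn_iff.1 k)))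

/-- one more open key -/
theorem l2b_step {x u : Pt} (hx : x ∈ X.H) (hu : u ∈ X.G.Hs X.y (X.N + 3)) (h : X.G.Adj x u) :
    X.p * (X.Pr fun ω => X.Rc X.H ω x) ≤ X.Pr fun ω => X.Rc (X.G.Hs X.y (X.N + 3)) ω u := by
  rw [mul_comm]
  exact (mul_le_mul' (Pr_mono fun ω q => q.mono2 H_sub le_rfl) (reach_one (G := X.G.gr) X.p1 h hu
    (X.hΩ _ (H_sub hx) _ hu))).trans (reach_chain X.p1 _ _ _ _)

theorem load_top : ∑' z, ind (X.Ex z ∧ ¬X.Hm (X.G.cv z)) * (X.p * X.PG z) ≤ X.top := by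
  refine le_trans (ENNReal.tsum_le_tsum fun z => ind_mul_le fun h => ?_)
    ((ENNReal.tsum_comp_le_tsum_of_injective (f := X.G.cv) (fun a b e => ?_) _).trans l2b_top)
  · obtain ⟨⟨hz, -⟩, hc⟩ := h
    have h2 := X.G.gap2 z.1 z.2
    have ch : X.G.Ch z.1 z.2 (X.G.cv z).2 := by
      rw [l2b_cv]
      exact ⟨by simp, h2⟩
    have l1 : (X.G.cv z).1 = z.1 + 1 := by rw [l2b_cv]
    have c1 := Grid.cone_child hz.1 l1 ch
    have c2 := Grid.cone_trans (Grid.rt_cone X.y) c1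
    have l2 : (X.G.cv z).1 = X.y.1 + (X.N + 3) := by
      have a : ¬(X.G.cv z).1 ≤ X.o.1 + X.N := fun q => hc ⟨c1, q⟩
      have b := hz.2
      rw [l2b_ol] at a b
      omega
    rw [ind_of ⟨l2, c2⟩, one_mul]
    refine le_trans (mul_le_mul_right (Pr_mono fun ω q => ?_) _)
      (l2b_step (Hm_H hz) ⟨c2, l2.le⟩ (Or.inr (Or.inl ⟨l1, ch⟩)))
    rcases q with rfl | ⟨s, q1, q2⟩
    · exact Reach.base
    · exact (q1.mono2 Set.sdiff_subset le_rfl).step (Grid.yv_adj (l2b_lev hz) s).symm (Hm_H hz) q2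
  · rw [l2b_cv, l2b_cv, Prod.mk.injEq] at e
    obtain ⟨n, x⟩ := a
    obtain ⟨n', x'⟩ := b
    obtain rfl : n = n' := by simpa using e.1
    have := (X.G.A_lt n).injective (add_right_cancel e.2)
    simp only at this
    rw [show x = x' by omega]

/-- points on the boundary rays of the cone of the root -/
noncomputable def l2b_e (X : Sc) (s : Bool) (i : ℕ) : Pt :=
  (X.o.1 + (i + 1), if s then X.G.rr X.o (i + 1) else X.G.lr X.o (i + 1))

theorem l2b_sG (s : Bool) :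
    ∑' i, (X.Pr fun ω => X.Rc X.H ω (X.l2b_e s i)) ≤ X.G.sG X.nm X.o s := by
  rw [Grid.sG, ENNReal.tsum_prod']
  refine ENNReal.tsum_le_tsum fun i => ?_
  have ne : X.o ≠ X.l2b_e s i := fun q => by simpa [l2b_e] using congrArg Prod.fst q
  let a : List Pt → Ak := fun I => ⟨X.o, X.o, I, X.l2b_e s i, fun _ => True, fun _ => True,
    fun _ => False, fun _ => True, fun _ => True, False⟩
  refine (Pr_mono (E' := fun ω => ∃ I, ((X.o :: I ++ [X.l2b_e s i]).IsChain X.G.Adj ∧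
    (X.o :: I ++ [X.l2b_e s i]).Nodup ∧ ∀ v ∈ I, X.o.1 ≤ v.1) ∧ (True ∧ X.AE (a I) ω))
    fun ω h => ?_).trans ((Pr_ex _).trans (ENNReal.tsum_le_tsum fun I => ?_))
  · obtain ⟨l, -, hl, hH, hc⟩ := h.list
    obtain ⟨I, s1, s2, s3, s4, s5⟩ := l2b_arc _ hc hl ne
    refine ⟨I, ⟨s2.imp fun _ _ q => q.1, s3, fun v hv => ?_⟩, trivial,
      l2b_ae _ _ (fun v hv => ?_) s4 s5 fun _ q => q.elim⟩
    · rw [l2b_ol]
      exact (hH v (s1.subset (List.mem_append_left _ hv))).2.1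
    · rcases List.mem_cons.1 hv with rfl | hv
      · exact Hm_H l2b_o
      · exact (List.mem_cons.1 hv).elim (fun q => q ▸ Hm_H l2b_o) fun q => hH v (s1.subset q)
  · rw [Pr_and]
    refine ind_mul_le fun h => ?_
    have n0 := List.nodup_cons.1 h.2.1
    have n1 := List.nodup_append.1 n0.2
    refine le_trans (force (s := a I) ⟨n1.1, fun q => n0.1 (List.mem_append_left _ q),
      fun q => n1.2.2 _ q _ (List.mem_singleton_self _) rfl, Or.inr fun _ => id, fun q => absurd q ne,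
      fun _ => Or.inl fun _ => id, fun _ => Or.inl fun _ => id, fun _ _ _ _ _ => trivial⟩
      fun d _ => nb_const _) ?_
    exact mul_le_mul' ((EX_ind_le_one X.p1 _).trans (ind_of h).ge) le_rfl

/-- the darts out of the real domain -/
theorem l2b_cases {x u : Pt} (hx : X.Hm x) (hu : ¬X.Hm u) (h : X.G.Adj x u) (h0 : u ≠ X.t0) :
    (u.1 = X.y.1 + (X.N + 3) ∧ X.G.Cn 0 X.y u ∧
      ∃ b : Bool, x = (u.1 - 1, X.G.lp (u.1 - 1) u.2 + if b then 1 else 0)) ∨
    (x = X.o ∧ ∃ s : Bool, u = (X.o.1, X.o.2 + sg s)) ∨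
    ∃ (s t : Bool) (i : ℕ), x = X.l2b_e s i ∧ u = if t then (x.1, x.2 + sg s) else
      (X.o.1 + i, (if s then X.G.rr X.o i else X.G.lr X.o i) + sg s) := by
  have ol := l2b_ol (X := X)
  obtain ⟨i, a, rfl, a1, a2⟩ := Grid.cn_ex hx.1
  have hN := hx.2
  obtain ⟨n, w⟩ := u
  rcases X.G.adj_iff.1 h with ⟨e, e'⟩ | ⟨e, e'⟩ | ⟨e, e1, e2⟩ <;> simp only at e hN
  · subst e
    simp only at e'
    have k : ¬(X.G.lr X.o i ≤ w ∧ w ≤ X.G.rr X.o i) := fun q => hu ⟨Grid.cn_iff.2 q, hN⟩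
    right
    cases i with
    | zero =>
      simp only [Grid.lr, Grid.rr] at a1 a2
      obtain rfl : a = X.o.2 := le_antisymm a2 a1
      refine Or.inl ⟨rfl, ?_⟩
      rcases e' with rfl | rfl
      · exact ⟨true, rfl⟩
      · exact ⟨false, rfl⟩
    | succ i =>
      rcases e' with rfl | rfl
      · obtain rfl : a = X.G.rr X.o (i + 1) := by omega
        exact Or.inr ⟨true, true, i, rfl, rfl⟩
      · obtain rfl : a = X.G.lr X.o (i + 1) := by omega
        exact Or.inr ⟨false, true, i, rfl, rfl⟩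
  · have c1 := Grid.cone_child (u := (n, w)) hx.1 e e'
    have b : ¬n ≤ X.o.1 + X.N := fun q => hu ⟨c1, q⟩
    refine Or.inl ⟨by simp only; omega, Grid.cone_trans (Grid.rt_cone X.y) c1, ?_⟩
    subst e
    simp only [Nat.add_sub_cancel] at e' ⊢
    have b1 := Grid.lp_le e'.2
    have b2 := Grid.le_rp e'.1
    have b3 := (Grid.rp_spec (G := X.G) (X.o.1 + i) w).2.2.2
    rcases b1.eq_or_lt with q | q
    · exact ⟨false, by simp [q]⟩
    · exact ⟨true, by simp; omega⟩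
  · simp only at e1 e2
    right
    cases i with
    | zero =>
      exfalso
      simp only [Grid.lr, Grid.rr] at a1 a2
      obtain rfl : a = X.o.2 := le_antisymm a2 a1
      have t := X.G.tau_succ n X.o.2
      have t0 : X.G.tau (n + 1, X.o.2) = 0 := by
        rw [← e]
        exact Grid.rt_tau X.y
      have b1 := Grid.lp_le e2
      have b2 : X.G.A n (w - 1) < X.G.A n (X.G.lp n X.o.2) := by omega
      have b3 := Grid.A_lt_iff.1 b2
      refine h0 ?_
      rw [Sc.t0, X.G.nb_zero, show X.o.1 - 1 = n by omega, show X.G.lp n X.o.2 = w by omega]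
    | succ i =>
      obtain rfl : n = X.o.1 + i := by omega
      have k : ¬(X.G.lr X.o i ≤ w ∧ w ≤ X.G.rr X.o i) := fun q =>
        hu ⟨Grid.cn_iff.2 q, by simp only; omega⟩
      simp only [Grid.lr, Grid.rr] at a1 a2
      have b1 := (X.G.A_lt _).le_iff_le.1 (a1.trans e2)
      have b2 := (X.G.A_lt _).le_iff_le.1 (e1.trans a2)
      rcases (by omega : w = X.G.rr X.o i + 1 ∨ w = X.G.lr X.o i - 1) with rfl | rfl
      · rw [add_sub_cancel_right] at e1
        obtain rfl := le_antisymm a2 e1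
        exact Or.inr ⟨true, false, i, rfl, rfl⟩
      · obtain rfl := le_antisymm e2 a1
        exact Or.inr ⟨false, false, i, rfl, rfl⟩

theorem load_ex : X.p * ∑' d, X.Pr (X.REx d) ≤ 2 * X.top +
    X.p * (2 * ind (X.m = false) + 2 * (X.G.sG X.nm X.o false + X.G.sG X.nm X.o true)) := by
  let π1 : Bool × Pt → Pt × Pt := fun j =>
    ((j.2.1 - 1, X.G.lp (j.2.1 - 1) j.2.2 + if j.1 then 1 else 0), j.2)
  let E1 : Bool × Pt → Cf → Prop := fun j ω => ((j.2.1 = X.y.1 + (X.N + 3) ∧ X.G.Cn 0 X.y j.2) ∧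
    (π1 j).1 ∈ X.H ∧ X.G.Adj (π1 j).1 j.2) ∧ X.Rc X.H ω (π1 j).1
  let π2 : Bool → Pt × Pt := fun s => (X.o, (X.o.1, X.o.2 + sg s))
  let E2 : Bool → Cf → Prop := fun _ _ => X.m = false ∧ True
  let π3 : Bool × Bool × ℕ → Pt × Pt := fun j => (X.l2b_e j.2.1 j.2.2, if j.1 then
    ((X.l2b_e j.2.1 j.2.2).1, (X.l2b_e j.2.1 j.2.2).2 + sg j.2.1) else
    (X.o.1 + j.2.2, (if j.2.1 then X.G.rr X.o j.2.2 else X.G.lr X.o j.2.2) + sg j.2.1))
  let E3 : Bool × Bool × ℕ → Cf → Prop := fun j ω => X.Rc X.H ω (X.l2b_e j.2.1 j.2.2)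
  have h : ∀ d, X.Pr (X.REx d) ≤ (X.Pr fun ω => ∃ j, π1 j = d ∧ E1 j ω) +
      ((X.Pr fun ω => ∃ j, π2 j = d ∧ E2 j ω) + X.Pr fun ω => ∃ j, π3 j = d ∧ E3 j ω) := by
    rintro ⟨x, u⟩
    refine (Pr_mono fun ω ⟨a1, a2, a3, a4, a5, a6⟩ => ?_).trans
      (Pr_or.trans (add_le_add le_rfl Pr_or))
    dsimp only at a1 a2 a3 a4 a5 a6
    rcases l2b_cases a1 a2 a3 a4 with ⟨b1, b2, b, rfl⟩ | ⟨rfl, s, rfl⟩ | ⟨s, t, i, rfl, rfl⟩
    · exact Or.inl ⟨(b, u), rfl, ⟨⟨b1, b2⟩, Hm_H a1, a3⟩, a5⟩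
    · refine Or.inr (Or.inl ⟨s, rfl, ?_, trivial⟩)
      by_contra hm
      exact a6 (by simpa using hm) rfl rfl
    · exact Or.inr (Or.inr ⟨(t, s, i), rfl, a5⟩)
  refine (mul_le_mul_right (ENNReal.tsum_le_tsum h) _).trans ?_
  rw [ENNReal.tsum_add, ENNReal.tsum_add, mul_add]
  refine add_le_add ((mul_le_mul_right (Pr_sum E1 π1 _ fun _ _ q => q) _).trans ?_)
    (mul_le_mul_right (add_le_add ((Pr_sum E2 π2 _ fun _ _ q => q).trans ?_)
      ((Pr_sum E3 π3 _ fun _ _ q => q).trans ?_)) _)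
  · rw [← ENNReal.tsum_mul_left, ENNReal.tsum_prod', tsum_bool, two_mul]
    refine add_le_add (le_trans (ENNReal.tsum_le_tsum fun u => ?_) l2b_top)
      (le_trans (ENNReal.tsum_le_tsum fun u => ?_) l2b_top) <;>
    · rw [Pr_and, mul_left_comm]
      refine ind_mul_le fun q => ?_
      rw [ind_of q.1, one_mul]
      exact l2b_step q.2.1 ⟨q.1.2, q.1.1.le⟩ q.2.2
  · rw [tsum_bool, two_mul]
    refine add_le_add ?_ ?_ <;>
    · rw [Pr_and]
      exact mul_le_of_le_one_right' (EX_ind_le_one X.p1 _)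
  · rw [ENNReal.tsum_prod', tsum_bool, two_mul]
    refine add_le_add ?_ ?_ <;>
    · rw [ENNReal.tsum_prod', tsum_bool]
      exact add_le_add (l2b_sG false) (l2b_sG true)

end Sc
end Pool.Agent.P.MP_e4ac67_pr.Gr
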