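import Pool.Agent.P.MP_e4ac67_pr.V.Jnt

/-! Marked arcs: the events and their probabilities. -/

open scoped ENNReal

namespace Pool.Agent.P.MP_e4ac67_pr.Gr

theorem Grid.l3_rt {G : Grid} {z v : Pt} (h3 : 3 ≤ G.gap z) (h : G.Rt z 5 v) : G.Rt z 4 v := by
  have key : ∀ i, G.lr (G.nb z 4) i ≤ G.lr (G.nb z 5) i := fun i => by
    induction i with
    | zero =>
      simp only [Grid.lr]
      rw [G.nb_ch z (by omega) (by omega), G.nb_ch z (by omega) (by omega)]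
      simp only; omega
    | succ i ih =>
      rw [Grid.lr_cut (by omega) (by omega), Grid.lr_cut (by omega) (by omega)]
      exact G.A_le (by omega)
  unfold Grid.Rt at h ⊢
  split_ifs at h ⊢
  exacts [h, (key _).trans h]

theorem Grid.l3_wt {G : Grid} {P : Nm} {z b e : Pt} {I : List Pt} {eo ee ee' el : ℕ → Prop}
    (h : ∀ i, 1 ≤ i → i ≤ I.length → (ee i ↔ ee' i)) :
    G.wt P z b I e eo ee el = G.wt P z b I e eo ee' el := by
  classical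
  refine Finset.prod_congr rfl fun i hi => ?_
  have := h i
  have : i ≤ I.length := Nat.lt_succ_iff.1 (Finset.mem_range.1 hi)
  congr 2
  exact if_congr (by tauto) rfl rfl

theorem Grid.Arc.l3_head {G : Grid} {z b e : Pt} {I : List Pt} (h : G.Arc z b I e) :
    G.Adj b (I.headD z) ∧ ¬Grid.Wz G.Tb z (I.headD z) := by
  obtain _ | ⟨a, I⟩ := I
  · exact absurd rfl h.2.2.2.1
  · exact ⟨(List.isChain_cons_cons.1 h.1).1, h.2.2.2.2 _ (by simp)⟩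

theorem Grid.Arc.l3_last {G : Grid} {z b e : Pt} {I : List Pt} (h : G.Arc z e I.reverse b) :
    G.Adj b (I.headD z) ∧ ¬Grid.Wz G.Tb z (I.headD z) := by
  obtain _ | ⟨a, I⟩ := I
  · exact absurd rfl h.2.2.2.1
  · refine ⟨Grid.Adj.symm ?_, h.2.2.2.2 _ (by simp)⟩
    have := h.1
    rw [List.reverse_cons, ← List.cons_append, List.append_assoc] at this
    exact (List.isChain_cons_cons.1 this.right_of_append).1

/-- a step from a neighbour of a tube vertex keeps the side -/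
theorem Grid.l3_nb {G : Grid} {z b u v : Pt} (h3 : 3 ≤ G.gap z) (hb : G.Tb z b) (h1 : G.Adj b u)
    (h : G.Adj u v) (hu : ¬Grid.Wz G.Tb z u) (hv : ¬Grid.Wz G.Tb z v) :
    G.Rt z 4 u ↔ G.Rt z 4 v := by
  have a1 := (Grid.tubeOK G).lev z b hb
  have a2 := h1.lev
  have key : ∀ j, 3 ≤ j → j ≤ 4 → u ≠ G.nb z j := fun j a c e =>
    a1.2 (Grid.up_eq a (by omega) (e ▸ h1.symm) a1.1)
  have e0 : G.lr (G.nb z 4) 0 = G.A z.1 (z.2 - 1) + 2 := by
    rw [Grid.lr, G.nb_ch z (by omega) (by omega)]; simp only; omega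
  constructor <;> intro a <;> by_contra c
  · obtain ⟨i, -, e | e⟩ := (Grid.tubeOK G).cross (g := 4) (by omega) (by omega) h.symm hv hu c a
    · obtain rfl : i = 0 := by rw [e] at a2; simp only [Grid.la] at a2; omega
      exact key 4 (by omega) le_rfl (by
        rw [e, Grid.la, e0, G.nb_ch z (by omega) (by omega)]; congr 1; omega)
    · rw [e] at a2; simp only [Grid.la] at a2; omega
  · obtain ⟨i, e, -⟩ := (Grid.tubeOK G).cross (g := 4) (by omega) (by omega) h hu hv c a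
    obtain rfl : i = 0 := by rw [e] at a2; simp only [Grid.mu] at a2; omega
    exact key 3 le_rfl (by omega) (by
      rw [e, Grid.mu, e0, G.nb_ch z (by omega) (by omega)]; congr 1; omega)

namespace Sc
variable (X : Sc)

/-- the event of an arc; the domain matters only for bond -/
def AF (s : Ak) (ω : Cf) : Prop :=
  (X.m = false → ∀ v ∈ s.z :: s.b :: s.I ++ [s.e], v ∈ X.G.Hs X.y (X.N + 3)) ∧
  ∀ i ≤ s.I.length, (s.eo i → X.Op ω (s.so i).1 (s.so i).2) ∧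
    (s.ee i → 1 ≤ i → X.G.Adj (s.A (i - 1)) (s.A (i + 1)) →
      X.m = false ∧ ¬X.Op ω (s.se i).1 (s.se i).2) ∧
    (s.el i → X.G.Adj s.z (s.A i) → X.m = false ∧ ¬X.Op ω (s.sl i).1 (s.sl i).2)

/-- the keys of a marked arc -/
def mk3 (z bL : Pt) (I : List Pt) (bR : Pt) (x : ℕ × ℕ) : Ak :=
  ⟨z, bL, I, bR, fun i => i ≠ x.1 ∧ (X.m = true → i + x.1 + 1 ≠ x.2 + x.2),
    fun i => 1 ≤ i ∧ i ≤ I.length ∧ i ≠ x.2 ∧ (X.m = false → i ≠ x.1 ∧ i ≠ x.1 + 1) ∧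
      (bL = z → i ≠ 1) ∧ (bR = z → i ≠ I.length),
    fun i => X.m = true ∧ i ≠ x.2 ∧
      ((bL = z ∧ 2 ≤ i ∧ i ≤ x.1) ∨ (bR = z ∧ x.1 < i ∧ i < I.length)),
    (· < x.1), (· < x.1), True⟩

open Classical in
/-- the stop dart of a marked arc -/
noncomputable def dar (bL : Pt) (I : List Pt) (bR : Pt) (x : ℕ × ℕ) : Pt × Pt :=
  (Grid.vx bL I bR (if (X.m = true ↔ x.2 = x.1) then x.2 - 1 else x.2 + 1), Grid.vx bL I bR x.2)

noncomputable def phi (κ : ℝ≥0∞) (z bL : Pt) (I : List Pt) (bR : Pt) (x : ℕ × ℕ) : ℝ≥0∞ :=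
  ind (X.G.MA X.nm z bL I bR x.1 x.2) * ((ind (X.G.Pk X.k z bL I bR x.1) +
    κ * ind (X.G.Al X.k z bL I bR x.1)) * X.G.wF X.nm z bL I bR x.1 x.2)

/-- the class of marked arcs -/
def Cl3 (z bL : Pt) (I : List Pt) (bR : Pt) (x : ℕ × ℕ) : Prop :=
  X.G.MA X.nm z bL I bR x.1 x.2 ∧ (X.G.Pk X.k z bL I bR x.1 ∨ X.G.Al X.k z bL I bR x.1) ∧
    Grid.Wz X.G.Tb z bL ∧ Grid.Wz X.G.Tb z bR

/-- `v` is reached off `S`, the arc and `e`; site: `e` is open if it differs from `b` -/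
def Ev (z bL : Pt) (I : List Pt) (bR : Pt) (x : ℕ × ℕ) (S : Set Pt) (v b e : Pt) (ω : Cf) : Prop :=
  (X.Cl3 z bL I bR x ∧ Grid.Wz X.G.Tb z e) ∧
    (X.Rc (X.H \ (S ∪ {u | u ∈ I ∨ (u = e ∧ e ≠ b)})) ω v ∧ X.AF (X.mk3 z bL I bR x) ω) ∧
    (X.m = true → e ≠ b → X.Op ω e e)

/-- the keys of the third arc -/
def mkW (z b : Pt) (K : List Pt) : Ak := ⟨z, b, K, z, fun _ => True, (· < K.length), (· < K.length),
  fun _ => True, fun _ => True, False⟩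

open Classical in
/-- the entrance vertex different from `g` -/
noncomputable def oth (z g : Pt) : Pt :=
  if X.G.yv z false = g then X.G.yv z true else X.G.yv z false

/-- the third arc -/
def Th (z : Pt) (I : List Pt) (b g : Pt) (ω : Cf) : Prop := X.Op ω (X.oth z g) z ∨
  ∃ y : Pt × List Pt, (X.G.Tb z y.1 ∧ X.G.Arc z y.1 y.2 z ∧ ∀ u ∈ y.2, u ∉ I) ∧
    X.Rc (X.H \ ({z} ∪ {u | u ∈ I ∨ u ∈ y.2})) ω b ∧ X.AE (mkW z y.1 y.2) ω

variable {X} {E : Cf → Prop} {s : Ak} {d : Pt × Pt} {F F' S : Set Pt} {z bL bR v b e g : Pt}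
  {I : List Pt} {x : ℕ × ℕ}

theorem forceF (h : s.OK X.m) (hE : ∀ d, X.Used s d → X.Nb E d) :
    (X.Pr fun ω => E ω ∧ X.AF s ω) ≤ X.Pr E * X.G.wt X.nm s.z s.b s.I s.e s.eo s.ee s.el := by
  classical
  cases hm : X.m
  · exact (Pr_mono fun ω a => ⟨a.1, a.2.1 hm, a.2.2⟩).trans (force h hE)
  by_cases c : ∃ ω, X.AF s ω
  swap
  · exact le_trans (EX_mono fun ω _ => (ind_of_not fun e => c ⟨ω, e.2⟩).le) (by simp [EX_zero])
  obtain ⟨ω₀, -, c2⟩ := c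
  let T := (Finset.range (s.I.length + 1)).filter s.eo
  have hT : ∀ i, i ∈ T ↔ i ≤ s.I.length ∧ s.eo i := fun i => by simp [T]
  have h1 := EX_force_le (Ω := X.Ω) (f := fun ω => ind (E ω)) X.p1
    (T.image fun i => kk X.m (s.so i).1 (s.so i).2) fun a ha ω => by
      obtain ⟨i, hi, rfl⟩ := Finset.mem_image.1 ha
      exact ind_congr (hE _ ⟨i, ((hT i).1 hi).1, Or.inl ⟨((hT i).1 hi).2, rfl⟩⟩ ω)
  rw [Finset.card_image_of_injOn fun i hi j hj e =>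
    h.oo ((hT i).1 hi).1 ((hT j).1 hj).1 ((hT i).1 hi).2 ((hT j).1 hj).2 e, mul_comm] at h1
  refine le_trans (EX_mono fun ω _ => ?_) (h1.trans (mul_le_mul_right (le_of_eq ?_) _))
  · rw [← ind_and]
    refine ind_mono fun e => ⟨Finset.image_subset_iff.2 fun i hi => ?_, e.1⟩
    exact (e.2.2 i ((hT i).1 hi).1).1 ((hT i).1 hi).2
  · rw [← Finset.prod_const, Finset.prod_filter, Grid.wt]
    refine Finset.prod_congr rfl fun i hi => ?_
    have c3 := c2 i (by simpa [Nat.lt_succ_iff] using hi)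
    have n1 : ¬(s.ee i ∧ 1 ≤ i ∧ X.G.Adj (Grid.vx s.b s.I s.e (i - 1)) (Grid.vx s.b s.I s.e (i + 1))) :=
      fun a => by simpa [hm] using (c3.2.1 a.1 a.2.1 a.2.2).1
    have n2 : ¬(s.el i ∧ X.G.Adj s.z (Grid.vx s.b s.I s.e i)) :=
      fun a => by simpa [hm] using (c3.2.2 a.1 a.2).1
    rw [if_neg n1, if_neg n2, mul_one, mul_one]
    exact if_congr Iff.rfl rfl rfl

theorem nb_af (h : ∀ d', X.Used s d' → d.2 ≠ d'.2) : X.Nb (X.AF s) d := by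
  refine fun ω => and_congr_right fun _ => forall₂_congr fun i hi => and_congr ?_ (and_congr ?_ ?_)
  · exact forall_congr' fun a => nb_op (Or.inl (h _ ⟨i, hi, Or.inl ⟨a, rfl⟩⟩)) ω
  · exact forall₃_congr fun a b c => and_congr_right fun e =>
      not_congr (nb_op (Or.inl (h _ ⟨i, hi, Or.inr (Or.inl ⟨e, a, b, c, rfl⟩)⟩)) ω)
  · exact forall₂_congr fun a b => and_congr_right fun e =>
      not_congr (nb_op (Or.inl (h _ ⟨i, hi, Or.inr (Or.inr ⟨e, a, b, rfl⟩)⟩)) ω)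

theorem Ex.gap (hz : X.Ex z) : 3 ≤ X.G.gap z := Grid.gap_ge X.h7 hz.2

theorem Ex.lev1 (hz : X.Ex z) : 1 ≤ z.1 := by
  have := hz.1.1.1
  rw [o, Grid.rt_lev] at this
  omega

theorem Cl3.ok (hz : X.Ex z) (h : X.Cl3 z bL I bR x) : (X.mk3 z bL I bR x).OK X.m := by
  obtain ⟨⟨⟨a1, a2, a3, a4, a5⟩, h2, h3, h4, h5, h6, h7⟩, -, hL, hR⟩ := h
  replace h3 := Grid.l3_rt hz.gap h3
  have l2 : 2 ≤ I.length := by
    obtain _ | ⟨a, _ | ⟨b, I⟩⟩ := I
    · exact absurd rfl a4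
    · exact absurd h3 h2
    · simp
  have l4 : X.G.Tb z bL → bL = bR → 4 ≤ I.length := fun c e => by
    subst e
    obtain _ | ⟨a, _ | ⟨b, _ | ⟨u, _ | ⟨v, I⟩⟩⟩⟩ := I
    · simp at l2
    · simp at l2
    · simp only [List.cons_append, List.isChain_cons_cons] at a1
      exact absurd ((Grid.l3_nb hz.gap c a1.1 a1.2.1 (a5 _ (by simp)) (a5 _ (by simp))).2 h3) h2
    · simp only [List.cons_append, List.nil_append, List.isChain_cons_cons] at a1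
      exact absurd ((Grid.l3_nb hz.gap c a1.1 a1.2.1 (a5 _ (by simp)) (a5 _ (by simp))).2
        ((Grid.l3_nb hz.gap c a1.2.2.2.1.symm a1.2.2.1.symm (a5 _ (by simp)) (a5 _ (by simp))).1
          h3)) h2
    · simp
  refine ⟨a2, fun a => a5 _ a hL, a3, Or.inl fun a => a5 _ a (Or.inl rfl),
    fun e => ⟨l2, fun a => Nat.pos_of_ne_zero a.1.symm, fun i a => ?_⟩,
    fun e => Or.inr ?_, fun e => Or.inr ?_, fun _ i _ a b => ?_⟩
  · rcases hL with c | c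
    · exact Or.inr ⟨lt_of_le_of_ne a.1 (a.2.2.2.2.1 c).symm,
        lt_of_le_of_ne a.2.1 (a.2.2.2.2.2 (e.symm.trans c))⟩
    · exact Or.inl (l4 c e)
  · rintro i (⟨a, b, c | c⟩ | a) rfl
    · omega
    · refine (h7 a).2.2.1 ?_
      rw [show x.1 = 0 by omega]
      exact e
    · exact a.2.2.2.2.1 e rfl
  · rintro i (⟨a, b, c | c⟩ | a) rfl
    · refine (h7 a).2.2.2 ?_
      rw [show x.1 = I.length from le_antisymm h4 c.2.2]
      exact (Ak.A_last (s := X.mk3 z bL I bR x)).trans e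
    · exact absurd c.2.2 (lt_irrefl _)
    · exact a.2.2.2.2.2 e rfl
  · exact lt_of_le_of_ne b a.1

theorem Cl3.head (h : X.Cl3 z bL I bR x) (hd : X.Used (X.mk3 z bL I bR x) d) : d.2 ∈ I := by
  have h4 : x.1 ≤ I.length := h.1.2.2.2.1
  obtain ⟨i, hi, ⟨a, rfl⟩ | ⟨m, a, b, -, rfl⟩ | ⟨m, a, -⟩⟩ := hd
  · have a1 : i ≠ x.1 := a.1
    rcases Ak.so_cases (s := X.mk3 z bL I bR x) i with ⟨c, e⟩ | ⟨c, e⟩ <;> rw [e]
    · exact Ak.A_mem (s := X.mk3 z bL I bR x) (by omega) (lt_of_lt_of_le c h4)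
    · exact Ak.A_mem (s := X.mk3 z bL I bR x) (by simp only [mk3] at c; omega) hi
  · have a1 : i ≠ x.1 ∧ i ≠ x.1 + 1 := a.2.2.2.1 m
    rcases Ak.se_cases (s := X.mk3 z bL I bR x) i with ⟨c, e⟩ | ⟨c, e⟩ <;> rw [e]
    · exact Ak.A_mem (s := X.mk3 z bL I bR x) (by omega) (lt_of_lt_of_le c h4)
    · exact Ak.A_mem (s := X.mk3 z bL I bR x) (by simp only [mk3] at c; omega) (by omega)
  · exact absurd (a.1.symm.trans m) (by simp)

theorem co_le (hz : X.Ex z) (h : X.Cl3 z bL I bR x) (hF : ∀ u ∈ I, u ∉ F) (hF' : F ⊆ F') :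
    (X.Pr fun ω => X.Rc F ω v ∧ X.AF (X.mk3 z bL I bR x) ω) ≤
      (X.Pr fun ω => X.Rc F' ω v) * X.G.wF X.nm z bL I bR x.1 x.2 := by
  exact (forceF (h.ok hz) fun _ hd => nb_rc (hF _ (h.head hd))).trans
    (mul_le_mul' (Pr_mono fun _ a => a.mono2 hF' le_rfl) (le_of_eq (Grid.l3_wt fun i a c =>
      ⟨fun e => e.2.2, fun e => ⟨a, c, e⟩⟩)))

theorem co_nb (h : X.Cl3 z bL I bR x) (hF : d.2 ∉ F) (hI : d.2 ∉ I) :
    X.Nb (fun ω => X.Rc F ω v ∧ X.AF (X.mk3 z bL I bR x) ω) d :=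
  (nb_rc hF).and (nb_af fun _ hd e => hI (e ▸ h.head hd))

theorem Cl3.off (h : X.Cl3 z bL I bR x) (he : Grid.Wz X.G.Tb z e) : e ∉ I :=
  fun a => h.1.1.2.2.2.2 _ a he

theorem Cl3.phi (h : X.Cl3 z bL I bR x) :
    X.G.wF X.nm z bL I bR x.1 x.2 ≤ X.phi 1 z bL I bR x := by
  rw [Sc.phi, ind_of h.1, one_mul, one_mul]
  refine le_mul_of_one_le_left' ?_
  rcases h.2.1 with a | a <;> rw [ind_of a]
  exacts [le_self_add, le_add_self]

theorem Pr_of {A : Prop} {c : ℝ≥0∞} (h : A → X.Pr E ≤ c) : (X.Pr fun ω => A ∧ E ω) ≤ c := by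
  rw [Pr_and]
  exact ind_mul_le h

theorem ev_le3 (hz : X.Ex z) : X.Pr (X.Ev z bL I bR x S v b e) ≤
    (X.Pr fun ω => X.Rc (X.H \ S) ω v) * (Grid.oe X.nm b e * X.phi 1 z bL I bR x) := by
  refine Pr_of fun ⟨h, he⟩ => ?_
  have h1 := co_le (v := v) (F := X.H \ (S ∪ {u | u ∈ I ∨ (u = e ∧ e ≠ b)})) (F' := X.H \ S) hz h
    (fun u hu a => a.2 (Or.inr (Or.inl hu))) fun u a => ⟨a.1, fun c => a.2 (Or.inl c)⟩
  replace h1 := h1.trans (mul_le_mul_right h.phi _)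
  by_cases c : X.nm.m = true ∧ e ≠ b
  · rw [Grid.oe, if_pos c, mul_comm, mul_assoc, mul_comm]
    refine (Pr_mono fun ω a => ⟨a.1, a.2 c.1 c.2⟩).trans ((force_one (co_nb h
      (fun a => a.2 (Or.inr (Or.inr ⟨rfl, c.2⟩))) (h.off he))).trans ?_)
    rw [mul_comm (X.phi _ _ _ _ _ _)]
    exact mul_le_mul_left h1 _
  · rw [Grid.oe, if_neg c, one_mul]
    exact (Pr_mono fun ω a => a.1).trans h1

theorem evk_le (hz : X.Ex z) (hb : X.G.Tb z b) : (X.Pr fun ω => X.Ev z bL I bR x {z} b b z ω ∧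
      (X.m = false → ¬X.G.Pk X.k z bL I bR x.1 → X.Th z I b g ω)) ≤
    (X.Pr fun ω => X.Rc (X.H \ {z}) ω b) *
      (Grid.oe X.nm z (X.G.cv z) * X.phi (X.G.kap X.nm z) z bL I bR x) := by
  have hbz : z ≠ b := (X.G.tubeOK.lev _ _ hb).2.symm
  have hc : X.G.cv z ≠ z :=
    (Grid.adj_nb hz.lev1 (by have := X.G.seven_le z; omega)).ne.symm
  have e1 : Grid.oe X.nm b z = Grid.oe X.nm z (X.G.cv z) := by simp [Grid.oe, hbz, hc]
  by_cases c : X.m = true ∨ X.G.Pk X.k z bL I bR x.1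
  · refine (Pr_mono fun ω a => a.1).trans ((ev_le3 hz).trans (le_of_eq ?_))
    rw [e1]
    congr 2
    rcases c with c | c
    · rw [Grid.kap, if_pos (show X.nm.m = true from c)]
    · simp only [phi, ind_of_not (A := X.G.Al X.k z bL I bR x.1) fun a => a.1 c, mul_zero]
  have hm : X.m = false := by simpa using fun a => c (Or.inl a)
  have hp : ¬X.G.Pk X.k z bL I bR x.1 := fun a => c (Or.inr a)
  refine (Pr_mono (E' := fun ω => X.Cl3 z bL I bR x ∧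
    ((X.Rc (X.H \ ({z} ∪ {u | u ∈ I ∨ (u = z ∧ z ≠ b)})) ω b ∧ X.AF (X.mk3 z bL I bR x) ω) ∧
      X.Th z I b g ω)) fun ω a => ⟨a.1.1.1, a.1.2.1, a.2 hm hp⟩).trans (Pr_of fun h => ?_)
  have hzI := h.off (Or.inl rfl)
  rw [phi, ind_of h.1, ind_of_not hp, ind_of (h.2.1.resolve_left hp), Grid.oe,
    if_neg (by simp [nm, hm]), Grid.kap, if_neg (by simp [nm, hm]), one_mul, one_mul, zero_add,
    mul_one, mul_comm (_ + _), ← mul_assoc, mul_add, Grid.sT, ← ENNReal.tsum_mul_left]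
  refine (Pr_mono (E' := fun ω =>
    ((X.Rc (X.H \ ({z} ∪ {u | u ∈ I ∨ (u = z ∧ z ≠ b)})) ω b ∧ X.AF (X.mk3 z bL I bR x) ω) ∧
      X.Op ω (X.oth z g) z) ∨ ∃ y : Pt × List Pt,
      (X.G.Tb z y.1 ∧ X.G.Arc z y.1 y.2 z ∧ ∀ u ∈ y.2, u ∉ I) ∧
      (X.Rc (X.H \ ({z} ∪ {u | u ∈ I ∨ u ∈ y.2})) ω b ∧ X.AF (X.mk3 z bL I bR x) ω) ∧
      X.AE (mkW z y.1 y.2) ω) fun ω a => a.2.imp (fun c => ⟨a.1, c⟩)
        fun ⟨y, c1, c2, c3⟩ => ⟨y, c1, ⟨c2, a.1.2⟩, c3⟩).trans (Pr_or.trans (add_le_add ?_ ?_))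
  · refine (force_one (co_nb h (fun a => a.2 (Or.inl rfl)) hzI)).trans (mul_le_mul_left ?_ _)
    exact co_le hz h (fun u hu a => a.2 (Or.inr (Or.inl hu))) fun u a => ⟨a.1, fun c => a.2 (Or.inl c)⟩
  refine (Pr_ex _).trans (ENNReal.tsum_le_tsum fun y => Pr_of fun ⟨c1, c2, c3⟩ => ?_)
  have hy : y.1 ≠ z := (X.G.tubeOK.lev _ _ c1).2
  have hk : (mkW z y.1 y.2).OK X.m := ⟨c2.2.1, fun a => c2.2.2.2.2 _ a (Or.inr c1), c2.2.2.1,
    Or.inl c2.2.2.1, fun a => absurd a hy, fun a => absurd a hy,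
    fun _ => Or.inr fun i a => (a.elim id id).ne, fun _ _ _ _ _ => trivial⟩
  rw [ind_of c1, Grid.fW, ind_of c2, Option.elim, one_mul, one_mul, one_mul]
  refine (force hk fun d hd => ?_).trans (mul_le_mul_left ?_ _)
  · have : d.2 ∈ y.2 ∨ d.2 = z := by
      rcases hd.head with a | ⟨-, a | a | a⟩ | ⟨a, -⟩ | ⟨a, -⟩
      exacts [Or.inl a, absurd trivial a.2, absurd trivial a.2, a.2.elim, Or.inr a, Or.inr a]
    exact co_nb h (fun a => a.2 (this.elim (fun c => Or.inr (Or.inr c)) Or.inl))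
      (this.elim (c3 _) fun c => c ▸ hzI)
  · exact co_le hz h (fun u hu a => a.2 (Or.inr (Or.inl hu))) fun u a => ⟨a.1, fun c => a.2 (Or.inl c)⟩

/-- summation over one class -/
theorem cls {ι : Type} (bL : ι → Pt) (I : ι → List Pt) (bR : ι → Pt) (E : ι → ℕ × ℕ → Cf → Prop)
    (c : ι → ℝ≥0∞) (κ : ℝ≥0∞)
    (h : ∀ i x, X.Pr (E i x) ≤ c i * X.phi κ z (bL i) (I i) (bR i) x) :
    ∑' d, (X.Pr fun ω => ∃ i x, X.dar (bL i) (I i) (bR i) x = d ∧ E i x ω) ≤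
      ∑' i, c i * X.G.fF X.k X.nm κ z (bL i) (I i) (bR i) := by
  refine (Pr_sum (fun y : ι × ℕ × ℕ => E y.1 y.2) (fun y => X.dar (bL y.1) (I y.1) (bR y.1) y.2) _
    fun d ω ⟨i, x, a⟩ => ⟨(i, x), a⟩).trans ?_
  rw [ENNReal.tsum_prod']
  refine ENNReal.tsum_le_tsum fun i => ?_
  rw [Grid.fF, ← ENNReal.tsum_mul_left]
  exact ENNReal.tsum_le_tsum fun x => h i x

end Sc
end Pool.Agent.P.MP_e4ac67_pr.Gr
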