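import Pool.Agent.P.MP_e4ac67_pr.V.L3a
import Pool.Agent.P.MP_e4ac67_pr.A.Arc

/-! Marked arcs: lists and sides. -/

namespace Pool.Agent.P.MP_e4ac67_pr.Gr

section lists
variable {α : Type} {B B1 B2 st I I1 I2 r r1 r2 : List α} {top b b1 b2 z : α}

theorem l3_tri (h : B ++ top :: st = I ++ b :: r) :
    (∃ C, B = I ++ b :: C ∧ r = C ++ top :: st) ∨ (B = I ∧ b = top ∧ r = st) ∨
      ∃ C, I = B ++ top :: C ∧ st = C ++ b :: r := by
  rcases List.append_eq_append_iff.1 h with ⟨_ | ⟨a, C⟩, h1, h2⟩ | ⟨_ | ⟨a, C⟩, h1, h2⟩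
  · exact Or.inr (Or.inl ⟨by simpa using h1.symm, (List.cons.inj h2).1.symm, (List.cons.inj h2).2.symm⟩)
  · exact Or.inr (Or.inr ⟨C, (List.cons.inj h2).1 ▸ h1, (List.cons.inj h2).2⟩)
  · exact Or.inr (Or.inl ⟨by simpa using h1, (List.cons.inj h2).1, (List.cons.inj h2).2⟩)
  · exact Or.inl ⟨C, (List.cons.inj h2).1 ▸ h1, (List.cons.inj h2).2⟩

/-- the end `b` is charged -/
def L3T (z top : α) (st : List α) (b : α) (r I : List α) (b' : α) (r' I' : List α) : Prop :=
  z ∉ b :: r ∧ (∀ v ∈ b :: r, v ∉ I') ∧ (b' ≠ b → b' ∉ b :: r ∧ top :: st <:+ r') ∧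
    (b' = z → top ∈ I ∧ ∃ C, r' = C ++ top :: st ∧ ∀ v ∈ C, v ∉ b :: r)

theorem l3_place (W : α → Prop) (nd : (B1 ++ B2 ++ top :: st).Nodup)
    (e1 : B1 ++ top :: st = I1 ++ b1 :: r1) (e2 : B2 ++ top :: st = I2 ++ b2 :: r2)
    (w1 : W b1) (w2 : W b2) (n1 : ∀ v ∈ I1, ¬W v) (n2 : ∀ v ∈ I2, ¬W v)
    (hd : ∀ v ∈ I1, v ∉ I2) (hz : z ∉ st) :
    (b1 = z ∧ ∀ v ∈ b1 :: r1, v ∉ I2) ∨ (b2 = z ∧ ∀ v ∈ b2 :: r2, v ∉ I1) ∨
    (b1 ≠ z ∧ b2 ≠ z ∧ top = z ∧ top :: st <:+ r2 ∧ ∀ v ∈ top :: st, v ∉ I1 ∧ v ∉ I2 ∧ v ≠ b2) ∨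
    L3T z top st b1 r1 I1 b2 r2 I2 ∨ L3T z top st b2 r2 I2 b1 r1 I1 := by
  have d1 : ∀ v ∈ B1, v ∉ B2 ∧ v ≠ top ∧ v ∉ st := fun v hv => by
    have := List.disjoint_of_nodup_append (List.append_assoc _ _ _ ▸ nd) hv
    simpa using this
  have d2 : ∀ v ∈ B2, v ≠ top ∧ v ∉ st := fun v hv => by
    have := List.disjoint_of_nodup_append nd (List.mem_append_right _ hv)
    simpa using this
  clear nd
  unfold L3T
  rcases l3_tri e1 with ⟨C1, rfl, rfl⟩ | ⟨rfl, rfl, rfl⟩ | ⟨C1, rfl, a1⟩ <;>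
    rcases l3_tri e2 with ⟨C2, rfl, a2⟩ | ⟨rfl, a2, a3⟩ | ⟨C2, rfl, a2⟩
  · subst a2
    by_cases c1 : b1 = z
    · exact Or.inl ⟨c1, by grind⟩
    by_cases c2 : b2 = z
    · exact Or.inr (Or.inl ⟨c2, by grind⟩)
    by_cases c3 : top = z
    · exact Or.inr (Or.inr (Or.inl ⟨c1, c2, c3, List.suffix_append _ _, by grind⟩))
    by_cases c4 : z ∈ C1
    · exact Or.inr (Or.inr (Or.inr (Or.inr ⟨by grind, by grind,
        fun _ => ⟨by grind, List.suffix_append _ _⟩, fun a => absurd a c1⟩)))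
    · exact Or.inr (Or.inr (Or.inr (Or.inl ⟨by grind, by grind,
        fun _ => ⟨by grind, List.suffix_append _ _⟩, fun a => absurd a c2⟩)))
  · subst a2 a3
    by_cases c1 : b1 = z
    · exact Or.inl ⟨c1, by grind⟩
    by_cases c2 : b2 = z
    · exact Or.inr (Or.inl ⟨c2, by grind⟩)
    · exact Or.inr (Or.inr (Or.inr (Or.inr ⟨by grind, by grind,
        fun _ => ⟨by grind, List.suffix_append _ _⟩, fun a => absurd a c1⟩)))
  · subst a2
    exact Or.inr (Or.inr (Or.inr (Or.inr ⟨by grind, by grind,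
      fun _ => ⟨by grind, List.suffix_append _ _⟩, fun _ => ⟨by simp, C1, rfl, fun v hv a =>
        (d1 v (by simp [hv])).2.2 (List.mem_append_right _ a)⟩⟩)))
  · subst a2
    by_cases c1 : b1 = z
    · exact Or.inl ⟨c1, by grind⟩
    by_cases c2 : b2 = z
    · exact Or.inr (Or.inl ⟨c2, by grind⟩)
    · exact Or.inr (Or.inr (Or.inr (Or.inl ⟨by grind, by grind,
        fun _ => ⟨by grind, List.suffix_append _ _⟩, fun a => absurd a c2⟩)))
  · subst a2 a3
    by_cases c1 : b2 = z
    · exact Or.inl ⟨c1, by grind⟩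
    · exact Or.inr (Or.inr (Or.inr (Or.inl ⟨by grind, by grind,
        fun a => absurd rfl a, fun a => absurd a c1⟩)))
  · exact absurd w1 (n2 _ (by simp))
  · subst a1 a2
    exact Or.inr (Or.inr (Or.inr (Or.inl ⟨by grind, by grind,
      fun _ => ⟨by grind, List.suffix_append _ _⟩, fun _ => ⟨by simp, C2, rfl, fun v hv a =>
        (d2 v (by simp [hv])).2 (List.mem_append_right _ a)⟩⟩)))
  · exact absurd (a2 ▸ w2) (n1 _ (by simp))
  · exact absurd (by simp) (hd top (by simp))

theorem l3_suf {A w : List α} (nd : (A ++ z :: r).Nodup) (h : z :: w <:+ A ++ z :: r) : w = r := by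
  have h1 := List.nodup_cons.1 nd.of_append_right
  have h2 := List.nodup_cons.1 (nd.sublist h.sublist)
  rcases List.suffix_or_suffix_of_suffix h (List.suffix_append A _) with e | e <;>
    rcases List.suffix_cons_iff.1 e with e | e
  · exact (List.cons.inj e).2
  · exact absurd (e.subset List.mem_cons_self) h1.1
  · exact (List.cons.inj e).2.symm
  · exact absurd (e.subset List.mem_cons_self) h2.1

theorem l3_split (P : α → Prop) {l : List α} (h : ∃ a ∈ l, P a) :
    ∃ A b r, l = A ++ b :: r ∧ P b ∧ ∀ v ∈ r, ¬P v := by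
  induction l with
  | nil => simp at h
  | cons a l ih =>
    by_cases k : ∃ a ∈ l, P a
    · obtain ⟨A, b, r, rfl, h'⟩ := ih k
      exact ⟨a :: A, b, r, rfl, h'⟩
    · obtain ⟨x, hx, hP⟩ := h
      rcases List.mem_cons.1 hx with rfl | hx
      · exact ⟨[], x, l, rfl, hP, fun v hv q => k ⟨v, hv, q⟩⟩
      · exact absurd ⟨x, hx, hP⟩ k

theorem l3_erase {R : α → α → Prop} {l : List α} (h : l.IsChain R) {i : ℕ} (hi : i + 2 < l.length)
    (hr : R l[i] l[i + 2]) : (l.eraseIdx (i + 1)).IsChain R := by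
  induction l generalizing i with
  | nil => simp at hi
  | cons a l ih =>
    obtain _ | ⟨b, _ | ⟨c, l⟩⟩ := l
    · simp at hi
    · simp at hi
    obtain _ | i := i
    · exact List.isChain_cons_cons.2 ⟨hr, h.tail.tail⟩
    · exact List.isChain_cons_cons.2 ⟨(List.isChain_cons_cons.1 h).1,
        ih h.tail (by simpa using hi) hr⟩

end lists

/-- the inner vertex next to the end `b` may change, but not its side -/
def Sm (G : Grid) (z b f f' : Pt) : Prop :=
  (b = z → f = f') ∧ (G.Rt z 4 f ↔ G.Rt z 4 f') ∧ (G.Rt z 5 f ↔ G.Rt z 5 f')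

theorem Sm.rfl' {G : Grid} {z b f f' : Pt} (h : f = f') : Sm G z b f f' :=
  ⟨fun _ => h, h ▸ Iff.rfl, h ▸ Iff.rfl⟩

theorem Sm.ear {G : Grid} {z b u v : Pt} (h3 : 3 ≤ G.gap z) (hb : Grid.Wz G.Tb z b) (hz : b ≠ z)
    (h : G.Adj u v) (hu : ¬Grid.Wz G.Tb z u) (hv : ¬Grid.Wz G.Tb z v) (bu : G.Adj b u)
    (bv : G.Adj b v) : Sm G z b u v :=
  ⟨fun a => absurd a hz, Grid.side_ear le_rfl (by omega) h3 (hb.resolve_left hz) h hu hv bu bv,
    Grid.side_ear (by omega) le_rfl h3 (hb.resolve_left hz) h hu hv bu bv⟩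

theorem Sm.trans {G : Grid} {z b u v w : Pt} (h : Sm G z b u v) (k : Sm G z b v w) : Sm G z b u w :=
  ⟨fun a => (h.1 a).trans (k.1 a), h.2.1.trans k.2.1, h.2.2.trans k.2.2⟩

theorem l3_end {z : Pt} {J J' : List Pt} (h : J ≠ []) : (J.reverse ++ J').headD z = J.getLastD z := by
  obtain ⟨J, a, rfl⟩ := (List.eq_nil_or_concat' J).resolve_left h
  simp

theorem Sm.end' {G : Grid} {z b : Pt} {I J I' J' : List Pt} (h1 : J.head? = I.head?)
    (h2 : J'.head? = I'.head?) (h : Sm G z b (J.getLastD z) (I.getLastD z)) :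
    Sm G z b ((J.reverse ++ J').headD z) ((I.reverse ++ I').headD z) := by
  obtain _ | ⟨a, I⟩ := I <;> obtain _ | ⟨c, J⟩ := J
  · exact .rfl' (by simp [List.headD_eq_head?_getD, h2])
  · simp at h1
  · simp at h1
  · rwa [l3_end (by simp), l3_end (by simp)]

/-- the vertices of one side, newest first -/
def sc (J : List Pt) (b : Pt) (i : ℕ) : Pt := (J ++ [b]).getD i b

section
variable {J JL JR I r : List Pt} {b bL bR e y : Pt} {i : ℕ}

theorem sc_cons : sc (y :: J) b (i + 1) = sc J b i := rfl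

theorem sc_zero : sc J b 0 = J.headD b := by cases J <;> rfl

theorem sc_lt (h : i < J.length) : sc J b i = J[i] := by
  simp [sc, List.getElem?_append_left h, List.getElem?_eq_getElem h]

theorem sc_mem (h : i < J.length) : sc J b i ∈ J := by
  rw [sc_lt h]; exact List.getElem_mem _

theorem sc_len : sc J b J.length = b := by simp [sc]

theorem sc_get (h : i ≤ J.length) : sc J b i = (J ++ b :: r)[i]'(by simp; omega) := by
  rcases h.lt_or_eq with h | rfl
  · rw [sc_lt h, List.getElem_append_left h]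
  · simp [sc]

theorem sc_last {z : Pt} (h : J.length = i + 1) : J.getLastD z = sc J b i := by
  obtain ⟨J, a, rfl⟩ := (List.eq_nil_or_concat' J).resolve_left (by rintro rfl; simp at h)
  obtain rfl : J.length = i := by simpa using h
  simp [sc]

theorem vx_left (h : i ≤ JL.length) :
    Grid.vx bL (JL.reverse ++ JR) bR i = sc JL bL (JL.length - i) := by
  obtain _ | i := i
  · exact sc_len.symm
  · rw [sc_lt (by omega)]
    simp only [Grid.vx, List.cons_append, List.getD_cons_succ, List.append_assoc]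
    rw [List.getD_append _ _ _ _ (by simp; omega), List.getD_eq_getElem _ _ (by simp; omega),
      List.getElem_reverse]
    congr 1
    omega

theorem vx_right (h : JL.length < i) :
    Grid.vx bL (JL.reverse ++ JR) bR i = sc JR bR (i - JL.length - 1) := by
  obtain ⟨i, rfl⟩ : ∃ j, i = j + 1 := ⟨i - 1, by omega⟩
  simp only [Grid.vx, List.cons_append, List.getD_cons_succ, List.append_assoc]
  rw [List.getD_append_right _ _ _ _ (by simp; omega), sc, List.length_reverse]
  congr 1
  omega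

theorem vx_chain {R : Pt → Pt → Prop} : (b :: I ++ [e]).IsChain R ↔
    ∀ i ≤ I.length, R (Grid.vx b I e i) (Grid.vx b I e (i + 1)) := by
  rw [List.isChain_iff_getElem]
  refine ⟨fun h i hi => ?_, fun h i hi => ?_⟩
  · have a : i + 1 < (b :: I ++ [e]).length := by simp; omega
    unfold Grid.vx
    rw [List.getD_eq_getElem _ _ a, List.getD_eq_getElem _ _ (Nat.lt_of_succ_lt a)]
    exact h i a
  · have := h i (by simp at hi; omega)
    unfold Grid.vx at this
    rwa [List.getD_eq_getElem _ _ hi, List.getD_eq_getElem _ _ (Nat.lt_of_succ_lt hi)] at this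

theorem Indu.suf {G : Grid} {t : Pt} {A w : List Pt} (h : Indu G t (A ++ w)) : Indu G t w := by
  induction A with
  | nil => exact h
  | cons a A ih => exact ih h.2

theorem Indu.get {G : Grid} {t : Pt} {w : List Pt} (h : Indu G t w) {i j : ℕ} (h1 : i + 2 ≤ j)
    (h2 : j < w.length) (h3 : w[j] ≠ t) : ¬G.Adj w[j] w[i] := by
  induction w generalizing i j with
  | nil => simp at h2
  | cons a w ih =>
    obtain ⟨j, rfl⟩ : ∃ j', j = j' + 2 := ⟨j - 2, by omega⟩
    obtain _ | i := i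
    · obtain _ | ⟨c, w⟩ := w
      · simp at h2
      · exact h.1 _ (List.getElem_mem (l := w) (by simpa using h2)) h3
    · exact ih h.2 (j := j + 1) (by omega) (by simp at h2; omega) h3

end

namespace Sc
variable (X : Sc)

/-- one side of a marked arc; `fy`: the newest vertex is the head of the stop dart (site) -/
structure Sd (z : Pt) (ω : Cf) (fy : Prop) (J : List Pt) (b : Pt) : Prop where
  step : ∀ i < J.length, X.G.Adj (sc J b (i + 1)) (sc J b i) ∧
    (¬(fy ∧ i = 0) → X.Op ω (sc J b (i + 1)) (sc J b i))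
  ear : ∀ i, i + 2 ≤ J.length → (b = z → i + 2 < J.length) → X.G.Adj (sc J b (i + 2)) (sc J b i) →
    X.m = false ∧ ¬X.Op ω (sc J b (i + 2)) (sc J b i)
  spoke : X.m = true → b = z → ∀ i, i + 1 < J.length → ¬(fy ∧ i = 0) → ¬X.G.Adj z (sc J b i)
  dom : X.m = false → ∀ v ∈ J ++ [b], v ∈ X.H

variable {X} {z b bL bR y : Pt} {ω : Cf} {fy fy' : Prop} {A J JL JR I r : List Pt} {j : ℕ}

theorem Sd.mono (h : X.Sd z ω fy J b) (hf : fy → fy') : X.Sd z ω fy' J b :=
  ⟨fun i hi => ⟨(h.step i hi).1, fun a => (h.step i hi).2 fun c => a ⟨hf c.1, c.2⟩⟩, h.ear,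
    fun a c i hi e => h.spoke a c i hi fun c => e ⟨hf c.1, c.2⟩, h.dom⟩

theorem OP.ne (h : X.OP ω (A ++ r)) (ht : X.t0 ∈ r) {v : Pt} (hv : v ∈ A) : v ≠ X.t0 :=
  fun e => List.disjoint_of_nodup_append h.nd hv (e ▸ ht)

theorem OP.chn (h : X.OP ω (A ++ r)) (ht : X.t0 ∈ r) :
    A.IsChain fun u v => X.G.Adj v u ∧ X.Op ω v u := by
  have h1 := h.ch.left_of_append
  rw [List.isChain_iff_getElem] at h1 ⊢
  exact fun i hi => ⟨(h1 i hi).1, (h1 i hi).2 (h.ne ht (List.getElem_mem _))⟩

theorem sc_step {R : Pt → Pt → Prop} (h : (J ++ [b]).IsChain R) {i : ℕ} (hi : i < J.length) :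
    R (sc J b i) (sc J b (i + 1)) := by
  rw [sc_get (r := []) hi.le, sc_get (r := []) hi]
  exact List.isChain_iff_getElem.1 h i _

theorem sd_bond (h3 : 3 ≤ X.G.gap z) (hm : X.m = false) (h : X.OP ω (I ++ b :: r)) (ht : X.t0 ∈ r)
    (hb : Grid.Wz X.G.Tb z b) (hI : ∀ v ∈ I, ¬Grid.Wz X.G.Tb z v) :
    ∃ J, J.Sublist I ∧ J.head? = I.head? ∧ Sm X.G z b (J.getLastD z) (I.getLastD z) ∧
      X.Sd z ω False J b := by
  have h' : X.OP ω ((I ++ [b]) ++ r) := by simpa using h
  have h2 : ∀ v ∈ I ++ [b], v ∈ X.H := fun v hv =>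
    (h'.dom v (List.mem_append_left _ hv)).resolve_right (h'.ne ht hv)
  obtain ⟨J, g1, ⟨g2, g3, g4⟩, g5⟩ := shrink (fun J => ((J ++ [b]).IsChain fun u v =>
    X.G.Adj v u ∧ X.Op ω v u) ∧ J.head? = I.head? ∧ Sm X.G z b (J.getLastD z) (I.getLastD z))
    ⟨h'.chn ht, rfl, .rfl' rfl⟩
  refine ⟨J, g1, g3, g4, fun i hi => ⟨(sc_step g2 hi).1, fun _ => (sc_step g2 hi).2⟩,
    fun i hi hb' c => ⟨hm, fun e => g5 (i + 1) hi ⟨?_, ?_, Sm.trans ?_ g4⟩⟩,
    fun a => by simp [hm] at a, fun _ v hv => h2 v ((g1.append_right _).subset hv)⟩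
  · rw [← List.eraseIdx_append_of_lt_length hi]
    refine l3_erase g2 (by simp; omega) ?_
    rw [← sc_get hi, ← sc_get (by omega)]
    exact ⟨c, e⟩
  · rw [← g3]
    cases J <;> rfl
  · have hl := List.length_eraseIdx_of_lt hi
    have hs : ∀ j, j + 1 < J.length → sc (J.eraseIdx (i + 1)) b j =
        if j < i + 1 then sc J b j else sc J b (j + 1) := fun j a => by
      rw [sc_lt (by omega), List.getElem_eraseIdx]
      split_ifs
      exacts [(sc_lt _).symm, (sc_lt _).symm]
    obtain ⟨n, hn⟩ : ∃ n, J.length = n + 2 := ⟨J.length - 2, by omega⟩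
    rw [sc_last (b := b) (i := n) (by omega), sc_last (b := b) (i := n + 1) hn, hs n (by omega)]
    split_ifs with k
    · obtain rfl : n = i := by omega
      have k1 := (sc_step g2 (i := n + 1) (by omega)).1
      rw [← hn, sc_len] at c k1
      exact .ear h3 hb (fun a => absurd (hb' a) (by omega)) (sc_step g2 (i := n) (by omega)).1.symm
        (hI _ (g1.subset (sc_mem (by omega)))) (hI _ (g1.subset (sc_mem (by omega)))) c k1
    · exact .rfl' rfl

theorem sd_site (hm : X.m = true) (h : X.OP ω (A ++ (J ++ b :: r))) (ht : X.t0 ∈ r) :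
    X.Sd z ω False J b := by
  have h' : X.OP ω ((A ++ (J ++ [b])) ++ r) := by simpa using h
  have h1 := (h'.chn ht).right_of_append
  have h2 : ∀ i j, i + 2 ≤ j → j ≤ J.length → ¬X.G.Adj (sc J b j) (sc J b i) := fun i j a c => by
    have := h'.ne ht (v := sc J b j) (List.mem_append_right _ (by
      rw [sc_get (r := []) c]; exact List.getElem_mem _))
    rw [sc_get (r := r) c] at this ⊢
    rw [sc_get (r := r) (by omega)]
    exact (h.ind hm).suf.get a _ this
  refine ⟨fun i hi => ⟨(sc_step h1 hi).1, fun _ => (sc_step h1 hi).2⟩,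
    fun i hi _ c => absurd c (h2 _ _ le_rfl hi), fun _ e i hi _ => ?_, fun a => by simp [hm] at a⟩
  have := h2 i J.length hi le_rfl
  rw [sc_len] at this
  exact e ▸ this

theorem Sd.cons (hm : X.m = true) (h : X.Sd z ω False J b) (h1 : X.G.Adj (sc J b 0) y)
    (h2 : 1 ≤ J.length → ¬X.G.Adj (sc J b 1) y) : X.Sd z ω True (y :: J) b := by
  refine ⟨fun i hi => ?_, fun i hi hb c => ?_, fun a c i hi e => ?_, fun a => by simp [hm] at a⟩
  · obtain _ | i := i
    · exact ⟨h1, fun a => absurd ⟨trivial, rfl⟩ a⟩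
    · exact ⟨(h.step i (by simpa using hi)).1, fun _ => (h.step i (by simpa using hi)).2 (by simp)⟩
  · obtain _ | i := i
    · exact absurd c (h2 (by simp at hi; omega))
    · exact h.ear i (by simp at hi; omega) (fun a => by have := hb a; simp at this; omega) c
  · obtain _ | i := i
    · exact absurd ⟨trivial, rfl⟩ e
    · exact h.spoke a c i (by simpa using hi) (by simp)

theorem asm_ch (L : X.Sd z ω fy JL bL) (R : X.Sd z ω fy' JR bR)
    (h : X.G.Adj (sc JL bL 0) (sc JR bR 0)) :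
    (bL :: (JL.reverse ++ JR) ++ [bR]).IsChain X.G.Adj := by
  refine vx_chain.2 fun i hi => ?_
  rw [List.length_append, List.length_reverse] at hi
  rcases lt_trichotomy i JL.length with c | rfl | c
  · rw [vx_left c.le, vx_left c, show JL.length - i = JL.length - (i + 1) + 1 by omega]
    exact (L.step _ (by omega)).1
  · rw [vx_left le_rfl, vx_right (by omega)]
    simpa using h
  · rw [vx_right c, vx_right (by omega), show i + 1 - JL.length - 1 = i - JL.length - 1 + 1 by omega]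
    exact (R.step _ (by omega)).1.symm

theorem asm (hz : z ∈ X.H) (L : X.Sd z ω (X.m = true ∧ j = JL.length) JL bL)
    (R : X.Sd z ω (X.m = true ∧ j = JL.length + 1) JR bR) (hj : j = JL.length ∨ j = JL.length + 1)
    (cL : X.m = true → j = JL.length + 1 → 1 ≤ JL.length → (bL = z → 1 < JL.length) →
      ¬X.G.Adj (sc JL bL 1) (sc JR bR 0))
    (cR : X.m = true → j = JL.length → 1 ≤ JR.length → (bR = z → 1 < JR.length) →
      ¬X.G.Adj (sc JR bR 1) (sc JL bL 0)) :
    X.AF (X.mk3 z bL (JL.reverse ++ JR) bR (JL.length, j)) ω := by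
  have hA : ∀ i, (X.mk3 z bL (JL.reverse ++ JR) bR (JL.length, j)).A i =
      Grid.vx bL (JL.reverse ++ JR) bR i := fun _ => rfl
  refine ⟨fun hm v hv => H_sub ?_, fun i hi => ⟨fun a => ?_, fun a _ c => ?_, fun a c => ?_⟩⟩
  · have h1 := L.dom hm v
    have h2 := R.dom hm v
    simp only [mk3, List.cons_append, List.mem_cons, List.mem_append, List.mem_reverse,
      List.not_mem_nil, or_false] at hv h1 h2
    rcases hv with rfl | hv
    exacts [hz, by tauto]
  · simp only [mk3, List.length_append, List.length_reverse] at hi a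
    rcases Ak.so_cases (s := X.mk3 z bL (JL.reverse ++ JR) bR (JL.length, j)) i with
      ⟨c, e⟩ | ⟨c, e⟩ <;> rw [e, hA, hA] <;> simp only [mk3] at c ⊢
    · rw [vx_left c.le, vx_left c, show JL.length - i = JL.length - (i + 1) + 1 by omega]
      exact (L.step _ (by omega)).2 fun e => a.2 e.1.1 (by omega)
    · rw [vx_right (by omega), vx_right (by omega),
        show i + 1 - JL.length - 1 = i - JL.length - 1 + 1 by omega]
      exact (R.step _ (by omega)).2 fun e => a.2 e.1.1 (by omega)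
  · simp only [mk3, List.length_append, List.length_reverse] at hi a
    rw [hA, hA] at c
    rcases Ak.se_cases (s := X.mk3 z bL (JL.reverse ++ JR) bR (JL.length, j)) i with
      ⟨c', e⟩ | ⟨c', e⟩ <;> rw [e, hA, hA] <;> simp only [mk3] at c' ⊢
    · rw [vx_left c', vx_left (by omega),
        show JL.length - (i - 1) = JL.length - (i + 1) + 2 by omega] at c ⊢
      exact L.ear _ (by omega) (fun e => by have := a.2.2.2.2.1 e; omega) c
    by_cases k : JL.length + 1 < i
    · rw [vx_right (i := i + 1) (by omega), vx_right (by omega),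
        show i + 1 - JL.length - 1 = i - 1 - JL.length - 1 + 2 by omega] at c ⊢
      exact R.ear _ (by omega) (fun e => by have := a.2.2.2.2.2 e; omega) c.symm
    have hm : X.m = true := by_contra fun e => by
      have := a.2.2.2.1 (by simpa using e)
      omega
    rcases (by omega : i = JL.length ∨ i = JL.length + 1) with rfl | rfl
    · rw [vx_left (by omega), vx_right (by omega), show JL.length - (JL.length - 1) = 1 by omega,
        show JL.length + 1 - JL.length - 1 = 0 by omega] at c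
      exact absurd c (cL hm (by omega) (by omega) fun e => by have := a.2.2.2.2.1 e; omega)
    · rw [vx_left (by omega), vx_right (by omega), show JL.length - (JL.length + 1 - 1) = 0 by omega,
        show JL.length + 1 + 1 - JL.length - 1 = 1 by omega] at c
      exact absurd c.symm (cR hm (by omega) (by omega) fun e => by have := a.2.2.2.2.2 e; omega)
  · simp only [mk3, List.length_append, List.length_reverse] at hi a
    rw [hA] at c
    rcases a with ⟨hm, a, ⟨e, a1, a2⟩ | ⟨e, a1, a2⟩⟩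
    · rw [vx_left a2] at c
      exact absurd c (L.spoke hm e _ (by omega) fun e => by omega)
    · rw [vx_right a1] at c
      exact absurd c (R.spoke hm e _ (by omega) fun e => by omega)

end Sc
end Pool.Agent.P.MP_e4ac67_pr.Gr
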