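import Pool.Agent.P.MP_e4ac67_pr.V.L3b

/-! Marked arcs: from the raw event to a class. -/

namespace Pool.Agent.P.MP_e4ac67_pr.Gr
open Grid

namespace Grid
variable {G : Grid} {k lo hi : ℕ} {z bL bR : Pt} {IL IR JL JR : List Pt}

theorem Pocket.l3 (h : G.Pocket k z bL IL IR bR lo hi) (hL : JL.Sublist IL) (hR : JR.Sublist IR) :
    G.Pocket k z bL JL JR bR lo hi := by
  obtain ⟨i, h1, h2, h3, h4, h5⟩ := h
  refine ⟨i, h1, h2, mt (hL.subset ·) h3, mt (hR.subset ·) h4, fun e => ?_⟩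
  obtain ⟨a, b, c⟩ := h5 e
  refine ⟨fun x => ?_, fun x => ?_, fun x => c ⟨(hL.cons_cons _).subset x.1, hL.subset x.2.1,
    (hR.cons_cons _).subset x.2.2.1, hR.subset x.2.2.2⟩⟩
  · have := a (hL.subset x)
    exact ⟨this.1, List.sublist_nil.1 (this.2.1 ▸ hR), this.2.2⟩
  · have := b (hR.subset x)
    exact ⟨this.1, List.sublist_nil.1 (this.2.1 ▸ hL), this.2.2⟩

theorem AltL.l3 (h : G.AltL k z bL IL bR lo hi) (hL : JL.Sublist IL) : G.AltL k z bL JL bR lo hi :=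
  ⟨h.1, h.2.1, mt (hL.subset ·) h.2.2.1, fun e => ⟨mt (hL.subset ·) (h.2.2.2 e).1,
    fun a i b c => mt (hL.subset ·) ((h.2.2.2 e).2 a i b c)⟩⟩

theorem AltR.l3 (h : G.AltR k z bL IR bR lo hi) (hR : JR.Sublist IR) : G.AltR k z bL JR bR lo hi :=
  ⟨h.1, h.2.1, mt (hR.subset ·) h.2.2.1, fun e => ⟨mt (hR.subset ·) (h.2.2.2 e).1,
    fun a i b c => mt (hR.subset ·) ((h.2.2.2 e).2 a i b c)⟩⟩

end Grid

namespace Sc
variable {X : Sc} {z g top : Pt} {d : Pt × Pt} {ω : Cf} {L R stem JL JR A C st : List Pt} {j : ℕ}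

theorem core (hz : X.Ex z) (hM : X.G.MA0 X.k z L R stem) {IL IR : List Pt} {bL bR : Pt}
    (eL : itr X.G.Tb z L = IL) (eR : itr X.G.Tb z R = IR) (bL' : bas X.G.Tb z L = bL)
    (bR' : bas X.G.Tb z R = bR) (sL : JL.Sublist IL) (sR : JR.Sublist IR) (nL : IL.Nodup)
    (nR : IR.Nodup) (wL : Wz X.G.Tb z bL) (wR : Wz X.G.Tb z bR)
    (mL : Sm X.G z bL ((JL.reverse ++ JR).headD z) ((IL.reverse ++ IR).headD z))
    (mR : Sm X.G z bR ((JR.reverse ++ JL).headD z) ((IR.reverse ++ IL).headD z))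
    (ch : (bL :: (JL.reverse ++ JR) ++ [bR]).IsChain X.G.Adj) {I : List Pt}
    (eI : I = JL.reverse ++ JR)
    (hj : (j = JL.length ∨ j = JL.length + 1) ∧ vx bL I bR j ≠ z ∧ (X.m = true → 1 ≤ j ∧
      j ≤ I.length ∧ vx bL I bR JL.length ≠ z ∧ vx bL I bR (JL.length + 1) ≠ z)) :
    X.Cl3 z bL I bR (JL.length, j) ∧ (∀ v ∈ IL, v ∉ IR) ∧
    (¬X.G.Pk X.k z bL I bR JL.length → bR = z → ∃ lo hi, X.G.Far X.G.Tb z R stem IL lo hi ∧
      X.G.lk z (X.G.lo X.G.Tb z bL (I.headD z)) ∉ R) ∧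
    (¬X.G.Pk X.k z bL I bR JL.length → bL = z → ∃ lo hi, X.G.Far X.G.Tb z L stem IR lo hi ∧
      X.G.lk z (X.G.hi X.G.Tb z bR (I.getLastD z)) ∉ L) := by
  obtain ⟨f, l, lo, hi, h1, h2, h3, h4, h5⟩ := hM
  rw [eL, eR] at h3 h4
  rw [eL, eR, bL', bR'] at h5
  rw [bL'] at h1
  rw [bR'] at h2
  have oL : ∀ v ∈ JL, ¬Wz X.G.Tb z v := fun v hv => itr_not (eL ▸ sL.subset hv)
  have oR : ∀ v ∈ JR, ¬Wz X.G.Tb z v := fun v hv => itr_not (eR ▸ sR.subset hv)
  have e1 : (IL.reverse ++ IR).headD z = f := by rw [List.headD_eq_head?_getD, h3.fst]; rfl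
  have e2 : (IR.reverse ++ IL).headD z = l := by
    have := h3.lst
    rw [← List.head?_reverse, List.reverse_append, List.reverse_reverse] at this
    rw [List.headD_eq_head?_getD, this]; rfl
  have e3 : I.reverse = JR.reverse ++ JL := by simp [eI]
  have e4 : I.reverse.headD z = I.getLastD z := by
    rw [List.headD_eq_head?_getD, List.head?_reverse, List.getLastD_eq_getLast?]
  rw [e1, ← eI] at mL
  rw [e2, ← e3, e4] at mR
  have e5 : X.G.lo X.G.Tb z bL (I.headD z) = lo := by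
    rw [h1, Grid.lo, Grid.lo]
    split_ifs with c
    exacts [by rw [mL.1 c], rfl, rfl]
  have e6 : X.G.hi X.G.Tb z bR (I.getLastD z) = hi := by
    rw [h2, Grid.hi, Grid.hi]
    split_ifs with c
    exacts [by rw [mR.1 c], rfl, rfl]
  have r1 : ¬X.G.Rt z 4 (I.headD z) := mt mL.2.1.1 h3.left
  have r2 : X.G.Rt z 5 (I.getLastD z) := mR.2.2.2 h3.right
  have oI : ∀ v ∈ I, ¬Wz X.G.Tb z v := fun v hv => by
    rw [eI, List.mem_append, List.mem_reverse] at hv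
    exact hv.elim (oL v) (oR v)
  have hA : X.G.Arc z bL I bR := by
    refine ⟨eI ▸ ch, ?_, fun a => oI _ a wR, ?_, oI⟩
    · rw [eI]
      exact List.nodup_append.2 ⟨List.nodup_reverse.2 (nL.sublist sL), nR.sublist sR,
        fun a ha b hb e => h4 a (sL.subset (List.mem_reverse.1 ha)) (e ▸ sR.subset hb)⟩
    · rintro rfl
      simp [Rt, an] at r2
  have t1 : I.take JL.length = JL.reverse := by rw [eI]; exact List.take_left' (by simp)
  have t2 : I.drop JL.length = JR := by rw [eI]; exact List.drop_left' (by simp)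
  have hp : X.G.Pk X.k z bL I bR JL.length ↔ X.G.Pocket X.k z bL JL JR bR lo hi := by
    rw [Pk, t1, t2, e5, e6, List.reverse_reverse]
  have g3 := hz.gap
  have lo1 := fun c : bL ≠ z => e5 ▸ X.G.tubeOK.lo_def hz.lev1 c (I.headD z)
  have hi1 := fun c : bR ≠ z => e6 ▸ X.G.tubeOK.hi_def hz.lev1 c (I.getLastD z)
  have lh : bL ≠ z ∨ bR ≠ z → lo + 1 < hi := fun c => by
    have a1 : bL = z → lo < 4 := fun e => by
      have k := hA.l3_head
      have := (X.G.tubeOK.left g3 hz.lev1 (e ▸ k.1) k.2 (g := 4) (Or.inl rfl)).2.2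
      rw [← e5, Grid.lo, if_pos e]
      exact not_le.1 (mt this.2 r1)
    have a2 : bR = z → 5 ≤ hi := fun e => by
      have k := Arc.l3_last (I := I.reverse) (by rwa [List.reverse_reverse])
      rw [e4] at k
      have := (X.G.tubeOK.left g3 hz.lev1 (e ▸ k.1) k.2 (g := 5) (Or.inr rfl)).2.2
      rw [← e6, Grid.hi, if_pos e]
      exact this.1 r2
    by_cases c1 : bL = z <;> by_cases c2 : bR = z
    · exact (c.elim (· c1) (· c2)).elim
    · have := hi1 c2; have := a1 c1; omega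
    · have := lo1 c1; have := a2 c2; omega
    · have := lo1 c1; have := hi1 c2; omega
  rw [hp, e5, e6]
  refine ⟨⟨⟨hA, r1, r2, by simp [eI], hj⟩, ?_, wL, wR⟩, h4, fun c e => ?_, fun c e => ?_⟩
  · refine or_iff_not_imp_left.2 fun c => ⟨c, ?_⟩
    simp only [t1, t2, e5, e6, List.reverse_reverse, List.mem_reverse]
    rcases h5 with a | a | a
    · exact absurd (hp.2 (a.l3 sL sR)) c
    · have k : Wz X.G.Tb z _ := Or.inr (lo1 a.1.1).2.1
      exact Or.inl ⟨a.1.l3 sL, (a.1.l3 sL).visit (mt hp.2 c) (lh (Or.inl a.1.1))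
        (fun e => oL _ e k) fun e => oR _ e k⟩
    · have k : Wz X.G.Tb z _ := Or.inr (hi1 a.1.1).2.2.1
      exact Or.inr ⟨a.1.l3 sR, (a.1.l3 sR).visit (mt hp.2 c) (lh (Or.inr a.1.1))
        (fun e => oL _ e k) fun e => oR _ e k⟩
  · rcases h5 with a | a | a
    · exact absurd (a.l3 sL sR) c
    · exact ⟨lo, hi, (a.2 e).1, fun x => (a.2 e).2 (List.mem_append_right _ x)⟩
    · exact absurd e a.1.1
  · rcases h5 with a | a | a
    · exact absurd (a.l3 sL sR) c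
    · exact absurd e a.1.1
    · exact ⟨lo, hi, (a.2 e).1, fun x => (a.2 e).2 (List.mem_append_left _ x)⟩

/-- the third arc -/
theorem third (hz : X.Ex z) (hm : X.m = false) (h : X.OP ω (A ++ z :: (C ++ top :: st)))
    (ht : X.t0 ∈ st) (h0 : ∃ v ∈ st, Wz X.G.Tb z v) (h1 : ¬Wz X.G.Tb z top)
    (h2 : top ∉ itr X.G.Tb z (C ++ top :: st)) (h3 : X.G.Tb z g) (h4 : X.G.Adj z g) (h5 : g ∉ C) :
    X.Op ω (X.oth z g) z ∨ ∃ b K, X.G.Tb z b ∧ X.G.Arc z b K z ∧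
      (∀ u ∈ K, u ∈ itr X.G.Tb z (C ++ top :: st) ∧ u ∈ C) ∧ X.AE (mkW z b K) ω := by
  obtain ⟨r, e, w⟩ := itr_bas (W := X.G.Tb) (z := z) (w := C ++ top :: st)
    (h0.imp fun v a => ⟨by simp [a.1], a.2⟩)
  have hJ : ∀ v ∈ itr X.G.Tb z (C ++ top :: st), ¬Wz X.G.Tb z v := fun v => itr_not
  generalize itr X.G.Tb z (C ++ top :: st) = J at *
  generalize bas X.G.Tb z (C ++ top :: st) = b at *
  rcases l3_tri e with ⟨D, rfl, -⟩ | ⟨-, rfl, -⟩ | ⟨D, rfl, -⟩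
  rotate_left
  · exact absurd w h1
  · exact absurd (by simp) h2
  have h' : X.OP ω ((A ++ (z :: J ++ [b])) ++ (D ++ top :: st)) := by simpa using h
  have ht' : X.t0 ∈ D ++ top :: st := by simp [ht]
  have hH : ∀ v ∈ z :: J ++ [b], v ∈ X.H := fun v hv =>
    (h'.dom v (by simp only [List.mem_append, hv, true_or, or_true])).resolve_right
      (h'.ne ht' (List.mem_append_right _ hv))
  have hb : b ≠ z := fun a =>
    (List.nodup_cons.1 h'.nd.of_append_left.of_append_right).1 (by simp [a])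
  have c1 := List.isChain_reverse.2 (h'.chn ht').right_of_append
  simp only [List.reverse_append, List.reverse_cons, List.reverse_nil, List.nil_append,
    List.cons_append] at c1
  obtain ⟨l, g1, g2, g3, g4, g5⟩ := reduce _ c1
  obtain ⟨K, rfl⟩ : ∃ K, l = K ++ [z] := by
    rw [← List.cons_append, List.getLast?_concat] at g3
    rcases List.eq_nil_or_concat' l with rfl | ⟨K, x, rfl⟩
    · exact absurd (by simpa using g3) hb
    · rw [← List.cons_append, List.getLast?_concat] at g3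
      exact ⟨K, by rw [Option.some.inj g3]⟩
  have k1 := List.nodup_append.1 g4.of_cons
  have k2 : z ∉ K := fun a => k1.2.2 _ a _ (by simp) rfl
  have k3 : ∀ u ∈ K, u ∈ J := fun u hu => by
    have := g1.subset (List.mem_append_left _ hu)
    simp only [List.mem_append, List.mem_reverse, List.mem_singleton] at this
    exact this.resolve_right fun a => k2 (a ▸ hu)
  have hT := w.resolve_left hb
  by_cases c : K = []
  · subst c
    have a := (List.isChain_cons_cons.1 g2).1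
    obtain ⟨s, e1⟩ := tb_link hz.lev1 hT a.1.symm
    obtain ⟨s', e2⟩ := tb_link hz.lev1 h3 h4
    have e3 : b ≠ g := fun e => h5 (by simp [e])
    refine Or.inl (Eq.subst (motive := fun u => X.Op ω u z) ?_ a.2)
    unfold oth
    subst e1 e2
    cases s <;> cases s'
    exacts [absurd rfl e3, (if_neg e3).symm, (if_pos rfl).symm, absurd rfl e3]
  have g6 := vx_chain.1 g2
  have key : ∀ i j, i + 1 ≤ j → j ≤ K.length → X.G.Adj (vx b K z i) (vx b K z (j + 1)) →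
      X.m = false ∧ ¬X.Op ω (vx b K z i) (vx b K z (j + 1)) := fun i j a c e =>
    ⟨hm, fun q => g5 z i (j + 1) (by omega) (by simpa using c) ⟨e, q⟩⟩
  refine Or.inr ⟨b, K, hT, ⟨g2.imp fun _ _ a => a.1, k1.1, k2, c, fun v hv => hJ v (k3 v hv)⟩,
    fun u hu => ⟨k3 u hu, by simp [k3 u hu]⟩, fun v hv => H_sub (hH v ?_), fun i hi =>
    ⟨fun _ => ?_, fun a c e => ?_, fun a e => ?_⟩⟩
  · have := k3 v
    simp only [mkW, List.cons_append, List.mem_cons, List.mem_append, List.not_mem_nil,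
      or_false] at hv ⊢
    tauto
  · rw [Ak.so, if_pos (show (mkW z b K).fw i from trivial)]
    exact (g6 i hi).2
  · rw [Ak.se, if_pos (show (mkW z b K).fe i from trivial)]
    exact key _ _ (by omega) hi e
  · rw [Ak.sl, if_neg (show ¬(mkW z b K).fl from id)]
    have := key i K.length a le_rfl
    rw [show vx b K z (K.length + 1) = z from Ak.A_last (s := mkW z b K)] at this
    exact this e.symm

theorem OP.word (hz : X.Ex z) {W : List Pt} (h : X.OP ω W) : ∃ r,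
    W = itr X.G.Tb z W ++ bas X.G.Tb z W :: r ∧ Wz X.G.Tb z (bas X.G.Tb z W) ∧ X.t0 ∈ r ∧
      X.o ∈ bas X.G.Tb z W :: r := by
  obtain ⟨r, e, w⟩ := itr_bas (W := X.G.Tb) (z := z) ⟨_, h.root.subset (by simp), o_wz hz.1⟩
  refine ⟨r, e, w, ?_⟩
  have hJ : X.o ∉ itr X.G.Tb z W := fun a => itr_not a (o_wz hz.1)
  have h1 := h.root
  generalize itr X.G.Tb z W = J at *
  generalize bas X.G.Tb z W = b at *
  subst e
  rcases List.suffix_or_suffix_of_suffix h1 (List.suffix_append _ _) with a | a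
  · refine ⟨?_, a.subset (by simp)⟩
    rcases List.suffix_cons_iff.1 a with a | a
    exacts [(List.cons.inj a).2 ▸ List.mem_cons_self, a.subset (by simp)]
  · rcases List.suffix_cons_iff.1 a with a | a
    · rw [a, (List.cons.inj a).2]; simp
    · obtain rfl : r = [] := List.eq_nil_of_length_eq_zero (by simpa using a.length_le)
      obtain ⟨t, e⟩ := h1
      rw [show t ++ [X.o, X.t0] = (t ++ [X.o]) ++ [X.t0] by simp] at e
      exact absurd ((List.append_inj' e rfl).1 ▸ by simp) hJ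

theorem OP.stm (h : X.OP ω (A ++ top :: st)) (hs : st ≠ []) : X.t0 ∈ st ∧ X.o ∈ top :: st := by
  have a : [X.o, X.t0] <:+ top :: st := List.suffix_of_suffix_length_le h.root
    (List.suffix_append _ _) (by have := List.length_pos_iff.2 hs; simp; omega)
  refine ⟨?_, a.subset (by simp)⟩
  rcases List.suffix_cons_iff.1 a with a | a
  exacts [(List.cons.inj a).2 ▸ List.mem_cons_self, a.subset (by simp)]

theorem OP.opn {b : Pt} {r : List Pt} (h : X.OP ω (A ++ b :: r)) (hr : top :: st <:+ r)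
    (ht : X.t0 ∈ st) (hm : X.m = true) : X.Op ω b b := by
  obtain ⟨C, rfl⟩ := hr
  have h' : X.OP ω ((A ++ b :: (C ++ [top])) ++ st) := by simpa using h
  have := (h'.chn ht).right_of_append
  cases C <;> exact (List.isChain_cons_cons.1 this).1.2.site hm _

theorem OP.rc' {b : Pt} {r : List Pt} {S : Set Pt} (h : X.OP ω (A ++ b :: r)) (ht : X.t0 ∈ r)
    (hS : ∀ v ∈ b :: r, v ∉ S) : X.Rc (X.H \ S) ω b :=
  h.rc (fun e => (List.nodup_cons.1 h.nd.of_append_right).1 (e ▸ ht)) fun v hv a _ => ⟨a, hS v hv⟩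

/-- the end `b` is charged -/
theorem chg (hz : X.Ex z) {b b' : Pt} {r r' J J' A' I : List Pt}
    (hT : L3T z top st b r J b' r' J') (nd : (J ++ b :: r).Nodup) (nd' : (J' ++ b' :: r').Nodup)
    (wb : Wz X.G.Tb z b) (o1 : X.OP ω (A ++ b :: r)) (o2 : X.OP ω (A' ++ b' :: r'))
    (t1 : X.t0 ∈ r ∧ X.o ∈ b :: r) (t2 : X.t0 ∈ st ∧ X.o ∈ top :: st)
    (nJ : ∀ v ∈ J, ¬Wz X.G.Tb z v) (hI : ∀ v ∈ I, v ∈ J ∨ v ∈ J') :
    X.G.Tb z b ∧ z ≠ X.o ∧ X.Rc (X.H \ ({z} ∪ {u | u ∈ I ∨ (u = b' ∧ b' ≠ b)})) ω b ∧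
      (X.m = true → b' ≠ b → X.Op ω b' b') ∧ (b' = z → X.m = false → ∀ g, X.G.Tb z g → X.G.Adj z g →
        (∃ lo hi, X.G.Far X.G.Tb z (J' ++ b' :: r') (top :: st) J lo hi ∧ g ∉ J' ++ b' :: r') →
        X.Th z I b g ω) := by
  obtain ⟨h1, h2, h3, h4⟩ := hT
  have h5 : ∀ v ∈ b :: r, v ∉ I := fun v hv a =>
    (hI v a).elim (fun a => List.disjoint_of_nodup_append nd a hv) (h2 v hv)
  refine ⟨wb.resolve_left fun e => h1 (by simp [e]), fun e => h1 (e ▸ t1.2), o1.rc' t1.1 ?_,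
    fun hm e => o2.opn (h3 e).2 t2.1 hm, ?_⟩
  · rintro v hv (rfl | a | ⟨rfl, a⟩)
    exacts [h1 hv, h5 v hv a, (h3 a).1 hv]
  rintro rfl hm g g1 g2 ⟨lo, hi, g3, g4⟩
  obtain ⟨k1, C, rfl, k2⟩ := h4 rfl
  have k3 := nJ _ k1
  obtain ⟨w, g5, -, g6, -⟩ := g3.resolve_left fun e => k3 (Or.inl (by simpa using e))
  obtain rfl := l3_suf nd' g5
  refine (third hz hm o2 t2.1 ⟨_, (List.mem_cons.1 t2.2).resolve_left fun e => k3 (e ▸ o_wz hz.1),
    o_wz hz.1⟩ k3 (fun a => g6 _ a k1) g1 g2 fun a => g4 (by simp [a])).imp id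
    fun ⟨b3, K, c1, c2, c3, c4⟩ => ⟨(b3, K), ⟨c1, c2, fun u hu a => ?_⟩, o1.rc' t1.1 ?_, c4⟩
  · exact (hI u a).elim (g6 u (c3 u hu).1) fun a =>
      List.disjoint_of_nodup_append nd' a (by simp [(c3 u hu).2])
  · rintro v hv (rfl | a | a)
    exacts [h1 hv, h5 v hv a, k2 v (c3 v a).2 hv]

variable (X) in
/-- the four outcomes -/
def Out (z : Pt) (ω : Cf) (bL : Pt) (I : List Pt) (bR : Pt) (x : ℕ × ℕ) : Prop :=
  ((bL = z ∨ bR = z) ∧ X.Ev z bL I bR x ∅ z z z ω) ∨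
    (X.G.Tb z bL ∧ X.G.Tb z bR ∧ X.Ev z bL I bR x ∅ z bL bR ω) ∨
    (X.G.Tb z bL ∧ z ≠ X.o ∧ X.Ev z bL I bR x {z} bL bL bR ω ∧ (bR = z → X.m = false →
      ¬X.G.Pk X.k z bL I bR x.1 → X.Th z I bL (X.G.lk z (X.G.lo X.G.Tb z bL (I.headD z))) ω)) ∨
    (X.G.Tb z bR ∧ z ≠ X.o ∧ X.Ev z bL I bR x {z} bR bR bL ω ∧ (bL = z → X.m = false →
      ¬X.G.Pk X.k z bL I bR x.1 → X.Th z I bR (X.G.lk z (X.G.hi X.G.Tb z bR (I.getLastD z))) ω))

theorem fin (hz : X.Ex z) {BL BR IL IR rL rR AL AR I : List Pt} {bL bR : Pt} {x : ℕ × ℕ}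
    (nd : (BL ++ BR ++ top :: st).Nodup) (eL : BL ++ top :: st = IL ++ bL :: rL)
    (eR : BR ++ top :: st = IR ++ bR :: rR) (nL : ∀ v ∈ IL, ¬Wz X.G.Tb z v)
    (nR : ∀ v ∈ IR, ¬Wz X.G.Tb z v) (hs : z ∉ st) (oL : X.OP ω (AL ++ bL :: rL))
    (oR : X.OP ω (AR ++ bR :: rR)) (oT : X.OP ω (A ++ top :: st)) (hst : st ≠ [])
    (tL : X.t0 ∈ rL ∧ X.o ∈ bL :: rL) (tR : X.t0 ∈ rR ∧ X.o ∈ bR :: rR)
    (hI : ∀ v ∈ I, v ∈ IL ∨ v ∈ IR) (hA : X.AF (X.mk3 z bL I bR x) ω)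
    (h : X.Cl3 z bL I bR x ∧ (∀ v ∈ IL, v ∉ IR) ∧
      (¬X.G.Pk X.k z bL I bR x.1 → bR = z → ∃ lo hi,
        X.G.Far X.G.Tb z (BR ++ top :: st) (top :: st) IL lo hi ∧
        X.G.lk z (X.G.lo X.G.Tb z bL (I.headD z)) ∉ BR ++ top :: st) ∧
      (¬X.G.Pk X.k z bL I bR x.1 → bL = z → ∃ lo hi,
        X.G.Far X.G.Tb z (BL ++ top :: st) (top :: st) IR lo hi ∧
        X.G.lk z (X.G.hi X.G.Tb z bR (I.getLastD z)) ∉ BL ++ top :: st)) :
    X.Out z ω bL I bR x := by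
  obtain ⟨hC, hd, fR, fL⟩ := h
  have wL := hC.2.2.1
  have wR := hC.2.2.2
  have tT := oT.stm hst
  have dL : (IL ++ bL :: rL).Nodup :=
    eL ▸ nd.sublist ((List.sublist_append_left _ _).append_right _)
  have dR : (IR ++ bR :: rR).Nodup :=
    eR ▸ nd.sublist ((List.sublist_append_right _ _).append_right _)
  have adj : ∀ i, X.G.Adj z (X.G.lk z i) := fun i =>
    adj_nb hz.lev1 (Nat.mod_lt _ (by have := X.G.seven_le z; omega))
  rw [eL] at fL
  rw [eR] at fR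
  rcases l3_place _ nd eL eR wL wR nL nR hd hs with a | a | a | a | a
  · refine Or.inl ⟨Or.inl a.1, ⟨hC, Or.inl rfl⟩, ⟨a.1 ▸ oL.rc' tL.1 ?_, hA⟩, fun _ e => absurd rfl e⟩
    rintro v hv (e | e | e)
    exacts [e, (hI v e).elim (fun e => List.disjoint_of_nodup_append dL e hv) (a.2 v hv), e.2 rfl]
  · refine Or.inl ⟨Or.inr a.1, ⟨hC, Or.inl rfl⟩, ⟨a.1 ▸ oR.rc' tR.1 ?_, hA⟩, fun _ e => absurd rfl e⟩
    rintro v hv (e | e | e)
    exacts [e, (hI v e).elim (a.2 v hv) fun e => List.disjoint_of_nodup_append dR e hv, e.2 rfl]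
  · obtain ⟨a1, a2, rfl, a3, a4⟩ := a
    refine Or.inr (Or.inl ⟨wL.resolve_left a1, wR.resolve_left a2, ⟨hC, wR⟩,
      ⟨oT.rc' tT.1 ?_, hA⟩, fun hm _ => oR.opn a3 tT.1 hm⟩)
    rintro v hv (e | e | e)
    exacts [e, (hI v e).elim (a4 v hv).1 (a4 v hv).2.1, (a4 v hv).2.2 e.1]
  · obtain ⟨c1, c2, c3, c4, c5⟩ := chg hz a dL dR wL oL oR tL tT nL hI
    exact Or.inr (Or.inr (Or.inl ⟨c1, c2, ⟨⟨hC, wR⟩, ⟨c3, hA⟩, c4⟩, fun e hm hp => c5 e hm _
      (X.G.tubeOK.lo_def hz.lev1 (X.G.tubeOK.lev _ _ c1).2 _).2.1 (adj _) (fR hp e)⟩))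
  · obtain ⟨c1, c2, c3, c4, c5⟩ := chg hz a dR dL wR oR oL tR tT nR fun v hv => (hI v hv).symm
    exact Or.inr (Or.inr (Or.inr ⟨c1, c2, ⟨⟨hC, wL⟩, ⟨c3, hA⟩, c4⟩, fun e hm hp => c5 e hm _
      (X.G.tubeOK.hi_def hz.lev1 (X.G.tubeOK.lev _ _ c1).2 _).2.2.1 (adj _) (fL hp e)⟩))

end Sc
end Pool.Agent.P.MP_e4ac67_pr.Gr
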