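import Pool.Agent.P.MP_e4ac67_pr.V.L3c

/-! Marked arcs: the two sides after shortcutting. -/

namespace Pool.Agent.P.MP_e4ac67_pr.Gr
open Grid
namespace Sc
variable (X : Sc)

open Classical in
/-- `U` is the side of the head of the stop dart -/
structure Pre (z : Pt) (ω : Cf) (d : Pt × Pt) (IU : List Pt) (bU : Pt) (IV : List Pt) (bV : Pt)
    (JU JV : List Pt) : Prop where
  subU : JU.Sublist IU
  subV : JV.Sublist IV
  smU : Sm X.G z bU ((JU.reverse ++ JV).headD z) ((IU.reverse ++ IV).headD z)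
  smV : Sm X.G z bV ((JV.reverse ++ JU).headD z) ((IV.reverse ++ IU).headD z)
  sdU : X.Sd z ω (X.m = true) JU bU
  sdV : X.Sd z ω False JV bV
  close : X.G.Adj (sc JU bU 0) (sc JV bV 0)
  cross : X.m = true → 1 ≤ JV.length → (bV = z → 1 < JV.length) →
    ¬X.G.Adj (sc JV bV 1) (sc JU bU 0)
  d2 : sc JU bU 0 = d.2
  d1 : (if X.m = true then sc JU bU 1 else sc JV bV 0) = d.1
  nz : d.2 ≠ z
  site : X.m = true → 1 ≤ JU.length ∧ sc JV bV 0 ≠ z

variable {X} {z bU bV top : Pt} {ω : Cf} {d : Pt × Pt} {IU IV JU JV rU rV BU BV st : List Pt}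

theorem l3_hd {B I r : List Pt} {b : Pt} (h : B ++ top :: st = I ++ b :: r) :
    B.headD top = I.headD b := by
  cases B <;> cases I <;> exact (List.cons.inj h).1

theorem pre_bond (hz : X.Ex z) (hm : X.m = false) (oU : X.OP ω (IU ++ bU :: rU))
    (oV : X.OP ω (IV ++ bV :: rV)) (tU : X.t0 ∈ rU) (tV : X.t0 ∈ rV) (wU : Wz X.G.Tb z bU)
    (wV : Wz X.G.Tb z bV) (nU : ∀ v ∈ IU, ¬Wz X.G.Tb z v) (nV : ∀ v ∈ IV, ¬Wz X.G.Tb z v)
    (h2 : d.2 = IU.headD bU) (h1 : d.1 = IV.headD bV) (ha : X.G.Adj d.1 d.2) (hd : z ≠ d.2) :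
    ∃ JU JV, X.Pre z ω d IU bU IV bV JU JV := by
  obtain ⟨JU, a1, a2, a3, a4⟩ := sd_bond hz.gap hm oU tU wU nU
  obtain ⟨JV, c1, c2, c3, c4⟩ := sd_bond hz.gap hm oV tV wV nV
  have e2 : sc JU bU 0 = d.2 := by
    rw [sc_zero, h2, List.headD_eq_head?_getD, a2, List.headD_eq_head?_getD]
  have e1 : sc JV bV 0 = d.1 := by
    rw [sc_zero, h1, List.headD_eq_head?_getD, c2, List.headD_eq_head?_getD]
  have hn : ¬X.m = true := by simp [hm]
  exact ⟨JU, JV, a1, c1, a3.end' a2 c2, c3.end' c2 a2, a4.mono False.elim, c4,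
    by rw [e1, e2]; exact ha.symm, fun a => absurd a hn, e2, by rw [if_neg hn, e1], hd.symm,
    fun a => absurd a hn⟩

theorem pre_site (hz : X.Ex z) (hm : X.m = true) (oU : X.OP ω (IU ++ bU :: rU))
    (oV : X.OP ω (IV ++ bV :: rV)) (tU : X.t0 ∈ rU) (tV : X.t0 ∈ rV)
    (wV : Wz X.G.Tb z bV) (nV : ∀ v ∈ IV, ¬Wz X.G.Tb z v) (h1 : d.1 = IU.headD bU)
    (ha : X.G.Adj d.1 d.2) (hy : ¬Wz X.G.Tb z d.2) (hw : X.G.Adj d.2 (IV.headD bV))
    (hz' : z ≠ IV.headD bV) (hl : ∀ v, (IU ++ bU :: rU).tail.head? = some v → ¬X.G.Adj v d.2) :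
    ∃ JV, X.Pre z ω d (d.2 :: IU) bU IV bV (d.2 :: IU) JV := by
  have s1 : X.Sd z ω True (d.2 :: IU) bU := (sd_site (A := []) hm oU tU).cons hm
    (by rw [sc_zero, ← h1]; exact ha) fun a => hl _ (by
      obtain _ | ⟨u, _ | ⟨v, l⟩⟩ := IU
      exacts [by simp at a, rfl, rfl])
  have key : ∀ JV : List Pt, JV.Sublist IV → X.Sd z ω False JV bV →
      Sm X.G z bV ((JV.reverse ++ d.2 :: IU).headD z) ((IV.reverse ++ d.2 :: IU).headD z) →
      X.G.Adj d.2 (sc JV bV 0) → sc JV bV 0 ≠ z →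
      (1 ≤ JV.length → (bV = z → 1 < JV.length) → ¬X.G.Adj (sc JV bV 1) d.2) →
      ∃ JV, X.Pre z ω d (d.2 :: IU) bU IV bV (d.2 :: IU) JV := fun JV a1 a2 a3 a4 a5 a6 =>
    ⟨JV, .refl _, a1, .rfl' (by rw [l3_end (by simp), l3_end (by simp)]), a3, s1.mono fun _ => hm,
      a2, a4, fun _ => a6, rfl, by rw [if_pos hm, sc_cons, sc_zero, h1], fun e => hy (Or.inl e),
      fun _ => ⟨by simp, a5⟩⟩
  have s0 : X.Sd z ω False [] bV := sd_site (A := IV) hm oV tV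
  obtain _ | ⟨u, l⟩ := IV
  · exact key [] (.refl _) s0 (.rfl' rfl) hw hz'.symm fun a => by simp at a
  obtain ⟨A, w, B, e, e1, e2⟩ := l3_split (X.G.Adj d.2) (l := u :: l) ⟨u, by simp, hw⟩
  rw [e] at oV nV key ⊢
  have s2 : X.Sd z ω False (w :: B) bV := sd_site (A := A) hm (by simpa using oV) tV
  have nw := nV w (by simp)
  by_cases c : B = [] ∧ bV ≠ z ∧ X.G.Adj d.2 bV
  · obtain ⟨rfl, c1, c2⟩ := c
    refine key [] (by simp) s0 ?_ c2 c1 fun a => by simp at a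
    rw [l3_end (J := A ++ [w]) (by simp)]
    simpa using Sm.ear hz.gap wV c1 e1 hy nw c2.symm (s2.step 0 (by simp)).1
  refine key (w :: B) (List.sublist_append_right _ _) s2 (.rfl' (by simp)) e1
    (fun a => nw (Or.inl a)) fun _ a k => ?_
  obtain _ | ⟨v, B⟩ := B
  · exact c ⟨rfl, fun e => by simpa using a e, k.symm⟩
  · exact e2 v (by simp) k.symm

theorem det_uv (hz : X.Ex z) {AU AV A : List Pt} (nd : (BU ++ BV ++ top :: st).Nodup)
    (iU : itr X.G.Tb z (BU ++ top :: st) = IU) (jU : bas X.G.Tb z (BU ++ top :: st) = bU)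
    (iV : itr X.G.Tb z (BV ++ top :: st) = IV) (jV : bas X.G.Tb z (BV ++ top :: st) = bV)
    (eU : BU ++ top :: st = IU ++ bU :: rU) (eV : BV ++ top :: st = IV ++ bV :: rV)
    (wU : Wz X.G.Tb z bU) (wV : Wz X.G.Tb z bV) (hs : z ∉ st) (oU : X.OP ω (AU ++ bU :: rU))
    (oV : X.OP ω (AV ++ bV :: rV)) (oT : X.OP ω (A ++ top :: st)) (hst : st ≠ [])
    (tU : X.t0 ∈ rU ∧ X.o ∈ bU :: rU) (tV : X.t0 ∈ rV ∧ X.o ∈ bV :: rV)
    (h : X.Pre z ω d IU bU IV bV JU JV)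
    (hM : X.G.MA0 X.k z (BU ++ top :: st) (BV ++ top :: st) (top :: st) ∨
      X.G.MA0 X.k z (BV ++ top :: st) (BU ++ top :: st) (top :: st)) :
    ∃ bL I bR x, X.dar bL I bR x = d ∧ X.Out z ω bL I bR x := by
  have nU : ∀ v ∈ IU, ¬Wz X.G.Tb z v := fun v hv => itr_not (iU ▸ hv)
  have nV : ∀ v ∈ IV, ¬Wz X.G.Tb z v := fun v hv => itr_not (iV ▸ hv)
  have dU : IU.Nodup :=
    (eU ▸ nd.sublist ((List.sublist_append_left _ _).append_right _)).of_append_left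
  have dV : IV.Nodup :=
    (eV ▸ nd.sublist ((List.sublist_append_right _ _).append_right _)).of_append_left
  have hH := Hm_H hz.1
  rcases hM with hM | hM
  · have v0 : vx bU (JU.reverse ++ JV) bV JU.length = d.2 := by
      rw [vx_left le_rfl, Nat.sub_self, h.d2]
    have v1 : vx bU (JU.reverse ++ JV) bV (JU.length + 1) = sc JV bV 0 := by
      rw [vx_right (by omega)]; congr 1; omega
    refine ⟨bU, JU.reverse ++ JV, bV, (JU.length, JU.length), Prod.ext ?_ v0,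
      fin hz nd eU eV nU nV hs oU oV oT hst tU tV (fun v hv => ?_)
        (asm hH (h.sdU.mono fun a => ⟨a, rfl⟩) (h.sdV.mono False.elim) (Or.inl rfl)
          (fun _ a => by omega) fun a _ => h.cross a)
        (core hz hM iU iV jU jV h.subU h.subV dU dV wU wV h.smU h.smV (asm_ch h.sdU h.sdV h.close) rfl
          ⟨Or.inl rfl, v0 ▸ h.nz, fun a => ⟨(h.site a).1, by simp, v0 ▸ h.nz, v1 ▸ (h.site a).2⟩⟩)⟩
    · rw [← h.d1, dar]
      by_cases c : X.m = true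
      · have := (h.site c).1
        rw [if_pos c, if_pos (iff_of_true c rfl), vx_left (Nat.sub_le _ _)]
        exact congrArg (sc JU bU) (show JU.length - (JU.length - 1) = 1 by omega)
      · rw [if_neg c, if_neg fun a => c (a.2 rfl), v1]
    · rw [List.mem_append, List.mem_reverse] at hv
      exact hv.imp (h.subU.subset ·) (h.subV.subset ·)
  · have v0 : vx bV (JV.reverse ++ JU) bU JV.length = sc JV bV 0 := by
      rw [vx_left le_rfl, Nat.sub_self]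
    have v1 : vx bV (JV.reverse ++ JU) bU (JV.length + 1) = d.2 := by
      rw [vx_right (by omega), ← h.d2]; congr 1; omega
    refine ⟨bV, JV.reverse ++ JU, bU, (JV.length, JV.length + 1), Prod.ext ?_ v1,
      fin hz ((List.perm_append_comm.append_right _).nodup nd) eV eU nV nU hs oV oU oT hst tV tU
        (fun v hv => ?_)
        (asm hH (h.sdV.mono False.elim) (h.sdU.mono fun a => ⟨a, rfl⟩) (Or.inr rfl)
          (fun a _ => h.cross a) fun _ a => by omega)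
        (core hz hM iV iU jV jU h.subV h.subU dV dU wV wU h.smV h.smU
          (asm_ch h.sdV h.sdU h.close.symm) rfl ⟨Or.inr rfl, v1 ▸ h.nz, fun a => ⟨by omega,
            by have := (h.site a).1; simp; omega, v0 ▸ (h.site a).2, v1 ▸ h.nz⟩⟩)⟩
    · rw [← h.d1, dar]
      by_cases c : X.m = true
      · rw [if_pos c, if_neg fun a => by simpa using a.1 c, vx_right (by simp only; omega)]
        exact congrArg (sc JU bU) (show JV.length + 1 + 1 - JV.length - 1 = 1 by omega)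
      · rw [if_neg c, if_pos (iff_of_false c (by simp))]
        exact v0
    · rw [List.mem_append, List.mem_reverse] at hv
      exact hv.imp (h.subV.subset ·) (h.subU.subset ·)

theorem det3 (hz : X.Ex z) (h : X.RF z d ω) :
    ∃ bL I bR x, X.dar bL I bR x = d ∧ X.Out z ω bL I bR x := by
  obtain ⟨P, Q, top, st, hst, oP, oQ, h1, h2, h3, h4, P', nd, h5, hM⟩ := h
  obtain ⟨rP, eP, wP, tP⟩ := oP.word hz
  obtain ⟨rQ, eQ, wQ, tQ⟩ := oQ.word hz
  rcases h5 with ⟨hm, rfl, h5⟩ | ⟨hm, rfl, h5, h6, h7, h8⟩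
  · obtain ⟨JU, JV, k⟩ := pre_bond hz hm (eQ ▸ oQ) (eP ▸ oP) tQ.1 tP.1 wQ wP (fun _ => itr_not)
      (fun _ => itr_not) (h5.trans (l3_hd eQ)) (h1.trans (l3_hd eP)) h2 h4
    exact det_uv hz ((List.perm_append_comm.append_right _).nodup nd) rfl rfl rfl rfl eQ eP wQ wP h3
      (eQ ▸ oQ) (eP ▸ oP) oP hst tQ tP k hM.symm
  · have hy : ¬Wz X.G.Tb z d.2 := fun a => a.elim (fun e => h4 e.symm) h7
    obtain ⟨JV, k⟩ := pre_site hz hm (eP ▸ oP) (eQ ▸ oQ) tP.1 tQ.1 wQ (fun _ => itr_not)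
      (h1.trans (l3_hd eP)) h2 hy (l3_hd eQ ▸ h5) (l3_hd eQ ▸ h6) (eP ▸ h8)
    exact det_uv hz nd (itr_pos hy) (bas_pos hy) rfl rfl (congrArg _ eP) eQ wP wQ h3
      (eP ▸ oP) (eQ ▸ oQ) oP hst tP tQ k hM

end Sc
end Pool.Agent.P.MP_e4ac67_pr.Gr
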