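import Pool.Agent.P.MP_e4ac67_pr.V.Top
import Pool.Agent.P.MP_e4ac67_pr.D.B1
import Pool.Agent.P.MP_e4ac67_pr.D.B2
import Pool.Agent.P.MP_e4ac67_pr.D.B3
import Pool.Agent.P.MP_e4ac67_pr.D.St

/-! The two percolation inequalities. -/

namespace Pool.Agent.P.MP_e4ac67_pr.Gr

theorem ivl1 : Ivl false 0 181419418584 :=
  cov_bond (F := B1.F) ⟨B1.c0, B1.c1, B1.c2, B1.c3, B1.c4, B1.c5⟩ (by decide +kernel)
    (by norm_num [NF.BondOK, B1.F, rq])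

theorem ivl2 : Ivl false 181419418584 216603790672 :=
  cov_bond (F := B2.F) ⟨B2.c0, B2.c1, B2.c2, B2.c3, B2.c4, B2.c5⟩ (by decide +kernel)
    (by norm_num [NF.BondOK, B2.F, rq])

theorem ivl3 : Ivl false 216603790672 221111788346 :=
  cov_bond (F := B3.F) ⟨B3.c0, B3.c1, B3.c2, B3.c3, B3.c4, B3.c5⟩ (by decide +kernel)
    (by norm_num [NF.BondOK, B3.F, rq])

theorem ivl4 : Ivl true 0 297307944151 :=
  cov_site (F := St.F) ⟨St.c0, St.c1, St.c2, St.c3, St.c4, St.c5⟩ (by decide +kernel)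

variable {V V' : Type} {T : PlaneTri V} {T' : PlaneTri V'} {k : ℕ}

theorem bond_all (h7 : 7 ≤ k) (hk : ∀ v, k ≤ T.deg v) (hT' : ∀ v, T'.deg v = k) :
    pcBond T.G ≤ pcBond T'.G :=
  ((ivl1.trans ivl2).trans ivl3).bond (by norm_num [rq]) h7 hk hT'

theorem site_all (h7 : 7 ≤ k) (hk : ∀ v, k ≤ T.deg v) (hT' : ∀ v, T'.deg v = k) :
    pcSite T.G ≤ pcSite T'.G :=
  ivl4.site (by norm_num [rq]) h7 hk hT'

end Pool.Agent.P.MP_e4ac67_pr.Gr
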