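import Pool.Agent.P.MP_e4ac67_pr.Prime
import Pool.Agent.P.MP_e4ac67_pr.E.Base

/-! The exploration seen from the regular triangulation. All darts out of a vertex are decided
together, from the words accepted before. -/

open scoped ENNReal

namespace Pool.Agent.P.MP_e4ac67_pr

/-- the first rank of the batch of `u` -/
def bt {k : ℕ} (u : Wd k) : ℕ := k * rk u.dropLast + 1

theorem bt_le {k : ℕ} {u : Wd k} (h : u ≠ []) : bt u ≤ rk u := by
  conv_rhs => rw [← List.dropLast_append_getLast h, rk_snoc]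
  unfold bt; omega

theorem bt_snoc {k : ℕ} (σ : Wd k) (e : Fin k) : bt (σ ++ [e]) = k * rk σ + 1 := by simp [bt]

theorem rk_lt_bt {k : ℕ} (σ : Wd k) (e : Fin k) : rk σ < bt (σ ++ [e]) := by
  rw [bt_snoc]
  have := Nat.le_mul_of_pos_left (rk σ) e.pos
  omega

/-- `r1`, `r2`: the laterals of the root dart are removed; `bad A u`: the word `u` is a stop when
the words accepted before its batch are `A` -/
structure Mdl (V' : Type) (k : ℕ) where
  T : PlaneTri V'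
  m : Bool
  δ : V' × V'
  r1 : Prop
  r2 : Prop
  bad : (Wd k → Prop) → Wd k → Prop

namespace Mdl
variable {V' : Type} {k : ℕ} (M : Mdl V' k)

noncomputable def hd (u : Wd k) : V' := M.T.hd M.δ u

/-- the removed vertices -/
def Rm (v : V') : Prop := v = M.δ.1 ∨ (M.r1 ∧ v = M.T.rot M.δ.2 M.δ.1 1) ∨
  (M.r2 ∧ v = M.T.rot M.δ.2 M.δ.1 (k - 1))

def Real (A : Wd k → Prop) (u : Wd k) : Prop :=
  u ≠ [] ∧ A u.dropLast ∧ ¬M.Rm (M.hd u) ∧ (∀ τ, A τ → M.hd τ ≠ M.hd u) ∧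
    (M.m = true → ∀ τ, A τ → rk τ < rk u.dropLast → ¬M.T.G.Adj (M.hd τ) (M.hd u))

/-- accepted words -/
noncomputable def acc (ξ : Finset (Wd k)) : Wd k → Prop :=
  (measure rk).wf.fix fun u IH => u = [] ∨
    ((M.Real (fun τ => rk τ < bt u ∧ ∃ h : rk τ < rk u, IH τ h) u ∧
      ¬M.bad (fun τ => rk τ < bt u ∧ ∃ h : rk τ < rk u, IH τ h) u) ∧ u ∈ ξ)

/-- words accepted before the batch of `u` -/
def pre (ξ : Finset (Wd k)) (u τ : Wd k) : Prop := rk τ < bt u ∧ M.acc ξ τ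

/-- coupled words -/
def cp (ξ : Finset (Wd k)) (u : Wd k) : Prop := M.Real (M.pre ξ u) u ∧ ¬M.bad (M.pre ξ u) u

def Stop (ξ : Finset (Wd k)) (u : Wd k) : Prop := M.Real (M.pre ξ u) u ∧ M.bad (M.pre ξ u) u

variable {M} {ξ ξ' : Finset (Wd k)} {u : Wd k}

theorem acc_iff : M.acc ξ u ↔ u = [] ∨ (M.cp ξ u ∧ u ∈ ξ) := by
  conv_lhs => rw [acc, WellFounded.fix_eq]
  by_cases h : u = []
  · simp [h]
  · have e : (fun τ => rk τ < bt u ∧ ∃ _ : rk τ < rk u, M.acc ξ τ) = M.pre ξ u :=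
      funext fun τ => propext ⟨fun a => ⟨a.1, a.2.2⟩, fun a => ⟨a.1, a.1.trans_le (bt_le h), a.2⟩⟩
    rw [cp, ← e]
    rfl

theorem acc_loc (h : ∀ v, rk v ≤ rk u → (v ∈ ξ ↔ v ∈ ξ')) : M.acc ξ u ↔ M.acc ξ' u := by
  induction hn : rk u using Nat.strong_induction_on generalizing u with
  | _ n ih =>
  by_cases h0 : u = []
  · simp [acc_iff, h0]
  have e : M.pre ξ u = M.pre ξ' u := funext fun τ => propext (and_congr_right fun a =>
    ih _ (hn ▸ a.trans_le (bt_le h0)) (fun v hv => h v (hv.trans (a.trans_le (bt_le h0)).le)) rfl)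
  rw [acc_iff, acc_iff, cp, cp, e, h u le_rfl]

theorem pre_loc (h : ∀ v, rk v < bt u → (v ∈ ξ ↔ v ∈ ξ')) : M.pre ξ u = M.pre ξ' u :=
  funext fun _ => propext (and_congr_right fun a => acc_loc fun v hv => h v (hv.trans_lt a))

theorem cp_loc (h : ∀ v, rk v < rk u → (v ∈ ξ ↔ v ∈ ξ')) : M.cp ξ u ↔ M.cp ξ' u := by
  by_cases h0 : u = []
  · simp [cp, Real, h0]
  · rw [cp, cp, pre_loc fun v hv => h v (hv.trans_le (bt_le h0))]

end Mdl
end Pool.Agent.P.MP_e4ac67_pr
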