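import Pool.Agent.P.MP_e4ac67_pr.V.End
import Pool.Agent.P.MP_e4ac67_pr.V.Mono

/-! From tables at finitely many densities to all densities. -/

open scoped ENNReal

namespace Pool.Agent.P.MP_e4ac67_pr.Gr
open ENNReal

theorem inv_scale {p a r ρ : ℝ} (hp : 0 < p) (ha : 0 < a) (hρ : 0 < ρ) (h : ρ * p ≤ r) :
    (ENNReal.ofReal r)⁻¹ * ENNReal.ofReal (p / a) ≤ ENNReal.ofReal (1 / (a * ρ)) := by
  have hr : 0 < r := lt_of_lt_of_le (by positivity) h
  rw [← ofReal_inv_of_pos hr, ← ofReal_mul (by positivity)]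
  refine ofReal_le_ofReal ?_
  rw [inv_mul_le_iff₀ hr, div_le_iff₀ ha]
  calc p = ρ * p * (1 / (a * ρ)) * a := by field_simp
    _ ≤ _ := by gcongr

/-- bond tables for the interval `[a, b]` -/
theorem Sc.tab_bond (X : Sc) (hm : X.m = false) {a b ρ σ : ℝ} (h0 : 0 ≤ a) (hb : b ≤ 1 / 4)
    (h1 : ENNReal.ofReal a ≤ X.p) (h2 : X.p ≤ ENNReal.ofReal b) (hρ : 0 < ρ) (hσ : 0 < σ)
    (r1 : ρ ≤ 1 + (1 - a) * a * ((1 + (1 - a) * a) ^ 2 + (1 + (1 - a) * a) -
      b ^ 2 * (1 + (1 - b) * b) ^ 3)) (r2 : σ ≤ 1 + (1 - a) * a * (1 + (1 - a) * a))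
    {P : Nm} {t g1 g2 θ : ℝ≥0∞} (h : Tab X.k P t g1 g2 θ) (e0 : P.m = false)
    (e1 : P.p = ENNReal.ofReal b) (e2 : ENNReal.ofReal (1 - a) ≤ P.q)
    (e3 : ENNReal.ofReal (1 / (b * ρ)) ≤ P.iv) (e4 : ENNReal.ofReal (1 / (b * σ)) ≤ P.il)
    (e5 : ENNReal.ofReal (b * (2 - b)) ≤ P.sp) (e6 : ENNReal.ofReal b ≤ t)
    (e7 : g1 ≤ ENNReal.ofReal (b * (1 + (1 - a) * a))) (e8 : g2 ≤ ENNReal.ofReal (b * (2 - b))) :
    Tab X.k X.nm X.p X.g1 X.g2 θ := by
  obtain ⟨p, hp, e⟩ : ∃ p : ℝ, 0 < p ∧ X.p = ENNReal.ofReal p :=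
    ⟨X.p.toReal, toReal_pos X.p0 (ne_top_of_le_ne_top one_ne_top X.p1),
      (ofReal_toReal (ne_top_of_le_ne_top one_ne_top X.p1)).symm⟩
  rw [e, ofReal_le_ofReal_iff hp.le] at h1
  have h3 : p ≤ b := by
    rw [e] at h2
    by_contra c
    exact absurd h2 (not_le.2 ((ofReal_lt_ofReal_iff hp).2 (not_le.1 c)))
  have hb0 : 0 < b := hp.trans_le h3
  have q1 : (1 : ℝ≥0∞) - ENNReal.ofReal p = ENNReal.ofReal (1 - p) := by
    rw [ofReal_sub _ hp.le, ofReal_one]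
  have s1 : (1 - a) * a ≤ (1 - p) * p := by nlinarith
  have s2 : (1 - p) * p ≤ (1 - b) * b := by nlinarith
  have s0 : 0 ≤ (1 - a) * a := by nlinarith
  have s3 : (1 - b) * b ≤ 1 / 4 := by nlinarith
  have er : p + (1 - p) * (p * p) = p * (1 + (1 - p) * p) := by ring
  have mul : ∀ x : ℝ, 0 ≤ x → ENNReal.ofReal (p / b) * ENNReal.ofReal (b * x) =
      ENNReal.ofReal p * ENNReal.ofReal x := fun x hx => by
    rw [← ofReal_mul (by positivity), ← ofReal_mul hp.le]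
    congr 1; field_simp
  have t1 : p ^ 2 * (1 + (1 - p) * p) ^ 3 ≤ b ^ 2 * (1 + (1 - b) * b) ^ 3 := by
    have : 0 ≤ 1 + (1 - p) * p := by linarith
    gcongr
  have t2 : b ^ 2 * (1 + (1 - b) * b) ^ 3 ≤ 1 := by
    calc _ ≤ (1 / 4 : ℝ) ^ 2 * (1 + 1 / 4) ^ 3 := by
          have : 0 ≤ 1 + (1 - b) * b := by linarith
          gcongr
      _ ≤ 1 := by norm_num
  refine h.mono X.h7 (l := ENNReal.ofReal (p / b)) (hm.trans e0.symm)
    (ofReal_le_one.2 (div_le_one_of_le₀ h3 hb0.le)) ?_ (le_trans ?_ e2) (le_trans ?_ e3)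
    (le_trans ?_ e4) (le_trans ?_ e5) (h2.trans e6) ((mul_le_mul_right e7 _).trans ?_)
    ((mul_le_mul_right e8 _).trans ?_)
  all_goals simp only [Sc.nm, Sc.g1, Sc.g2, hm, e, e1, q1, Bool.false_eq_true, if_false]
  · rw [← ofReal_mul (by positivity)]
    congr 1; field_simp
  · exact ofReal_le_ofReal (by linarith)
  · generalize hs : 1 + (1 - p) * p = s at *
    have hs1 : 1 ≤ s := by linarith
    have hs2 : p * s ≤ 1 := by nlinarith
    rw [r2', r1_ofReal hp.le (by linarith), er, ← ofReal_mul (by positivity),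
      ← ofReal_mul (by positivity), par_ofReal (by positivity) (by nlinarith) (by positivity),
      par_ofReal hp.le (by linarith) (by
        have : p * s * (p * s) ≤ 1 := by nlinarith
        have : 0 ≤ 1 - p * s * (p * s) := by linarith
        positivity)]
    refine inv_scale hp hb0 hρ ?_
    have : ρ ≤ 1 + (1 - p) * p * (s ^ 2 + s - p ^ 2 * s ^ 3) := r1.trans (by
      have : 0 ≤ (1 + (1 - a) * a) ^ 2 + (1 + (1 - a) * a) - b ^ 2 * (1 + (1 - b) * b) ^ 3 := by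
        nlinarith
      have : (1 + (1 - a) * a) ^ 2 ≤ s ^ 2 := by gcongr; linarith
      have : 0 ≤ (1 - p) * p := by linarith
      gcongr
      linarith)
    calc ρ * p ≤ (1 + (1 - p) * p * (s ^ 2 + s - p ^ 2 * s ^ 3)) * p := by gcongr
      _ = _ := by ring
  · rw [r1_ofReal hp.le (by linarith), er, ← ofReal_mul (by nlinarith),
      par_ofReal hp.le (by linarith) (by have : 0 ≤ 1 + (1 - p) * p := by linarith
                                         positivity)]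
    refine inv_scale hp hb0 hσ ?_
    have : σ ≤ 1 + (1 - p) * p * (1 + (1 - p) * p) := r2.trans (by nlinarith)
    calc σ * p ≤ (1 + (1 - p) * p * (1 + (1 - p) * p)) * p := by gcongr
      _ = _ := by ring
  · rw [par_ofReal hp.le (by linarith) hp.le]
    exact ofReal_le_ofReal (by nlinarith)
  · rw [mul _ (by linarith), ← ofReal_mul (p := 1 - p) (by linarith), ← ofReal_one,
      ← ofReal_add zero_le_one (by linarith)]
    exact mul_le_mul_right (ofReal_le_ofReal (by linarith)) _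
  · rw [mul _ (by linarith), ← ofReal_one, ← ofReal_add zero_le_one (by linarith)]
    exact mul_le_mul_right (ofReal_le_ofReal (by linarith)) _

/-- site tables for the interval `[0, b]` -/
theorem Sc.tab_site (X : Sc) (hm : X.m = true) {b : ℝ} (h2 : X.p ≤ ENNReal.ofReal b)
    {P : Nm} {t g1 g2 θ : ℝ≥0∞} (h : Tab X.k P t g1 g2 θ) (e0 : P.m = true)
    (e1 : P.p = ENNReal.ofReal b) (e3 : (ENNReal.ofReal b)⁻¹ ≤ P.iv)
    (e4 : (ENNReal.ofReal b)⁻¹ ≤ P.il) (e5 : ENNReal.ofReal b ≤ P.sp) (e6 : ENNReal.ofReal b ≤ t)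
    (e7 : g1 ≤ ENNReal.ofReal b) : Tab X.k X.nm X.p X.g1 X.g2 θ := by
  have h0 : ENNReal.ofReal b ≠ 0 := fun e => X.p0 (nonpos_iff_eq_zero.1 (e ▸ h2))
  have ht : X.p ≠ ⊤ := ne_top_of_le_ne_top one_ne_top X.p1
  have e : X.p / ENNReal.ofReal b * ENNReal.ofReal b = X.p := ENNReal.div_mul_cancel h0 ofReal_ne_top
  have e' : X.p⁻¹ * (X.p / ENNReal.ofReal b) = (ENNReal.ofReal b)⁻¹ := by
    rw [div_eq_mul_inv, ← mul_assoc, ENNReal.inv_mul_cancel X.p0 ht, one_mul]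
  refine h.mono X.h7 (l := X.p / ENNReal.ofReal b) (hm.trans e0.symm)
    (ENNReal.div_le_of_le_mul (by rwa [one_mul])) ?_ ?_ (le_trans ?_ e3)
    (le_trans ?_ e4) (le_trans ?_ e5) (h2.trans e6) ((mul_le_mul_right e7 _).trans ?_) ?_
  all_goals simp only [Sc.nm, Sc.g1, Sc.g2, hm, e1, e, e', if_true, le_refl, zero_le, le_top, h2]

end Pool.Agent.P.MP_e4ac67_pr.Gr
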