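import Pool.Agent.P.MP_e4ac67_pr.V.Stat
import Pool.Agent.P.MP_e4ac67_pr.V.Mdl

/-! The exploration of one family on the grid. -/

open scoped ENNReal

namespace Pool.Agent.P.MP_e4ac67_pr.Gr
namespace Sc
variable (X : Sc)

/-- the real path read by a word from the list `l` (root first, then the old path) -/
noncomputable def rl (l : List Pt) (u : Wd X.k) : List Pt :=
  u.foldl (fun w e => X.G.hdr X.G.Tb Grid.c4 X.k (w.headD X.o) w.tail e :: w) l

noncomputable def hr (l : List Pt) (u : Wd X.k) : Pt := (X.rl l u).headD X.o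

/-- the real key of a word -/
noncomputable def kw (l : List Pt) (u : Wd X.k) : Pt × Pt :=
  kk X.m (X.hr l u.dropLast) (X.hr l u)

/-- the stop rule; `t` is the tail of the root, `U` the old cluster -/
def bad (l : List Pt) (t : Pt) (U : Set Pt) (A : Wd X.k → Prop) (u : Wd X.k) : Prop :=
  ¬X.Hm (X.hr l u) ∨
  (∃ z, X.Ex z ∧ X.G.Viol X.G.Tb Grid.c4 X.k z (X.rl l u.dropLast) (X.hr l u)) ∨
  (∃ τ, A τ ∧ X.hr l τ = X.hr l u) ∨
  (X.m = true ∧ ∃ τ, A τ ∧ rk τ < rk u.dropLast ∧ X.G.Adj (X.hr l τ) (X.hr l u)) ∨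
  X.G.Tb t (X.hr l u) ∨ X.hr l u ∈ U ∨ (X.m = true ∧ ∃ a ∈ U, X.G.Adj a (X.hr l u))

/-- the exploration of the family `r` with old path `β` in the configuration `ω` -/
noncomputable def mdl {V' : Type} (T' : PlaneTri V') (δ : V' × V') (r : Option Pt) (ω : Cf)
    (β : List Pt) : Mdl V' X.k :=
  ⟨T', X.m, δ, X.Rr r ω 3, X.Rr r ω 5, X.bad (X.ro r :: β) (X.tl r) (X.Ur r ω)⟩

end Sc
end Pool.Agent.P.MP_e4ac67_pr.Gr
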