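import Pool.Agent.P.MP_e4ac67_pr.V.Cls
import Pool.Agent.P.MP_e4ac67_pr.E.Joint

/-! The static events: everything is a function of one configuration `ω` on the grid. -/

open scoped ENNReal

namespace Pool.Agent.P.MP_e4ac67_pr.Gr

/-- the scene: a grid, the cone of `y` cut after `N` levels, the keys and the density -/
structure Sc where
  G : Grid
  k : ℕ
  m : Bool
  y : Pt
  N : ℕ
  p : ℝ≥0∞
  Ω : Finset (Pt × Pt)
  h7 : 7 ≤ k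
  hk : ∀ v : Pt, 1 ≤ v.1 → k ≤ G.dg v
  y1 : 1 ≤ y.1
  y0 : G.Cn 0 (0, 0) y
  p0 : p ≠ 0
  p1 : p ≤ 1
  hΩ : ∀ a ∈ G.Hs y (N + 3), ∀ b ∈ G.Hs y (N + 3), kk m a b ∈ Ω

/-- in the list only consecutive vertices are adjacent (`t` is exempt) -/
def Indu (G : Grid) (t : Pt) : List Pt → Prop
  | [] => True
  | u :: r => (∀ v ∈ r.tail, v ≠ t → ¬G.Adj v u) ∧ Indu G t r

namespace Grid
variable (G : Grid) (k : ℕ)

/-- `MArc` without the clauses on images -/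
def MA0 (z : Pt) (L R stem : List Pt) : Prop :=
  ∃ f l lo hi, lo = G.lo G.Tb z (bas G.Tb z L) f ∧ hi = G.hi G.Tb z (bas G.Tb z R) l ∧
    G.Cross c4 z (itr G.Tb z L) (itr G.Tb z R) f l ∧ (∀ v ∈ itr G.Tb z L, v ∉ itr G.Tb z R) ∧
    (G.Pocket k z (bas G.Tb z L) (itr G.Tb z L) (itr G.Tb z R) (bas G.Tb z R) lo hi ∨
     (G.AltL k z (bas G.Tb z L) (itr G.Tb z L) (bas G.Tb z R) lo hi ∧ (bas G.Tb z R = z →
        G.Far G.Tb z R stem (itr G.Tb z L) lo hi ∧ G.lk z lo ∉ L ++ R)) ∨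
     (G.AltR k z (bas G.Tb z L) (itr G.Tb z R) (bas G.Tb z R) lo hi ∧ (bas G.Tb z L = z →
        G.Far G.Tb z L stem (itr G.Tb z R) lo hi ∧ G.lk z hi ∉ L ++ R)))

end Grid

namespace Sc
variable (X : Sc)

abbrev Cf := Finset (Pt × Pt)

noncomputable def o : Pt := X.G.rt X.y
noncomputable def t0 : Pt := X.G.nb X.o 0
def H : Set Pt := X.G.Hd X.y X.N
def Hm (v : Pt) : Prop := X.G.Hm X.o X.N v
/-- vertices with a degree excess -/
def Ex (z : Pt) : Prop := X.Hm z ∧ X.k < X.G.dg z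
def Op (ω : Cf) (a b : Pt) : Prop := kk X.m a b ∈ ω
def Rc (F : Set Pt) (ω : Cf) (v : Pt) : Prop := Reach X.G.gr (kk X.m) F X.o ω v
noncomputable def Pr (A : Cf → Prop) : ℝ≥0∞ := EX X.Ω X.p fun ω => ind (A ω)

/-- the numbers of the scene -/
noncomputable def nm : Nm where
  m := X.m
  p := X.p
  q := if X.m then 0 else 1 - X.p
  iv := (if X.m then X.p else r2' X.p)⁻¹
  il := (if X.m then X.p else par X.p (r1 X.p * X.p))⁻¹
  sp := if X.m then X.p else par X.p X.p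

/-- `z` is entered through one of its two entrance vertices -/
def Gz (z : Pt) (ω : Cf) : Prop :=
  z = X.o ∨ ∃ s, X.Rc (X.H \ {z}) ω (X.G.yv z s) ∧ X.Op ω (X.G.yv z s) z

noncomputable def al (z : Pt) (s : Bool) : ℝ≥0∞ :=
  X.Pr fun ω => z ≠ X.o ∧ X.Rc (X.H \ {z}) ω (X.G.yv z s)

noncomputable def PG (z : Pt) : ℝ≥0∞ := X.Pr (X.Gz z)
noncomputable def PZ (z : Pt) : ℝ≥0∞ := X.Pr fun ω => X.Rc X.H ω z

/-- a sum over the two entrance vertices -/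
noncomputable def SA (z : Pt) (F : Pt → List Pt → ℝ≥0∞) : ℝ≥0∞ :=
  X.G.sT X.nm z (some false) F * X.al z false + X.G.sT X.nm z (some true) F * X.al z true

/-- the old cluster of the bonus vertex of `z` -/
def Uz (z : Pt) (ω : Cf) : Set Pt := {v | X.Rc (X.H \ {X.G.cv z}) ω v}

/-- reached without `z` and its bonus vertex -/
def Off (z : Pt) (ω : Cf) (v : Pt) : Prop := z ≠ X.o ∧ X.Rc (X.H \ {z, X.G.cv z}) ω v

/-- the bonus vertex is reached in another way -/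
def Bad (z : Pt) (ω : Cf) : Prop := ∃ a, X.G.Adj a (X.G.cv z) ∧ a ≠ z ∧ X.Op ω a (X.G.cv z) ∧
  if X.m then X.Off z ω a else a ∈ X.Uz z ω

/-- launch of the family of the bonus vertex of `z` -/
def La (z : Pt) (ω : Cf) : Prop := X.Ex z ∧ X.Hm (X.G.cv z) ∧
  (z = X.o ∨ ∃ s, X.Off z ω (X.G.yv z s) ∧ X.Op ω (X.G.yv z s) z) ∧
  X.Op ω z (X.G.cv z) ∧ ¬X.Bad z ω

def Lost (z : Pt) (ω : Cf) : Prop := X.Gz z ω ∧ X.Op ω z (X.G.cv z) ∧ X.Bad z ω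

/-- open paths from the root, newest vertex first, with the parent of the root at the end -/
structure OP (ω : Cf) (w : List Pt) : Prop where
  root : [X.o, X.t0] <:+ w
  nd : w.Nodup
  dom : ∀ v ∈ w, v ∈ X.H ∨ v = X.t0
  ch : w.IsChain fun u v => X.G.Adj v u ∧ (v ≠ X.t0 → X.Op ω v u)
  ind : X.m = true → Indu X.G X.t0 w

/-- open paths from the bonus vertex of `z` in the new territory, newest vertex first -/
structure New (z : Pt) (ω : Cf) (l : List Pt) : Prop where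
  last : l.getLast? = some (X.G.cv z)
  nd : l.Nodup
  dom : ∀ v ∈ l, v ∈ X.H ∧ v ∉ X.Uz z ω ∧ ¬Grid.Wz X.G.Tb z v
  ch : l.IsChain fun u v => X.G.Adj v u ∧ X.Op ω v u
  far : X.m = true → ∀ v ∈ l, v ≠ X.G.cv z → ∀ a ∈ X.Uz z ω, ¬X.G.Adj a v
  ind : X.m = true → Indu X.G X.t0 l

/-- darts out of the real domain -/
def REx (d : Pt × Pt) (ω : Cf) : Prop := X.Hm d.1 ∧ ¬X.Hm d.2 ∧ X.G.Adj d.1 d.2 ∧ d.2 ≠ X.t0 ∧
  X.Rc X.H ω d.1 ∧ (X.m = true → d.1 = X.o → d.2.1 ≠ X.o.1)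

/-- darts into the tube that violate the rule of `z` -/
def RW (z : Pt) (d : Pt × Pt) (ω : Cf) : Prop := ∃ w, X.OP ω (d.1 :: w) ∧ X.G.Adj d.1 d.2 ∧
  d.2 ∉ d.1 :: w ∧ X.G.Tb z d.2 ∧ X.G.Viol X.G.Tb Grid.c4 X.k z (d.1 :: w) d.2 ∧
  (X.m = true → ∀ v, w.head? = some v → ¬X.G.Adj v d.2)

/-- darts into `z` that violate the rule of `z` -/
def RZ (z : Pt) (d : Pt × Pt) (ω : Cf) : Prop := d.2 = z ∧ ∃ w, X.OP ω (d.1 :: w) ∧
  X.G.Adj d.1 z ∧ X.G.Viol X.G.Tb Grid.c4 X.k z (d.1 :: w) z ∧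
  (X.m = true → ∀ v ∈ w, v ≠ X.t0 → ¬X.G.Adj v z)

/-- darts of the family of `z` into the tube of `z` -/
def RS (z : Pt) (d : Pt × Pt) (ω : Cf) : Prop := X.La z ω ∧ ∃ B, X.New z ω (d.1 :: B) ∧
  X.G.Adj d.1 d.2 ∧ X.G.Tb z d.2 ∧ (X.m = true → ∀ v ∈ B, ¬X.G.Adj v d.2)

/-- collisions of the family of `z` with the old cluster -/
def RX (z : Pt) (d : Pt × Pt) (ω : Cf) : Prop := X.La z ω ∧ ∃ B, X.New z ω (d.1 :: B) ∧
  X.G.Adj d.1 d.2 ∧ d.2 ∈ X.H ∧ ¬Grid.Wz X.G.Tb z d.2 ∧ d.2 ∉ d.1 :: B ∧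
  (∃ u ∈ X.Uz z ω, X.G.Adj u d.2 ∧ (X.m = true ∨ X.Op ω u d.2)) ∧
  (X.m = true → ∀ v ∈ B, ¬X.G.Adj v d.2) ∧
  (d.2 = X.G.nb z 3 ∨ d.2 = X.G.nb z 5 → X.m = false ∧ (X.Op ω z d.2 → X.Off z ω d.2))

/-- failures of the coupling, charged to `z` -/
def RF (z : Pt) (d : Pt × Pt) (ω : Cf) : Prop := ∃ P Q top st, st ≠ [] ∧
  X.OP ω (P ++ top :: st) ∧ X.OP ω (Q ++ top :: st) ∧ d.1 = P.headD top ∧ X.G.Adj d.1 d.2 ∧
  z ∉ st ∧ z ≠ d.2 ∧ ∃ P', (P' ++ Q ++ top :: st).Nodup ∧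
  ((X.m = false ∧ P' = P ∧ d.2 = Q.headD top) ∨
    (X.m = true ∧ P' = d.2 :: P ∧ X.G.Adj d.2 (Q.headD top) ∧ z ≠ Q.headD top ∧
      ¬X.G.Tb z d.2 ∧ ∀ v, (P ++ top :: st).tail.head? = some v → ¬X.G.Adj v d.2)) ∧
  (X.G.MA0 X.k z (P' ++ top :: st) (Q ++ top :: st) (top :: st) ∨
    X.G.MA0 X.k z (Q ++ top :: st) (P' ++ top :: st) (top :: st))

def Any (d : Pt × Pt) (ω : Cf) : Prop := X.REx d ω ∨ ∃ z, X.Ex z ∧
  (X.RW z d ω ∨ X.RZ z d ω ∨ X.RS z d ω ∨ X.RX z d ω ∨ X.RF z d ω)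

def Two (d : Pt × Pt) (ω : Cf) : Prop := X.m = true ∧ ∃ z, X.Ex z ∧ X.RW z d ω

/-! Families: `none` is the family of the root, `some z` the one of the bonus vertex of `z`. -/

noncomputable def tl (r : Option Pt) : Pt := r.getD X.t0
noncomputable def ro (r : Option Pt) : Pt := r.elim X.o X.G.cv
def Ur (r : Option Pt) (ω : Cf) : Set Pt := r.elim ∅ fun z => X.Uz z ω
def Lr (r : Option Pt) (ω : Cf) : Prop := r.elim True fun z => X.La z ω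
/-- the lateral `nb z j` of the root dart is removed -/
def Rr (r : Option Pt) (ω : Cf) (j : ℕ) : Prop :=
  X.m = true ∨ r.elim False fun z => X.Op ω z (X.G.nb z j)

/-- the old path -/
def Stem (r : Option Pt) (ω : Cf) (β : List Pt) : Prop :=
  X.OP ω (X.ro r :: β) ∧ β.head? = some (X.tl r) ∧ ∀ v ∈ β, v ≠ X.t0 → v ∈ X.Ur r ω

/-- the territory of a family -/
def Terr (r : Option Pt) (ω : Cf) (x : Pt) : Prop := x ∉ X.Ur r ω ∧
  Reach X.G.gr (kk X.m) (X.H \ {v | ∃ z, X.La z ω ∧ v = X.G.cv z}) (X.ro r) ω x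

end Sc
end Pool.Agent.P.MP_e4ac67_pr.Gr
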