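import Pool.Agent.P.MP_e4ac67_pr.V.Num
import Pool.Agent.P.MP_e4ac67_pr.G.AsmB
import Pool.Agent.P.MP_e4ac67_pr.X.ExitD
import Pool.Agent.P.MP_e4ac67_pr.E.Fin
import Pool.Agent.P.MP_e4ac67_pr.T7PercC
import Pool.Agent.P.MP_e4ac67_pr.T7PercS

/-! From the tables for finitely many intervals to the comparison of the critical points. -/

open scoped ENNReal

namespace Pool.Agent.P.MP_e4ac67_pr.Gr

/-- the six types of tubes -/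
def NF.All (F : NF) : Prop := Cs F 1 3 3 3 false ∧ Cs F 1 3 5 3 false ∧ Cs F 1 5 3 3 false ∧
  Cs F 0 9 6 4 false ∧ Cs F 0 0 7 4 false ∧ Cs F 0 7 8 4 false

/-- the densities between `a` and `b` are covered -/
def Ivl (m : Bool) (a b : ℕ) : Prop := ∀ k, 7 ≤ k → ∃ θ < 1, ∀ Y : Sc, Y.k = k → Y.m = m →
  vv a ≤ Y.p → Y.p ≤ vv b → Tab k Y.nm Y.p Y.g1 Y.g2 θ

theorem Tab.th {k : ℕ} {P : Nm} {t g1 g2 θ θ' : ℝ≥0∞} (h : Tab k P t g1 g2 θ) (e : θ ≤ θ') :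
    Tab k P t g1 g2 θ' := fun G =>
  ⟨fun z a b => ((h G).1 z a b).imp fun _ c => ⟨c.1.trans e, c.2⟩,
    fun o a b => ((h G).2 o a b).trans e⟩

theorem Ivl.trans {m : Bool} {a b c : ℕ} (h1 : Ivl m a b) (h2 : Ivl m b c) : Ivl m a c := by
  intro k hk
  obtain ⟨x, x1, x2⟩ := h1 k hk
  obtain ⟨y, y1, y2⟩ := h2 k hk
  exact ⟨max x y, max_lt x1 y1, fun Y e1 e2 e3 e4 => (le_total Y.p (vv b)).elim
    (fun e => (x2 Y e1 e2 e3 e).th (le_max_left ..)) fun e => (y2 Y e1 e2 e e4).th (le_max_right ..)⟩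

noncomputable def rq (n : ℕ) : ℝ := n / 1099511627776

theorem vv_eq (n : ℕ) : vv n = ENNReal.ofReal (rq n) := by
  rw [rq, ENNReal.ofReal_div_of_pos (by norm_num), ENNReal.ofReal_natCast, vv, vk, pow_one,
    div_eq_mul_inv, NN]
  norm_num

theorem vv_lt_one {n : ℕ} (h : n < 1099511627776) : vv n < 1 := by
  rw [vv_eq, ENNReal.ofReal_lt_one, rq, div_lt_one (by norm_num)]
  exact_mod_cast h

def NF.BondOK (F : NF) (a : ℕ) : Prop :=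
  let A := rq a
  let B := rq F.N.p
  let s := 1 + (1 - A) * A
  let ρ := 1 + (1 - A) * A * (s ^ 2 + s - B ^ 2 * (1 + (1 - B) * B) ^ 3)
  0 < ρ ∧ 0 < 1 + (1 - A) * A * s ∧ 1 - A ≤ rq F.N.q ∧ 1 / (B * ρ) ≤ rq F.N.iv ∧
    1 / (B * (1 + (1 - A) * A * s)) ≤ rq F.N.il ∧ B * (2 - B) ≤ rq F.N.sp ∧ B ≤ rq F.t ∧
    rq F.g1 ≤ B * s ∧ rq F.g2 ≤ B * (2 - B) ∧ B ≤ 1 / 4

theorem cov_bond {F : NF} {a : ℕ} (h : F.All) (c : F.N.m = false ∧ F.N.p * 10000 ≤ 2015 * NN ∧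
    F.N.q ≤ NN ∧ 982 * NN ≤ F.θ * 1000 ∧ F.θ < 1099511627776) (d : F.BondOK a) :
    Ivl false a F.N.p := fun k hk => by
  obtain ⟨h1, h2, h3, h4, h5, h6⟩ := h
  obtain ⟨c1, c2, c3, c4, c5⟩ := c
  obtain ⟨d1, d2, d3, d4, d5, d6, d7, d8, d9, d0⟩ := d
  have T := tab_of hk h1 h2 h3 h4 h5 h6 fun G o =>
    (exit_bond G (by exact_mod_cast Ex.vv_le (a := 2015) (b := 10000) (by omega) c2)
      (vv_le_one c3) o).trans (by exact_mod_cast Ex.le_vv (a := 982) (b := 1000) (by omega) c4)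
  refine ⟨_, vv_lt_one c5, fun Y e1 e2 e3 e4 => ?_⟩
  subst e1
  have f := fun {x : ℝ} {n : ℕ} (h : x ≤ rq n) => (ENNReal.ofReal_le_ofReal h).trans_eq (vv_eq n).symm
  have g := fun {x : ℝ} {n : ℕ} (h : rq n ≤ x) => (vv_eq n).trans_le (ENNReal.ofReal_le_ofReal h)
  exact Y.tab_bond e2 (by unfold rq; positivity) d0 (vv_eq a ▸ e3) (vv_eq _ ▸ e4) d1 d2 le_rfl le_rfl
    T c1 (vv_eq _) (f d3) (f d4) (f d5) (f d6) (f d7) (g d8) (g d9)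

theorem cov_site {F : NF} (h : F.All) (c : F.N.m = true ∧ F.N.p * 10000 ≤ 2705 * NN ∧ F.N.q = 0 ∧
    7 * NN ≤ F.θ * 10 ∧ F.θ < 1099511627776 ∧ NN * NN ≤ F.N.p * F.N.iv ∧ NN * NN ≤ F.N.p * F.N.il ∧
    F.N.p ≤ F.N.sp ∧ F.N.p ≤ F.t ∧ F.g1 ≤ F.N.p) : Ivl true 0 F.N.p := fun k hk => by
  obtain ⟨h1, h2, h3, h4, h5, h6⟩ := h
  obtain ⟨c1, c2, c3, c4, c5, c6, c7, c8, c9, c0⟩ := c
  have T := tab_of hk h1 h2 h3 h4 h5 h6 fun G o =>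
    (exit_site G c1 (by exact_mod_cast Ex.vv_le (a := 2705) (b := 10000) (by omega) c2)
      ((congrArg vv c3).trans vv_zero) o).trans
      (by exact_mod_cast Ex.le_vv (a := 7) (b := 10) (by omega) c4)
  refine ⟨_, vv_lt_one c5, fun Y e1 e2 _ e4 => ?_⟩
  subst e1
  have f : ∀ {n : ℕ}, NN * NN ≤ F.N.p * n → (ENNReal.ofReal (rq F.N.p))⁻¹ ≤ vv n := fun h => by
    rw [← vv_eq, ← one_div]
    exact ENNReal.div_le_of_le_mul' (one_le_vmul h)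
  exact Y.tab_site e2 (vv_eq _ ▸ e4) T c1 (vv_eq _) (f c6) (f c7) (vv_eq _ ▸ vv_mono c8)
    (vv_eq _ ▸ vv_mono c9) (vv_eq _ ▸ vv_mono c0)

variable {V V' : Type} {T : PlaneTri V} {T' : PlaneTri V'} {k b : ℕ}

theorem Ivl.cmp {m : Bool} (h : Ivl m 0 b) (h7 : 7 ≤ k) (hk : ∀ v, k ≤ T.deg v)
    (hT' : ∀ v, T'.deg v = k) : T.Cmp T' m (rq b) :=
  cmp_of_tab h7 hk hT' fun _ _ _ e => (h k h7).imp fun _ c => ⟨c.1, fun Y e1 e2 e3 =>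
    c.2 Y e1 e2 (vv_zero.trans_le zero_le) (e3.trans_le (vv_eq b ▸ e))⟩

theorem Ivl.bond (h : Ivl false 0 b) (c : 201 / 1000 < rq b ∧ rq b ≤ 9 / 40) (h7 : 7 ≤ k)
    (hk : ∀ v, k ≤ T.deg v) (hT' : ∀ v, T'.deg v = k) : pcBond T.G ≤ pcBond T'.G :=
  PlaneTri.bond_cmp (fun v => h7.trans (hk v)) (h.cmp h7 hk hT') c.2
    ((T'.pcBond_reg' h7 hT').trans_lt c.1)

theorem Ivl.site (h : Ivl true 0 b) (c : 2703 / 10000 < rq b ∧ rq b ≤ 2 / 5) (h7 : 7 ≤ k)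
    (hk : ∀ v, k ≤ T.deg v) (hT' : ∀ v, T'.deg v = k) : pcSite T.G ≤ pcSite T'.G :=
  PlaneTri.site_cmp (fun v => h7.trans (hk v)) (h.cmp h7 hk hT') c.2
    ((T'.pcSite_reg' h7 hT').trans_lt c.1)

end Pool.Agent.P.MP_e4ac67_pr.Gr
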