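import Pool.Agent.P.MP_e4ac67_pr.A.Rule
import Pool.Agent.P.MP_e4ac67_pr.E.Base

/-! The tube of a vertex, its two entrance vertices, targets and charges. -/

open scoped ENNReal

namespace Pool.Agent.P.MP_e4ac67_pr.Gr
namespace Grid
variable (G : Grid)

/-- the right parent -/
noncomputable def rp (n : ℕ) (y : ℤ) : ℤ :=
  if y = G.A n (G.lp n y) then G.lp n y + 1 else G.lp n y

/-- the chain of right parents -/
noncomputable def ar (z : Pt) : ℕ → ℤ
  | 0 => z.2
  | i + 1 => G.rp (z.1 - (i + 1)) (ar z i)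

/-- distance from the rightmost ancestor `i` levels above `z` to the last child of the next one -/
noncomputable def sR (z : Pt) (i : ℕ) : ℤ := G.A (z.1 - (i + 1)) (G.ar z (i + 1)) - G.ar z i

noncomputable def sL (z : Pt) (i : ℕ) : ℤ := G.an z i - G.A (z.1 - (i + 1)) (G.an z (i + 1) - 1)

def AddR (z : Pt) (i : ℕ) : Prop :=
  i + 1 ≤ z.1 ∧ G.sR z i = 1 ∧ ((i + 2 ≤ z.1 ∧ G.sR z (i + 1) = 1) ∨ G.sR z (i - 1) = 1)

def AddL (z : Pt) (i : ℕ) : Prop :=
  i + 1 ≤ z.1 ∧ G.sL z i = 1 ∧ ((i + 2 ≤ z.1 ∧ G.sL z (i + 1) = 1) ∨ G.sL z (i - 1) = 1)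

/-- the lateral neighbour that belongs to the tube of a vertex with one parent -/
noncomputable def lt1 (z : Pt) : Pt := if G.sL z 0 = 1 then (z.1, z.2 - 1) else (z.1, z.2 + 1)

/-- the tube -/
def Tb (z v : Pt) : Prop :=
  (∃ i, 1 ≤ i ∧ v.1 + i = z.1 ∧ ((G.an z i ≤ v.2 ∧ v.2 ≤ G.ar z i) ∨
    (v.2 = G.ar z i + 1 ∧ G.AddR z i) ∨ (v.2 = G.an z i - 1 ∧ G.AddL z i))) ∨
  (G.tau z = 0 ∧ v = G.lt1 z)

/-- position of the bonus vertex -/
def c4 : Pt → ℕ := fun _ => 4

/-- the bonus vertex -/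
noncomputable def cv (z : Pt) : Pt := G.nb z 4

/-- the two neighbours of `z` in its tube (`false`: the left one) -/
noncomputable def yv (z : Pt) : Bool → Pt
  | false => if G.tau z = 0 ∧ G.sL z 0 = 1 then G.nb z 1 else G.nb z 0
  | true => if G.tau z = 1 then G.nb z (G.gap z + 4)
      else if G.sL z 0 = 1 then G.nb z 0 else G.nb z (G.gap z + 3)

open Classical in
/-- the entrance vertex that pays for an arc leaving the tube vertex `b` through `f` -/
noncomputable def tg (z b f : Pt) : Bool :=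
  if G.tau z = 1 then decide (G.Rt z 4 f)
  else if G.sL z 0 = 1 then decide (b ≠ G.lt1 z) else decide (b = G.lt1 z)

/-- the price of the chain from the tube vertex `b` to its entrance vertex: `iv` per level,
`il` for the lateral step from an added vertex -/
noncomputable def ch (iv il : ℝ≥0∞) (z b : Pt) : ℝ≥0∞ :=
  if b.1 = z.1 then 1 else
    (if G.an z (z.1 - b.1) ≤ b.2 ∧ b.2 ≤ G.ar z (z.1 - b.1) then 1 else il) * iv ^ (z.1 - b.1 - 1)

/-- the root of the process in the cone of `y` -/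
noncomputable def rt (y : Pt) : Pt := G.nb (G.nb y 3) 3

/-- the ghost domain -/
def Hd (y : Pt) (N : ℕ) : Set Pt := {v | G.Cn 0 y v ∧ y.1 + 2 ≤ v.1 ∧ v.1 ≤ y.1 + 2 + N}

end Grid
end Pool.Agent.P.MP_e4ac67_pr.Gr
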